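import Pool.Agent.H11.HM.Rh

/-!
[H11 HM APA]  The average of the indicator along an arithmetic progression.

`ap_local` (`t ∣ t1 ∣ l`; here `t1` is the fine modulus, `t` the step): put `f = ind R - rho R t1 l`.  For `v ∈ ℤ` let
`G(v) = ∑_{z' ∈ Ico (l ⌊v/l⌋) v, z' ≡ z [t]} f z'`: at most `l/t` terms of absolute value `≤ 1`, so `|G v| ≤ l/t` (an interval of length
`< l` which starts at a multiple of `l`, hence of `t`, contains at most `l/t` elements of a residue class modulo `t`).  For `u ≤ v`,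
`∑_{z' ∈ Ico u v, z' ≡ z [t]} f z' = G v - G u`, because the sum over the complete blocks `Ico (l ⌊u/l⌋) (l ⌊v/l⌋)` vanishes
(`rho_sum` for `(t1, l)` with `g` the indicator of the residue class of `z` modulo `t`, `t ∣ t1`).  So `|∑| ≤ 2 l/t`.  Finally
`d ↦ z + t d` is a bijection from `Ioc D (2D)` onto the `z' ≡ z [t]` in `Ico (z + tD + 1) (z + 2tD + 1)`.
-/

namespace Pool.Agent.H11.HM

open Finset

theorem apa_ico {f : ℤ → ℝ} {u v w : ℤ} (h1 : u ≤ v) (h2 : v ≤ w) :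
    ∑ z ∈ Ico u v, f z + ∑ z ∈ Ico v w, f z = ∑ z ∈ Ico u w, f z := by
  rw [← Finset.sum_union (Finset.Ico_disjoint_Ico_consecutive u v w),
    Finset.Ico_union_Ico_eq_Ico h1 h2]

/-- the number of the elements of a residue class in a block -/
theorem apa_card (t l : ℕ) (ht : t ∣ l) (hl : 1 ≤ l) (z v : ℤ) :
    (((Ico ((l : ℤ) * (v / l)) ((l : ℤ) * (v / l) + l)).filter
      (fun z' => z' ≡ z [ZMOD t])).card : ℝ) = (l : ℝ) / t := by
  have ht0 : 0 < t := Nat.pos_of_dvd_of_pos ht hl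
  have htl : t ≤ l := Nat.le_of_dvd hl ht
  have hl0 : (0 : ℤ) < l := by exact_mod_cast hl
  have ht0' : (0 : ℤ) < t := by exact_mod_cast ht0
  obtain ⟨w, hw⟩ : ∃ w : ℤ, w = (l : ℤ) * (v / l) + (z - (l : ℤ) * (v / l)) % t := ⟨_, rfl⟩
  have h1 : 0 ≤ (z - (l : ℤ) * (v / l)) % t := Int.emod_nonneg _ ht0'.ne'
  have h2 : (z - (l : ℤ) * (v / l)) % t < t := Int.emod_lt_of_pos _ ht0'
  have h3 : w / l = v / l := by
    rw [hw]
    rw [Int.mul_add_ediv_left _ _ hl0.ne', Int.ediv_eq_zero_of_lt h1, add_zero]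
    have : (t : ℤ) ≤ l := by exact_mod_cast htl
    linarith
  have h4 : w ≡ z [ZMOD t] := by
    rw [hw]
    have h5 : (z - (l : ℤ) * (v / l)) % t ≡ z - (l : ℤ) * (v / l) [ZMOD t] := Int.mod_modEq _ _
    have h6 := h5.add_left ((l : ℤ) * (v / l))
    rwa [add_sub_cancel] at h6
  have h5 := card_class t l ht hl w
  rw [← h5]
  unfold blk
  rw [h3]
  congr 2
  ext x
  rw [Finset.mem_filter, Finset.mem_filter]
  constructor
  · rintro ⟨hx, hx'⟩
    exact ⟨hx, hx'.trans h4.symm⟩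
  · rintro ⟨hx, hx'⟩
    exact ⟨hx, hx'.trans h4⟩

theorem ap_local (R : Set ℤ) (t t1 l D : ℕ) (h1 : t ∣ t1) (h2 : t1 ∣ l) (hl : 1 ≤ l) (z : ℤ) :
    |∑ d ∈ Ioc D (2 * D), (ind R (z + t * d) - rho R t1 l (z + t * d))| ≤ 2 * l / t := by
  have ht0 : 0 < t := Nat.pos_of_dvd_of_pos (h1.trans h2) hl
  have hl0 : (0 : ℤ) < l := by exact_mod_cast hl
  have ht0' : (0 : ℤ) < t := by exact_mod_cast ht0
  obtain ⟨f, hf⟩ : ∃ f : ℤ → ℝ, f = fun z' => if z' ≡ z [ZMOD t] then ind R z' - rho R t1 l z' else 0 :=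
    ⟨_, rfl⟩
  have hfb : ∀ z', |f z'| ≤ if z' ≡ z [ZMOD t] then 1 else 0 := by
    intro z'
    rw [hf]
    dsimp only
    split_ifs with h
    · rw [abs_le]
      have e1 := ind_nonneg R z'
      have e2 := ind_le_one R z'
      have e3 := rho_nonneg R t1 l z'
      have e4 := rho_le_one R t1 l h2 hl z'
      constructor <;> linarith
    · rw [abs_zero]
  -- complete blocks
  have hblock : ∀ a b : ℤ, ∑ z' ∈ Ico ((l : ℤ) * a) (l * b), f z' = 0 := by
    intro a b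
    have h3 := rho_sum R t1 l h2 hl a b (fun z' => if z' ≡ z [ZMOD t] then 1 else 0) (by
      intro x y _ hxy
      have h4 : x ≡ y [ZMOD t] := hxy.of_dvd (by exact_mod_cast h1)
      by_cases hx : x ≡ z [ZMOD t]
      · rw [if_pos hx, if_pos (h4.symm.trans hx)]
      · rw [if_neg hx, if_neg (fun hy => hx (h4.trans hy))])
    rw [hf]
    have h4 : ∀ z' : ℤ, (if z' ≡ z [ZMOD t] then ind R z' - rho R t1 l z' else 0) =
        ind R z' * (if z' ≡ z [ZMOD t] then 1 else 0) -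
          rho R t1 l z' * (if z' ≡ z [ZMOD t] then 1 else 0) := by
      intro z'
      split_ifs <;> ring
    simp only [h4]
    rw [Finset.sum_sub_distrib, h3, sub_self]
  -- incomplete blocks
  have hinc : ∀ v : ℤ, |∑ z' ∈ Ico ((l : ℤ) * (v / l)) v, f z'| ≤ (l : ℝ) / t := by
    intro v
    have h3 : v < (l : ℤ) * (v / l) + l := by
      have h4 := Int.emod_lt_of_pos v hl0
      have h5 := Int.emod_add_mul_ediv v l
      linarith
    calc |∑ z' ∈ Ico ((l : ℤ) * (v / l)) v, f z'|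
        ≤ ∑ z' ∈ Ico ((l : ℤ) * (v / l)) v, |f z'| := Finset.abs_sum_le_sum_abs _ _
      _ ≤ ∑ z' ∈ Ico ((l : ℤ) * (v / l)) ((l : ℤ) * (v / l) + l), |f z'| := by
          refine Finset.sum_le_sum_of_subset_of_nonneg ?_ (fun _ _ _ => abs_nonneg _)
          exact Finset.Ico_subset_Ico_right h3.le
      _ ≤ ∑ z' ∈ Ico ((l : ℤ) * (v / l)) ((l : ℤ) * (v / l) + l),
          (if z' ≡ z [ZMOD t] then (1 : ℝ) else 0) := Finset.sum_le_sum fun z' _ => hfb z'
      _ = (l : ℝ) / t := by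
          rw [Finset.sum_boole, apa_card t l (h1.trans h2) hl z v]
  -- all intervals
  have hall : ∀ u v : ℤ, u ≤ v → |∑ z' ∈ Ico u v, f z'| ≤ 2 * l / t := by
    intro u v huv
    have h3 : (l : ℤ) * (u / l) ≤ u := Int.mul_ediv_self_le hl0.ne'
    have h4 : (l : ℤ) * (v / l) ≤ v := Int.mul_ediv_self_le hl0.ne'
    have h5 : (l : ℤ) * (u / l) ≤ (l : ℤ) * (v / l) :=
      mul_le_mul_of_nonneg_left (Int.ediv_le_ediv hl0 huv) hl0.le
    have h6 := apa_ico (f := f) h3 huv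
    have h7 := apa_ico (f := f) h5 h4
    rw [hblock, zero_add] at h7
    have h8 := hinc u
    have h9 := hinc v
    have h10 : ∑ z' ∈ Ico u v, f z' = ∑ z' ∈ Ico ((l : ℤ) * (v / l)) v, f z' -
        ∑ z' ∈ Ico ((l : ℤ) * (u / l)) u, f z' := by linarith
    rw [h10]
    refine (abs_sub _ _).trans ?_
    have h11 : (2 : ℝ) * l / t = l / t + l / t := by ring
    rw [h11]
    exact add_le_add h9 h8
  have hbij : ∑ d ∈ Ioc D (2 * D), (ind R (z + t * d) - rho R t1 l (z + t * d)) =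
      ∑ z' ∈ Ico (z + t * D + 1) (z + 2 * t * D + 1), f z' := by
    rw [hf, ← Finset.sum_filter]
    refine Finset.sum_nbij' (fun d : ℕ => z + t * d) (fun z' => ((z' - z) / t).toNat) ?_ ?_ ?_ ?_ ?_
    · intro d hd
      rw [Finset.mem_Ioc] at hd
      rw [Finset.mem_filter, Finset.mem_Ico]
      have e1 : (t : ℤ) * (D + 1) ≤ t * d := mul_le_mul_of_nonneg_left (by exact_mod_cast hd.1) ht0'.le
      have e2 : (t : ℤ) * d ≤ t * (2 * D) := mul_le_mul_of_nonneg_left (by exact_mod_cast hd.2) ht0'.le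
      refine ⟨⟨by linarith, by linarith⟩, ?_⟩
      have e3 : (z : ℤ) + t * d ≡ z + 0 [ZMOD t] :=
        Int.ModEq.add_left _ (Int.modEq_zero_iff_dvd.2 (Dvd.intro _ rfl))
      rwa [add_zero] at e3
    · intro z' hz'
      rw [Finset.mem_filter, Finset.mem_Ico] at hz'
      obtain ⟨⟨e1, e2⟩, e3⟩ := hz'
      obtain ⟨q, hq⟩ := (Int.modEq_iff_dvd.1 e3.symm)
      rw [hq, Int.mul_ediv_cancel_left _ ht0'.ne']
      have e4 : (t : ℤ) * D < t * q := by linarith
      have e5 : (t : ℤ) * q < t * (2 * D + 1) := by linarith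
      have e6 : (D : ℤ) < q := lt_of_mul_lt_mul_left e4 ht0'.le
      have e7 : q < 2 * D + 1 := lt_of_mul_lt_mul_left e5 ht0'.le
      rw [Finset.mem_Ioc]
      omega
    · intro d _
      rw [add_sub_cancel_left, Int.mul_ediv_cancel_left _ ht0'.ne', Int.toNat_natCast]
    · intro z' hz'
      rw [Finset.mem_filter, Finset.mem_Ico] at hz'
      obtain ⟨⟨e1, e2⟩, e3⟩ := hz'
      obtain ⟨q, hq⟩ := (Int.modEq_iff_dvd.1 e3.symm)
      have e4 : (t : ℤ) * D < t * q := by linarith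
      have e6 : (D : ℤ) < q := lt_of_mul_lt_mul_left e4 ht0'.le
      rw [hq, Int.mul_ediv_cancel_left _ ht0'.ne', Int.toNat_of_nonneg (by omega), ← hq]
      ring
    · intro d _
      rfl
  rw [hbij]
  refine hall _ _ ?_
  have : (0 : ℤ) ≤ t * D := by positivity
  linarith

end Pool.Agent.H11.HM
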