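import Pool.Agent.H11.HM.Apa

/-!
[H11 HM APB]  The average of the indicator along progressions of step `t'`, `t ∣ t' ∣ t1`, in the mean over a window
`W = Ico (l a) (l b)`, `X = |W| = l (b - a)`:

`∑_{z ∈ W} |(1/D) ∑_{d ∈ Ioc D 2D} ind(z + t' d) - rho z| ≤ ∑_W |rho1 - rho| + 2 X l1/D + 2 t' D (1 + X/l)`, where `rho = rho R t l`,
`rho1 = rho R t1 l1`, `l1 ∣ l`.

Proof.  Triangle inequality in three parts.
* `∑_z |(1/D) ∑_d (ind - rho1)(z + t' d)| ≤ X (2 l1/t')/D ≤ 2 X l1/D` by `ap_local` (for `t'`, `t1`, `l1`).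
* `∑_z (1/D) ∑_d |rho1 - rho|(z + t' d) = (1/D) ∑_d ∑_{z' ∈ W + t' d} |rho1 - rho| z' ≤ ∑_W |rho1 - rho| + 2 t' D`: `W + t' d` has at most
  `t' d ≤ 2 t' D` elements outside `W`, and `|rho1 - rho| ≤ 1`.
* `∑_z (1/D) ∑_d |rho (z + t' d) - rho z|`: the term is `0` if `z + t' d` is in the block of `z` (`rho_congr`, `t ∣ t'`), and `≤ 1`
  otherwise; for fixed `d` this happens for at most `t' d ≤ 2 t' D` elements `z` of each block, so for at most `(X/l) 2 t' D` of the `z ∈ W`.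
-/

namespace Pool.Agent.H11.HM

open Finset

theorem apb_trans (f : ℤ → ℝ) (u v s : ℤ) :
    ∑ z ∈ Ico u v, f (z + s) = ∑ z ∈ Ico (u + s) (v + s), f z := by
  refine Finset.sum_nbij' (fun z => z + s) (fun z => z - s) ?_ ?_ ?_ ?_ ?_
  · intro z hz
    rw [Finset.mem_Ico] at hz ⊢
    omega
  · intro z hz
    rw [Finset.mem_Ico] at hz ⊢
    omega
  · intro z _
    exact add_sub_cancel_right z s
  · intro z _
    exact sub_add_cancel z s
  · intro z _
    rfl

theorem apb_shift (f : ℤ → ℝ) (h0 : ∀ z, 0 ≤ f z) (h1 : ∀ z, f z ≤ 1) (u v : ℤ) (huv : u ≤ v)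
    (s : ℕ) : ∑ z ∈ Ico u v, f (z + s) ≤ ∑ z ∈ Ico u v, f z + s := by
  rw [apb_trans]
  have e1 := apa_ico (f := f) (show u ≤ u + s by omega) (show u + (s : ℤ) ≤ v + s by omega)
  have e2 := apa_ico (f := f) huv (show v ≤ v + s by omega)
  have e3 : 0 ≤ ∑ z ∈ Ico u (u + s), f z := Finset.sum_nonneg fun z _ => h0 z
  have e4 : ∑ z ∈ Ico v (v + s), f z ≤ s := by
    calc ∑ z ∈ Ico v (v + s), f z ≤ ∑ z ∈ Ico v (v + s), (1 : ℝ) :=
          Finset.sum_le_sum fun z _ => h1 z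
      _ = s := by
          rw [Finset.sum_const, Int.card_Ico, add_sub_cancel_left, Int.toNat_natCast, nsmul_eq_mul,
            mul_one]
  linarith

theorem apb_cross (l : ℕ) (hl : 1 ≤ l) (a b : ℤ) (hab : a ≤ b) (s : ℕ) :
    (((Ico ((l : ℤ) * a) (l * b)).filter (fun z : ℤ => (z + s) / l ≠ z / l)).card : ℝ) ≤
      (b - a) * s := by
  have hl0 : (0 : ℤ) < l := by exact_mod_cast hl
  have h1 : ((Ico ((l : ℤ) * a) (l * b)).filter (fun z : ℤ => (z + s) / l ≠ z / l)).card ≤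
      (Ico a b ×ˢ Ico (0 : ℤ) s).card := by
    refine Finset.card_le_card_of_injOn (fun z : ℤ => (z / l, l - 1 - z % l)) ?_ ?_
    · intro z hz
      rw [Finset.mem_coe, Finset.mem_filter, Finset.mem_Ico] at hz
      obtain ⟨⟨e1, e2⟩, e3⟩ := hz
      rw [Finset.mem_coe, Finset.mem_product, Finset.mem_Ico, Finset.mem_Ico]
      have e4 := Int.emod_nonneg z hl0.ne'
      have e5 := Int.emod_lt_of_pos z hl0
      have e6 := Int.emod_add_mul_ediv z l
      refine ⟨⟨?_, ?_⟩, ?_, ?_⟩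
      · show a ≤ z / l
        rw [Int.le_ediv_iff_mul_le hl0]
        linarith
      · show z / l < b
        rw [Int.ediv_lt_iff_lt_mul hl0]
        linarith
      · show 0 ≤ (l : ℤ) - 1 - z % l
        omega
      · show (l : ℤ) - 1 - z % l < s
        by_contra hcon
        apply e3
        have e7 : (z + s : ℤ) = (z % l + s) + l * (z / l) := by linarith
        conv_lhs => rw [e7]
        rw [Int.add_mul_ediv_left _ _ hl0.ne', Int.ediv_eq_zero_of_lt (by omega) (by omega), zero_add]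
    · intro z _ z' _ hzz
      have e1 : z / l = z' / l := congrArg Prod.fst hzz
      have e2 : (l : ℤ) - 1 - z % l = l - 1 - z' % l := congrArg Prod.snd hzz
      have e3 := Int.emod_add_mul_ediv z l
      have e4 := Int.emod_add_mul_ediv z' l
      rw [e1] at e3
      linarith
  have h2 : ((Ico a b ×ˢ Ico (0 : ℤ) s).card : ℝ) = (b - a) * s := by
    rw [Finset.card_product, Int.card_Ico, Int.card_Ico, sub_zero, Int.toNat_natCast]
    push_cast
    have h3 : (((b - a).toNat : ℤ) : ℝ) = b - a := by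
      rw [Int.toNat_of_nonneg (by omega)]
      push_cast
      rfl
    rw [← h3]
    push_cast
    rfl
  rw [← h2]
  exact_mod_cast h1

theorem apb_diff (R : Set ℤ) (t l : ℕ) (ht : t ∣ l) (hl : 1 ≤ l) (a b : ℤ) (hab : a ≤ b) (s : ℕ)
    (hs : t ∣ s) :
    ∑ z ∈ Ico ((l : ℤ) * a) (l * b), |rho R t l (z + s) - rho R t l z| ≤ (b - a) * s := by
  refine le_trans ?_ (apb_cross l hl a b hab s)
  rw [← Finset.sum_boole]
  refine Finset.sum_le_sum fun z _ => ?_
  by_cases h : (z + s) / l = z / l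
  · rw [if_neg (not_not.2 h)]
    have h1 : rho R t l (z + s) = rho R t l z := by
      apply rho_congr R t l h
      have h2 : (z : ℤ) + s ≡ z + 0 [ZMOD t] :=
        Int.ModEq.add_left _ (Int.modEq_zero_iff_dvd.2 (by exact_mod_cast hs))
      rwa [add_zero] at h2
    rw [h1, sub_self, abs_zero]
  · rw [if_pos h, abs_le]
    have e1 := rho_nonneg R t l (z + s)
    have e2 := rho_le_one R t l ht hl (z + s)
    have e3 := rho_nonneg R t l z
    have e4 := rho_le_one R t l ht hl z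
    constructor <;> linarith

theorem ap_mean (R : Set ℤ) (t l t1 l1 t' D : ℕ) (h1 : t ∣ t') (h2 : t' ∣ t1) (h3 : t1 ∣ l1)
    (h4 : l1 ∣ l) (hl : 1 ≤ l) (hD : 1 ≤ D) (a b : ℤ) (hab : a ≤ b) :
    ∑ z ∈ Ico ((l : ℤ) * a) (l * b),
        |(∑ d ∈ Ioc D (2 * D), ind R (z + t' * d)) / D - rho R t l z| ≤
      ∑ z ∈ Ico ((l : ℤ) * a) (l * b), |rho R t1 l1 z - rho R t l z| +
        2 * (l * (b - a)) * l1 / D + 2 * t' * D * (1 + (b - a)) := by
  have hl1 : 1 ≤ l1 := Nat.pos_of_dvd_of_pos h4 hl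
  have ht'0 : 1 ≤ t' := Nat.pos_of_dvd_of_pos (h2.trans h3) hl1
  have hl0 : (0 : ℤ) < l := by exact_mod_cast hl
  have hDr : (0 : ℝ) < D := by exact_mod_cast hD
  have hDr1 : (1 : ℝ) ≤ D := by exact_mod_cast hD
  have ht'r : (1 : ℝ) ≤ t' := by exact_mod_cast ht'0
  have hab' : (0 : ℝ) ≤ (b : ℝ) - a := by
    have : (a : ℝ) ≤ b := by exact_mod_cast hab
    linarith
  have hW : (l : ℤ) * a ≤ l * b := mul_le_mul_of_nonneg_left hab hl0.le
  obtain ⟨W, hWe⟩ : ∃ W : Finset ℤ, W = Ico ((l : ℤ) * a) (l * b) := ⟨_, rfl⟩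
  have hcard : (W.card : ℝ) = l * (b - a) := by
    rw [hWe, Int.card_Ico]
    have h5 : (((l * b - l * a : ℤ).toNat : ℤ) : ℝ) = l * (b - a) := by
      rw [Int.toNat_of_nonneg (by linarith)]
      push_cast
      ring
    rw [← h5]
    push_cast
    rfl
  have htl : t ∣ l := (h1.trans (h2.trans (h3.trans h4)))
  have hcD : ((Ioc D (2 * D)).card : ℝ) = D := by
    rw [Nat.card_Ioc]
    congr 1
    omega
  obtain ⟨h, hh⟩ : ∃ h : ℤ → ℝ, h = fun z => |rho R t1 l1 z - rho R t l z| := ⟨_, rfl⟩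
  have hh0 : ∀ z, 0 ≤ h z := fun z => by
    rw [hh]
    exact abs_nonneg _
  have hh1 : ∀ z, h z ≤ 1 := fun z => by
    rw [hh]
    dsimp only
    rw [abs_le]
    have e1 := rho_nonneg R t l z
    have e2 := rho_le_one R t l htl hl z
    have e3 := rho_nonneg R t1 l1 z
    have e4 := rho_le_one R t1 l1 h3 hl1 z
    constructor <;> linarith
  -- pointwise bound
  have hpt : ∀ z : ℤ, |(∑ d ∈ Ioc D (2 * D), ind R (z + t' * d)) / D - rho R t l z| ≤
      2 * l1 / D + (∑ d ∈ Ioc D (2 * D), h (z + ((t' * d : ℕ) : ℤ))) / D +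
        (∑ d ∈ Ioc D (2 * D), |rho R t l (z + ((t' * d : ℕ) : ℤ)) - rho R t l z|) / D := by
    intro z
    have e1 : (∑ d ∈ Ioc D (2 * D), ind R (z + t' * d)) / D - rho R t l z =
        (∑ d ∈ Ioc D (2 * D), (ind R (z + t' * d) - rho R t1 l1 (z + t' * d))) / D +
        (∑ d ∈ Ioc D (2 * D), (rho R t1 l1 (z + ((t' * d : ℕ) : ℤ)) -
          rho R t l (z + ((t' * d : ℕ) : ℤ)))) / D +
        (∑ d ∈ Ioc D (2 * D), (rho R t l (z + ((t' * d : ℕ) : ℤ)) - rho R t l z)) / D := by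
      have e2 : ∑ d ∈ Ioc D (2 * D), rho R t l z = D * rho R t l z := by
        rw [Finset.sum_const, nsmul_eq_mul, hcD]
      rw [← add_div, ← add_div, ← Finset.sum_add_distrib, ← Finset.sum_add_distrib,
        eq_div_iff hDr.ne', sub_mul, div_mul_cancel₀ _ hDr.ne', mul_comm (rho R t l z), ← e2,
        ← Finset.sum_sub_distrib]
      refine Finset.sum_congr rfl fun d _ => ?_
      push_cast
      ring
    rw [e1]
    refine (abs_add_le _ _).trans (add_le_add ((abs_add_le _ _).trans (add_le_add ?_ ?_)) ?_)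
    · rw [abs_div, abs_of_pos hDr]
      apply div_le_div_of_nonneg_right _ hDr.le
      refine (ap_local R t' t1 l1 D h2 h3 hl1 z).trans ?_
      exact div_le_self (by positivity) ht'r
    · rw [abs_div, abs_of_pos hDr]
      apply div_le_div_of_nonneg_right _ hDr.le
      refine (Finset.abs_sum_le_sum_abs _ _).trans (le_of_eq ?_)
      rw [hh]
    · rw [abs_div, abs_of_pos hDr]
      apply div_le_div_of_nonneg_right _ hDr.le
      exact Finset.abs_sum_le_sum_abs _ _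
  have hs : ∀ d ∈ Ioc D (2 * D), (((t' * d : ℕ) : ℝ)) ≤ 2 * t' * D := by
    intro d hd
    rw [Finset.mem_Ioc] at hd
    have e1 : (d : ℝ) ≤ 2 * D := by exact_mod_cast hd.2
    push_cast
    nlinarith
  have hT2 : ∀ d ∈ Ioc D (2 * D), ∑ z ∈ W, h (z + ((t' * d : ℕ) : ℤ)) ≤ ∑ z ∈ W, h z + 2 * t' * D := by
    intro d hd
    rw [hWe]
    have e1 := apb_shift h hh0 hh1 _ _ hW (t' * d)
    linarith [hs d hd]
  have hT3 : ∀ d ∈ Ioc D (2 * D), ∑ z ∈ W, |rho R t l (z + ((t' * d : ℕ) : ℤ)) - rho R t l z| ≤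
      (b - a) * (2 * t' * D) := by
    intro d hd
    rw [hWe]
    have e1 := apb_diff R t l htl hl a b hab (t' * d) (h1.trans (Dvd.intro _ rfl))
    exact e1.trans (mul_le_mul_of_nonneg_left (hs d hd) hab')
  rw [← hWe]
  calc ∑ z ∈ W, |(∑ d ∈ Ioc D (2 * D), ind R (z + t' * d)) / D - rho R t l z|
      ≤ ∑ z ∈ W, (2 * l1 / D + (∑ d ∈ Ioc D (2 * D), h (z + ((t' * d : ℕ) : ℤ))) / D +
        (∑ d ∈ Ioc D (2 * D), |rho R t l (z + ((t' * d : ℕ) : ℤ)) - rho R t l z|) / D) :=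
        Finset.sum_le_sum fun z _ => hpt z
    _ = (l * (b - a)) * (2 * l1 / D) + (∑ d ∈ Ioc D (2 * D), ∑ z ∈ W, h (z + ((t' * d : ℕ) : ℤ))) / D +
        (∑ d ∈ Ioc D (2 * D), ∑ z ∈ W, |rho R t l (z + ((t' * d : ℕ) : ℤ)) - rho R t l z|) / D := by
        rw [Finset.sum_add_distrib, Finset.sum_add_distrib, Finset.sum_const, nsmul_eq_mul, hcard,
          ← Finset.sum_div, ← Finset.sum_div, Finset.sum_comm (s := W), Finset.sum_comm (s := W)]
    _ ≤ (l * (b - a)) * (2 * l1 / D) + (D * (∑ z ∈ W, h z + 2 * t' * D)) / D +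
        (D * ((b - a) * (2 * t' * D))) / D := by
        refine add_le_add (add_le_add le_rfl ?_) ?_
        · apply div_le_div_of_nonneg_right _ hDr.le
          refine (Finset.sum_le_sum hT2).trans (le_of_eq ?_)
          rw [Finset.sum_const, nsmul_eq_mul, hcD]
        · apply div_le_div_of_nonneg_right _ hDr.le
          refine (Finset.sum_le_sum hT3).trans (le_of_eq ?_)
          rw [Finset.sum_const, nsmul_eq_mul, hcD]
    _ = _ := by
        rw [hh, mul_div_cancel_left₀ _ hDr.ne', mul_div_cancel_left₀ _ hDr.ne']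
        ring

end Pool.Agent.H11.HM
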