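import Pool.Agent.H11.HM.ApcB

/-!
[H11 HM APC]  The choice of the difference `d`.

`N = (K P)!`; `m k ∣ N` for `1 ≤ m ≤ K`, `1 ≤ k < P` (`Nat.dvd_factorial`).  Sum `second_moment` over `m ∈ Icc 1 K` (`m ≤ K` in the last
term); some `d ∈ Ioc D 2D` (`D` values) is at most the average: `∑_m ∑_z (cnt/P - rho)^2 ≤ K (…)`; and `cnt < (rho - η) P` implies
`(cnt/P - rho)^2 ≥ η^2` (Chebyshev).
-/

namespace Pool.Agent.H11.HM

open Finset

theorem choose_diff (R : Set ℤ) (t l l1 K P D : ℕ) (ht : 1 ≤ t) (hK : 1 ≤ K) (hP : 1 ≤ P)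
    (h3 : t * (K * P).factorial ∣ l1) (h4 : l1 ∣ l) (hl : 1 ≤ l)
    (hD : 1 ≤ D) (a b : ℤ) (hab : a ≤ b) (η : ℝ) (hη : 0 < η) :
    ∃ d ∈ Ioc D (2 * D), ∑ m ∈ Icc 1 K, (((Ico ((l : ℤ) * a) (l * b)).filter
        (fun z => (cnt R P (t * d * m) z : ℝ) < (rho R t l z - η) * P)).card : ℝ) ≤
      K / η ^ 2 * ((l * (b - a)) / P +
        ∑ z ∈ Ico ((l : ℤ) * a) (l * b), |rho R (t * (K * P).factorial) l1 z - rho R t l z| +
        2 * (l * (b - a)) * l1 / D + 6 * t * K * P * D * (1 + (b - a))) := by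
  have hηr : 0 < η ^ 2 := by positivity
  have hDr : (0 : ℝ) < D := by exact_mod_cast hD
  have hPr : (0 : ℝ) < P := by exact_mod_cast hP
  have hab' : (0 : ℝ) ≤ (b : ℝ) - a := by
    have : (a : ℝ) ≤ b := by exact_mod_cast hab
    linarith
  obtain ⟨Q, hQ⟩ : ∃ Q : ℝ, Q = (l * (b - a)) / P +
        ∑ z ∈ Ico ((l : ℤ) * a) (l * b), |rho R (t * (K * P).factorial) l1 z - rho R t l z| +
        2 * (l * (b - a)) * l1 / D + 6 * t * K * P * D * (1 + (b - a)) := ⟨_, rfl⟩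
  rw [← hQ]
  obtain ⟨W, hW⟩ : ∃ W : Finset ℤ, W = Ico ((l : ℤ) * a) (l * b) := ⟨_, rfl⟩
  have hcD : ((Ioc D (2 * D)).card : ℝ) = D := by
    rw [Nat.card_Ioc]
    congr 1
    omega
  have h1 : ∀ m ∈ Icc 1 K, ∑ d ∈ Ioc D (2 * D), ∑ z ∈ W,
      ((cnt R P (t * d * m) z : ℝ) / P - rho R t l z) ^ 2 ≤ D * Q := by
    intro m hm
    rw [Finset.mem_Icc] at hm
    have e1 := second_moment R t l (K * P).factorial l1 m P D ht hm.1 hP (fun k hk1 hk2 => by
      apply Nat.dvd_factorial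
      · exact Nat.mul_pos hm.1 hk1
      · exact Nat.mul_le_mul hm.2 hk2.le) h3 h4 hl hD a b hab
    rw [div_le_iff₀ hDr, ← hW] at e1
    refine e1.trans ?_
    rw [mul_comm]
    apply mul_le_mul_of_nonneg_left _ hDr.le
    rw [hQ, ← hW]
    have e2 : (6 : ℝ) * t * m * P * D * (1 + (b - a)) ≤ 6 * t * K * P * D * (1 + (b - a)) := by
      have e3 : (m : ℝ) ≤ K := by exact_mod_cast hm.2
      have e4 : (0 : ℝ) ≤ 6 * t * P * D * (1 + (b - a)) := by
        have : (0 : ℝ) ≤ 1 + (b - a) := by linarith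
        positivity
      have e5 := mul_le_mul_of_nonneg_right e3 e4
      linarith
    linarith
  have h2 : ∑ d ∈ Ioc D (2 * D), ∑ m ∈ Icc 1 K, ∑ z ∈ W,
      ((cnt R P (t * d * m) z : ℝ) / P - rho R t l z) ^ 2 ≤
      ∑ d ∈ Ioc D (2 * D), K * Q := by
    rw [Finset.sum_comm]
    refine (Finset.sum_le_sum h1).trans (le_of_eq ?_)
    rw [Finset.sum_const, Finset.sum_const, nsmul_eq_mul, nsmul_eq_mul, hcD, Nat.card_Icc,
      Nat.add_sub_cancel]
    ring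
  obtain ⟨d, hd, hd2⟩ := Finset.exists_le_of_sum_le (by
    rw [Finset.nonempty_Ioc]
    omega) h2
  refine ⟨d, hd, ?_⟩
  rw [div_mul_eq_mul_div, le_div_iff₀ hηr, Finset.sum_mul]
  refine le_trans (Finset.sum_le_sum fun m _ => ?_) hd2
  rw [← hW]
  calc ((W.filter (fun z => (cnt R P (t * d * m) z : ℝ) < (rho R t l z - η) * P)).card : ℝ) * η ^ 2
      = ∑ z ∈ W.filter (fun z => (cnt R P (t * d * m) z : ℝ) < (rho R t l z - η) * P), η ^ 2 := by
        rw [Finset.sum_const, nsmul_eq_mul]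
    _ ≤ ∑ z ∈ W.filter (fun z => (cnt R P (t * d * m) z : ℝ) < (rho R t l z - η) * P),
        ((cnt R P (t * d * m) z : ℝ) / P - rho R t l z) ^ 2 := by
        refine Finset.sum_le_sum fun z hz => ?_
        rw [Finset.mem_filter] at hz
        have e1 : (cnt R P (t * d * m) z : ℝ) / P < rho R t l z - η := by
          rw [div_lt_iff₀ hPr]
          exact hz.2
        nlinarith
    _ ≤ _ := Finset.sum_le_sum_of_subset_of_nonneg (Finset.filter_subset _ _)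
        (fun _ _ _ => sq_nonneg _)

end Pool.Agent.H11.HM
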