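import Pool.Agent.H11.HM.Rh

/-!
[H11 HM APCA]  Shifting a correlation sum.

Proof.  `W = Ico (l a) (l b)`, `rho = rho R t l`, `t ∣ s`.  Substitute `z' = z + s` in the first sum:
`∑_{z' ∈ W + s} (ind z' - rho (z' - s)) (ind (z' + e) - rho (z' - s))`.  Let `u z' = (ind z' - rho (z'-s)) (ind (z'+e) - rho (z'-s))` and
`v z' = (ind z' - rho z') (ind (z'+e) - rho z')`; `|u|, |v| ≤ 1`.
`|∑_{W+s} u - ∑_W u| ≤ 2 s` (the symmetric difference of `W + s` and `W` has at most `2 s` elements; `0 ≤ s`).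
`|∑_W u - ∑_W v| ≤ 2 #{z' ∈ W | (z' - s)/l ≠ z'/l} ≤ 2 (b - a) s`: if `z' - s` and `z'` are in the same block then `rho (z'-s) = rho z'`
(`rho_congr`, `t ∣ s`); otherwise `z' % l < s`, and each of the `b - a` blocks of `W` has at most `s` such elements.
-/

namespace Pool.Agent.H11.HM

open Finset

theorem apca_ico {f : ℤ → ℝ} {u v w : ℤ} (h1 : u ≤ v) (h2 : v ≤ w) :
    ∑ z ∈ Ico u v, f z + ∑ z ∈ Ico v w, f z = ∑ z ∈ Ico u w, f z := by
  rw [← Finset.sum_union (Finset.Ico_disjoint_Ico_consecutive u v w),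
    Finset.Ico_union_Ico_eq_Ico h1 h2]

theorem apca_trans (f : ℤ → ℝ) (u v s : ℤ) :
    ∑ z ∈ Ico u v, f (z + s) = ∑ z ∈ Ico (u + s) (v + s), f z := by
  refine Finset.sum_nbij' (fun z => z + s) (fun z => z - s) ?_ ?_ ?_ ?_ ?_
  · intro z hz
    rw [Finset.mem_Ico] at hz ⊢
    omega
  · intro z hz
    rw [Finset.mem_Ico] at hz ⊢
    omega
  · intro z _
    exact add_sub_cancel_right z s
  · intro z _
    exact sub_add_cancel z s
  · intro z _
    rfl

theorem apca_len (f : ℤ → ℝ) (h1 : ∀ z, |f z| ≤ 1) (u : ℤ) (s : ℕ) :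
    |∑ z ∈ Ico u (u + s), f z| ≤ s := by
  calc |∑ z ∈ Ico u (u + s), f z| ≤ ∑ z ∈ Ico u (u + s), |f z| := Finset.abs_sum_le_sum_abs _ _
    _ ≤ ∑ z ∈ Ico u (u + s), (1 : ℝ) := Finset.sum_le_sum fun z _ => h1 z
    _ = s := by
        rw [Finset.sum_const, Int.card_Ico, add_sub_cancel_left, Int.toNat_natCast, nsmul_eq_mul,
          mul_one]

theorem apca_shift (f : ℤ → ℝ) (h1 : ∀ z, |f z| ≤ 1) (u v : ℤ) (huv : u ≤ v) (s : ℕ) :
    |∑ z ∈ Ico u v, f (z + s) - ∑ z ∈ Ico u v, f z| ≤ 2 * s := by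
  rw [apca_trans]
  have e1 := apca_ico (f := f) (show u ≤ u + s by omega) (show u + (s : ℤ) ≤ v + s by omega)
  have e2 := apca_ico (f := f) huv (show v ≤ v + s by omega)
  have e3 := abs_le.1 (apca_len f h1 u s)
  have e4 := abs_le.1 (apca_len f h1 v s)
  rw [abs_le]
  constructor <;> linarith [e3.1, e3.2, e4.1, e4.2]

theorem apca_cross (l : ℕ) (hl : 1 ≤ l) (a b : ℤ) (hab : a ≤ b) (s : ℕ) :
    (((Ico ((l : ℤ) * a) (l * b)).filter (fun z : ℤ => (z - s) / l ≠ z / l)).card : ℝ) ≤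
      (b - a) * s := by
  have hl0 : (0 : ℤ) < l := by exact_mod_cast hl
  have h1 : ((Ico ((l : ℤ) * a) (l * b)).filter (fun z : ℤ => (z - s) / l ≠ z / l)).card ≤
      (Ico a b ×ˢ Ico (0 : ℤ) s).card := by
    refine Finset.card_le_card_of_injOn (fun z : ℤ => (z / l, z % l)) ?_ ?_
    · intro z hz
      rw [Finset.mem_coe, Finset.mem_filter, Finset.mem_Ico] at hz
      obtain ⟨⟨e1, e2⟩, e3⟩ := hz
      rw [Finset.mem_coe, Finset.mem_product, Finset.mem_Ico, Finset.mem_Ico]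
      have e4 := Int.emod_nonneg z hl0.ne'
      have e5 := Int.emod_lt_of_pos z hl0
      have e6 := Int.emod_add_mul_ediv z l
      refine ⟨⟨?_, ?_⟩, e4, ?_⟩
      · show a ≤ z / l
        rw [Int.le_ediv_iff_mul_le hl0]
        linarith
      · show z / l < b
        rw [Int.ediv_lt_iff_lt_mul hl0]
        linarith
      · show z % l < s
        by_contra hcon
        apply e3
        have e7 : (z - s : ℤ) = (z % l - s) + l * (z / l) := by linarith
        conv_lhs => rw [e7]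
        rw [Int.add_mul_ediv_left _ _ hl0.ne', Int.ediv_eq_zero_of_lt (by omega) (by omega), zero_add]
    · intro z _ z' _ hzz
      have e1 : z / l = z' / l := congrArg Prod.fst hzz
      have e2 : z % l = z' % l := congrArg Prod.snd hzz
      have e3 := Int.emod_add_mul_ediv z l
      have e4 := Int.emod_add_mul_ediv z' l
      rw [e1] at e3
      linarith
  have h2 : ((Ico a b ×ˢ Ico (0 : ℤ) s).card : ℝ) = (b - a) * s := by
    rw [Finset.card_product, Int.card_Ico, Int.card_Ico, sub_zero, Int.toNat_natCast]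
    push_cast
    have h3 : (((b - a).toNat : ℤ) : ℝ) = b - a := by
      rw [Int.toNat_of_nonneg (by omega)]
      push_cast
      rfl
    rw [← h3]
    push_cast
    rfl
  rw [← h2]
  exact_mod_cast h1

theorem apca_two {x y r : ℝ} (hx0 : 0 ≤ x) (hx1 : x ≤ 1) (hy0 : 0 ≤ y) (hy1 : y ≤ 1) (hr0 : 0 ≤ r)
    (hr1 : r ≤ 1) : |(x - r) * (y - r)| ≤ 1 := by
  rw [abs_mul]
  have h1 : |x - r| ≤ 1 := by
    rw [abs_le]
    constructor <;> linarith
  have h2 : |y - r| ≤ 1 := by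
    rw [abs_le]
    constructor <;> linarith
  calc |x - r| * |y - r| ≤ 1 * 1 := mul_le_mul h1 h2 (abs_nonneg _) (by norm_num)
    _ = 1 := one_mul 1

theorem shift_term (R : Set ℤ) (t l s : ℕ) (ht : t ∣ l) (hs : t ∣ s) (hl : 1 ≤ l) (e a b : ℤ)
    (hab : a ≤ b) :
    |∑ z ∈ Ico ((l : ℤ) * a) (l * b),
        (ind R (z + s) - rho R t l z) * (ind R (z + s + e) - rho R t l z) -
      ∑ z ∈ Ico ((l : ℤ) * a) (l * b),
        (ind R z - rho R t l z) * (ind R (z + e) - rho R t l z)| ≤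
      2 * s * (1 + (b - a)) := by
  have hl0 : (0 : ℤ) < l := by exact_mod_cast hl
  have hW : (l : ℤ) * a ≤ l * b := mul_le_mul_of_nonneg_left hab hl0.le
  obtain ⟨u, hu⟩ : ∃ u : ℤ → ℝ, u = fun z => (ind R z - rho R t l (z - s)) *
      (ind R (z + e) - rho R t l (z - s)) := ⟨_, rfl⟩
  obtain ⟨v, hv⟩ : ∃ v : ℤ → ℝ, v = fun z => (ind R z - rho R t l z) *
      (ind R (z + e) - rho R t l z) := ⟨_, rfl⟩
  have hu1 : ∀ z, |u z| ≤ 1 := fun z => by
    rw [hu]
    exact apca_two (ind_nonneg _ _) (ind_le_one _ _) (ind_nonneg _ _) (ind_le_one _ _)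
      (rho_nonneg _ _ _ _) (rho_le_one _ _ _ ht hl _)
  have hv1 : ∀ z, |v z| ≤ 1 := fun z => by
    rw [hv]
    exact apca_two (ind_nonneg _ _) (ind_le_one _ _) (ind_nonneg _ _) (ind_le_one _ _)
      (rho_nonneg _ _ _ _) (rho_le_one _ _ _ ht hl _)
  have h1 : ∑ z ∈ Ico ((l : ℤ) * a) (l * b),
        (ind R (z + s) - rho R t l z) * (ind R (z + s + e) - rho R t l z) =
      ∑ z ∈ Ico ((l : ℤ) * a) (l * b), u (z + s) := by
    refine Finset.sum_congr rfl fun z _ => ?_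
    rw [hu]
    dsimp only
    rw [add_sub_cancel_right]
  have h2 : ∑ z ∈ Ico ((l : ℤ) * a) (l * b),
        (ind R z - rho R t l z) * (ind R (z + e) - rho R t l z) =
      ∑ z ∈ Ico ((l : ℤ) * a) (l * b), v z := by
    rw [hv]
  rw [h1, h2]
  have h3 := apca_shift u hu1 _ _ hW s
  have h4 : |∑ z ∈ Ico ((l : ℤ) * a) (l * b), u z - ∑ z ∈ Ico ((l : ℤ) * a) (l * b), v z| ≤
      2 * ((b - a) * s) := by
    rw [← Finset.sum_sub_distrib]
    refine (Finset.abs_sum_le_sum_abs _ _).trans ?_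
    refine le_trans ?_ (mul_le_mul_of_nonneg_left (apca_cross l hl a b hab s) (by norm_num))
    rw [← Finset.sum_boole, Finset.mul_sum]
    refine Finset.sum_le_sum fun z _ => ?_
    by_cases h : (z - s) / l = z / l
    · rw [if_neg (not_not.2 h)]
      have h5 : rho R t l (z - s) = rho R t l z := by
        apply rho_congr R t l h
        have h6 : (z : ℤ) - s ≡ z - 0 [ZMOD t] :=
          Int.ModEq.sub_left _ (Int.modEq_zero_iff_dvd.2 (by exact_mod_cast hs))
        rwa [sub_zero] at h6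
      rw [hu, hv]
      dsimp only
      rw [h5, sub_self, abs_zero, mul_zero]
    · rw [if_pos h]
      refine (abs_sub _ _).trans ?_
      have := hu1 z
      have := hv1 z
      linarith
  have h5 := abs_add_le (∑ z ∈ Ico ((l : ℤ) * a) (l * b), u (z + s) -
    ∑ z ∈ Ico ((l : ℤ) * a) (l * b), u z)
    (∑ z ∈ Ico ((l : ℤ) * a) (l * b), u z - ∑ z ∈ Ico ((l : ℤ) * a) (l * b), v z)
  rw [sub_add_sub_cancel] at h5
  refine h5.trans ((add_le_add h3 h4).trans (le_of_eq ?_))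
  ring

end Pool.Agent.H11.HM
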