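import Pool.Agent.H11.HM.Apb
import Pool.Agent.H11.HM.ApcA

/-!
[H11 HM APCB]  The second moment.

`W = Ico (l a) (l b)`, `X = l (b-a)`, `t1 = t N` with `m k ∣ N` for `1 ≤ k < P`, `t1 ∣ l1 ∣ l`, `rho = rho R t l`, `rho1 = rho R t1 l1`:
`(1/D) ∑_{d ∈ Ioc D 2D} ∑_{z ∈ W} (cnt R P (t d m) z/P - rho z)^2 ≤ X/P + ∑_W |rho1 - rho| + 2 X l1/D + 6 t m P D (1 + (b-a))`.

Proof.  `cnt R P s z/P - rho z = (1/P) ∑_{n<P} (ind(z + s n) - rho z)`; expand the square: `(1/P^2) ∑_{n,n'} V(n,n')`,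
`V(n,n') = (1/D) ∑_d ∑_{z ∈ W} (ind(z + t d m n) - rho z)(ind(z + t d m n') - rho z)`.
* `n = n'`: `V ≤ X`; these contribute `≤ (1/P^2) P X = X/P`.
* `n < n'` (the other case is symmetric), `k = n' - n`, `s = t d m n ≤ 2 t m P D`: by `shift_term` (`e = t m k d`)
  `V(n,n') ≤ (1/D) ∑_d ∑_{z ∈ W} (ind z - rho z)(ind(z + t m k d) - rho z) + 4 t m P D (1 + (b-a))`, and the main term is
  `∑_{z ∈ W} (ind z - rho z) ((1/D) ∑_d ind(z + (t m k) d) - rho z) ≤ ∑_{z ∈ W} |(1/D) ∑_d ind(z + (tmk) d) - rho z|`, which is bounded by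
  `ap_mean` with `t' = t m k` (`t' ∣ t N = t1`, `t' ≤ t m P`): `≤ ∑_W |rho1 - rho| + 2 X l1/D + 2 t m P D (1 + (b-a))`.
  (`Ioc D 2D` has `D` elements.)
-/

namespace Pool.Agent.H11.HM

open Finset

theorem apcb_cnt (R : Set ℤ) (P : ℕ) (s z : ℤ) :
    (cnt R P s z : ℝ) = ∑ n ∈ range P, ind R (z + s * n) := by
  unfold cnt ind
  rw [← Finset.sum_boole]

/-- one off-diagonal term -/
theorem apcb_off (R : Set ℤ) (t l N l1 m P D : ℕ) (ht : 1 ≤ t) (hm : 1 ≤ m)
    (hN : ∀ k, 1 ≤ k → k < P → m * k ∣ N) (h3 : t * N ∣ l1) (h4 : l1 ∣ l) (hl : 1 ≤ l)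
    (hD : 1 ≤ D) (a b : ℤ) (hab : a ≤ b) (n n' : ℕ) (hn : n < n') (hn' : n' < P) :
    ∑ d ∈ Ioc D (2 * D), ∑ z ∈ Ico ((l : ℤ) * a) (l * b),
      (ind R (z + (t * d * m : ℤ) * n) - rho R t l z) *
        (ind R (z + (t * d * m : ℤ) * n') - rho R t l z) ≤
      D * (∑ z ∈ Ico ((l : ℤ) * a) (l * b), |rho R (t * N) l1 z - rho R t l z| +
        2 * (l * (b - a)) * l1 / D + 6 * t * m * P * D * (1 + (b - a))) := by
  have hl1 : 1 ≤ l1 := Nat.pos_of_dvd_of_pos h4 hl
  have hDr : (0 : ℝ) < D := by exact_mod_cast hD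
  have htl : t ∣ l := (Dvd.intro _ rfl : t ∣ t * N).trans (h3.trans h4)
  have hab' : (0 : ℝ) ≤ (b : ℝ) - a := by
    have : (a : ℝ) ≤ b := by exact_mod_cast hab
    linarith
  obtain ⟨k, hk⟩ : ∃ k, k = n' - n := ⟨_, rfl⟩
  have hk1 : 1 ≤ k := by omega
  have hkP : k < P := by omega
  have hcD : ((Ioc D (2 * D)).card : ℝ) = D := by
    rw [Nat.card_Ioc]
    congr 1
    omega
  obtain ⟨W, hW⟩ : ∃ W : Finset ℤ, W = Ico ((l : ℤ) * a) (l * b) := ⟨_, rfl⟩
  have hkPr : (k : ℝ) ≤ P := by exact_mod_cast hkP.le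
  have hnPr : (n : ℝ) ≤ P := by exact_mod_cast (by omega : n ≤ P)
  have htm0 : (0 : ℝ) ≤ t * m := by positivity
  -- shift
  have hsh : ∀ d ∈ Ioc D (2 * D), ∑ z ∈ W,
      (ind R (z + (t * d * m : ℤ) * n) - rho R t l z) *
        (ind R (z + (t * d * m : ℤ) * n') - rho R t l z) ≤
      ∑ z ∈ W, (ind R z - rho R t l z) * (ind R (z + ((t * m * k : ℕ) : ℤ) * d) - rho R t l z) +
        4 * t * m * P * D * (1 + (b - a)) := by
    intro d hd
    rw [Finset.mem_Ioc] at hd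
    have hd2 : (d : ℝ) ≤ 2 * D := by exact_mod_cast hd.2
    have e1 := shift_term R t l (t * d * m * n) htl (by
      rw [mul_assoc, mul_assoc]
      exact Dvd.intro _ rfl) hl (((t * m * k : ℕ) : ℤ) * d) a b hab
    rw [← hW] at e1
    have e2 := (abs_le.1 e1).2
    have e3 : ∑ z ∈ W, (ind R (z + (t * d * m : ℤ) * n) - rho R t l z) *
        (ind R (z + (t * d * m : ℤ) * n') - rho R t l z) =
        ∑ z ∈ W, (ind R (z + ((t * d * m * n : ℕ) : ℤ)) - rho R t l z) *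
          (ind R (z + ((t * d * m * n : ℕ) : ℤ) + ((t * m * k : ℕ) : ℤ) * d) - rho R t l z) := by
      refine Finset.sum_congr rfl fun z _ => ?_
      have e4 : z + (t * d * m : ℤ) * n = z + ((t * d * m * n : ℕ) : ℤ) := by
        push_cast
        ring
      have e5 : z + (t * d * m : ℤ) * n' =
          z + ((t * d * m * n : ℕ) : ℤ) + ((t * m * k : ℕ) : ℤ) * d := by
        have e6 : (n' : ℤ) = n + k := by omega
        rw [e6]
        push_cast
        ring
      rw [e4, e5]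
    rw [e3]
    have e4 : (2 : ℝ) * ((t * d * m * n : ℕ) : ℝ) ≤ 4 * t * m * P * D := by
      push_cast
      have e5 : (d : ℝ) * n ≤ (2 * D) * P := mul_le_mul hd2 hnPr (Nat.cast_nonneg _) (by positivity)
      have e6 := mul_le_mul_of_nonneg_left e5 htm0
      nlinarith
    have e5 := mul_le_mul_of_nonneg_right e4 (show (0 : ℝ) ≤ 1 + (b - a) by linarith)
    linarith
  -- the main term
  have hmain : ∑ d ∈ Ioc D (2 * D), ∑ z ∈ W, (ind R z - rho R t l z) *
      (ind R (z + ((t * m * k : ℕ) : ℤ) * d) - rho R t l z) ≤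
      D * (∑ z ∈ W, |rho R (t * N) l1 z - rho R t l z| +
        2 * (l * (b - a)) * l1 / D + 2 * t * m * P * D * (1 + (b - a))) := by
    have e1 := ap_mean R t l (t * N) l1 (t * m * k) D (by rw [mul_assoc]; exact Dvd.intro _ rfl)
      (by rw [mul_assoc]; exact mul_dvd_mul_left _ (hN k hk1 hkP)) h3 h4 hl hD a b hab
    rw [← hW] at e1
    have e2 : ∑ d ∈ Ioc D (2 * D), ∑ z ∈ W, (ind R z - rho R t l z) *
        (ind R (z + ((t * m * k : ℕ) : ℤ) * d) - rho R t l z) =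
        D * ∑ z ∈ W, (ind R z - rho R t l z) *
          ((∑ d ∈ Ioc D (2 * D), ind R (z + ((t * m * k : ℕ) : ℤ) * d)) / D - rho R t l z) := by
      rw [Finset.sum_comm, Finset.mul_sum]
      refine Finset.sum_congr rfl fun z _ => ?_
      rw [← Finset.mul_sum, Finset.sum_sub_distrib, Finset.sum_const, nsmul_eq_mul, hcD]
      field_simp
    rw [e2]
    apply mul_le_mul_of_nonneg_left _ hDr.le
    have e3 : ∑ z ∈ W, (ind R z - rho R t l z) *
          ((∑ d ∈ Ioc D (2 * D), ind R (z + ((t * m * k : ℕ) : ℤ) * d)) / D - rho R t l z) ≤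
        ∑ z ∈ W, |(∑ d ∈ Ioc D (2 * D), ind R (z + ((t * m * k : ℕ) : ℤ) * d)) / D - rho R t l z| := by
      refine Finset.sum_le_sum fun z _ => ?_
      refine (le_abs_self _).trans ?_
      rw [abs_mul]
      refine mul_le_of_le_one_left (abs_nonneg _) ?_
      rw [abs_le]
      have e1 := ind_nonneg R z
      have e2 := ind_le_one R z
      have e3 := rho_nonneg R t l z
      have e4 := rho_le_one R t l htl hl z
      constructor <;> linarith
    refine e3.trans (e1.trans ?_)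
    have e4 : (2 : ℝ) * ((t * m * k : ℕ) : ℝ) * D * (1 + (b - a)) ≤ 2 * t * m * P * D * (1 + (b - a)) := by
      apply mul_le_mul_of_nonneg_right _ (by linarith)
      apply mul_le_mul_of_nonneg_right _ hDr.le
      push_cast
      have := mul_le_mul_of_nonneg_left hkPr htm0
      linarith
    linarith
  rw [← hW]
  calc _ ≤ ∑ d ∈ Ioc D (2 * D), (∑ z ∈ W, (ind R z - rho R t l z) *
        (ind R (z + ((t * m * k : ℕ) : ℤ) * d) - rho R t l z) +
        4 * t * m * P * D * (1 + (b - a))) := Finset.sum_le_sum hsh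
    _ = ∑ d ∈ Ioc D (2 * D), ∑ z ∈ W, (ind R z - rho R t l z) *
        (ind R (z + ((t * m * k : ℕ) : ℤ) * d) - rho R t l z) +
        D * (4 * t * m * P * D * (1 + (b - a))) := by
        rw [Finset.sum_add_distrib, Finset.sum_const, nsmul_eq_mul, hcD]
    _ ≤ D * (∑ z ∈ W, |rho R (t * N) l1 z - rho R t l z| +
        2 * (l * (b - a)) * l1 / D + 2 * t * m * P * D * (1 + (b - a))) +
        D * (4 * t * m * P * D * (1 + (b - a))) := by linarith
    _ = _ := by ring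

theorem second_moment (R : Set ℤ) (t l N l1 m P D : ℕ) (ht : 1 ≤ t) (hm : 1 ≤ m) (hP : 1 ≤ P)
    (hN : ∀ k, 1 ≤ k → k < P → m * k ∣ N) (h3 : t * N ∣ l1) (h4 : l1 ∣ l) (hl : 1 ≤ l)
    (hD : 1 ≤ D) (a b : ℤ) (hab : a ≤ b) :
    (∑ d ∈ Ioc D (2 * D), ∑ z ∈ Ico ((l : ℤ) * a) (l * b),
        ((cnt R P (t * d * m) z : ℝ) / P - rho R t l z) ^ 2) / D ≤
      (l * (b - a)) / P + ∑ z ∈ Ico ((l : ℤ) * a) (l * b), |rho R (t * N) l1 z - rho R t l z| +
        2 * (l * (b - a)) * l1 / D + 6 * t * m * P * D * (1 + (b - a)) := by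
  have hl1 : 1 ≤ l1 := Nat.pos_of_dvd_of_pos h4 hl
  have hDr : (0 : ℝ) < D := by exact_mod_cast hD
  have hPr : (0 : ℝ) < P := by exact_mod_cast hP
  have hl0 : (0 : ℤ) < l := by exact_mod_cast hl
  have htl : t ∣ l := (Dvd.intro _ rfl : t ∣ t * N).trans (h3.trans h4)
  have hab' : (0 : ℝ) ≤ (b : ℝ) - a := by
    have : (a : ℝ) ≤ b := by exact_mod_cast hab
    linarith
  have hcD : ((Ioc D (2 * D)).card : ℝ) = D := by
    rw [Nat.card_Ioc]
    congr 1
    omega
  obtain ⟨M, hM⟩ : ∃ M : ℝ, M = ∑ z ∈ Ico ((l : ℤ) * a) (l * b),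
      |rho R (t * N) l1 z - rho R t l z| +
        2 * (l * (b - a)) * l1 / D + 6 * t * m * P * D * (1 + (b - a)) := ⟨_, rfl⟩
  have hM0 : 0 ≤ M := by
    rw [hM]
    have : 0 ≤ ∑ z ∈ Ico ((l : ℤ) * a) (l * b), |rho R (t * N) l1 z - rho R t l z| :=
      Finset.sum_nonneg fun _ _ => abs_nonneg _
    have e2 : (0 : ℝ) ≤ 1 + (b - a) := by linarith
    positivity
  obtain ⟨W, hW⟩ : ∃ W : Finset ℤ, W = Ico ((l : ℤ) * a) (l * b) := ⟨_, rfl⟩
  have hcard : (W.card : ℝ) = l * (b - a) := by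
    rw [hW, Int.card_Ico]
    have h5 : (((l * b - l * a : ℤ).toNat : ℤ) : ℝ) = l * (b - a) := by
      rw [Int.toNat_of_nonneg (by
        have := mul_le_mul_of_nonneg_left hab hl0.le
        linarith)]
      push_cast
      ring
    rw [← h5]
    push_cast
    rfl
  obtain ⟨x, hx⟩ : ∃ x : ℕ → ℤ → ℕ → ℝ, x = fun (d : ℕ) (z : ℤ) (n : ℕ) =>
      ind R (z + (t * d * m : ℤ) * n) - rho R t l z := ⟨_, rfl⟩
  have hx1 : ∀ d z n, x d z n * x d z n ≤ 1 := by
    intro d z n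
    rw [hx]
    dsimp only
    have e1 := ind_nonneg R (z + (t * d * m : ℤ) * n)
    have e2 := ind_le_one R (z + (t * d * m : ℤ) * n)
    have e3 := rho_nonneg R t l z
    have e4 := rho_le_one R t l htl hl z
    nlinarith
  have hsq : ∀ (d : ℕ) (z : ℤ), ((cnt R P (t * d * m) z : ℝ) / P - rho R t l z) ^ 2 =
      (∑ n ∈ range P, ∑ n' ∈ range P, x d z n * x d z n') / (P : ℝ) ^ 2 := by
    intro d z
    have e1 : (cnt R P (t * d * m) z : ℝ) / P - rho R t l z = (∑ n ∈ range P, x d z n) / P := by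
      rw [apcb_cnt, hx]
      dsimp only
      rw [Finset.sum_sub_distrib, Finset.sum_const, Finset.card_range, nsmul_eq_mul, sub_div,
        mul_div_cancel_left₀ _ hPr.ne']
    rw [e1, div_pow, sq, Finset.sum_mul_sum]
  have hV : ∀ n ∈ range P, ∀ n' ∈ range P, ∑ d ∈ Ioc D (2 * D), ∑ z ∈ W, x d z n * x d z n' ≤
      D * ((if n = n' then (l * (b - a) : ℝ) else 0) + M) := by
    intro n hn n' hn'
    rw [Finset.mem_range] at hn hn'
    rcases lt_trichotomy n n' with h | h | h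
    · rw [if_neg h.ne, zero_add, hM, hW, hx]
      exact apcb_off R t l N l1 m P D ht hm hN h3 h4 hl hD a b hab n n' h hn'
    · rw [if_pos h, ← h]
      calc ∑ d ∈ Ioc D (2 * D), ∑ z ∈ W, x d z n * x d z n
          ≤ ∑ d ∈ Ioc D (2 * D), ∑ z ∈ W, (1 : ℝ) :=
            Finset.sum_le_sum fun d _ => Finset.sum_le_sum fun z _ => hx1 d z n
        _ = D * (l * (b - a)) := by
            simp only [Finset.sum_const, nsmul_eq_mul, mul_one]
            rw [hcD, hcard]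
        _ ≤ _ := mul_le_mul_of_nonneg_left (by linarith) hDr.le
    · rw [if_neg h.ne', zero_add]
      have e1 := apcb_off R t l N l1 m P D ht hm hN h3 h4 hl hD a b hab n' n h hn
      rw [hM, hW, hx]
      refine le_trans (le_of_eq ?_) e1
      exact Finset.sum_congr rfl fun d _ => Finset.sum_congr rfl fun z _ => mul_comm _ _
  have hmain : ∑ d ∈ Ioc D (2 * D), ∑ z ∈ W, ((cnt R P (t * d * m) z : ℝ) / P - rho R t l z) ^ 2 ≤
      D * (l * (b - a) / P + M) := by
    have e1 : ∑ d ∈ Ioc D (2 * D), ∑ z ∈ W, ((cnt R P (t * d * m) z : ℝ) / P - rho R t l z) ^ 2 =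
        (∑ n ∈ range P, ∑ n' ∈ range P, ∑ d ∈ Ioc D (2 * D), ∑ z ∈ W, x d z n * x d z n') /
          (P : ℝ) ^ 2 := by
      simp only [hsq, ← Finset.sum_div]
      congr 1
      have e2 : ∀ d : ℕ, ∑ z ∈ W, ∑ n ∈ range P, ∑ n' ∈ range P, x d z n * x d z n' =
          ∑ n ∈ range P, ∑ n' ∈ range P, ∑ z ∈ W, x d z n * x d z n' := by
        intro d
        rw [Finset.sum_comm]
        exact Finset.sum_congr rfl fun n _ => Finset.sum_comm
      rw [Finset.sum_congr rfl fun d _ => e2 d, Finset.sum_comm]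
      exact Finset.sum_congr rfl fun n _ => Finset.sum_comm
    rw [e1, div_le_iff₀ (by positivity)]
    calc ∑ n ∈ range P, ∑ n' ∈ range P, ∑ d ∈ Ioc D (2 * D), ∑ z ∈ W, x d z n * x d z n'
        ≤ ∑ n ∈ range P, ∑ n' ∈ range P, D * ((if n = n' then (l * (b - a) : ℝ) else 0) + M) :=
          Finset.sum_le_sum fun n hn => Finset.sum_le_sum fun n' hn' => hV n hn n' hn'
      _ = D * (P * (l * (b - a)) + P * (P * M)) := by
          simp only [← Finset.mul_sum]
          congr 1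
          simp only [Finset.sum_add_distrib, Finset.sum_const, Finset.card_range, nsmul_eq_mul]
          congr 1
          rw [Finset.sum_congr rfl (g := fun _ => (l * (b - a) : ℝ))]
          · rw [Finset.sum_const, Finset.card_range, nsmul_eq_mul]
          · intro n hn
            rw [Finset.sum_ite_eq, if_pos hn]
      _ = _ := by
          field_simp
  rw [div_le_iff₀ hDr, ← hW]
  refine hmain.trans (le_of_eq ?_)
  rw [hM, ← hW]
  ring

end Pool.Agent.H11.HM
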