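import Pool.Agent.H11.HM.Df

/-!
[H11 HM BOX]  A set of positive upper Banach density contains all differences `y - x` of two sets of size `n`.

Proof (Kővári-Sós-Turán).  `n = 0`: empty sets.  Let `V = ⌈4n/δ⌉` (`≥ 1`) and `X` (from `hR`) `≥ V` and so large that
`(δ/2) X > n 2^V`.  For `x ∈ [0, V)` the number of the `y ∈ [M, M+X+V)` with `y - x ∈ R ∩ [M, M+X)` is `#(R ∩ [M,M+X)) ≥ δ X`.
So `∑_y deg y ≥ V δ X`, `deg y = #{x < V | y - x ∈ R}`.  If `g` is the number of `y` with `deg y ≥ n`, then `∑_y deg y ≤ g V + (X + V) n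
≤ g V + 2 X n`, so `g ≥ δ X - 2 n X/V ≥ (δ/2) X > n 2^V`.  For each such `y` choose a subset of size `n` of
`{x < V | y - x ∈ R}`; by the pigeonhole principle (at most `2^V` subsets of `range V`) one subset is chosen by at least `n` (even `> n`) of the `y`.
-/

namespace Pool.Agent.H11.HM

open Finset

theorem box (R : Set ℤ) (δ : ℝ) (hδ : 0 < δ)
    (hR : ∀ X0 : ℕ, ∃ X M : ℕ, X0 ≤ X ∧ δ * X ≤ ∑ z ∈ Ico (M : ℤ) (M + X), ind R z) (n : ℕ) :
    ∃ X Y : Finset ℕ, X.card = n ∧ Y.card = n ∧ ∀ x ∈ X, ∀ y ∈ Y, (y : ℤ) - x ∈ R := by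
  classical
  rcases Nat.eq_zero_or_pos n with hn | hn
  · subst hn
    exact ⟨∅, ∅, rfl, rfl, fun x hx => absurd hx (notMem_empty x)⟩
  set V : ℕ := ⌈4 * (n : ℝ) / δ⌉₊ with hV
  have hV4 : 4 * (n : ℝ) / δ ≤ V := Nat.le_ceil _
  have hn1 : (1 : ℝ) ≤ n := by exact_mod_cast hn
  have hVpos : (0 : ℝ) < V := lt_of_lt_of_le (by positivity) hV4
  obtain ⟨X, M, hX, hsum⟩ := hR (V + (⌈2 * (n : ℝ) * 2 ^ V / δ⌉₊ + 1))
  have hXV : V ≤ X := by omega
  have hX2 : 2 * (n : ℝ) * 2 ^ V / δ < X := by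
    have h1 : 2 * (n : ℝ) * 2 ^ V / δ ≤ ⌈2 * (n : ℝ) * 2 ^ V / δ⌉₊ := Nat.le_ceil _
    have h2 : ((⌈2 * (n : ℝ) * 2 ^ V / δ⌉₊ + 1 : ℕ) : ℝ) ≤ X := by
      exact_mod_cast (by omega : ⌈2 * (n : ℝ) * 2 ^ V / δ⌉₊ + 1 ≤ X)
    push_cast at h2
    linarith
  -- the elements of `R` in the window
  set A : Finset ℕ := (Ico M (M + X)).filter (fun z : ℕ => (z : ℤ) ∈ R) with hA
  have hAcard : δ * X ≤ A.card := by
    refine hsum.trans (le_of_eq ?_)
    have h1 : ∑ z ∈ Ico (M : ℤ) (M + X), ind R z = ∑ z ∈ Ico M (M + X), ind R (z : ℤ) := by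
      symm
      refine sum_nbij' (fun z : ℕ => (z : ℤ)) (fun z : ℤ => z.toNat) ?_ ?_ ?_ ?_ ?_
      · intro z hz
        rw [mem_Ico] at hz ⊢
        omega
      · intro z hz
        rw [mem_Ico] at hz ⊢
        omega
      · intro z _
        simp
      · intro z hz
        rw [mem_Ico] at hz
        exact Int.toNat_of_nonneg (by omega)
      · intro z _
        rfl
    rw [h1, hA, card_filter]
    push_cast
    refine sum_congr rfl fun z _ => ?_
    unfold ind
    rfl
  -- neighbours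
  set N : ℕ → Finset ℕ := fun y => (range V).filter (fun x => x ≤ y ∧ y - x ∈ A) with hN
  set Yw : Finset ℕ := Ico M (M + X + V) with hYw
  have hcount : ∑ y ∈ Yw, (N y).card = V * A.card := by
    have h1 : ∑ y ∈ Yw, (N y).card
        = ∑ x ∈ range V, (Yw.filter (fun y => x ≤ y ∧ y - x ∈ A)).card := by
      simp only [hN, card_filter]
      exact sum_comm
    rw [h1, sum_congr rfl (g := fun _ => A.card), sum_const, card_range, smul_eq_mul]
    intro x hx
    rw [mem_range] at hx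
    refine card_nbij' (fun y => y - x) (fun z => z + x) ?_ ?_ ?_ ?_
    · intro y hy
      have := mem_filter.1 (mem_coe.1 hy)
      exact this.2.2
    · intro z hz
      have hz' := mem_coe.1 hz
      have h2 := mem_Ico.1 (mem_filter.1 hz').1
      rw [mem_coe, mem_filter, mem_Ico]
      show (M ≤ z + x ∧ z + x < M + X + V) ∧ x ≤ z + x ∧ z + x - x ∈ A
      have h3 : z + x - x = z := by omega
      refine ⟨by omega, by omega, ?_⟩
      rw [h3]
      exact hz'
    · intro y hy
      have := mem_filter.1 (mem_coe.1 hy)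
      simp only
      omega
    · intro z _
      simp only
      omega
  set Gd : Finset ℕ := Yw.filter (fun y => n ≤ (N y).card) with hGd
  have hNV : ∀ y, (N y).card ≤ V := fun y => by
    have := card_filter_le (range V) (fun x => x ≤ y ∧ y - x ∈ A)
    rwa [card_range] at this
  have hup : ∑ y ∈ Yw, (N y).card ≤ Gd.card * V + (X + V) * n := by
    have h1 : ∑ y ∈ Yw, (N y).card ≤ ∑ y ∈ Yw, ((if n ≤ (N y).card then V else 0) + n) := by
      refine sum_le_sum fun y _ => ?_
      split_ifs with h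
      · have := hNV y
        omega
      · omega
    refine h1.trans ?_
    rw [sum_add_distrib, ← sum_filter, sum_const, sum_const, smul_eq_mul, smul_eq_mul, ← hGd, hYw,
      Nat.card_Ico]
    have : M + X + V - M = X + V := by omega
    rw [this]
  have hbig : n * 2 ^ V < Gd.card := by
    have h1 : (V : ℝ) * A.card ≤ Gd.card * V + (X + V) * n := by
      have := hcount ▸ hup
      exact_mod_cast this
    have h2 : (V : ℝ) * (δ * X) ≤ Gd.card * V + (X + V) * n :=
      (mul_le_mul_of_nonneg_left hAcard hVpos.le).trans h1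
    have hXVr : (V : ℝ) ≤ X := by exact_mod_cast hXV
    have h3 : 4 * (n : ℝ) ≤ V * δ := by
      rw [div_le_iff₀ hδ] at hV4
      exact hV4
    have hX0 : (0 : ℝ) ≤ X := by positivity
    have h4 : (V : ℝ) * (δ * X / 2) ≤ V * Gd.card := by
      have h5 : ((X : ℝ) + V) * n ≤ 2 * X * n := by nlinarith
      have h6 : 2 * (X : ℝ) * n ≤ V * (δ * X / 2) := by nlinarith
      linarith
    have h7 : δ * X / 2 ≤ Gd.card := le_of_mul_le_mul_left h4 hVpos
    have h8 : 2 * (n : ℝ) * 2 ^ V < X * δ := by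
      rw [div_lt_iff₀ hδ] at hX2
      exact hX2
    have h9 : (n : ℝ) * 2 ^ V < Gd.card := by linarith
    exact_mod_cast h9
  have hex : ∀ y : ℕ, ∃ T : Finset ℕ, y ∈ Gd → T ⊆ N y ∧ T.card = n := by
    intro y
    by_cases hy : y ∈ Gd
    · obtain ⟨T, h1, h2⟩ := exists_subset_card_eq (mem_filter.1 hy).2
      exact ⟨T, fun _ => ⟨h1, h2⟩⟩
    · exact ⟨∅, fun h => absurd h hy⟩
  choose F hF using hex
  have hmaps : ∀ y ∈ Gd, F y ∈ (range V).powerset := by
    intro y hy
    rw [mem_powerset]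
    exact (hF y hy).1.trans (filter_subset _ _)
  have hpig : (range V).powerset.card * n < Gd.card := by
    rw [card_powerset, card_range, mul_comm]
    exact hbig
  obtain ⟨T, -, hT⟩ := exists_lt_card_fiber_of_mul_lt_card_of_maps_to hmaps hpig
  obtain ⟨Y, hY, hYc⟩ := exists_subset_card_eq hT.le
  obtain ⟨y0, hy0⟩ : (Gd.filter (fun y => F y = T)).Nonempty := by
    rw [← card_pos]
    omega
  have hTc : T.card = n := by
    have h1 := mem_filter.1 hy0
    rw [← h1.2]
    exact (hF y0 h1.1).2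
  refine ⟨T, Y, hTc, hYc, fun x hx y hy => ?_⟩
  have h1 := mem_filter.1 (hY hy)
  have h2 : x ∈ N y := by
    refine (hF y h1.1).1 ?_
    rw [h1.2]
    exact hx
  have h3 := (mem_filter.1 h2).2
  have h4 := (mem_filter.1 h3.2).2
  rw [Nat.cast_sub h3.1] at h4
  exact h4

end Pool.Agent.H11.HM
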