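import Pool.Agent.H11.HM.Df

/-!
[H11 HM CFG]  The configuration `H = {Q1 (M i + x + δ + d y) : i < T, x ∈ X, δ < τ, y < L}`.

Proofs.  `M i + x + δ + d y` lies in `[M i, M i + d L + d)` (`x + δ < d`, because `x + τ ≤ d`), so (gap) `i` is determined and the
elements with smaller `i` are smaller; then `x + δ = (… ) mod d`, `y = (…)/d`; and `x = τ ⌊(x+δ)/τ⌋`, `δ = (x+δ) mod τ`.
`conf_admissible`: for a prime `p ≤ |H|`, `p ∣ |H|! ∣ Q1` divides all elements: `a = 1`.  For `p > |H|`: the residues `-h mod p`,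
`h ∈ H`, are fewer than `p`, so there is an `a < p` which is not one of them.
-/

namespace Pool.Agent.H11.HM

open Finset

/-- the points of the configuration -/
def pt (Q1 d : ℕ) (M : ℕ → ℕ) (q : ℕ × ℕ × ℕ × ℕ) : ℕ :=
  Q1 * (M q.1 + q.2.1 + q.2.2.1 + d * q.2.2.2)

private theorem M_le (T B : ℕ) (M : ℕ → ℕ) (hM : ∀ i, i + 1 < T → M i + B ≤ M (i + 1)) (i k : ℕ)
    (hk : i + 1 + k < T) : M i + B ≤ M (i + 1 + k) := by
  induction k with
  | zero => exact hM i (by omega)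
  | succ k ih =>
    have h1 := ih (by omega)
    have h2 := hM (i + 1 + k) (by omega)
    have h3 : i + 1 + (k + 1) = i + 1 + k + 1 := by omega
    rw [h3]
    omega

theorem pt_lt (Q1 d T τ L : ℕ) (M : ℕ → ℕ) (X : Finset ℕ) (hQ : 1 ≤ Q1)
    (hX : ∀ x ∈ X, x + τ ≤ d) (hM : ∀ i, i + 1 < T → M i + (d * L + d) ≤ M (i + 1))
    (q q' : ℕ × ℕ × ℕ × ℕ) (hq : q ∈ range T ×ˢ (X ×ˢ (range τ ×ˢ range L)))
    (hq' : q' ∈ range T ×ˢ (X ×ˢ (range τ ×ˢ range L))) (h : q.1 < q'.1) :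
    pt Q1 d M q < pt Q1 d M q' := by
  obtain ⟨i, x, e, y⟩ := q
  obtain ⟨i', x', e', y'⟩ := q'
  simp only [mem_product, mem_range] at hq hq'
  simp only at h
  have h1 := hX x hq.2.1
  have h2 := M_le T (d * L + d) M hM i (i' - i - 1) (by omega)
  have h3 : i + 1 + (i' - i - 1) = i' := by omega
  rw [h3] at h2
  have h4 : d * y ≤ d * L := Nat.mul_le_mul_left d hq.2.2.2.le
  unfold pt
  simp only
  refine Nat.mul_lt_mul_of_pos_left ?_ hQ
  omega

private theorem rem_unique {d r r' y y' : ℕ} (hr : r < d) (hr' : r' < d)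
    (h : r + d * y = r' + d * y') : y = y' ∧ r = r' := by
  have hd : 0 < d := by omega
  have h1 := congrArg (fun n => n / d) h
  simp only [Nat.add_mul_div_left _ _ hd, Nat.div_eq_of_lt hr, Nat.div_eq_of_lt hr', zero_add] at h1
  subst h1
  exact ⟨rfl, by omega⟩

theorem pt_inj (Q1 d T τ L : ℕ) (M : ℕ → ℕ) (X : Finset ℕ) (hQ : 1 ≤ Q1)
    (hX : ∀ x ∈ X, x + τ ≤ d) (hτ : ∀ x ∈ X, τ ∣ x)
    (hM : ∀ i, i + 1 < T → M i + (d * L + d) ≤ M (i + 1)) :
    Set.InjOn (pt Q1 d M) (range T ×ˢ (X ×ˢ (range τ ×ˢ range L)) : Finset (ℕ × ℕ × ℕ × ℕ)) := by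
  intro q hq q' hq' hqq
  rw [Finset.mem_coe] at hq hq'
  rcases lt_trichotomy q.1 q'.1 with h | h | h
  · have := pt_lt Q1 d T τ L M X hQ hX hM q q' hq hq' h
    omega
  · obtain ⟨i, x, e, y⟩ := q
    obtain ⟨i', x', e', y'⟩ := q'
    simp only at h
    subst h
    simp only [mem_product, mem_range] at hq hq'
    unfold pt at hqq
    simp only at hqq
    have h1 := Nat.eq_of_mul_eq_mul_left hQ hqq
    have h2 : (x + e) + d * y = (x' + e') + d * y' := by omega
    have h3 := hX x hq.2.1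
    have h4 := hX x' hq'.2.1
    obtain ⟨h5, h6⟩ := rem_unique (by omega) (by omega) h2
    obtain ⟨a, ha⟩ := hτ x hq.2.1
    obtain ⟨a', ha'⟩ := hτ x' hq'.2.1
    have h7 : e + τ * a = e' + τ * a' := by omega
    obtain ⟨h8, h9⟩ := rem_unique hq.2.2.1 hq'.2.2.1 h7
    subst h5 h8 h9
    rw [ha, ha']
  · have := pt_lt Q1 d T τ L M X hQ hX hM q' q hq' hq h
    omega

/-- a set of at most `n` multiples of `n!` is admissible -/
theorem conf_admissible (H : Finset ℕ) (n : ℕ) (hn : H.card ≤ n)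
    (hH : ∀ h ∈ H, n.factorial ∣ h) : ∀ p : ℕ, p.Prime → ∃ a : ℕ, ∀ h ∈ H, ¬ p ∣ a + h := by
  intro p hp
  rcases le_or_gt p n with hpn | hpn
  · refine ⟨1, fun h hh hdvd => ?_⟩
    have h1 : p ∣ h := ((Nat.Prime.dvd_factorial hp).2 hpn).trans (hH h hh)
    have h2 : p ∣ 1 := (Nat.dvd_add_left h1).1 hdvd
    exact hp.one_lt.ne' (Nat.dvd_one.1 h2)
  · have hpos := hp.pos
    have h1 : (H.image (fun h => (p - h % p) % p)).card < (range p).card := by
      rw [card_range]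
      exact lt_of_le_of_lt (card_image_le.trans hn) hpn
    obtain ⟨a, ha, hna⟩ := exists_mem_notMem_of_card_lt_card h1
    refine ⟨a, fun h hh hdvd => hna (mem_image.2 ⟨h, hh, ?_⟩)⟩
    have hap := mem_range.1 ha
    have hhp := Nat.mod_lt h hpos
    have h2 : (a + h) % p = 0 := Nat.mod_eq_zero_of_dvd hdvd
    have h3 : (a + h % p) % p = 0 := by
      rw [Nat.add_mod_mod]
      exact h2
    rcases Nat.lt_or_ge (a + h % p) p with h4 | h4
    · rw [Nat.mod_eq_of_lt h4] at h3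
      have h5 : h % p = 0 := by omega
      have h6 : a = 0 := by omega
      rw [h5, h6, Nat.sub_zero, Nat.mod_self]
    · have h5 : a + h % p < 2 * p := by omega
      have h6 : (a + h % p) % p = a + h % p - p := by
        rw [Nat.mod_eq_sub_mod h4, Nat.mod_eq_of_lt (by omega)]
      rw [h6] at h3
      have h7 : p - h % p = a := by omega
      rw [h7, Nat.mod_eq_of_lt hap]

end Pool.Agent.H11.HM
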