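import Pool.Agent.H11.HM.Df

/-!
[H11 HM CHM]  The choice of the times `M 0 < M 1 < … < M (T-1)`.

Proof.  Induction on the number `t ≤ T` of the times chosen (statement for `t`: a function `M` with the properties for `i + 1 < t` and
`i < j < t`).  `t = 0`: nothing (`M = 0`).  Step: let `M 0, …, M (t-1)` be given, `t < T`, and let `A` be an upper bound for all `M i`
(`i < t`) and `S0` for all `|s ι|`, `ι ∈ I`.  Take a window `[W, W+X)` with `W ≥ A + G` (and `W ≥ …`) and `X` large.  For `z ∈ [W, W+X)` as a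
candidate for `M t`: for each `i < t`
* the number of the `z` with `z - M i ∈ Bd` is `≤ #{z' ∈ [W, W+X) | z' ∈ Bd} + M i ≤ η X + A` (the shifted window has at most `M i`
  elements outside the window);
* `∑_z ∑_{ι ∈ I} f (z - M i + s ι) ≤ |I| (∑_{z' ∈ [W,W+X)} f z' + C (A + S0)) ≤ |I| (η X + C (A + S0))`, so the number of the `z` with
  `∑_ι f (…) > η1 |I|` is `≤ (η X + C (A + S0))/η1` (if `I` is empty there are none).
So at most `T (η + η/η1) X + T (A + C (A + S0)/η1) ≤ X/2 + T (…) < X` of the `z` are excluded for some `i`, if `X` is large.  Take `M t = z` (as a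
natural number) for a `z` which is not excluded; `z ≥ W ≥ M (t-1) + G`.
-/

namespace Pool.Agent.H11.HM

open Finset

private theorem chm_union (F : ℤ → ℝ) (C : ℝ) (hF : ∀ z, 0 ≤ F z) (hC : ∀ z, F z ≤ C)
    (A B D : Finset ℤ) (h : A ⊆ B ∪ D) : ∑ z ∈ A, F z ≤ ∑ z ∈ B, F z + C * D.card := by
  classical
  calc ∑ z ∈ A, F z ≤ ∑ z ∈ B ∪ D, F z :=
        Finset.sum_le_sum_of_subset_of_nonneg h fun z _ _ => hF z
    _ ≤ ∑ z ∈ B ∪ D, F z + ∑ z ∈ B ∩ D, F z :=
        le_add_of_nonneg_right (Finset.sum_nonneg fun z _ => hF z)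
    _ = ∑ z ∈ B, F z + ∑ z ∈ D, F z := Finset.sum_union_inter
    _ ≤ ∑ z ∈ B, F z + C * D.card := by
        have h1 : ∑ z ∈ D, F z ≤ ∑ _z ∈ D, C := Finset.sum_le_sum fun z _ => hC z
        rw [Finset.sum_const, nsmul_eq_mul, mul_comm] at h1
        linarith

private theorem chm_shift (F : ℤ → ℝ) (C : ℝ) (hF : ∀ z, 0 ≤ F z) (hC : ∀ z, F z ≤ C)
    (W : ℤ) (X : ℕ) (c : ℤ) :
    ∑ z ∈ Ico W (W + X), F (z + c) ≤ ∑ z ∈ Ico W (W + X), F z + C * |(c : ℝ)| := by
  have h1 : ∑ z ∈ Ico W (W + X), F (z + c) = ∑ z ∈ Ico (W + c) (W + X + c), F z :=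
    Finset.sum_Ico_add' F W (W + X) c
  rw [h1]
  rcases le_total 0 c with h0 | h0
  · have h2 := chm_union F C hF hC (Ico (W + c) (W + X + c)) (Ico W (W + X))
      (Ico (W + X) (W + X + c)) (by
        intro z hz
        rw [mem_union, mem_Ico, mem_Ico]
        rw [mem_Ico] at hz
        omega)
    have h3 : (((Ico (W + X) (W + X + c)).card : ℕ) : ℝ) = |(c : ℝ)| := by
      rw [Int.card_Ico]
      have h4 : (W + X + c - (W + X)).toNat = c.toNat := by congr 1; ring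
      rw [h4, abs_of_nonneg (by exact_mod_cast h0)]
      have h5 : ((c.toNat : ℤ) : ℝ) = (c : ℝ) := by rw [Int.toNat_of_nonneg h0]
      exact_mod_cast h5
    rw [h3] at h2
    exact h2
  · have h2 := chm_union F C hF hC (Ico (W + c) (W + X + c)) (Ico W (W + X))
      (Ico (W + c) W) (by
        intro z hz
        rw [mem_union, mem_Ico, mem_Ico]
        rw [mem_Ico] at hz
        omega)
    have h3 : (((Ico (W + c) W).card : ℕ) : ℝ) = |(c : ℝ)| := by
      rw [Int.card_Ico]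
      have h4 : (W - (W + c)).toNat = (-c).toNat := by congr 1; ring
      rw [h4, abs_of_nonpos (by exact_mod_cast h0)]
      have h5 : (((-c).toNat : ℤ) : ℝ) = ((-c : ℤ) : ℝ) := by
        rw [Int.toNat_of_nonneg (by omega)]
      push_cast at h5 ⊢
      exact_mod_cast h5
    rw [h3] at h2
    exact h2

open Classical in
private theorem chm_step (T G : ℕ) (Bd : Set ℤ) (f : ℤ → ℝ) (C η η1 : ℝ) (hf : ∀ z, 0 ≤ f z)
    (hfC : ∀ z, f z ≤ C) (hη : 0 ≤ η) (hη1 : 0 < η1) (hT : T * (η + η / η1) ≤ 1 / 2)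
    (hW : ∀ X0 M0 : ℕ, ∃ X M : ℕ, X0 ≤ X ∧ M0 ≤ M ∧
      (((Ico (M : ℤ) (M + X)).filter (fun z => z ∈ Bd)).card : ℝ) ≤ η * X ∧
      ∑ z ∈ Ico (M : ℤ) (M + X), f z ≤ η * X)
    {ι : Type} (I : Finset ι) (s : ι → ℤ) (t : ℕ) (ht : t < T) (M : ℕ → ℕ) :
    ∃ z : ℕ, (∀ i, i < t → M i + G ≤ z) ∧ ∀ i, i < t → ((z : ℤ) - M i) ∉ Bd ∧
        ∑ k ∈ I, f ((z : ℤ) - M i + s k) ≤ η1 * I.card := by
  obtain ⟨A, hA⟩ : ∃ A : ℕ, A = ∑ i ∈ range t, M i := ⟨_, rfl⟩
  have hMA : ∀ i, i < t → M i ≤ A := by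
    intro i hi
    rw [hA]
    exact Finset.single_le_sum (f := fun i => M i) (fun _ _ => Nat.zero_le _) (mem_range.2 hi)
  obtain ⟨S0, hS0⟩ : ∃ S0 : ℝ, S0 = ∑ k ∈ I, |((s k : ℤ) : ℝ)| := ⟨_, rfl⟩
  have hsS : ∀ k ∈ I, |((s k : ℤ) : ℝ)| ≤ S0 := by
    intro k hk
    rw [hS0]
    exact Finset.single_le_sum (f := fun k => |((s k : ℤ) : ℝ)|) (fun _ _ => abs_nonneg _) hk
  have hS00 : 0 ≤ S0 := by rw [hS0]; exact Finset.sum_nonneg fun _ _ => abs_nonneg _
  have hC0 : 0 ≤ C := (hf 0).trans (hfC 0)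
  obtain ⟨D0, hD0⟩ : ∃ D0 : ℝ, D0 = T * (A + C * (A + S0) / η1) := ⟨_, rfl⟩
  have hD00 : 0 ≤ D0 := by rw [hD0]; positivity
  obtain ⟨X, W, hX, hWM, hB, hfs⟩ := hW (⌈2 * D0⌉₊ + 1) (A + G)
  have hXD : 2 * D0 < X := by
    have h1 := Nat.le_ceil (2 * D0)
    have h2 : ((⌈2 * D0⌉₊ + 1 : ℕ) : ℝ) ≤ X := by exact_mod_cast hX
    push_cast at h2
    linarith
  have hX0 : (0 : ℝ) ≤ X := Nat.cast_nonneg _
  set Win : Finset ℤ := Ico (W : ℤ) (W + X) with hWin
  have hcardW : (Win.card : ℝ) = X := by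
    rw [hWin, Int.card_Ico]
    have : ((W : ℤ) + X - W).toNat = X := by
      have : ((W : ℤ) + X - W) = (X : ℤ) := by ring
      rw [this, Int.toNat_natCast]
    rw [this]
  -- the two bad sets
  have hbad1 : ∀ i, i < t → (((Win.filter (fun z : ℤ => z - (M i : ℤ) ∈ Bd)).card : ℕ) : ℝ) ≤ η * X + A := by
    intro i hi
    have h1 := chm_shift (fun z => if z ∈ Bd then (1 : ℝ) else 0) 1
      (fun z => by positivity) (fun z => by beta_reduce; split_ifs <;> norm_num) W X (-(M i : ℤ))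
    rw [← hWin, Finset.sum_boole, Finset.sum_boole] at h1
    have h2 : |(((-(M i : ℤ) : ℤ)) : ℝ)| = M i := by
      push_cast
      rw [abs_neg, abs_of_nonneg (Nat.cast_nonneg _)]
    rw [h2, one_mul] at h1
    have h3 : (M i : ℝ) ≤ A := by exact_mod_cast hMA i hi
    have h4 : (Win.filter (fun z : ℤ => z - (M i : ℤ) ∈ Bd)) = (Win.filter (fun z : ℤ => z + -(M i : ℤ) ∈ Bd)) := by
      apply Finset.filter_congr
      intro z _
      rw [sub_eq_add_neg]
    rw [h4]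
    linarith
  have hbad2 : ∀ i, i < t → (((Win.filter (fun z : ℤ => η1 * I.card < ∑ k ∈ I, f (z - (M i : ℤ) + s k))).card : ℕ) : ℝ) ≤
      (η * X + C * (A + S0)) / η1 := by
    intro i hi
    have hM0 : (M i : ℝ) ≤ A := by exact_mod_cast hMA i hi
    have h1 : ∀ k ∈ I, ∑ z ∈ Win, f (z - M i + s k) ≤ η * X + C * (A + S0) := by
      intro k hk
      have h2 := chm_shift f C hf hfC W X (-(M i : ℤ) + s k)
      rw [← hWin] at h2
      have h3 : |(((-(M i : ℤ) + s k : ℤ)) : ℝ)| ≤ A + S0 := by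
        push_cast
        refine (abs_add_le _ _).trans ?_
        rw [abs_neg, abs_of_nonneg (Nat.cast_nonneg _)]
        linarith [hsS k hk]
      have h4 : ∑ z ∈ Win, f (z - M i + s k) = ∑ z ∈ Win, f (z + (-(M i : ℤ) + s k)) := by
        refine Finset.sum_congr rfl fun z _ => ?_
        congr 1
        ring
      rw [h4]
      have h5 := mul_le_mul_of_nonneg_left h3 hC0
      linarith
    have h2 : η1 * I.card * (((Win.filter (fun z : ℤ => η1 * I.card < ∑ k ∈ I, f (z - (M i : ℤ) + s k))).card : ℕ) : ℝ) ≤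
        I.card * (η * X + C * (A + S0)) := by
      calc η1 * I.card * (((Win.filter (fun z : ℤ => η1 * I.card < ∑ k ∈ I, f (z - (M i : ℤ) + s k))).card : ℕ) : ℝ)
          = ∑ _z ∈ Win.filter (fun z : ℤ => η1 * I.card < ∑ k ∈ I, f (z - (M i : ℤ) + s k)), η1 * I.card := by
            rw [Finset.sum_const, nsmul_eq_mul]
            ring
        _ ≤ ∑ z ∈ Win.filter (fun z : ℤ => η1 * I.card < ∑ k ∈ I, f (z - (M i : ℤ) + s k)),
            ∑ k ∈ I, f (z - M i + s k) :=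
            Finset.sum_le_sum fun z hz => (mem_filter.1 hz).2.le
        _ ≤ ∑ z ∈ Win, ∑ k ∈ I, f (z - M i + s k) :=
            Finset.sum_le_sum_of_subset_of_nonneg (Finset.filter_subset _ _)
              fun z _ _ => Finset.sum_nonneg fun k _ => hf _
        _ = ∑ k ∈ I, ∑ z ∈ Win, f (z - M i + s k) := Finset.sum_comm
        _ ≤ ∑ _k ∈ I, (η * X + C * (A + S0)) := Finset.sum_le_sum h1
        _ = I.card * (η * X + C * (A + S0)) := by rw [Finset.sum_const, nsmul_eq_mul]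
    rcases Nat.eq_zero_or_pos I.card with h3 | h3
    · have h4 : (Win.filter (fun z : ℤ => η1 * I.card < ∑ k ∈ I, f (z - (M i : ℤ) + s k))) = ∅ := by
        apply Finset.filter_eq_empty_iff.2
        intro z _
        rw [Finset.card_eq_zero.1 h3]
        simp
      rw [h4, Finset.card_empty]
      push_cast
      positivity
    · have h4 : (0 : ℝ) < I.card := by exact_mod_cast h3
      rw [le_div_iff₀ hη1]
      have h5 : (I.card : ℝ) * ((((Win.filter (fun z : ℤ => η1 * I.card < ∑ k ∈ I, f (z - (M i : ℤ) + s k))).card : ℕ) : ℝ) * η1) ≤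
          I.card * (η * X + C * (A + S0)) := by
        linarith
      exact le_of_mul_le_mul_left h5 h4
  -- a point which is not bad
  have hex : ∃ z ∈ Win, ∀ i, i < t → z - (M i : ℤ) ∉ Bd ∧ ∑ k ∈ I, f (z - (M i : ℤ) + s k) ≤ η1 * I.card := by
    by_contra hcon
    push Not at hcon
    have h1 : Win ⊆ (range t).biUnion (fun i => Win.filter (fun z : ℤ => z - (M i : ℤ) ∈ Bd) ∪
        Win.filter (fun z : ℤ => η1 * I.card < ∑ k ∈ I, f (z - (M i : ℤ) + s k))) := by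
      intro z hz
      obtain ⟨i, hi, h2⟩ := hcon z hz
      rw [mem_biUnion]
      refine ⟨i, mem_range.2 hi, ?_⟩
      rw [mem_union, mem_filter, mem_filter]
      by_cases h3 : z - (M i : ℤ) ∈ Bd
      · exact Or.inl ⟨hz, h3⟩
      · exact Or.inr ⟨hz, h2 h3⟩
    have h2 : (Win.card : ℝ) ≤ ∑ _i ∈ range t, ((η * X + A) + (η * X + C * (A + S0)) / η1) := by
      have h3 : (Win.card : ℝ) ≤ ∑ i ∈ range t, (((Win.filter (fun z : ℤ => z - (M i : ℤ) ∈ Bd) ∪
        Win.filter (fun z : ℤ => η1 * I.card < ∑ k ∈ I, f (z - (M i : ℤ) + s k))).card : ℕ) : ℝ) := by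
        exact_mod_cast (Finset.card_le_card h1).trans Finset.card_biUnion_le
      refine h3.trans (Finset.sum_le_sum fun i hi => ?_)
      rw [mem_range] at hi
      have h4 := Finset.card_union_le (Win.filter (fun z : ℤ => z - (M i : ℤ) ∈ Bd))
        (Win.filter (fun z : ℤ => η1 * I.card < ∑ k ∈ I, f (z - (M i : ℤ) + s k)))
      have h5 : (((Win.filter (fun z : ℤ => z - (M i : ℤ) ∈ Bd) ∪
        Win.filter (fun z : ℤ => η1 * I.card < ∑ k ∈ I, f (z - (M i : ℤ) + s k))).card : ℕ) : ℝ) ≤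
        ((Win.filter (fun z : ℤ => z - (M i : ℤ) ∈ Bd)).card : ℝ) +
        ((Win.filter (fun z : ℤ => η1 * I.card < ∑ k ∈ I, f (z - (M i : ℤ) + s k))).card : ℝ) := by
        exact_mod_cast h4
      exact h5.trans (add_le_add (hbad1 i hi) (hbad2 i hi))
    rw [Finset.sum_const, card_range, nsmul_eq_mul, hcardW] at h2
    have h3 : (t : ℝ) ≤ T := by exact_mod_cast ht.le
    have h4 : (t : ℝ) * ((η * X + A) + (η * X + C * (A + S0)) / η1) ≤
        T * ((η * X + A) + (η * X + C * (A + S0)) / η1) :=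
      mul_le_mul_of_nonneg_right h3 (by positivity)
    have h5 : (T : ℝ) * ((η * X + A) + (η * X + C * (A + S0)) / η1) =
        T * (η + η / η1) * X + D0 := by
      rw [hD0]
      ring
    have h6 : (T : ℝ) * (η + η / η1) * X ≤ 1 / 2 * X := mul_le_mul_of_nonneg_right hT hX0
    linarith
  obtain ⟨z, hz, hz2⟩ := hex
  rw [hWin, mem_Ico] at hz
  have hz0 : 0 ≤ z := by omega
  refine ⟨z.toNat, fun i hi => ?_, fun i hi => ?_⟩
  · have := hMA i hi
    omega
  · have h1 : ((z.toNat : ℕ) : ℤ) = z := Int.toNat_of_nonneg hz0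
    rw [h1]
    exact hz2 i hi

open Classical in
theorem choose_times (T G : ℕ) (Bd : Set ℤ) (f : ℤ → ℝ) (C η η1 : ℝ) (hf : ∀ z, 0 ≤ f z)
    (hfC : ∀ z, f z ≤ C) (hη : 0 ≤ η) (hη1 : 0 < η1) (hT : T * (η + η / η1) ≤ 1 / 2)
    (hW : ∀ X0 M0 : ℕ, ∃ X M : ℕ, X0 ≤ X ∧ M0 ≤ M ∧
      (((Ico (M : ℤ) (M + X)).filter (fun z => z ∈ Bd)).card : ℝ) ≤ η * X ∧
      ∑ z ∈ Ico (M : ℤ) (M + X), f z ≤ η * X)
    {ι : Type} (I : Finset ι) (s : ι → ℤ) :
    ∃ M : ℕ → ℕ, (∀ i, i + 1 < T → M i + G ≤ M (i + 1)) ∧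
      ∀ i j, i < j → j < T → ((M j : ℤ) - M i) ∉ Bd ∧
        ∑ k ∈ I, f ((M j : ℤ) - M i + s k) ≤ η1 * I.card := by
  have key : ∀ t : ℕ, t ≤ T → ∃ M : ℕ → ℕ, (∀ i, i + 1 < t → M i + G ≤ M (i + 1)) ∧
      ∀ i j, i < j → j < t → ((M j : ℤ) - M i) ∉ Bd ∧
        ∑ k ∈ I, f ((M j : ℤ) - M i + s k) ≤ η1 * I.card := by
    intro t
    induction t with
    | zero =>
      intro _
      exact ⟨0, fun i hi => by omega, fun i j _ hj => by omega⟩
    | succ t ih =>
      intro ht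
      obtain ⟨M, hM1, hM2⟩ := ih (by omega)
      obtain ⟨z, hz1, hz2⟩ := chm_step T G Bd f C η η1 hf hfC hη hη1 hT hW I s t (by omega) M
      refine ⟨fun i => if i = t then z else M i, fun i hi => ?_, fun i j hij hj => ?_⟩
      · have h1 : i ≠ t := by omega
        by_cases h2 : i + 1 = t
        · simp only [if_neg h1, if_pos h2]
          exact hz1 i (by omega)
        · simp only [if_neg h1, if_neg h2]
          exact hM1 i (by omega)
      · have h1 : i ≠ t := by omega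
        by_cases h2 : j = t
        · simp only [if_neg h1, if_pos h2]
          exact hz2 i (by omega)
        · simp only [if_neg h1, if_neg h2]
          exact hM2 i j hij (by omega)
  exact key T le_rfl

end Pool.Agent.H11.HM
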