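import Pool.Agent.H11.HM.Df

/-!
[H11 HM CSB]  Two translates of a large set of samples meet.

Proof.  The sets `G + i P = {(g j + i P)_j : g ∈ G}`, `i = 0, …, K`, have `|G|` elements each and lie in `([0, 2L))^k` (as `K P ≤ L`), which has
`(2L)^k < (K+1) |G|` elements.  By the pigeonhole principle (the map `(i, g) ↦ g + i P` from `range (K+1) × G` is not injective)
there are `(i, g) ≠ (i', g')` with `g + i P = g' + i' P`; `i ≠ i'` (otherwise `g = g'`), say `i < i'`: `g = g' + (i' - i) P`, `m = i' - i`.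
-/

namespace Pool.Agent.H11.HM

open Finset

theorem shift_coincidence (k K P L : ℕ) (hP : 1 ≤ P) (hL : K * P ≤ L) (G : Finset (Fin k → ℤ))
    (hG : ∀ s ∈ G, ∀ j, s j ∈ Ico 0 (L : ℤ)) (hc : (2 * L) ^ k < (K + 1) * G.card) :
    ∃ m : ℕ, 1 ≤ m ∧ m ≤ K ∧ ∃ g ∈ G, ∃ g' ∈ G, ∀ j, g j = g' j + m * P := by
  classical
  set T : Finset (Fin k → ℤ) := Fintype.piFinset (fun _ => Ico 0 (2 * (L : ℤ))) with hTdef
  have hT : T.card = (2 * L) ^ k := by
    have h2 : (2 * (L : ℤ)).toNat = 2 * L := by omega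
    simp [hTdef, h2]
  have hcard : T.card < (range (K + 1) ×ˢ G).card := by
    rw [hT, card_product, card_range]; exact hc
  have hmaps : ∀ p ∈ range (K + 1) ×ˢ G,
      (fun p : ℕ × (Fin k → ℤ) => fun j => p.2 j + (p.1 : ℤ) * P) p ∈ T := by
    intro p hp
    rw [mem_product, mem_range] at hp
    obtain ⟨h1, h2⟩ := hp
    rw [hTdef, Fintype.mem_piFinset]
    intro j
    have h3 := hG p.2 h2 j
    rw [mem_Ico] at h3 ⊢
    have h4 : (p.1 : ℤ) * P ≤ K * P := by
      have : p.1 ≤ K := by omega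
      exact_mod_cast Nat.mul_le_mul_right P this
    have h5 : ((K * P : ℕ) : ℤ) ≤ (L : ℤ) := by exact_mod_cast hL
    push_cast at h5
    have h6 : (0 : ℤ) ≤ (p.1 : ℤ) * P := by positivity
    constructor
    · show (0 : ℤ) ≤ p.2 j + (p.1 : ℤ) * P
      linarith
    · show p.2 j + (p.1 : ℤ) * P < 2 * (L : ℤ)
      linarith
  obtain ⟨x, hx, y, hy, hne, he⟩ := exists_ne_map_eq_of_card_lt_of_maps_to hcard hmaps
  have he' : ∀ j, x.2 j + (x.1 : ℤ) * P = y.2 j + (y.1 : ℤ) * P := fun j => congrFun he j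
  rw [mem_product, mem_range] at hx hy
  rcases lt_trichotomy x.1 y.1 with h | h | h
  · refine ⟨y.1 - x.1, by omega, by omega, x.2, hx.2, y.2, hy.2, ?_⟩
    intro j
    have h1 := he' j
    have h2 : ((y.1 - x.1 : ℕ) : ℤ) = (y.1 : ℤ) - x.1 := by
      rw [Nat.cast_sub h.le]
    rw [h2, sub_mul]
    linarith
  · exfalso
    apply hne
    refine Prod.ext h ?_
    funext j
    have h1 := he' j
    rw [h] at h1
    linarith
  · refine ⟨x.1 - y.1, by omega, by omega, y.2, hy.2, x.2, hx.2, ?_⟩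
    intro j
    have h1 := he' j
    have h2 : ((x.1 - y.1 : ℕ) : ℤ) = (x.1 : ℤ) - y.1 := by
      rw [Nat.cast_sub h.le]
    rw [h2, sub_mul]
    linarith

end Pool.Agent.H11.HM
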