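import Pool.Agent.H11.HM.CsA
import Pool.Agent.H11.HM.CsB

/-!
[H11 HM CS]  Almost periods of the correlations of dense sets (after Croot and Sisask).

Proof.  `k = ⌈16/ε^2⌉` (`≥ 1`), `K = ⌈2 (2/ε)^k⌉ + 1`.  Let `σ = |S|`; `ε L ≤ σ ≤ L`; if `L = 0` everything is `0` (`m = 1`), so `L ≥ 1`,
`σ ≥ 1`.  For `s : Fin k → ℤ` with all `s j ∈ S` (`piFinset`) let `f_s(n) = (σ/k) #{j | s j + n ∈ S'}`.

* For fixed `n`: the average of `f_s(n)` over `s ∈ S^k` is `cor n` (`cor = cor S S'`), and the average of `(f_s(n) - cor n)^2` is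
  `(σ^2/k^2) k v` with `v ≤ cor(n)/σ` the variance of the indicator (the coordinates are independent), so it is `≤ σ cor(n)/k`.
  This is `var_bound` (`CsA.lean`).
* `∑_n cor n ≤ σ |S'| ≤ L^2` (the sum over `n` in any finite set), so the average over `s` of `∑_{n ∈ Ico (-L) (2L)} (f_s(n) - cor n)^2` is
  `≤ σ L^2/k ≤ L^3/k`.
* Let `G` be the set of the `s ∈ S^k` for which this sum is `≤ 2 L^3/k`: `|G| ≥ σ^k/2 ≥ (ε L)^k/2` (Markov).
* The sets `G + j P` (all coordinates shifted), `j = 0, …, K`, lie in `([0, 2L))^k` (because `K P ≤ L`), which has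
  `(2L)^k < (K+1) (ε L)^k/2` elements (choice of `K`).  So they are not disjoint: `g + j P = g' + j' P` with `j < j'`,
  `g = g' + m P`, `1 ≤ m = j' - j ≤ K`.  This is `shift_coincidence` (`CsB.lean`).
* Then `f_g(n) = f_{g'}(n + m P)`, so `|cor(n + m P) - cor n| ≤ |cor(n + mP) - f_{g'}(n + mP)| + |f_g(n) - cor n|`; sum over
  `n ∈ Ico (-L) L` (`n + m P ∈ Ico (-L) (2L)`, distinct), Cauchy-Schwarz with `2L` terms:
  `≤ 2 √(2L · 2L^3/k) = 4 L^2/√k ≤ ε L^2`.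
-/

namespace Pool.Agent.H11.HM

open Finset

private theorem cs_sum_cor (S S' X : Finset ℤ) :
    ∑ n ∈ X, (cor S S' n : ℝ) ≤ (S.card : ℝ) * S'.card := by
  have h : ∑ n ∈ X, cor S S' n ≤ S.card * S'.card := by
    calc ∑ n ∈ X, cor S S' n = ∑ n ∈ X, ∑ y ∈ S, (if y + n ∈ S' then 1 else 0) := by
          apply sum_congr rfl
          intro n _
          unfold cor
          rw [card_filter]
      _ = ∑ y ∈ S, ∑ n ∈ X, (if y + n ∈ S' then 1 else 0) := sum_comm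
      _ ≤ ∑ _y ∈ S, S'.card := by
          apply sum_le_sum
          intro y _
          rw [← card_filter]
          apply card_le_card_of_injOn (fun n => y + n)
          · intro n hn
            exact (mem_filter.1 hn).2
          · intro a _ b _ hab
            exact add_left_cancel hab
      _ = S.card * S'.card := by rw [sum_const, smul_eq_mul]
  exact_mod_cast h

/-- the sampled correlation -/
private noncomputable def csf (S S' : Finset ℤ) (k : ℕ) (s : Fin k → ℤ) (n : ℤ) : ℝ :=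
  (S.card : ℝ) / k * ((univ.filter (fun j : Fin k => s j + n ∈ S')).card : ℝ)

private theorem cs_l1 (X : Finset ℤ) (u : ℤ → ℝ) (L : ℕ) (ε k : ℝ) (hk : 16 / ε ^ 2 ≤ k)
    (h0 : 0 < ε) (hX : (X.card : ℝ) ≤ 2 * L)
    (hu : ∑ n ∈ X, u n ^ 2 ≤ 2 * (L : ℝ) ^ 3 / k) :
    ∑ n ∈ X, |u n| ≤ ε * (L : ℝ) ^ 2 / 2 := by
  have hk0 : 0 < k := lt_of_lt_of_le (by positivity) hk
  have h1 : (∑ n ∈ X, |u n|) ^ 2 ≤ X.card * ∑ n ∈ X, |u n| ^ 2 := sq_sum_le_card_mul_sum_sq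
  have h2 : ∑ n ∈ X, |u n| ^ 2 = ∑ n ∈ X, u n ^ 2 := sum_congr rfl fun n _ => sq_abs _
  rw [h2] at h1
  have h3 : (∑ n ∈ X, |u n|) ^ 2 ≤ (ε * (L : ℝ) ^ 2 / 2) ^ 2 := by
    have h4 : (X.card : ℝ) * ∑ n ∈ X, u n ^ 2 ≤ (2 * L) * (2 * (L : ℝ) ^ 3 / k) :=
      mul_le_mul hX hu (sum_nonneg fun n _ => sq_nonneg _) (by positivity)
    refine h1.trans (h4.trans ?_)
    have h5 : 1 / k ≤ ε ^ 2 / 16 := by
      rw [div_le_div_iff₀ hk0 (by norm_num)]
      rw [div_le_iff₀ (by positivity)] at hk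
      linarith
    have h6 : (2 * (L : ℝ)) * (2 * (L : ℝ) ^ 3 / k) = 4 * (L : ℝ) ^ 4 * (1 / k) := by ring
    rw [h6]
    calc 4 * (L : ℝ) ^ 4 * (1 / k) ≤ 4 * (L : ℝ) ^ 4 * (ε ^ 2 / 16) :=
          mul_le_mul_of_nonneg_left h5 (by positivity)
      _ = (ε * (L : ℝ) ^ 2 / 2) ^ 2 := by ring
  exact le_of_sq_le_sq h3 (by positivity)

theorem almost_period (ε : ℝ) (h0 : 0 < ε) (h1 : ε ≤ 1) : ∃ K : ℕ, 1 ≤ K ∧
    ∀ P L : ℕ, 1 ≤ P → K * P ≤ L → ∀ S S' : Finset ℤ, S ⊆ Ico 0 (L : ℤ) → S' ⊆ Ico 0 (L : ℤ) →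
      ε * L ≤ (S.card : ℝ) →
      ∃ m : ℕ, 1 ≤ m ∧ m ≤ K ∧
        ∑ n ∈ Ico (-(L : ℤ)) L, |(cor S S' (n + m * P) : ℝ) - (cor S S' n : ℝ)| ≤
          ε * (L : ℝ) ^ 2 := by
  classical
  obtain ⟨k, hk⟩ : ∃ k : ℕ, k = ⌈16 / ε ^ 2⌉₊ := ⟨_, rfl⟩
  have hk16 : 16 / ε ^ 2 ≤ (k : ℝ) := by rw [hk]; exact Nat.le_ceil _
  have hk0 : (0 : ℝ) < k := lt_of_lt_of_le (by positivity) hk16
  have hk1 : 1 ≤ k := by
    have : 0 < k := by exact_mod_cast hk0
    omega
  refine ⟨⌈2 * (2 / ε) ^ k⌉₊ + 1, by omega, ?_⟩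
  obtain ⟨K, hK⟩ : ∃ K : ℕ, K = ⌈2 * (2 / ε) ^ k⌉₊ + 1 := ⟨_, rfl⟩
  rw [← hK]
  have hK1 : 2 * (2 / ε) ^ k ≤ (K : ℝ) := by
    rw [hK]
    push_cast
    have := Nat.le_ceil (2 * (2 / ε) ^ k)
    linarith
  intro P L hP hKP S S' hS hS' hSL
  have hL1 : 1 ≤ L := by
    have h2 : 1 * 1 ≤ K * P := Nat.mul_le_mul (by omega) hP
    omega
  have hL0 : (0 : ℝ) < L := by exact_mod_cast hL1
  have hσ0 : (0 : ℝ) < S.card := lt_of_lt_of_le (by positivity) hSL
  have hcardIco : (Ico 0 (L : ℤ)).card = L := by rw [Int.card_Ico]; omega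
  have hσL : (S.card : ℝ) ≤ L := by
    have := card_le_card hS
    rw [hcardIco] at this
    exact_mod_cast this
  have hσL' : (S'.card : ℝ) ≤ L := by
    have := card_le_card hS'
    rw [hcardIco] at this
    exact_mod_cast this
  -- the total deviation
  let T : (Fin k → ℤ) → ℝ := fun s =>
    ∑ n ∈ Ico (-(L : ℤ)) (2 * L), (csf S S' k s n - (cor S S' n : ℝ)) ^ 2
  let Sk := Fintype.piFinset (fun _ : Fin k => S)
  have hT0 : ∀ s, 0 ≤ T s := fun s => sum_nonneg fun n _ => sq_nonneg _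
  have hSkc : (Sk.card : ℝ) = (S.card : ℝ) ^ k := by
    have : Sk.card = S.card ^ k := by
      rw [Fintype.card_piFinset, prod_const, card_univ, Fintype.card_fin]
    rw [this]
    push_cast
    ring
  have hTsum : ∑ s ∈ Sk, T s ≤ (S.card : ℝ) ^ k * ((L : ℝ) ^ 3 / k) := by
    calc ∑ s ∈ Sk, T s = ∑ n ∈ Ico (-(L : ℤ)) (2 * L), ∑ s ∈ Sk,
          (csf S S' k s n - (cor S S' n : ℝ)) ^ 2 := sum_comm
      _ ≤ ∑ n ∈ Ico (-(L : ℤ)) (2 * L),
          (S.card : ℝ) ^ k * ((S.card : ℝ) * (cor S S' n : ℝ) / k) :=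
          sum_le_sum fun n _ => var_bound S S' k hk1 n
      _ = (S.card : ℝ) ^ k * ((S.card : ℝ) / k *
          ∑ n ∈ Ico (-(L : ℤ)) (2 * L), (cor S S' n : ℝ)) := by
          rw [mul_sum, mul_sum]
          apply sum_congr rfl
          intro n _
          ring
      _ ≤ (S.card : ℝ) ^ k * ((S.card : ℝ) / k * ((S.card : ℝ) * S'.card)) := by
          apply mul_le_mul_of_nonneg_left _ (by positivity)
          exact mul_le_mul_of_nonneg_left (cs_sum_cor _ _ _) (by positivity)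
      _ ≤ (S.card : ℝ) ^ k * ((L : ℝ) ^ 3 / k) := by
          apply mul_le_mul_of_nonneg_left _ (by positivity)
          rw [div_mul_eq_mul_div]
          apply div_le_div_of_nonneg_right _ hk0.le
          calc (S.card : ℝ) * ((S.card : ℝ) * S'.card) ≤ L * (L * L) := by gcongr
            _ = (L : ℝ) ^ 3 := by ring
  let G := Sk.filter (fun s => T s ≤ 2 * (L : ℝ) ^ 3 / k)
  have hGc : (S.card : ℝ) ^ k / 2 ≤ G.card := by
    have h2 : ((Sk.filter (fun s => ¬ T s ≤ 2 * (L : ℝ) ^ 3 / k)).card : ℝ) *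
        (2 * (L : ℝ) ^ 3 / k) ≤ ∑ s ∈ Sk, T s := by
      calc ((Sk.filter (fun s => ¬ T s ≤ 2 * (L : ℝ) ^ 3 / k)).card : ℝ) *
            (2 * (L : ℝ) ^ 3 / k)
          = ∑ _s ∈ Sk.filter (fun s => ¬ T s ≤ 2 * (L : ℝ) ^ 3 / k), 2 * (L : ℝ) ^ 3 / k := by
            rw [sum_const, nsmul_eq_mul]
        _ ≤ ∑ s ∈ Sk.filter (fun s => ¬ T s ≤ 2 * (L : ℝ) ^ 3 / k), T s := by
            apply sum_le_sum
            intro s hs
            exact (not_le.1 (mem_filter.1 hs).2).le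
        _ ≤ ∑ s ∈ Sk, T s :=
            sum_le_sum_of_subset_of_nonneg (filter_subset _ _) fun s _ _ => hT0 s
    have h3 := h2.trans hTsum
    have h4 : ((Sk.filter (fun s => ¬ T s ≤ 2 * (L : ℝ) ^ 3 / k)).card : ℝ) ≤
        (S.card : ℝ) ^ k / 2 := by
      have h5 : (0 : ℝ) < 2 * (L : ℝ) ^ 3 / k := by positivity
      have h6 : (S.card : ℝ) ^ k * ((L : ℝ) ^ 3 / k) =
          (S.card : ℝ) ^ k / 2 * (2 * (L : ℝ) ^ 3 / k) := by ring
      rw [h6] at h3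
      exact le_of_mul_le_mul_right h3 h5
    have h5 : (G.card : ℝ) + ((Sk.filter (fun s => ¬ T s ≤ 2 * (L : ℝ) ^ 3 / k)).card : ℝ) =
        Sk.card := by
      rw [← card_filter_add_card_filter_not (s := Sk) (fun s => T s ≤ 2 * (L : ℝ) ^ 3 / k)]
      push_cast
      rfl
    rw [hSkc] at h5
    linarith
  have hbig : (2 * L) ^ k < (K + 1) * G.card := by
    have h2 : (2 * (L : ℝ)) ^ k < ((K : ℝ) + 1) * G.card := by
      have h3 : (ε * (L : ℝ)) ^ k ≤ (S.card : ℝ) ^ k := pow_le_pow_left₀ (by positivity) hSL k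
      have h4 : 0 < (ε * (L : ℝ)) ^ k := by positivity
      have h5 : (2 * (L : ℝ)) ^ k = (2 / ε) ^ k * (ε * L) ^ k := by
        rw [← mul_pow]
        congr 1
        field_simp
      calc (2 * (L : ℝ)) ^ k = (2 * (2 / ε) ^ k) * ((ε * L) ^ k / 2) := by rw [h5]; ring
        _ ≤ (K : ℝ) * ((ε * L) ^ k / 2) := mul_le_mul_of_nonneg_right hK1 (by positivity)
        _ < ((K : ℝ) + 1) * ((ε * L) ^ k / 2) := by
            apply mul_lt_mul_of_pos_right _ (by positivity)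
            linarith
        _ ≤ ((K : ℝ) + 1) * G.card := by
            apply mul_le_mul_of_nonneg_left _ (by positivity)
            linarith
    exact_mod_cast h2
  have hGm : ∀ s ∈ G, ∀ j, s j ∈ Ico 0 (L : ℤ) := by
    intro s hs j
    have h2 := (mem_filter.1 hs).1
    exact hS ((Fintype.mem_piFinset.1 h2) j)
  obtain ⟨m, hm1, hm2, g, hg, g', hg', hgg⟩ := shift_coincidence k K P L hP hKP G hGm hbig
  refine ⟨m, hm1, hm2, ?_⟩
  have hTg : T g ≤ 2 * (L : ℝ) ^ 3 / k := (mem_filter.1 hg).2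
  have hTg' : T g' ≤ 2 * (L : ℝ) ^ 3 / k := (mem_filter.1 hg').2
  have hmP : (m : ℤ) * P ≤ L := by
    have h2 : m * P ≤ L := (Nat.mul_le_mul_right P hm2).trans hKP
    exact_mod_cast h2
  have hmP0 : (0 : ℤ) ≤ (m : ℤ) * P := by positivity
  have hf : ∀ n : ℤ, csf S S' k g n = csf S S' k g' (n + m * P) := by
    intro n
    unfold csf
    congr 3
    apply filter_congr
    intro j _
    rw [hgg j, show g' j + (m : ℤ) * P + n = g' j + (n + m * P) by ring]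
  have hXc : ((Ico (-(L : ℤ)) L).card : ℝ) ≤ 2 * L := by
    have : (Ico (-(L : ℤ)) L).card = 2 * L := by rw [Int.card_Ico]; omega
    rw [this]
    push_cast
    exact le_rfl
  have hA : ∑ n ∈ Ico (-(L : ℤ)) L, |csf S S' k g n - (cor S S' n : ℝ)| ≤
      ε * (L : ℝ) ^ 2 / 2 := by
    apply cs_l1 _ _ L ε k hk16 h0 hXc
    refine le_trans ?_ hTg
    apply sum_le_sum_of_subset_of_nonneg
    · intro n hn
      rw [mem_Ico] at hn ⊢
      omega
    · intro n _ _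
      exact sq_nonneg _
  have hB : ∑ n ∈ Ico (-(L : ℤ)) L, |csf S S' k g' (n + m * P) - (cor S S' (n + m * P) : ℝ)| ≤
      ε * (L : ℝ) ^ 2 / 2 := by
    apply cs_l1 _ _ L ε k hk16 h0 hXc
    refine le_trans ?_ hTg'
    rw [← sum_image (s := Ico (-(L : ℤ)) L) (g := fun n => n + (m : ℤ) * P)
      (f := fun n => (csf S S' k g' n - (cor S S' n : ℝ)) ^ 2)
      (fun a _ b _ hab => add_right_cancel hab)]
    apply sum_le_sum_of_subset_of_nonneg
    · intro n hn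
      rw [mem_image] at hn
      obtain ⟨n', hn', rfl⟩ := hn
      rw [mem_Ico] at hn' ⊢
      constructor <;> linarith
    · intro n _ _
      exact sq_nonneg _
  calc ∑ n ∈ Ico (-(L : ℤ)) L, |(cor S S' (n + m * P) : ℝ) - (cor S S' n : ℝ)|
      ≤ ∑ n ∈ Ico (-(L : ℤ)) L, (|csf S S' k g' (n + m * P) - (cor S S' (n + m * P) : ℝ)| +
          |csf S S' k g n - (cor S S' n : ℝ)|) := by
        apply sum_le_sum
        intro n _
        have h2 : (cor S S' (n + m * P) : ℝ) - (cor S S' n : ℝ) =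
            -(csf S S' k g' (n + m * P) - (cor S S' (n + m * P) : ℝ)) +
              (csf S S' k g n - (cor S S' n : ℝ)) := by
          rw [hf n]
          ring
        rw [h2]
        refine (abs_add_le _ _).trans ?_
        rw [abs_neg]
    _ ≤ ε * (L : ℝ) ^ 2 / 2 + ε * (L : ℝ) ^ 2 / 2 := by
        rw [sum_add_distrib]
        exact add_le_add hB hA
    _ = ε * (L : ℝ) ^ 2 := by ring

end Pool.Agent.H11.HM
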