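import Pool.Agent.H11.HM.Df

/-!
[H11 HM CSA]  The variance of a sampled correlation.

Proof.  Let `σ = |S|`, `c = cor S S' n`, `g y = σ 1[y + n ∈ S'] - c` for `y ∈ S`.  `∑_{y ∈ S} g y = σ c - σ c = 0` and
`∑_{y ∈ S} (g y)^2 = σ^2 c - 2 σ c^2 + σ c^2 ≤ σ^2 c`.  `(σ/k) #{j | s j + n ∈ S'} - c = (1/k) ∑_j g (s j)`.  Expand the square and sum over
`s ∈ S^k`: the terms with `j ≠ j'` vanish (`∑_s g (s j) g (s j') = σ^(k-2) (∑ g)^2 = 0`; `Finset.prod_univ_sum` / `Fintype.piFinset`),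
the terms `j = j'` give `σ^(k-1) ∑_y (g y)^2 ≤ σ^(k-1) σ^2 c`.  Total `≤ (1/k^2) k σ^(k+1) c = σ^k (σ c/k)`.
(An induction on `k` with the statement `∑_s (∑_j g (s j))^2 ≤ k σ^(k-1) ∑ g^2`, or equality, and `∑_s ∑_j g (s j) = 0` may be simpler:
`Fin.consEquiv`, `Fin.sum_univ_succ`.)
-/

namespace Pool.Agent.H11.HM

open Finset

theorem csa_cons (S : Finset ℤ) (k : ℕ) (F : (Fin (k + 1) → ℤ) → ℝ) :
    ∑ s ∈ Fintype.piFinset (fun _ : Fin (k + 1) => S), F s =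
      ∑ y ∈ S, ∑ s ∈ Fintype.piFinset (fun _ : Fin k => S), F (Fin.cons y s) := by
  rw [← Finset.sum_product']
  refine Finset.sum_nbij' (fun s => (s 0, fun i => s i.succ)) (fun p => Fin.cons p.1 p.2)
    ?_ ?_ ?_ ?_ ?_
  · intro s hs
    rw [Fintype.mem_piFinset] at hs
    rw [Finset.mem_product, Fintype.mem_piFinset]
    exact ⟨hs _, fun i => hs _⟩
  · intro p hp
    rw [Finset.mem_product, Fintype.mem_piFinset] at hp
    rw [Fintype.mem_piFinset]
    intro i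
    refine Fin.cases ?_ (fun j => ?_) i
    · exact hp.1
    · exact hp.2 j
  · intro s hs
    funext i
    refine Fin.cases rfl (fun j => rfl) i
  · intro p hp
    rfl
  · intro s hs
    congr 1
    funext i
    refine Fin.cases rfl (fun j => rfl) i

theorem csa_aux (S : Finset ℤ) (g : ℤ → ℝ) (h0 : ∑ y ∈ S, g y = 0) (k : ℕ) :
    (S.card : ℝ) * ∑ s ∈ Fintype.piFinset (fun _ : Fin k => S), (∑ j, g (s j)) ^ 2 =
      k * (S.card : ℝ) ^ k * ∑ y ∈ S, g y ^ 2 := by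
  induction k with
  | zero => simp
  | succ k ih =>
    rw [csa_cons]
    have h1 : ∀ y ∈ S, ∑ s ∈ Fintype.piFinset (fun _ : Fin k => S),
        (∑ j, g ((Fin.cons y s : Fin (k + 1) → ℤ) j)) ^ 2 =
        (S.card : ℝ) ^ k * g y ^ 2 +
          g y * (2 * ∑ s ∈ Fintype.piFinset (fun _ : Fin k => S), ∑ j, g (s j)) +
          ∑ s ∈ Fintype.piFinset (fun _ : Fin k => S), (∑ j, g (s j)) ^ 2 := by
      intro y _
      have h2 : ∀ s ∈ Fintype.piFinset (fun _ : Fin k => S),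
          (∑ j, g ((Fin.cons y s : Fin (k + 1) → ℤ) j)) ^ 2 =
          g y ^ 2 + g y * (2 * ∑ j, g (s j)) + (∑ j, g (s j)) ^ 2 := by
        intro s _
        rw [Fin.sum_univ_succ]
        simp only [Fin.cons_zero, Fin.cons_succ]
        ring
      rw [Finset.sum_congr rfl h2, Finset.sum_add_distrib, Finset.sum_add_distrib,
        Finset.sum_const, Fintype.card_piFinset, ← Finset.mul_sum, ← Finset.mul_sum]
      simp only [Finset.prod_const, Finset.card_univ, Fintype.card_fin, nsmul_eq_mul]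
      push_cast
      ring
    rw [Finset.sum_congr rfl h1, Finset.sum_add_distrib, Finset.sum_add_distrib, ← Finset.mul_sum,
      ← Finset.sum_mul, h0, zero_mul, add_zero, Finset.sum_const, nsmul_eq_mul, ih]
    push_cast
    ring

theorem var_bound (S S' : Finset ℤ) (k : ℕ) (hk : 1 ≤ k) (n : ℤ) :
    ∑ s ∈ Fintype.piFinset (fun _ : Fin k => S),
      ((S.card : ℝ) / k * ((univ.filter (fun j : Fin k => s j + n ∈ S')).card : ℝ) -
        (cor S S' n : ℝ)) ^ 2 ≤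
      (S.card : ℝ) ^ k * ((S.card : ℝ) * (cor S S' n : ℝ) / k) := by
  obtain ⟨σ, hσ⟩ : ∃ σ : ℝ, σ = (S.card : ℝ) := ⟨_, rfl⟩
  obtain ⟨c, hc⟩ : ∃ c : ℝ, c = (cor S S' n : ℝ) := ⟨_, rfl⟩
  have hk0 : (0 : ℝ) < k := by exact_mod_cast hk
  have hσ0 : 0 ≤ σ := by rw [hσ]; exact Nat.cast_nonneg _
  have hc0 : 0 ≤ c := by rw [hc]; exact Nat.cast_nonneg _
  rw [← hσ, ← hc]
  obtain ⟨g, hg⟩ : ∃ g : ℤ → ℝ, g = fun y => σ * (if y + n ∈ S' then 1 else 0) - c := ⟨_, rfl⟩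
  have hcs : ∑ y ∈ S, (if y + n ∈ S' then (1 : ℝ) else 0) = c := by
    rw [hc, cor, Finset.sum_boole]
  have h0 : ∑ y ∈ S, g y = 0 := by
    rw [hg, Finset.sum_sub_distrib, ← Finset.mul_sum, hcs, Finset.sum_const, nsmul_eq_mul, ← hσ]
    ring
  have hG : ∑ y ∈ S, g y ^ 2 ≤ σ ^ 2 * c := by
    have h1 : ∀ y ∈ S, g y ^ 2 =
        (σ ^ 2 - 2 * σ * c) * (if y + n ∈ S' then (1 : ℝ) else 0) + c ^ 2 := by
      intro y _
      rw [hg]
      simp only
      split_ifs <;> ring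
    rw [Finset.sum_congr rfl h1, Finset.sum_add_distrib, ← Finset.mul_sum, hcs, Finset.sum_const,
      nsmul_eq_mul, ← hσ]
    have h2 : 0 ≤ σ * c ^ 2 := by positivity
    linarith
  have hterm : ∀ s ∈ Fintype.piFinset (fun _ : Fin k => S),
      (σ / k * ((univ.filter (fun j : Fin k => s j + n ∈ S')).card : ℝ) - c) ^ 2 =
        (1 / (k : ℝ) ^ 2) * (∑ j, g (s j)) ^ 2 := by
    intro s _
    have h1 : ∑ j, g (s j) =
        σ * ((univ.filter (fun j : Fin k => s j + n ∈ S')).card : ℝ) - k * c := by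
      rw [hg]
      simp only
      rw [Finset.sum_sub_distrib, ← Finset.mul_sum, Finset.sum_boole, Finset.sum_const,
        nsmul_eq_mul, Finset.card_univ, Fintype.card_fin]
    rw [h1]
    field_simp
  rw [Finset.sum_congr rfl hterm, ← Finset.mul_sum]
  have hA := csa_aux S g h0 k
  rw [← hσ] at hA
  rcases hσ0.eq_or_lt with h1 | h1
  · have hS : S = ∅ := by
      rw [← Finset.card_eq_zero]
      rw [← h1] at hσ
      exact_mod_cast hσ.symm
    have h2 : Fintype.piFinset (fun _ : Fin k => S) = ∅ := by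
      rw [Fintype.piFinset_eq_empty]
      exact ⟨⟨0, hk⟩, hS⟩
    rw [h2, Finset.sum_empty, mul_zero]
    positivity
  · obtain ⟨A, hAd⟩ : ∃ A : ℝ, A = ∑ s ∈ Fintype.piFinset (fun _ : Fin k => S),
      (∑ j, g (s j)) ^ 2 := ⟨_, rfl⟩
    rw [← hAd] at hA ⊢
    have h2 : σ * (1 / (k : ℝ) ^ 2 * A) ≤ σ * (σ ^ k * (σ * c / k)) := by
      have h3 : σ * (1 / (k : ℝ) ^ 2 * A) = 1 / (k : ℝ) ^ 2 * (σ * A) := by ring
      rw [h3, hA]
      have h4 : 1 / (k : ℝ) ^ 2 * (k * σ ^ k * ∑ y ∈ S, g y ^ 2) ≤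
          1 / (k : ℝ) ^ 2 * (k * σ ^ k * (σ ^ 2 * c)) :=
        mul_le_mul_of_nonneg_left (mul_le_mul_of_nonneg_left hG (by positivity)) (by positivity)
      refine h4.trans (le_of_eq ?_)
      field_simp
    exact le_of_mul_le_mul_left h2 h1

end Pool.Agent.H11.HM
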