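import Mathlib

/-!
MP_8923e7_nt, project HM (half of the multiples).  Definitions.
-/

namespace Pool.Agent.H11.HM

open Finset

open Classical in
/-- the indicator of `R` -/
noncomputable def ind (R : Set ℤ) (z : ℤ) : ℝ := if z ∈ R then 1 else 0

/-- the block of length `l` which contains `z` -/
noncomputable def blk (l : ℕ) (z : ℤ) : Finset ℤ := Ico ((l : ℤ) * (z / l)) ((l : ℤ) * (z / l) + l)

/-- the average of the indicator of `R` over the elements of the block of `z` which are congruent to `z`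
modulo `t` (for `t` a divisor of `l`) -/
noncomputable def rho (R : Set ℤ) (t l : ℕ) (z : ℤ) : ℝ :=
  (t : ℝ) / l * ∑ z' ∈ (blk l z).filter (fun z' => z' ≡ z [ZMOD t]), ind R z'

open Classical in
/-- the number of the `n < P` with `z + s n ∈ R` -/
noncomputable def cnt (R : Set ℤ) (P : ℕ) (s z : ℤ) : ℕ :=
  ((range P).filter (fun n : ℕ => z + s * n ∈ R)).card

/-- the number of the pairs `(y, y + n)` in `S × S'` -/
noncomputable def cor (S S' : Finset ℤ) (n : ℤ) : ℕ := (S.filter (fun y => y + n ∈ S')).card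

open Classical in
/-- every large admissible set `H` contains a set of almost `c |H|` elements in which almost all differences
have the property `D` -/
def NC (c : ℝ) (D : ℕ → Prop) : Prop :=
  ∀ ε : ℝ, 0 < ε → ∃ K : ℕ, ∀ H : Finset ℕ,
    (∀ p : ℕ, p.Prime → ∃ a : ℕ, ∀ h ∈ H, ¬ p ∣ a + h) → K ≤ H.card →
    ∃ S : Finset ℕ, S ⊆ H ∧ (c - ε) * (H.card : ℝ) ≤ (S.card : ℝ) ∧
      (((S ×ˢ S).filter (fun p => p.1 < p.2 ∧ ¬ D (p.2 - p.1))).card : ℝ) ≤
        ε * (H.card : ℝ) ^ 2

end Pool.Agent.H11.HM
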