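import Pool.Agent.H11.HM.FinA

/-!
MP_8923e7_nt, project HM.  The configuration in two residue classes.
-/

namespace Pool.Agent.H11.HM

open Finset

/-- the positive `z` for which `Q z + b` does not have the property `D` -/
def Rcl (D : ℕ → Prop) (Q b : ℕ) : Set ℤ := {z | 0 < z ∧ ¬ D (Q * z.toNat + b)}

/-- the elements of `S - o` -/
def shiftS (S : Finset ℕ) (o : ℕ) : Finset ℕ := (S.filter (fun s => o ≤ s)).image (fun s => s - o)

theorem mem_shiftS (S : Finset ℕ) (o x : ℕ) : x ∈ shiftS S o ↔ x + o ∈ S := by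
  unfold shiftS
  rw [mem_image]
  constructor
  · rintro ⟨s, hs, rfl⟩
    rw [mem_filter] at hs
    rw [Nat.sub_add_cancel hs.2]
    exact hs.1
  · intro h
    exact ⟨x + o, mem_filter.2 ⟨h, by omega⟩, by omega⟩

theorem conf_shift (D : ℕ → Prop) (S : Finset ℕ) (o : ℕ) :
    (conf D (shiftS S o)).card ≤ (conf D S).card := by
  classical
  apply card_le_card_of_injOn (fun p : ℕ × ℕ => (p.1 + o, p.2 + o))
  · intro p hp
    unfold conf at hp ⊢
    have hp1 := (@mem_filter _ _ (_) _ _).1 (mem_coe.1 hp)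
    rw [mem_product, mem_shiftS, mem_shiftS] at hp1
    apply mem_coe.2
    refine (@mem_filter _ _ (_) _ _).2 ⟨?_, ?_, ?_⟩
    · rw [mem_product]
      exact hp1.1
    · have := hp1.2.1
      simp only
      omega
    · have h1 := hp1.2.2
      simp only
      have : p.2 + o - (p.1 + o) = p.2 - p.1 := by omega
      rw [this]
      exact h1
  · intro p _ p' _ h
    simp only [Prod.mk.injEq] at h
    exact Prod.ext (by omega) (by omega)

/-- the total number of the elements of `S` in the two classes -/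
theorem fb_total2 (Q1 d L T τ b : ℕ) (M : ℕ → ℕ) (X S : Finset ℕ)
    (hS : S ⊆ (range T ×ˢ (X ×ˢ (range τ ×ˢ range L))).image (pt Q1 d M) ∪
      (range T ×ˢ (X ×ˢ (range τ ×ˢ range L))).image (fun q => pt Q1 d M q + b)) :
    S.card ≤ ∑ i ∈ range T, (∑ x ∈ X, ∑ δ ∈ range τ, (Fb Q1 d L M S i x δ).card +
      ∑ x ∈ X, ∑ δ ∈ range τ, (Fb Q1 d L M (shiftS S b) i x δ).card) := by
  classical
  obtain ⟨bx, hbx⟩ : ∃ bx : Finset (ℕ × ℕ × ℕ × ℕ), bx = range T ×ˢ (X ×ˢ (range τ ×ˢ range L)) :=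
    ⟨_, rfl⟩
  rw [← hbx] at hS
  have e1 : ∀ S' : Finset ℕ, ∑ i ∈ range T, ∑ x ∈ X, ∑ δ ∈ range τ, (Fb Q1 d L M S' i x δ).card =
      (bx.filter (fun q => pt Q1 d M q ∈ S')).card := by
    intro S'
    symm
    rw [hbx, card_filter, sum_product]
    apply sum_congr rfl
    intro i _
    rw [sum_product]
    apply sum_congr rfl
    intro x _
    rw [sum_product]
    apply sum_congr rfl
    intro δ _
    rw [fb_card, card_filter]
  rw [sum_add_distrib, e1, e1]
  have h1 : S ⊆ (bx.filter (fun q => pt Q1 d M q ∈ S)).image (pt Q1 d M) ∪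
      (bx.filter (fun q => pt Q1 d M q ∈ shiftS S b)).image (fun q => pt Q1 d M q + b) := by
    intro s hs
    rw [mem_union]
    rcases mem_union.1 (hS hs) with h | h
    · left
      obtain ⟨q, hq, rfl⟩ := mem_image.1 h
      exact mem_image.2 ⟨q, mem_filter.2 ⟨hq, hs⟩, rfl⟩
    · right
      obtain ⟨q, hq, rfl⟩ := mem_image.1 h
      exact mem_image.2 ⟨q, mem_filter.2 ⟨hq, (mem_shiftS _ _ _).2 hs⟩, rfl⟩
  refine (card_le_card h1).trans ((card_union_le _ _).trans ?_)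
  exact Nat.add_le_add card_image_le card_image_le

/-- the pair `(x, x')` is a conflict for the classes `0`, `b` and the times `i`, `j` -/
def Bp2 (D : ℕ → Prop) (Q1 b d τ L : ℕ) (M : ℕ → ℕ) (S S' : Finset ℕ) (i j x x' : ℕ) : Prop :=
  ∃ δ < τ, ∃ δ' < τ, ∃ y ∈ Fb Q1 d L M S i x δ, ∃ y' ∈ Fb Q1 d L M S' j x' δ',
    y' - y ∈ {z : ℤ | ((M j : ℤ) - M i) + ((x' : ℤ) - x) + ((δ' : ℤ) - δ) + d * z ∈ Rcl D Q1 b}

open Classical in
theorem conf_pairs2 (D : ℕ → Prop) (Q1 b d T τ L : ℕ) (M : ℕ → ℕ) (X S : Finset ℕ) (hQ : 1 ≤ Q1)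
    (hX : ∀ x ∈ X, x + τ ≤ d) (hτ : ∀ x ∈ X, τ ∣ x)
    (hM : ∀ i, i + 1 < T → M i + (d * L + d) ≤ M (i + 1)) (i j : ℕ) (hi : i < T) (hj : j < T) :
    ((X ×ˢ X).filter (fun p : ℕ × ℕ => Bp2 D Q1 b d τ L M S (shiftS S b) i j p.1 p.2)).card ≤
      (conf D S).card := by
  have hinj := pt_inj Q1 d T τ L M X hQ hX hτ hM
  have hch : ∀ p : ℕ × ℕ, ∃ q : (ℕ × ℕ) × (ℕ × ℕ),
      Bp2 D Q1 b d τ L M S (shiftS S b) i j p.1 p.2 →
      q.1.1 < τ ∧ q.2.1 < τ ∧ q.1.2 < L ∧ q.2.2 < L ∧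
        (pt Q1 d M (i, p.1, q.1), pt Q1 d M (j, p.2, q.2) + b) ∈ conf D S := by
    intro p
    by_cases hp : Bp2 D Q1 b d τ L M S (shiftS S b) i j p.1 p.2
    · obtain ⟨δ, hδ, δ', hδ', y, hy, y', hy', hz⟩ := hp
      unfold Fb at hy hy'
      rw [mem_filter, mem_Ico] at hy hy'
      obtain ⟨⟨hy0, hyL⟩, hyS⟩ := hy
      obtain ⟨⟨hy0', hyL'⟩, hyS'⟩ := hy'
      rw [mem_shiftS] at hyS'
      obtain ⟨hz0, hzD⟩ := hz
      refine ⟨((δ, y.toNat), (δ', y'.toNat)), fun _ => ⟨hδ, hδ', by simp only; omega,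
        by simp only; omega, ?_⟩⟩
      simp only [conf, mem_filter, mem_product]
      obtain ⟨u, rfl⟩ : ∃ u : ℕ, y = u := ⟨y.toNat, by omega⟩
      obtain ⟨v, rfl⟩ : ∃ v : ℕ, y' = v := ⟨y'.toNat, by omega⟩
      rw [Int.toNat_natCast] at hyS hyS'
      simp only [Int.toNat_natCast]
      obtain ⟨w, hw⟩ : ∃ w : ℕ, ((M j : ℤ) - M i) + ((p.2 : ℤ) - p.1) + ((δ' : ℤ) - δ) +
          d * ((v : ℤ) - u) = w := ⟨_, (Int.toNat_of_nonneg hz0.le).symm⟩
      rw [hw] at hz0 hzD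
      rw [Int.toNat_natCast] at hzD
      have h5 : pt Q1 d M (j, p.2, δ', v) = pt Q1 d M (i, p.1, δ, u) + Q1 * w := by
        unfold pt
        simp only
        rw [← Nat.mul_add]
        congr 1
        have h6 : (d : ℤ) * ((v : ℤ) - u) = d * v - d * u := by ring
        rw [h6] at hw
        zify
        linarith
      refine ⟨⟨hyS, hyS'⟩, ?_, ?_⟩
      · rw [h5]
        have : 0 < Q1 * w := Nat.mul_pos hQ (by exact_mod_cast hz0)
        omega
      · rw [h5]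
        have : pt Q1 d M (i, p.1, δ, u) + Q1 * w + b - pt Q1 d M (i, p.1, δ, u) = Q1 * w + b := by
          omega
        rw [this]
        exact hzD
    · exact ⟨((0, 0), (0, 0)), fun h => absurd h hp⟩
  choose q hq using hch
  apply card_le_card_of_injOn
    (fun p => (pt Q1 d M (i, p.1, (q p).1), pt Q1 d M (j, p.2, (q p).2) + b))
  · intro p hp
    exact (hq p (mem_filter.1 (mem_coe.1 hp)).2).2.2.2.2
  · intro p hp p' hp' h
    simp only [Prod.mk.injEq] at h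
    have h1 := hq p (mem_filter.1 (mem_coe.1 hp)).2
    have h2 := hq p' (mem_filter.1 (mem_coe.1 hp')).2
    have hpX := (mem_product.1 (mem_filter.1 (mem_coe.1 hp)).1)
    have hpX' := (mem_product.1 (mem_filter.1 (mem_coe.1 hp')).1)
    have g : ∀ (k x δ y : ℕ), k < T → x ∈ X → δ < τ → y < L →
        (k, x, δ, y) ∈ ((range T ×ˢ (X ×ˢ (range τ ×ˢ range L)) : Finset (ℕ × ℕ × ℕ × ℕ)) :
          Set (ℕ × ℕ × ℕ × ℕ)) := by
      intro k x δ y h1 h2 h3 h4
      rw [mem_coe, mem_product, mem_product, mem_product, mem_range, mem_range, mem_range]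
      exact ⟨h1, h2, h3, h4⟩
    have h3 := hinj (g i p.1 (q p).1.1 (q p).1.2 hi hpX.1 h1.1 h1.2.2.1)
      (g i p'.1 (q p').1.1 (q p').1.2 hi hpX'.1 h2.1 h2.2.2.1) h.1
    have h4 := hinj (g j p.2 (q p).2.1 (q p).2.2 hj hpX.2 h1.2.1 h1.2.2.2.1)
      (g j p'.2 (q p').2.1 (q p').2.2 hj hpX'.2 h2.2.1 h2.2.2.2.1) (Nat.add_right_cancel h.2)
    rw [Prod.mk.injEq, Prod.mk.injEq] at h3 h4
    exact Prod.ext h3.2.1 h4.2.1

/-- fewer elements than residue classes -/
theorem adm_large (H : Finset ℕ) (p : ℕ) (hp : p.Prime) (h : H.card < p) :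
    ∃ a : ℕ, ∀ h ∈ H, ¬ p ∣ a + h := by
  have hpos := hp.pos
  have h1 : (H.image (fun h => (p - h % p) % p)).card < (range p).card := by
    rw [card_range]
    exact lt_of_le_of_lt card_image_le h
  obtain ⟨a, ha, hna⟩ := exists_mem_notMem_of_card_lt_card h1
  refine ⟨a, fun h hh hdvd => hna (mem_image.2 ⟨h, hh, ?_⟩)⟩
  have hap := mem_range.1 ha
  have hhp := Nat.mod_lt h hpos
  have h2 : (a + h) % p = 0 := Nat.mod_eq_zero_of_dvd hdvd
  have h3 : (a + h % p) % p = 0 := by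
    rw [Nat.add_mod_mod]
    exact h2
  rcases Nat.lt_or_ge (a + h % p) p with h4 | h4
  · rw [Nat.mod_eq_of_lt h4] at h3
    have h5 : h % p = 0 := by omega
    have h6 : a = 0 := by omega
    rw [h5, h6, Nat.sub_zero, Nat.mod_self]
  · have h5 : a + h % p < 2 * p := by omega
    have h6 : (a + h % p) % p = a + h % p - p := by
      rw [Nat.mod_eq_sub_mod h4, Nat.mod_eq_of_lt (by omega)]
    rw [h6] at h3
    have h7 : p - h % p = a := by omega
    rw [h7, Nat.mod_eq_of_lt hap]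

/-- a set in two classes modulo an even number divisible by `n!` -/
theorem conf_admissible2 (H : Finset ℕ) (n Q1 b : ℕ) (hn : H.card ≤ n) (hQ : n.factorial ∣ Q1)
    (hQ2 : 2 ∣ Q1) (hb : 2 ∣ b) (hH : ∀ h ∈ H, Q1 ∣ h ∨ ∃ u, h = u + b ∧ Q1 ∣ u) :
    ∀ p : ℕ, p.Prime → ∃ a : ℕ, ∀ h ∈ H, ¬ p ∣ a + h := by
  intro p hp
  rcases le_or_gt p n with hpn | hpn
  · have hpQ : p ∣ Q1 := ((Nat.Prime.dvd_factorial hp).2 hpn).trans hQ
    have key : ∀ a : ℕ, ¬ p ∣ a → ¬ p ∣ a + b → ∀ h ∈ H, ¬ p ∣ a + h := by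
      intro a ha hab h hh hdvd
      rcases hH h hh with h1 | ⟨u, rfl, h1⟩
      · exact ha ((Nat.dvd_add_left (hpQ.trans h1)).1 hdvd)
      · apply hab
        have h2 : a + (u + b) = (a + b) + u := by ring
        rw [h2] at hdvd
        exact (Nat.dvd_add_left (hpQ.trans h1)).1 hdvd
    rcases hp.eq_two_or_odd with h2 | h2
    · subst h2
      exact ⟨1, key 1 (by omega) (by omega)⟩
    · have hp3 : 3 ≤ p := by
        have := hp.two_le
        omega
      by_cases h3 : p ∣ 1 + b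
      · refine ⟨2, key 2 ?_ ?_⟩
        · intro h4
          have := Nat.le_of_dvd (by norm_num) h4
          omega
        · intro h4
          have h5 : p ∣ (2 + b) - (1 + b) := Nat.dvd_sub h4 h3
          have h6 : 2 + b - (1 + b) = 1 := by omega
          rw [h6] at h5
          exact hp.one_lt.ne' (Nat.dvd_one.1 h5)
      · refine ⟨1, key 1 ?_ h3⟩
        intro h4
        exact hp.one_lt.ne' (Nat.dvd_one.1 h4)
  · exact adm_large H p hp (lt_of_le_of_lt hn hpn)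

end Pool.Agent.H11.HM
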