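import Pool.Agent.H11.HM.DiA

/-!
MP_8923e7_nt, project HM.  Some residue class is as bad as the whole set.
-/

namespace Pool.Agent.H11.HM

open Finset

open Classical in
private theorem one_class (D : ℕ → Prop) (Q0 b0 N : ℕ) (hN : 1 ≤ N) (κ ε : ℝ) (hκ : 0 ≤ κ)
    (hε : 0 < ε) (X M : ℕ) (hX : 3 * N / ε ≤ (X : ℝ))
    (h : (((Ioc M (M + X)).filter (fun n => D (2 * (Q0 * n + b0)))).card : ℝ) < κ * X) :
    ∃ b < N, (1 - κ - ε) * ((X / N + 2 : ℕ) : ℝ) ≤
      ∑ z ∈ Ico ((M / N : ℕ) : ℤ) (((M / N : ℕ) : ℤ) + ((X / N + 2 : ℕ) : ℤ)),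
        ind (Rcl D (2 * (Q0 * N)) (2 * (Q0 * b + b0))) z := by
  have hN0 : (0 : ℝ) < N := by exact_mod_cast hN
  have hX' : 3 * N ≤ ε * X := by
    rw [div_le_iff₀ hε] at hX
    linarith
  -- the bad elements
  obtain ⟨Bd, hBd⟩ : ∃ Bd : Finset ℕ, Bd = (Ioc M (M + X)).filter
    (fun n => ¬ D (2 * (Q0 * n + b0))) := ⟨_, rfl⟩
  have h1 : (1 - κ) * X ≤ (Bd.card : ℝ) := by
    have h4 := card_filter_add_card_filter_not (s := Ioc M (M + X))
      (fun n => D (2 * (Q0 * n + b0)))
    rw [Nat.card_Ioc, ← hBd] at h4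
    have h5 : (((Ioc M (M + X)).filter (fun n => D (2 * (Q0 * n + b0)))).card : ℝ) +
        (Bd.card : ℝ) = X := by
      have : M + X - M = X := by omega
      rw [this] at h4
      exact_mod_cast h4
    linarith
  -- one class
  have h2 : Bd.card = ∑ b ∈ range N, (Bd.filter (fun n => n % N = b)).card := by
    apply card_eq_sum_card_fiberwise
    intro n _
    exact mem_coe.2 (mem_range.2 (Nat.mod_lt _ hN))
  have h3 : ∃ b ∈ range N, (1 - κ) * X / N ≤ ((Bd.filter (fun n => n % N = b)).card : ℝ) := by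
    by_contra hcon
    push Not at hcon
    have h4 : ∑ b ∈ range N, ((Bd.filter (fun n => n % N = b)).card : ℝ) <
        ∑ _b ∈ range N, (1 - κ) * X / N := sum_lt_sum_of_nonempty (by
        rw [nonempty_range_iff]; omega) hcon
    rw [sum_const, card_range, nsmul_eq_mul] at h4
    have h5 : (N : ℝ) * ((1 - κ) * X / N) = (1 - κ) * X := by field_simp
    rw [h5] at h4
    have h6 : (Bd.card : ℝ) = ∑ b ∈ range N, ((Bd.filter (fun n => n % N = b)).card : ℝ) := by
      rw [h2]; push_cast; rfl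
    linarith
  obtain ⟨b, hb, hb2⟩ := h3
  rw [mem_range] at hb
  refine ⟨b, hb, ?_⟩
  -- compare
  have h4 : ((Bd.filter (fun n => n % N = b)).card : ℝ) - 1 ≤
      ∑ z ∈ Ico ((M / N : ℕ) : ℤ) (((M / N : ℕ) : ℤ) + ((X / N + 2 : ℕ) : ℤ)),
        ind (Rcl D (2 * (Q0 * N)) (2 * (Q0 * b + b0))) z := by
    have h5 : ∑ z ∈ Ico ((M / N : ℕ) : ℤ) (((M / N : ℕ) : ℤ) + ((X / N + 2 : ℕ) : ℤ)),
        ind (Rcl D (2 * (Q0 * N)) (2 * (Q0 * b + b0))) z =
        (((Ico ((M / N : ℕ) : ℤ) (((M / N : ℕ) : ℤ) + ((X / N + 2 : ℕ) : ℤ))).filter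
          (fun z => z ∈ Rcl D (2 * (Q0 * N)) (2 * (Q0 * b + b0)))).card : ℝ) := by
      rw [card_filter]
      push_cast
      rfl
    rw [h5]
    have h6 : ((Bd.filter (fun n => n % N = b)).erase b).card ≤
        ((Ico ((M / N : ℕ) : ℤ) (((M / N : ℕ) : ℤ) + ((X / N + 2 : ℕ) : ℤ))).filter
          (fun z => z ∈ Rcl D (2 * (Q0 * N)) (2 * (Q0 * b + b0)))).card := by
      apply card_le_card_of_injOn (fun n : ℕ => ((n / N : ℕ) : ℤ))
      · intro n hn
        have hn1 := mem_erase.1 (mem_coe.1 hn)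
        have hn2 := mem_filter.1 hn1.2
        rw [hBd] at hn2
        have hn3 := mem_filter.1 hn2.1
        rw [mem_Ioc] at hn3
        have hdm := Nat.div_add_mod n N
        rw [hn2.2] at hdm
        have hpos : 0 < n / N := by
          rcases Nat.eq_zero_or_pos (n / N) with h | h
          · rw [h, mul_zero, zero_add] at hdm
            exact absurd hdm.symm hn1.1
          · exact h
        apply mem_coe.2
        rw [mem_filter, mem_Ico]
        show (((M / N : ℕ) : ℤ) ≤ ((n / N : ℕ) : ℤ) ∧ ((n / N : ℕ) : ℤ) <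
          ((M / N : ℕ) : ℤ) + ((X / N + 2 : ℕ) : ℤ)) ∧
          (0 < ((n / N : ℕ) : ℤ) ∧ ¬ D (2 * (Q0 * N) * (((n / N : ℕ) : ℤ)).toNat +
            2 * (Q0 * b + b0)))
        refine ⟨⟨?_, ?_⟩, ?_, ?_⟩
        · have : M / N ≤ n / N := Nat.div_le_div_right hn3.1.1.le
          exact_mod_cast this
        · have h7 : n / N ≤ (M + X) / N := Nat.div_le_div_right hn3.1.2
          have h8 : (M + X) / N < M / N + (X / N + 2) := by
            rw [Nat.div_lt_iff_lt_mul hN]
            have e1 := Nat.div_add_mod M N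
            have e2 := Nat.div_add_mod X N
            have e3 := Nat.mod_lt M hN
            have e4 := Nat.mod_lt X hN
            have e5 : (M / N + (X / N + 2)) * N = N * (M / N) + N * (X / N) + 2 * N := by ring
            rw [e5]
            omega
          have h9 : n / N < M / N + (X / N + 2) := lt_of_le_of_lt h7 h8
          exact_mod_cast h9
        · exact_mod_cast hpos
        · simp only [Int.toNat_natCast]
          have e1 : 2 * (Q0 * N) * (n / N) + 2 * (Q0 * b + b0) = 2 * (Q0 * n + b0) := by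
            calc 2 * (Q0 * N) * (n / N) + 2 * (Q0 * b + b0)
                = 2 * (Q0 * (N * (n / N) + b) + b0) := by ring
              _ = 2 * (Q0 * n + b0) := by rw [hdm]
          rw [e1]
          exact hn3.2
      · intro n hn n' hn' hnn
        have hn1 := mem_filter.1 (mem_erase.1 (mem_coe.1 hn)).2
        have hn2 := mem_filter.1 (mem_erase.1 (mem_coe.1 hn')).2
        simp only [Nat.cast_inj] at hnn
        have e1 := Nat.div_add_mod n N
        have e2 := Nat.div_add_mod n' N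
        rw [hn1.2] at e1
        rw [hn2.2] at e2
        rw [← e1, ← e2, hnn]
    have h7 : ((Bd.filter (fun n => n % N = b)).card : ℝ) - 1 ≤
        (((Bd.filter (fun n => n % N = b)).erase b).card : ℝ) := by
      have := pred_card_le_card_erase (s := Bd.filter (fun n => n % N = b)) (a := b)
      have h8 : (Bd.filter (fun n => n % N = b)).card ≤
          ((Bd.filter (fun n => n % N = b)).erase b).card + 1 := by omega
      have h9 : ((Bd.filter (fun n => n % N = b)).card : ℝ) ≤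
          (((Bd.filter (fun n => n % N = b)).erase b).card : ℝ) + 1 := by exact_mod_cast h8
      linarith
    refine h7.trans ?_
    exact_mod_cast h6
  refine le_trans ?_ h4
  have h5 : (((X / N : ℕ) : ℝ)) ≤ X / N := Nat.cast_div_le
  have h6 : (1 - κ) * X / N - 1 ≤ ((Bd.filter (fun n => n % N = b)).card : ℝ) - 1 := by linarith
  refine le_trans ?_ h6
  push_cast
  rcases le_or_gt (1 - κ - ε) 0 with hneg | hpos
  · have h7 : (1 - κ - ε) * (((X / N : ℕ) : ℝ) + 2) ≤ 0 :=
      mul_nonpos_of_nonpos_of_nonneg hneg (by positivity)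
    rcases le_or_gt 0 ((1 - κ) * X / N - 1) with h8 | h8
    · linarith
    · -- then the right side is at least (1-κ-ε) X/N ... use a direct estimate
      have h9 : (1 - κ - ε) * (((X / N : ℕ) : ℝ) + 2) ≤ (1 - κ - ε) * (X / N) := by
        apply mul_le_mul_of_nonpos_left _ hneg
        have h10 : (X : ℝ) / N < ((X / N : ℕ) : ℝ) + 1 := by
          rw [div_lt_iff₀ hN0]
          have e1 := Nat.div_add_mod X N
          have e2 := Nat.mod_lt X hN
          have e3 : X < (X / N + 1) * N := by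
            have : (X / N + 1) * N = N * (X / N) + N := by ring
            rw [this]
            omega
          exact_mod_cast e3
        linarith
      refine h9.trans ?_
      have h11 : (1 - κ - ε) * (X / N) = (1 - κ) * X / N - ε * X / N := by ring
      rw [h11]
      have h12 : 1 ≤ ε * X / N := by
        rw [le_div_iff₀ hN0]
        linarith
      linarith
  · have h7 : (1 - κ - ε) * (((X / N : ℕ) : ℝ) + 2) ≤ (1 - κ - ε) * (X / N + 2) :=
      mul_le_mul_of_nonneg_left (by linarith) hpos.le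
    refine h7.trans ?_
    have h8 : (1 - κ - ε) * ((X : ℝ) / N + 2) = (1 - κ) * X / N - ε * X / N + 2 * (1 - κ - ε) := by
      ring
    rw [h8]
    have h9 : 3 ≤ ε * X / N := by
      rw [le_div_iff₀ hN0]
      linarith
    linarith

open Classical in
theorem class_density (D : ℕ → Prop) (Q0 b0 N : ℕ) (hN : 1 ≤ N) (κ ε : ℝ) (hκ : 0 ≤ κ)
    (hε : 0 < ε)
    (h : ∀ X0 : ℕ, ∃ X, X0 ≤ X ∧ ∃ M : ℕ,
      (((Ioc M (M + X)).filter (fun n => D (2 * (Q0 * n + b0)))).card : ℝ) < κ * X) :
    ∃ b < N, ∀ X0 : ℕ, ∃ X M : ℕ, X0 ≤ X ∧ (1 - κ - ε) * X ≤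
      ∑ z ∈ Ico (M : ℤ) (M + X), ind (Rcl D (2 * (Q0 * N)) (2 * (Q0 * b + b0))) z := by
  by_contra hcon
  push Not at hcon
  have hch : ∀ b : ℕ, ∃ X0 : ℕ, b < N → ∀ X M : ℕ, X0 ≤ X →
      ∑ z ∈ Ico (M : ℤ) (M + X), ind (Rcl D (2 * (Q0 * N)) (2 * (Q0 * b + b0))) z <
        (1 - κ - ε) * X := by
    intro b
    by_cases hb : b < N
    · obtain ⟨X0, hX0⟩ := hcon b hb
      exact ⟨X0, fun _ => hX0⟩
    · exact ⟨0, fun h => absurd h hb⟩
  choose X0 hX0 using hch
  obtain ⟨X, hX, M, hM⟩ := h (N * ((range N).sup X0 + 1) + ⌈3 * N / ε⌉₊)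
  have h1 : 3 * N / ε ≤ (X : ℝ) := by
    refine (Nat.le_ceil _).trans ?_
    exact_mod_cast (Nat.le_add_left _ _).trans hX
  obtain ⟨b, hb, hb2⟩ := one_class D Q0 b0 N hN κ ε hκ hε X M h1 hM
  have h2 : X0 b ≤ X / N + 2 := by
    have h3 : X0 b ≤ (range N).sup X0 := le_sup (mem_range.2 hb)
    have h4 : N * ((range N).sup X0 + 1) ≤ X := (Nat.le_add_right _ _).trans hX
    have h5 : (range N).sup X0 + 1 ≤ X / N := by
      rw [Nat.le_div_iff_mul_le hN]
      rw [mul_comm]
      exact h4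
    omega
  have h3 := hX0 b hb (X / N + 2) (M / N) h2
  linarith

end Pool.Agent.H11.HM
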