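import Pool.Agent.H11.HM.Rh

/-!
MP_8923e7_nt, project HM.  The structure at a good point `z0`.
-/

namespace Pool.Agent.H11.HM

open Finset

theorem same_block (l : ℕ) (b : ℤ) (z0 s : ℤ) (hl : 1 ≤ l) (h1 : b ≤ z0 % l) (h2 : z0 % l + b < l)
    (h3 : -b ≤ s) (h4 : s ≤ b) : (z0 + s) / l = z0 / l := by
  have hl' : (0 : ℤ) < l := by exact_mod_cast hl
  have e1 := Int.emod_add_mul_ediv z0 l
  have e2 : z0 + s = (z0 % l + s) + l * (z0 / l) := by linarith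
  rw [e2, Int.add_mul_ediv_left _ _ hl'.ne', Int.ediv_eq_zero_of_lt (by omega) (by omega), zero_add]

theorem dens_row (R : Set ℤ) (τ l : ℕ) (hτ : τ ∣ l) (hl : 1 ≤ l) (b : ℤ) (z0 : ℤ)
    (h1 : b ≤ z0 % l) (h2 : z0 % l + b < l) (hb : (τ : ℤ) ≤ b) (r : ℝ) (hr : r ≤ rho R 1 l z0)
    (δ : ℕ) (hδ : δ < τ) :
    r * τ ≤ ∑ δ' ∈ range τ, rho R τ l (z0 + δ' - δ) := by
  have e0 : (z0 + -(δ : ℤ)) / l = z0 / l := same_block l b z0 _ hl h1 h2 (by omega) (by omega)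
  have e1 : ∀ i : ℕ, i < τ → ((z0 + -(δ : ℤ)) + i) / l = (z0 + -(δ : ℤ)) / l := by
    intro i hi
    rw [e0, add_assoc]
    exact same_block l b z0 _ hl h1 h2 (by omega) (by omega)
  have e2 := blk_sum R τ l hτ hl (z0 + -(δ : ℤ)) e1
  have e3 : ∑ δ' ∈ range τ, rho R τ l (z0 + δ' - δ) =
      ∑ i ∈ range τ, rho R τ l (z0 + -(δ : ℤ) + i) := by
    apply sum_congr rfl
    intro i _
    congr 1
    ring
  rw [e3, e2]
  have e4 : rho R 1 l (z0 + -(δ : ℤ)) = rho R 1 l z0 :=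
    rho_congr R 1 l e0 (by rw [Nat.cast_one]; exact Int.modEq_one)
  rw [e4, mul_comm]
  exact mul_le_mul_of_nonneg_left hr (Nat.cast_nonneg _)

open Classical in
/-- the number of the `m ≤ K` for which `z` is bad -/
noncomputable def fbad (R : Set ℤ) (τ l d K P : ℕ) (η : ℝ) (z : ℤ) : ℝ :=
  ∑ m ∈ Icc 1 K, if (cnt R P (d * m) z : ℝ) < (rho R τ l z - η) * P then (1 : ℝ) else 0

theorem fbad_nonneg (R : Set ℤ) (τ l d K P : ℕ) (η : ℝ) (z : ℤ) : 0 ≤ fbad R τ l d K P η z := by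
  unfold fbad
  apply sum_nonneg
  intro m _
  split_ifs <;> norm_num

theorem fbad_le (R : Set ℤ) (τ l d K P : ℕ) (η : ℝ) (z : ℤ) : fbad R τ l d K P η z ≤ K := by
  unfold fbad
  calc _ ≤ ∑ _m ∈ Icc 1 K, (1 : ℝ) := by
        apply sum_le_sum
        intro m _
        split_ifs <;> norm_num
    _ = K := by simp

open Classical in
theorem fbad_sum (R : Set ℤ) (τ l d K P : ℕ) (η : ℝ) (W : Finset ℤ) :
    ∑ z ∈ W, fbad R τ l d K P η z = ∑ m ∈ Icc 1 K, ((W.filter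
      (fun z => (cnt R P (d * m) z : ℝ) < (rho R τ l z - η) * P)).card : ℝ) := by
  unfold fbad
  rw [sum_comm]
  apply sum_congr rfl
  intro m _
  rw [card_filter]
  push_cast
  rfl

/-- the index set -/
noncomputable def Idx (X : Finset ℕ) (τ L : ℕ) : Finset ((ℕ × ℕ) × ((ℕ × ℕ) × ℤ)) :=
  (X ×ˢ range τ) ×ˢ ((X ×ˢ range τ) ×ˢ Ico (-(L : ℤ)) L)

/-- the shifts -/
def shf (d : ℕ) (k : (ℕ × ℕ) × ((ℕ × ℕ) × ℤ)) : ℤ :=
  ((k.2.1.1 : ℤ) - k.1.1) + ((k.2.1.2 : ℤ) - k.1.2) + d * k.2.2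

theorem idx_card (X : Finset ℕ) (τ L : ℕ) :
    ((Idx X τ L).card : ℝ) = (X.card : ℝ) ^ 2 * (τ : ℝ) ^ 2 * (2 * L) := by
  unfold Idx
  rw [card_product, card_product, card_product, card_range, Int.card_Ico]
  have : ((L : ℤ) - -(L : ℤ)).toNat = 2 * L := by omega
  rw [this]
  simp only [card_product, card_range]
  push_cast
  ring

open Classical in
theorem cnt_shift (R : Set ℤ) (P d m : ℕ) (z0 a b w : ℤ) :
    cnt {z : ℤ | z0 + a + b + d * z ∈ R} P m w = cnt R P (d * m) (z0 + (a + b + d * w)) := by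
  unfold cnt
  congr 1
  apply filter_congr
  intro n _
  rw [Set.mem_setOf_eq]
  have : z0 + a + b + d * (w + m * n) = z0 + (a + b + d * w) + d * m * n := by ring
  rw [this]

open Classical in
theorem bad_sum (R : Set ℤ) (τ l d K P L : ℕ) (ε η η1 : ℝ) (hη : η ≤ ε) (X : Finset ℕ)
    (hl : 1 ≤ l) (b z0 : ℤ) (h1 : b ≤ z0 % l) (h2 : z0 % l + b < l) (hd : τ ∣ d)
    (hX : ∀ x ∈ X, τ ∣ x) (B : ℕ) (hXB : ∀ x ∈ X, x + τ ≤ B) (hLB : L ≤ B)
    (hb : (B : ℤ) + d * B ≤ b)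
    (hf : ∑ k ∈ Idx X τ L, fbad R τ l d K P η (z0 + shf d k) ≤ η1 * (Idx X τ L).card) :
    ∑ x ∈ X, ∑ δ ∈ range τ, ∑ x' ∈ X, ∑ δ' ∈ range τ, ∑ m ∈ Icc 1 K,
        (((Ico (-(L : ℤ)) L).filter
          (fun w => (cnt {z : ℤ | z0 + ((x' : ℤ) - x) + ((δ' : ℤ) - δ) + d * z ∈ R} P m w : ℝ) <
            (rho R τ l (z0 + δ' - δ) - ε) * P)).card : ℝ) ≤
      η1 * ((X.card : ℝ) ^ 2 * (τ : ℝ) ^ 2 * (2 * L)) := by
  rw [← idx_card]
  refine le_trans ?_ hf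
  unfold Idx
  rw [sum_product, sum_product]
  apply sum_le_sum
  intro x hx
  apply sum_le_sum
  intro δ hδ
  rw [sum_product, sum_product]
  apply sum_le_sum
  intro x' hx'
  apply sum_le_sum
  intro δ' hδ'
  rw [mem_range] at hδ hδ'
  unfold fbad
  rw [sum_comm]
  apply sum_le_sum
  intro m hm
  rw [card_filter]
  push_cast
  apply sum_le_sum
  intro w hw
  rw [mem_Ico] at hw
  rw [cnt_shift]
  have hxB := hXB x hx
  have hxB' := hXB x' hx'
  have hdw1 : (d : ℤ) * w ≤ d * B := by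
    apply mul_le_mul_of_nonneg_left _ (by positivity)
    omega
  have hdw2 : -((d : ℤ) * B) ≤ d * w := by
    have : (d : ℤ) * (-(B : ℤ)) ≤ d * w := by
      apply mul_le_mul_of_nonneg_left _ (by positivity)
      omega
    linarith
  have e1 : (z0 + (((x' : ℤ) - x) + ((δ' : ℤ) - δ) + d * w)) / l = z0 / l :=
    same_block l b z0 _ hl h1 h2 (by omega) (by omega)
  have e2 : (z0 + ((δ' : ℤ) - δ)) / l = z0 / l := by
    have hdB : (0 : ℤ) ≤ d * B := by positivity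
    exact same_block l b z0 _ hl h1 h2 (by omega) (by omega)
  have e3 : rho R τ l (z0 + (((x' : ℤ) - x) + ((δ' : ℤ) - δ) + d * w)) =
      rho R τ l (z0 + δ' - δ) := by
    have e4 : z0 + (δ' : ℤ) - δ = z0 + ((δ' : ℤ) - δ) := by ring
    rw [e4]
    apply rho_congr
    · rw [e1, e2]
    · obtain ⟨u, hu⟩ := hX x hx
      obtain ⟨v, hv⟩ := hX x' hx'
      obtain ⟨t, ht⟩ := hd
      have hu' : (x : ℤ) = τ * u := by rw [hu]; push_cast; ring
      have hv' : (x' : ℤ) = τ * v := by rw [hv]; push_cast; ring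
      have ht' : (d : ℤ) = τ * t := by rw [ht]; push_cast; ring
      rw [hu', hv', ht']
      apply Int.ModEq.symm
      apply (Int.modEq_iff_dvd).2
      exact ⟨v - u + t * w, by ring⟩
  have e5 : z0 + (((x' : ℤ) - x) + ((δ' : ℤ) - δ) + d * w) = z0 + shf d ((x, δ), ((x', δ'), w)) := by
    unfold shf
    rfl
  rw [← e5, e3]
  by_cases hcase : (cnt R P (d * m) (z0 + (((x' : ℤ) - x) + ((δ' : ℤ) - δ) + d * w)) : ℝ) <
      (rho R τ l (z0 + δ' - δ) - ε) * P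
  · have hcase2 : (cnt R P (d * m) (z0 + (((x' : ℤ) - x) + ((δ' : ℤ) - δ) + d * w)) : ℝ) <
        (rho R τ l (z0 + δ' - δ) - η) * P := by
      refine hcase.trans_le ?_
      exact mul_le_mul_of_nonneg_right (by linarith) (Nat.cast_nonneg _)
    rw [if_pos hcase, if_pos hcase2]
  · rw [if_neg hcase]
    split_ifs <;> norm_num

end Pool.Agent.H11.HM
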