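import Mathlib

/-!
MP_8923e7_nt, project HM.  The choice of two times.
-/

namespace Pool.Agent.H11.HM

open Finset

theorem times_pigeon (T : ℕ) (w u : ℕ → ℝ) (c ε g t : ℝ) (h0 : 0 < ε) (hc : 2 * ε ≤ c)
    (hg : 0 < g) (ht : 0 < t) (hw : ∀ i < T, w i ≤ g) (hu : ∀ i < T, 0 ≤ u i ∧ u i ≤ t)
    (hT : (1 / ε + 2) / ε ≤ (T : ℝ)) (hsum : (c - ε) * (T * g) ≤ ∑ i ∈ range T, w i) :
    ∃ i j, i < j ∧ j < T ∧ (c - 2 * ε) * g ≤ w i ∧ (c - 2 * ε) * g ≤ w j ∧ u i - ε * t ≤ u j := by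
  classical
  obtain ⟨I, hI⟩ : ∃ I : Finset ℕ, I = (range T).filter (fun i => (c - 2 * ε) * g ≤ w i) :=
    ⟨_, rfl⟩
  have h1 : ∑ i ∈ range T, w i ≤ (I.card : ℝ) * g + T * ((c - 2 * ε) * g) := by
    rw [← sum_filter_add_sum_filter_not (range T) (fun i => (c - 2 * ε) * g ≤ w i)]
    apply add_le_add
    · rw [← hI]
      calc ∑ i ∈ I, w i ≤ ∑ _i ∈ I, g := by
            apply sum_le_sum
            intro i hi
            rw [hI, mem_filter, mem_range] at hi
            exact hw i hi.1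
        _ = (I.card : ℝ) * g := by rw [sum_const, nsmul_eq_mul]
    · calc ∑ i ∈ (range T).filter (fun i => ¬ (c - 2 * ε) * g ≤ w i), w i
          ≤ ∑ _i ∈ (range T).filter (fun i => ¬ (c - 2 * ε) * g ≤ w i), (c - 2 * ε) * g := by
            apply sum_le_sum
            intro i hi
            rw [mem_filter, not_le] at hi
            exact hi.2.le
        _ ≤ ∑ _i ∈ range T, (c - 2 * ε) * g := by
            apply sum_le_sum_of_subset_of_nonneg (filter_subset _ _)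
            intro _ _ _
            exact mul_nonneg (by linarith) hg.le
        _ = T * ((c - 2 * ε) * g) := by rw [sum_const, nsmul_eq_mul, card_range]
  have h2 : ε * T ≤ (I.card : ℝ) := by
    have h3 : (c - ε) * (T * g) ≤ (I.card : ℝ) * g + T * ((c - 2 * ε) * g) := hsum.trans h1
    have h4 : (ε * T) * g ≤ (I.card : ℝ) * g := by linarith
    exact le_of_mul_le_mul_right h4 hg
  have h3 : 1 / ε + 2 ≤ (I.card : ℝ) := by
    rw [div_le_iff₀ h0] at hT
    linarith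
  have hcell : ∀ i ∈ I, ⌊u i / (ε * t)⌋₊ ∈ range (⌊1 / ε⌋₊ + 1) := by
    intro i hi
    rw [hI, mem_filter, mem_range] at hi
    rw [mem_range, Nat.lt_succ_iff]
    apply Nat.floor_le_floor
    rw [div_le_div_iff₀ (by positivity) h0]
    have := (hu i hi.1).2
    nlinarith
  have hcard : (range (⌊1 / ε⌋₊ + 1)).card < I.card := by
    rw [card_range]
    have h4 : ((⌊1 / ε⌋₊ : ℕ) : ℝ) ≤ 1 / ε := Nat.floor_le (by positivity)
    have h5 : ((⌊1 / ε⌋₊ + 1 : ℕ) : ℝ) < (I.card : ℝ) := by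
      push_cast
      linarith
    exact_mod_cast h5
  obtain ⟨i, hi, j, hj, hij, heq⟩ := exists_ne_map_eq_of_card_lt_of_maps_to hcard hcell
  have hpos : 0 < ε * t := by positivity
  have key : ∀ i ∈ I, ∀ j ∈ I, ⌊u i / (ε * t)⌋₊ = ⌊u j / (ε * t)⌋₊ → u i - ε * t ≤ u j := by
    intro i hi j hj h
    rw [hI, mem_filter, mem_range] at hi hj
    have h4 : u i / (ε * t) < ⌊u i / (ε * t)⌋₊ + 1 := Nat.lt_floor_add_one _
    have h5 : (⌊u j / (ε * t)⌋₊ : ℝ) ≤ u j / (ε * t) :=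
      Nat.floor_le (div_nonneg (hu j hj.1).1 hpos.le)
    rw [h] at h4
    have h6 : u i / (ε * t) < u j / (ε * t) + 1 := by linarith
    have h7 : u j / (ε * t) + 1 = (u j + ε * t) / (ε * t) := by
      field_simp
    rw [h7, div_lt_div_iff_of_pos_right hpos] at h6
    linarith
  have hiI := hi
  have hjI := hj
  rw [hI, mem_filter, mem_range] at hi hj
  rcases lt_or_gt_of_ne hij with h | h
  · exact ⟨i, j, h, hj.1, hi.2, hj.2, key i hiI j hjI heq⟩
  · exact ⟨j, i, h, hi.1, hj.2, hi.2, key j hjI i hiI heq.symm⟩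

end Pool.Agent.H11.HM
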