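import Pool.Agent.H11.HM.Pl

/-!
MP_8923e7_nt, project HM.  The symmetric form of `pair_lemma` (without the hypothesis on the numbers of the
large fibres): either `pair_lemma` applies directly, or it applies to the reflected sets with the roles of
`A` and `B` exchanged.
-/

namespace Pool.Agent.H11.HM

open Finset

private theorem refl_mem (L : ℕ) (S : Finset ℤ) (y : ℤ) :
    y ∈ S.image (fun z => (L : ℤ) - 1 - z) ↔ (L : ℤ) - 1 - y ∈ S := by
  rw [mem_image]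
  constructor
  · rintro ⟨z, hz, rfl⟩
    have : (L : ℤ) - 1 - (L - 1 - z) = z := by ring
    rwa [this]
  · intro h
    exact ⟨_, h, by ring⟩

private theorem refl_card (L : ℕ) (S : Finset ℤ) :
    (S.image (fun z => (L : ℤ) - 1 - z)).card = S.card := by
  apply card_image_of_injective
  intro a b h
  simp only at h
  linarith

private theorem refl_sub (L : ℕ) (S : Finset ℤ) (h : S ⊆ Ico 0 (L : ℤ)) :
    S.image (fun z => (L : ℤ) - 1 - z) ⊆ Ico 0 (L : ℤ) := by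
  intro y hy
  rw [refl_mem] at hy
  have := h hy
  rw [mem_Ico] at this ⊢
  omega

open Classical in
theorem pair_lemma_sym (ε : ℝ) (h0 : 0 < ε) (h1 : ε ≤ 1 / 10) : ∃ K : ℕ, 1 ≤ K ∧
    ∀ P L : ℕ, P.Prime → 1 / ε ^ 2 ≤ (P : ℝ) → (K : ℝ) * P ≤ ε ^ 2 * L →
    ∀ (α : Type) (X : Finset α) (n τ : ℕ), 1 ≤ n → 1 ≤ τ → X.card = 2 * n →
    ∀ (A B : α → ℕ → Finset ℤ) (F : α → ℕ → α → ℕ → Set ℤ) (ρ : ℕ → ℕ → ℝ) (r0 : ℝ),
      (∀ x ∈ X, ∀ δ < τ, A x δ ⊆ Ico 0 (L : ℤ)) → (∀ x ∈ X, ∀ δ < τ, B x δ ⊆ Ico 0 (L : ℤ)) →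
      (∀ δ < τ, (∑ x ∈ X, ((A x δ).card : ℝ)) ≤ (1 + ε) * n * L) →
      (∀ δ < τ, (∑ x ∈ X, ((B x δ).card : ℝ)) ≤ (1 + ε) * n * L) →
      ((((X ×ˢ X).filter (fun p => ∃ δ < τ, ∃ δ' < τ, ∃ y ∈ A p.1 δ, ∃ y' ∈ B p.2 δ',
        y' - y ∈ F p.1 δ p.2 δ')).card : ℝ) ≤ ε ^ 3 * (n : ℝ) ^ 2) →
      (∑ x ∈ X, ∑ δ ∈ range τ, ∑ x' ∈ X, ∑ δ' ∈ range τ, ∑ m ∈ Icc 1 K,
        (((Ico (-(L : ℤ)) L).filter
          (fun w => (cnt (F x δ x' δ') P m w : ℝ) < (ρ δ δ' - ε) * P)).card : ℝ) ≤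
        (ε ^ 4 / 16) ^ 2 * ((2 * n : ℝ) ^ 2 * (τ : ℝ) ^ 2 * (2 * L))) →
      (∀ δ < τ, (r0 - ε) * τ ≤ ∑ δ' ∈ range τ, ρ δ δ') →
      (∀ δ' < τ, (r0 - ε) * τ ≤ ∑ δ ∈ range τ, ρ δ δ') →
      (∀ δ < τ, ∀ δ' < τ, ρ δ δ' ≤ 1) →
      (12 * ε * (2 * n * τ * L) < ∑ x ∈ X, ∑ δ ∈ range τ, ((A x δ).card : ℝ)) →
      (12 * ε * (2 * n * τ * L) < ∑ x ∈ X, ∑ δ ∈ range τ, ((B x δ).card : ℝ)) →
      (∑ x ∈ X, ∑ δ ∈ range τ, ((A x δ).card : ℝ)) +
        (∑ x ∈ X, ∑ δ ∈ range τ, ((B x δ).card : ℝ)) ≤ (1 - r0 + 31 * ε) * (2 * n * τ * L) := by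
  obtain ⟨K, hK, H⟩ := pair_lemma ε h0 h1
  refine ⟨K, hK, ?_⟩
  intro P L hP hP1 hL α X n τ hn hτ hX A B F ρ r0 hA hB hA1 hB1 h2 h3 h4 h4' hρ h6 h6'
  have hτ0 : (0 : ℝ) < τ := by exact_mod_cast hτ
  by_cases hu : (((range τ).filter (fun δ => 6 * ε * (2 * n * L) ≤
      ∑ x ∈ X, ((A x δ).card : ℝ))).card : ℝ) - ε * τ ≤
      (((range τ).filter (fun δ => 6 * ε * (2 * n * L) ≤ ∑ x ∈ X, ((B x δ).card : ℝ))).card : ℝ)
  · exact H P L hP hP1 hL α X n τ hn hτ hX A B F ρ r0 hA hB hA1 hB1 h2 h3 h4 hρ hu h6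
  · push Not at hu
    have h7 := H P L hP hP1 hL α X n τ hn hτ hX
      (fun x δ => (B x δ).image (fun z => (L : ℤ) - 1 - z))
      (fun x δ => (A x δ).image (fun z => (L : ℤ) - 1 - z))
      (fun x δ x' δ' => F x' δ' x δ) (fun δ δ' => ρ δ' δ) r0
      (fun x hx δ hδ => refl_sub L _ (hB x hx δ hδ)) (fun x hx δ hδ => refl_sub L _ (hA x hx δ hδ))
      (fun δ hδ => by simp only [refl_card]; exact hB1 δ hδ)
      (fun δ hδ => by simp only [refl_card]; exact hA1 δ hδ)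
      ?_ ?_ h4' (fun δ hδ δ' hδ' => hρ δ' hδ' δ hδ) ?_ ?_
    · simp only [refl_card] at h7
      linarith
    · refine le_trans (Nat.cast_le.2 ?_) h2
      apply card_le_card_of_injOn (fun p : α × α => (p.2, p.1))
      · intro p hp
        have hp1 := (@mem_filter _ _ (_) _ _).1 (mem_coe.1 hp)
        obtain ⟨hpX, δ, hδ, δ', hδ', y, hy, y', hy', hF⟩ := hp1
        apply mem_coe.2
        refine (@mem_filter _ _ (_) _ _).2 ⟨?_, ?_⟩
        · rw [mem_product] at hpX ⊢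
          exact ⟨hpX.2, hpX.1⟩
        · rw [refl_mem] at hy hy'
          refine ⟨δ', hδ', δ, hδ, _, hy', _, hy, ?_⟩
          have : (L : ℤ) - 1 - y - (L - 1 - y') = y' - y := by ring
          rw [this]
          exact hF
      · intro p _ p' _ h
        simp only [Prod.mk.injEq] at h
        exact Prod.ext h.2 h.1
    · refine le_trans (le_of_eq ?_) h3
      rw [sum_comm]
      have e1 : ∀ δ ∈ range τ, ∀ x ∈ X, ∑ x' ∈ X, ∑ δ' ∈ range τ, ∑ m ∈ Icc 1 K,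
          (((Ico (-(L : ℤ)) L).filter
          (fun w => (cnt (F x' δ' x δ) P m w : ℝ) < (ρ δ' δ - ε) * P)).card : ℝ) =
          ∑ x' ∈ X, ∑ δ' ∈ range τ, ∑ m ∈ Icc 1 K,
          (((Ico (-(L : ℤ)) L).filter
          (fun w => (cnt (F x' δ' x δ) P m w : ℝ) < (ρ δ' δ - ε) * P)).card : ℝ) := by
        intro δ _ x _
        rfl
      calc ∑ δ ∈ range τ, ∑ x ∈ X, ∑ x' ∈ X, ∑ δ' ∈ range τ, ∑ m ∈ Icc 1 K,
            (((Ico (-(L : ℤ)) L).filter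
            (fun w => (cnt (F x' δ' x δ) P m w : ℝ) < (ρ δ' δ - ε) * P)).card : ℝ)
          = ∑ q ∈ (range τ) ×ˢ X, ∑ q' ∈ X ×ˢ (range τ), ∑ m ∈ Icc 1 K,
            (((Ico (-(L : ℤ)) L).filter
            (fun w => (cnt (F q'.1 q'.2 q.2 q.1) P m w : ℝ) <
              (ρ q'.2 q.1 - ε) * P)).card : ℝ) := by
            rw [sum_product]
            apply sum_congr rfl
            intro δ _
            apply sum_congr rfl
            intro x _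
            rw [sum_product]
        _ = ∑ q' ∈ X ×ˢ (range τ), ∑ q ∈ (range τ) ×ˢ X, ∑ m ∈ Icc 1 K,
            (((Ico (-(L : ℤ)) L).filter
            (fun w => (cnt (F q'.1 q'.2 q.2 q.1) P m w : ℝ) <
              (ρ q'.2 q.1 - ε) * P)).card : ℝ) := by
            rw [sum_comm]
        _ = _ := by
            rw [sum_product]
            apply sum_congr rfl
            intro x _
            apply sum_congr rfl
            intro δ _
            rw [sum_product, sum_comm]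
    · simp only [refl_card]
      have : (0 : ℝ) ≤ ε * τ := by positivity
      linarith
    · simp only [refl_card]
      exact h6'

end Pool.Agent.H11.HM
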