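import Pool.Agent.H11.HM.DiB
import Pool.Agent.H11.HM.FinB
import Pool.Agent.H11.HM.FinC
import Pool.Agent.H11.HM.PlS

/-!
MP_8923e7_nt, project HM.  The configuration in two classes leads to a contradiction.
-/

namespace Pool.Agent.H11.HM

open Finset

theorem dens_row' (R : Set ℤ) (τ l : ℕ) (hτ : τ ∣ l) (hl : 1 ≤ l) (b : ℤ) (z0 : ℤ)
    (h1 : b ≤ z0 % l) (h2 : z0 % l + b < l) (hb : (τ : ℤ) ≤ b) (r : ℝ) (hr : r ≤ rho R 1 l z0)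
    (δ' : ℕ) (hδ : δ' < τ) :
    r * τ ≤ ∑ δ ∈ range τ, rho R τ l (z0 + δ' - δ) := by
  have h3 := dens_row R τ l hτ hl b z0 h1 h2 hb r hr (τ - 1 - δ') (by omega)
  refine h3.trans (le_of_eq ?_)
  rw [← sum_range_reflect]
  apply sum_congr rfl
  intro i hi
  rw [mem_range] at hi
  congr 1
  have e1 : ((τ - 1 - i : ℕ) : ℤ) = (τ : ℤ) - 1 - i := by omega
  have e2 : ((τ - 1 - δ' : ℕ) : ℤ) = (τ : ℤ) - 1 - δ' := by omega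
  rw [e1, e2]
  ring

open Classical in
theorem contra2 (c ε : ℝ) (h0 : 0 < ε) (h1 : ε ≤ 1 / 10) (hc : 17 * ε < 2 * c - 1 / 2)
    (D : ℕ → Prop) (K P L : ℕ) (hL1 : 1 ≤ L)
    (hPL : ∀ (α : Type) (X : Finset α) (n τ : ℕ), 1 ≤ n → 1 ≤ τ → X.card = 2 * n →
    ∀ (A B : α → ℕ → Finset ℤ) (F : α → ℕ → α → ℕ → Set ℤ) (ρ : ℕ → ℕ → ℝ) (r0 : ℝ),
      (∀ x ∈ X, ∀ δ < τ, A x δ ⊆ Ico 0 (L : ℤ)) → (∀ x ∈ X, ∀ δ < τ, B x δ ⊆ Ico 0 (L : ℤ)) →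
      (∀ δ < τ, (∑ x ∈ X, ((A x δ).card : ℝ)) ≤ (1 + ε) * n * L) →
      (∀ δ < τ, (∑ x ∈ X, ((B x δ).card : ℝ)) ≤ (1 + ε) * n * L) →
      ((((X ×ˢ X).filter (fun p => ∃ δ < τ, ∃ δ' < τ, ∃ y ∈ A p.1 δ, ∃ y' ∈ B p.2 δ',
        y' - y ∈ F p.1 δ p.2 δ')).card : ℝ) ≤ ε ^ 3 * (n : ℝ) ^ 2) →
      (∑ x ∈ X, ∑ δ ∈ range τ, ∑ x' ∈ X, ∑ δ' ∈ range τ, ∑ m ∈ Icc 1 K,
        (((Ico (-(L : ℤ)) L).filter
          (fun w => (cnt (F x δ x' δ') P m w : ℝ) < (ρ δ δ' - ε) * P)).card : ℝ) ≤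
        (ε ^ 4 / 16) ^ 2 * ((2 * n : ℝ) ^ 2 * (τ : ℝ) ^ 2 * (2 * L))) →
      (∀ δ < τ, (r0 - ε) * τ ≤ ∑ δ' ∈ range τ, ρ δ δ') →
      (∀ δ' < τ, (r0 - ε) * τ ≤ ∑ δ ∈ range τ, ρ δ δ') →
      (∀ δ < τ, ∀ δ' < τ, ρ δ δ' ≤ 1) →
      (12 * ε * (2 * n * τ * L) < ∑ x ∈ X, ∑ δ ∈ range τ, ((A x δ).card : ℝ)) →
      (12 * ε * (2 * n * τ * L) < ∑ x ∈ X, ∑ δ ∈ range τ, ((B x δ).card : ℝ)) →
      (∑ x ∈ X, ∑ δ ∈ range τ, ((A x δ).card : ℝ)) +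
        (∑ x ∈ X, ∑ δ ∈ range τ, ((B x δ).card : ℝ)) ≤ (1 - r0 + 31 * ε) * (2 * n * τ * L))
    (n τ T Q1 bb d l B : ℕ) (hn : 1 ≤ n) (hτ : 1 ≤ τ) (hT : (1 / ε + 2) / ε ≤ (T : ℝ)) (hQ : 1 ≤ Q1)
    (hτd : τ ∣ d) (hτl : τ ∣ l) (hl : 1 ≤ l) (hBd : B < d) (hLB : L ≤ B)
    (X Y : Finset ℕ) (hX : X.card = n) (hY : Y.card = n)
    (hXY : ∀ x ∈ X, ∀ y ∈ Y, ((y : ℤ) - x) ∈ Rset D Q1) (hdis : Disjoint X Y)
    (hτX : ∀ x ∈ X ∪ Y, τ ∣ x) (hXB : ∀ x ∈ X ∪ Y, x + τ ≤ B) (r0 : ℝ)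
    (hr0 : 1 - r0 + 31 * ε < 2 * c - 5 * ε) (η : ℝ) (hη : η ≤ ε)
    (M : ℕ → ℕ) (hM : ∀ i, i + 1 < T → M i + (d * L + d) ≤ M (i + 1))
    (hgood : ∀ i j, i < j → j < T → ((M j : ℤ) - M i) ∉ {z : ℤ | rho (Rcl D Q1 bb) 1 l z < r0 - η ∨
      z % l < B + d * B ∨ (l : ℤ) ≤ z % l + (B + d * B)} ∧
      ∑ k ∈ Idx (X ∪ Y) τ L, fbad (Rcl D Q1 bb) τ l d K P η ((M j : ℤ) - M i + shf d k) ≤
        (ε ^ 4 / 16) ^ 2 * (Idx (X ∪ Y) τ L).card)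
    (S : Finset ℕ)
    (hS : S ⊆ (range T ×ˢ ((X ∪ Y) ×ˢ (range τ ×ˢ range L))).image (pt Q1 d M) ∪
      (range T ×ˢ ((X ∪ Y) ×ˢ (range τ ×ˢ range L))).image (fun q => pt Q1 d M q + bb))
    (hSc : (c - ε) * (T * (2 * (2 * n * τ * L))) ≤ (S.card : ℝ))
    (hconf : ((conf D S).card : ℝ) ≤ ε ^ 3 * (n : ℝ) ^ 2) : False := by
  obtain ⟨Z, hZ⟩ : ∃ Z : Finset ℕ, Z = X ∪ Y := ⟨_, rfl⟩
  have hZc : Z.card = 2 * n := by
    rw [hZ, card_union_of_disjoint hdis, hX, hY]; ring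
  have hrow : ∀ i δ, ∑ x ∈ Z, ((Fb Q1 d L M S i x δ).card : ℝ) ≤ (1 + ε) * n * L := by
    intro i δ
    rw [hZ]
    exact row_bound D Q1 d L n M X Y S ε h0 (by linarith) hQ hX hY hXY hdis hconf i δ
  have hconf' : ((conf D (shiftS S bb)).card : ℝ) ≤ ε ^ 3 * (n : ℝ) ^ 2 := by
    refine le_trans ?_ hconf
    exact_mod_cast conf_shift D S bb
  have hrow' : ∀ i δ, ∑ x ∈ Z, ((Fb Q1 d L M (shiftS S bb) i x δ).card : ℝ) ≤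
      (1 + ε) * n * L := by
    intro i δ
    rw [hZ]
    exact row_bound D Q1 d L n M X Y (shiftS S bb) ε h0 (by linarith) hQ hX hY hXY hdis hconf' i δ
  rw [← hZ] at hτX hXB hgood hS
  have hXd : ∀ x ∈ Z, x + τ ≤ d := fun x hx => (hXB x hx).trans hBd.le
  have hn0 : (0 : ℝ) < n := by exact_mod_cast hn
  have hτ0 : (0 : ℝ) < τ := by exact_mod_cast hτ
  have hL0 : (0 : ℝ) < L := by exact_mod_cast hL1
  obtain ⟨g, hg⟩ : ∃ g : ℝ, g = 2 * n * τ * L := ⟨_, rfl⟩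
  have hg0 : 0 < g := by rw [hg]; positivity
  obtain ⟨w0, hw0⟩ : ∃ w : ℕ → ℝ, w = fun i => ∑ x ∈ Z, ∑ δ ∈ range τ,
    ((Fb Q1 d L M S i x δ).card : ℝ) := ⟨_, rfl⟩
  obtain ⟨wb, hwb⟩ : ∃ w : ℕ → ℝ, w = fun i => ∑ x ∈ Z, ∑ δ ∈ range τ,
    ((Fb Q1 d L M (shiftS S bb) i x δ).card : ℝ) := ⟨_, rfl⟩
  have hle : ∀ S' : Finset ℕ, (∀ i δ, ∑ x ∈ Z, ((Fb Q1 d L M S' i x δ).card : ℝ) ≤
      (1 + ε) * n * L) → ∀ i, ∑ x ∈ Z, ∑ δ ∈ range τ, ((Fb Q1 d L M S' i x δ).card : ℝ) ≤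
        (1 + ε) / 2 * g := by
    intro S' hS' i
    rw [sum_comm]
    calc ∑ δ ∈ range τ, ∑ x ∈ Z, ((Fb Q1 d L M S' i x δ).card : ℝ)
        ≤ ∑ _δ ∈ range τ, (1 + ε) * n * L := sum_le_sum fun δ _ => hS' i δ
      _ = (1 + ε) / 2 * g := by
          rw [sum_const, card_range, nsmul_eq_mul, hg]
          ring
  have hw0le : ∀ i, w0 i ≤ (1 + ε) / 2 * g := by
    intro i; rw [hw0]; exact hle S hrow i
  have hwble : ∀ i, wb i ≤ (1 + ε) / 2 * g := by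
    intro i; rw [hwb]; exact hle (shiftS S bb) hrow' i
  have hw0nn : ∀ i, 0 ≤ w0 i := by
    intro i; rw [hw0]; exact sum_nonneg fun _ _ => sum_nonneg fun _ _ => Nat.cast_nonneg _
  have hwbnn : ∀ i, 0 ≤ wb i := by
    intro i; rw [hwb]; exact sum_nonneg fun _ _ => sum_nonneg fun _ _ => Nat.cast_nonneg _
  have hhalf : (1 + ε) / 2 * g ≤ g := by nlinarith
  have hsum : (c - ε) * (T * (2 * g)) ≤ ∑ i ∈ range T, (w0 i + wb i) := by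
    rw [hg]
    refine hSc.trans ?_
    rw [hw0, hwb]
    simp only
    have h2 := fb_total2 Q1 d L T τ bb M Z S hS
    exact_mod_cast h2
  obtain ⟨i, j, hij, hjT, hwi, hwj, huij⟩ := times_pigeon T (fun i => w0 i + wb i) wb c ε (2 * g) g
    h0 (by linarith) (by positivity) hg0 (fun i _ => by
      have := hw0le i; have := hwble i; linarith)
    (fun i _ => ⟨hwbnn i, (hwble i).trans hhalf⟩) hT hsum
  have hA6 : 12 * ε * g < w0 i := by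
    have h2 := hwble i
    have h3 : (c - 2 * ε) * (2 * g) - (1 + ε) / 2 * g ≤ w0 i := by linarith
    refine lt_of_lt_of_le ?_ h3
    have : (c - 2 * ε) * (2 * g) - (1 + ε) / 2 * g = (2 * c - 4 * ε - (1 + ε) / 2) * g := by ring
    rw [this]
    apply mul_lt_mul_of_pos_right _ hg0
    linarith
  have hB6 : 12 * ε * g < wb j := by
    have h2 := hw0le j
    have h3 : (c - 2 * ε) * (2 * g) - (1 + ε) / 2 * g ≤ wb j := by linarith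
    refine lt_of_lt_of_le ?_ h3
    have : (c - 2 * ε) * (2 * g) - (1 + ε) / 2 * g = (2 * c - 4 * ε - (1 + ε) / 2) * g := by ring
    rw [this]
    apply mul_lt_mul_of_pos_right _ hg0
    linarith
  have hsum2 : (2 * c - 5 * ε) * g ≤ w0 i + wb j := by linarith
  obtain ⟨hgd, hgf⟩ := hgood i j hij hjT
  rw [Set.mem_setOf_eq, not_or, not_or, not_lt, not_lt, not_le] at hgd
  obtain ⟨hg1, hg2, hg3⟩ := hgd
  have hτB : (τ : ℤ) ≤ B + d * B := by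
    have hne : Z.Nonempty := by
      rw [← card_pos, hZc]; omega
    obtain ⟨x, hx⟩ := hne
    have h2 := hXB x hx
    have h3 : (0 : ℤ) ≤ d * B := by positivity
    omega
  have hfin := hPL ℕ Z n τ hn hτ hZc (Fb Q1 d L M S i) (Fb Q1 d L M (shiftS S bb) j)
    (fun x δ x' δ' => {z : ℤ | ((M j : ℤ) - M i) + ((x' : ℤ) - x) + ((δ' : ℤ) - δ) + d * z ∈
      Rcl D Q1 bb})
    (fun δ δ' => rho (Rcl D Q1 bb) τ l ((M j : ℤ) - M i + δ' - δ)) r0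
    (fun x _ δ _ => fb_sub Q1 d L M S i x δ) (fun x _ δ _ => fb_sub Q1 d L M _ j x δ)
    (fun δ _ => hrow i δ) (fun δ _ => hrow' j δ) ?_ ?_ ?_ ?_ ?_ ?_ ?_
  · rw [hw0, hwb] at hsum2
    simp only at hsum2
    rw [hg] at hsum2
    have h2 : (0 : ℝ) < 2 * n * τ * L := by positivity
    have h3 : (2 * c - 5 * ε) * (2 * n * τ * L) ≤ (1 - r0 + 31 * ε) * (2 * n * τ * L) := by
      linarith
    have h4 := le_of_mul_le_mul_right h3 h2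
    linarith
  · refine le_trans ?_ hconf
    have h2 := conf_pairs2 D Q1 bb d T τ L M Z S hQ hXd hτX hM i j (hij.trans hjT) hjT
    refine le_trans ?_ (Nat.cast_le.2 h2)
    apply Nat.cast_le.2
    apply card_le_card
    intro p hp
    have hp1 := (@mem_filter _ _ (_) _ _).1 hp
    exact (@mem_filter _ _ (_) _ _).2 ⟨hp1.1, hp1.2⟩
  · have h2 := bad_sum (Rcl D Q1 bb) τ l d K P L ε η ((ε ^ 4 / 16) ^ 2) hη Z hl
      (B + d * B) ((M j : ℤ) - M i) hg2 hg3 hτd hτX B hXB hLB le_rfl hgf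
    rw [hZc] at h2
    refine le_trans (le_of_eq ?_) (h2.trans (le_of_eq ?_))
    · rfl
    · push_cast
      ring
  · intro δ hδ
    exact dens_row (Rcl D Q1 bb) τ l hτl hl (B + d * B) ((M j : ℤ) - M i) hg2 hg3 hτB
      (r0 - ε) (by linarith) δ hδ
  · intro δ' hδ'
    exact dens_row' (Rcl D Q1 bb) τ l hτl hl (B + d * B) ((M j : ℤ) - M i) hg2 hg3 hτB
      (r0 - ε) (by linarith) δ' hδ'
  · intro δ _ δ' _
    exact rho_le_one _ _ _ hτl hl _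
  · rw [hw0, hg] at hA6
    exact hA6
  · rw [hwb, hg] at hB6
    exact hB6

end Pool.Agent.H11.HM
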