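import Mathlib

/-!
[H11 HM PLA]  A counting lemma for `pair_lemma`: the star `(x*, δ*)`.

`exists_star`.  `(x, δ)`, `x ∈ X`, `δ < τ`; `E` is the exceptional set (at most `ε · 2nτ` pairs).  Let `g δ = ∑_{x ∈ X} a x δ`,
`U = {δ < τ | 6 ε (2 n L) ≤ g δ}`, and `e δ` the number of the `x ∈ X` with `E x δ`.  Let `m` be the maximum of `a x δ` over the `(x,δ)` with
`¬ E x δ` (`m = 0` if there are none).  For each `δ`: `g δ ≤ 2n m + L e δ` and `g δ ≤ (1+ε) n L = 2n (L/2) + ε n L`, so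
`g δ ≤ 2n min(m, L/2) + ε n L + L e δ`; for `δ ∉ U`, `g δ ≤ 6 ε (2 n L)`.  Sum over `δ < τ`:
`∑_δ g δ ≤ |U| 2n min(m, L/2) + τ ε n L + L ε 2nτ + 6 ε (2nLτ) ≤ |U| 2n min(m, L/2) + 8 ε (2nτL)`.  By `h6` the left side is
`> 12 ε (2nτL)`, so `|U| 2n m > 4 ε (2nτL)`, and `|U| ≤ τ` gives `m > 4 ε L`; in particular the maximum is attained at some `(x, δ)` with
`¬ E x δ`.

-/

namespace Pool.Agent.H11.HM

open Finset

open Classical in
private theorem pla_bound {α : Type} (X : Finset α) (n τ L : ℕ)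
    (hX : X.card = 2 * n) (ε : ℝ) (h0 : 0 < ε) (a : α → ℕ → ℝ)
    (haL : ∀ x ∈ X, ∀ δ < τ, a x δ ≤ L)
    (hA : ∀ δ < τ, ∑ x ∈ X, a x δ ≤ (1 + ε) * n * L) (E : α → ℕ → Prop)
    (hE : (((X ×ˢ range τ).filter (fun q => E q.1 q.2)).card : ℝ) ≤ ε * (2 * n * τ))
    (m : ℝ) (hm0 : 0 ≤ m) (hm : ∀ x ∈ X, ∀ δ < τ, ¬ E x δ → a x δ ≤ m) :
    ∑ x' ∈ X, ∑ δ' ∈ range τ, a x' δ' ≤
        (((range τ).filter (fun δ' => 6 * ε * (2 * n * L) ≤ ∑ x' ∈ X, a x' δ')).card : ℝ) *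
          (2 * n * min m (L / 2)) + 8 * ε * (2 * n * τ * L) := by
  set e : ℕ → ℕ := fun δ => (X.filter (fun x => E x δ)).card with he
  have hesum : (∑ δ ∈ range τ, (e δ : ℝ)) ≤ ε * (2 * n * τ) := by
    refine le_trans (le_of_eq ?_) hE
    rw [card_filter, sum_product_right, Nat.cast_sum]
    refine sum_congr rfl fun δ _ => ?_
    simp only [he]
    rw [card_filter]
  have hg1 : ∀ δ < τ, ∑ x ∈ X, a x δ ≤ 2 * n * m + L * e δ := by
    intro δ hδ
    rw [← sum_filter_add_sum_filter_not X (fun x => E x δ)]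
    have h2 : ∑ x ∈ X.filter (fun x => E x δ), a x δ ≤ L * e δ := by
      refine (sum_le_card_nsmul _ _ (L : ℝ) ?_).trans (le_of_eq ?_)
      · intro x hx
        exact haL x (mem_filter.1 hx).1 δ hδ
      · rw [nsmul_eq_mul, mul_comm]
    have h3 : ∑ x ∈ X.filter (fun x => ¬ E x δ), a x δ ≤ 2 * n * m := by
      refine (sum_le_card_nsmul _ _ m ?_).trans ?_
      · intro x hx
        exact hm x (mem_filter.1 hx).1 δ hδ (mem_filter.1 hx).2
      · rw [nsmul_eq_mul]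
        apply mul_le_mul_of_nonneg_right _ hm0
        have h4 : (X.filter (fun x => ¬ E x δ)).card ≤ 2 * n :=
          (card_le_card (filter_subset _ _)).trans hX.le
        exact_mod_cast h4
    linarith
  have hg : ∀ δ < τ, ∑ x ∈ X, a x δ ≤ 2 * n * min m (L / 2) + (ε * n * L + L * e δ) := by
    intro δ hδ
    have h2 := hg1 δ hδ
    have h3 := hA δ hδ
    have h4 : (0 : ℝ) ≤ ε * n * L := by positivity
    have h5 : (0 : ℝ) ≤ L * e δ := by positivity
    rcases le_total m ((L : ℝ) / 2) with h6 | h6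
    · rw [min_eq_left h6]
      linarith
    · rw [min_eq_right h6]
      have h7 : (2 : ℝ) * n * (L / 2) = n * L := by ring
      rw [h7]
      linarith
  have hmin0 : 0 ≤ min m ((L : ℝ) / 2) := le_min hm0 (by positivity)
  rw [sum_comm, ← sum_filter_add_sum_filter_not (range τ)
    (fun δ' => 6 * ε * (2 * n * L) ≤ ∑ x' ∈ X, a x' δ')]
  set U := (range τ).filter (fun δ' => 6 * ε * (2 * n * L) ≤ ∑ x' ∈ X, a x' δ') with hU
  have hUτ : (U.card : ℝ) ≤ τ := by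
    have := card_le_card (filter_subset (fun δ' => 6 * ε * (2 * (n : ℝ) * L) ≤ ∑ x' ∈ X, a x' δ')
      (range τ))
    rw [card_range] at this
    exact Nat.cast_le.2 this
  have hVτ : (((range τ).filter
      (fun δ' => ¬ 6 * ε * (2 * n * L) ≤ ∑ x' ∈ X, a x' δ')).card : ℝ) ≤ τ := by
    have := card_le_card (filter_subset (fun δ' => ¬ 6 * ε * (2 * (n : ℝ) * L) ≤ ∑ x' ∈ X, a x' δ')
      (range τ))
    rw [card_range] at this
    exact Nat.cast_le.2 this
  have h1 : ∑ δ ∈ U, ∑ x ∈ X, a x δ ≤ U.card * (2 * n * min m (L / 2)) +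
      (τ * (ε * n * L) + L * (ε * (2 * n * τ))) := by
    calc ∑ δ ∈ U, ∑ x ∈ X, a x δ
        ≤ ∑ δ ∈ U, (2 * n * min m (L / 2) + (ε * n * L + L * (e δ : ℝ))) :=
          sum_le_sum fun δ hδ => hg δ (mem_range.1 (mem_filter.1 hδ).1)
      _ = U.card * (2 * n * min m (L / 2)) + (U.card * (ε * n * L) +
            L * ∑ δ ∈ U, (e δ : ℝ)) := by
          rw [sum_add_distrib, sum_add_distrib, sum_const, sum_const, nsmul_eq_mul,
            nsmul_eq_mul, mul_sum]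
      _ ≤ U.card * (2 * n * min m (L / 2)) + (τ * (ε * n * L) + L * (ε * (2 * n * τ))) := by
          have h2 : ∑ δ ∈ U, (e δ : ℝ) ≤ ε * (2 * n * τ) :=
            (sum_le_sum_of_subset_of_nonneg (filter_subset _ _)
              (fun _ _ _ => Nat.cast_nonneg _)).trans hesum
          have h3 : (U.card : ℝ) * (ε * n * L) ≤ τ * (ε * n * L) :=
            mul_le_mul_of_nonneg_right hUτ (by positivity)
          have h4 : (L : ℝ) * ∑ δ ∈ U, (e δ : ℝ) ≤ L * (ε * (2 * n * τ)) :=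
            mul_le_mul_of_nonneg_left h2 (by positivity)
          linarith
  have h2 : ∑ δ ∈ (range τ).filter (fun δ' => ¬ 6 * ε * (2 * n * L) ≤ ∑ x' ∈ X, a x' δ'),
      ∑ x ∈ X, a x δ ≤ τ * (6 * ε * (2 * n * L)) := by
    refine (sum_le_card_nsmul _ _ (6 * ε * (2 * n * L)) ?_).trans ?_
    · intro δ hδ
      exact (not_le.1 (mem_filter.1 hδ).2).le
    · rw [nsmul_eq_mul]
      exact mul_le_mul_of_nonneg_right hVτ (by positivity)
  have h3 : (0 : ℝ) ≤ ε * n * L * τ := by positivity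
  nlinarith

open Classical in
theorem exists_star {α : Type} (X : Finset α) (n τ L : ℕ) (hn : 1 ≤ n) (hτ : 1 ≤ τ) (hL : 1 ≤ L)
    (hX : X.card = 2 * n) (ε : ℝ) (h0 : 0 < ε) (h1 : ε ≤ 1) (a : α → ℕ → ℝ)
    (ha : ∀ x δ, 0 ≤ a x δ) (haL : ∀ x ∈ X, ∀ δ < τ, a x δ ≤ L)
    (hA : ∀ δ < τ, ∑ x ∈ X, a x δ ≤ (1 + ε) * n * L) (E : α → ℕ → Prop)
    (hE : (((X ×ˢ range τ).filter (fun q => E q.1 q.2)).card : ℝ) ≤ ε * (2 * n * τ))
    (h6 : 12 * ε * (2 * n * τ * L) < ∑ x ∈ X, ∑ δ ∈ range τ, a x δ) :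
    ∃ x ∈ X, ∃ δ < τ, ¬ E x δ ∧ 4 * ε * L ≤ a x δ ∧
      ∑ x' ∈ X, ∑ δ' ∈ range τ, a x' δ' ≤
        (((range τ).filter (fun δ' => 6 * ε * (2 * n * L) ≤ ∑ x' ∈ X, a x' δ')).card : ℝ) *
          (2 * n * min (a x δ) (L / 2)) + 8 * ε * (2 * n * τ * L) := by
  have hn' : (1 : ℝ) ≤ n := by exact_mod_cast hn
  have hτ' : (1 : ℝ) ≤ τ := by exact_mod_cast hτ
  have hL' : (1 : ℝ) ≤ L := by exact_mod_cast hL
  have hpos : (0 : ℝ) < 2 * n * τ * L := by positivity
  set P := (X ×ˢ range τ).filter (fun q => ¬ E q.1 q.2) with hP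
  rcases P.eq_empty_or_nonempty with hemp | hne
  · exfalso
    have hb := pla_bound X n τ L hX ε h0 a haL hA E hE 0 le_rfl (fun x hx δ hδ hne => by
      exfalso
      have : (x, δ) ∈ P := mem_filter.2 ⟨mem_product.2 ⟨hx, mem_range.2 hδ⟩, hne⟩
      rw [hemp] at this
      exact absurd this (notMem_empty _))
    rw [min_eq_left (by positivity : (0 : ℝ) ≤ (L : ℝ) / 2), mul_zero, mul_zero, zero_add] at hb
    have : 0 < ε * (2 * n * τ * L) := mul_pos h0 hpos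
    linarith
  · obtain ⟨q, hq, hmax⟩ := exists_max_image P (fun q => a q.1 q.2) hne
    have hq' := mem_filter.1 hq
    have hqX : q.1 ∈ X := (mem_product.1 hq'.1).1
    have hqτ : q.2 < τ := mem_range.1 (mem_product.1 hq'.1).2
    have hb := pla_bound X n τ L hX ε h0 a haL hA E hE (a q.1 q.2) (ha _ _)
      (fun x hx δ hδ hne => hmax (x, δ) (mem_filter.2 ⟨mem_product.2 ⟨hx, mem_range.2 hδ⟩, hne⟩))
    refine ⟨q.1, hqX, q.2, hqτ, hq'.2, ?_, hb⟩
    have hUτ : (((range τ).filter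
        (fun δ' => 6 * ε * (2 * n * L) ≤ ∑ x' ∈ X, a x' δ')).card : ℝ) ≤ τ := by
      have := card_le_card (filter_subset (fun δ' => 6 * ε * (2 * (n : ℝ) * L) ≤ ∑ x' ∈ X, a x' δ')
        (range τ))
      rw [card_range] at this
      exact Nat.cast_le.2 this
    by_contra hcon
    push Not at hcon
    have h2 : (((range τ).filter
        (fun δ' => 6 * ε * (2 * n * L) ≤ ∑ x' ∈ X, a x' δ')).card : ℝ) *
          (2 * n * min (a q.1 q.2) (L / 2)) ≤ τ * (2 * n * (4 * ε * L)) := by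
      apply mul_le_mul hUτ _ _ (by positivity)
      · apply mul_le_mul_of_nonneg_left _ (by positivity)
        exact (min_le_left _ _).trans hcon.le
      · have : 0 ≤ min (a q.1 q.2) ((L : ℝ) / 2) := le_min (ha _ _) (by positivity)
        positivity
    nlinarith

end Pool.Agent.H11.HM
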