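import Mathlib

/-!
[H11 HM PLB]  A counting lemma for `pair_lemma`: the sum over the `δ` for a fixed star.

`sum_star`.  `g δ = ∑_{x ∈ X} b x δ`, `U = {δ < τ | 6 ε (2nL) ≤ g δ}`.  Call `δ < τ` exceptional if more than `2 ε n` of the `x ∈ X` have `Bd x δ`
(at most `ε τ` values).  For a `δ ∈ U` which is not exceptional there is an `x ∈ X` with `¬ Bd x δ` and `b x δ ≥ g δ/(2n) - ε L`
(otherwise `g δ < 2n (g δ/(2n) - ε L) + 2 ε n L = g δ`, or there is no `x` with `¬ Bd` and `g δ ≤ 2 ε n L < 12 ε n L`), and this is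
`≥ 6 ε L - ε L ≥ 4 ε L`.  So `hmain` holds, and `min 1 ((s + b)/L) ≥ min(s, L/2)/L + min(b, L/2)/L`, so
`L (1 - ρ δ + 10 ε) ≥ min(s, L/2) + min(g δ/(2n), L/2) - ε L`.  Multiply by `2n` and sum over `δ ∈ U` (each exceptional `δ` costs at most
`2n L` since the right side is `≤ L` and `1 - ρ ≥ 0`), use `∑_{δ < τ} (1 - ρ δ) ≤ (1 - r0 + ε) τ` and `1 - ρ ≥ 0`:
`(1 - r0 + ε) 2nτL ≥ |U| 2n min(s, L/2) + ∑_{δ ∈ U} min(g δ, nL) - 11 ε 2nτL - ε 2nτL`, and
`∑_{δ ∈ U} min(g δ, n L) ≥ ∑_{δ < τ} g δ - ε n L τ - 6 ε (2nLτ)` (`g δ ≤ (1+ε) n L`; `g δ ≤ 6 ε 2nL` outside `U`).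
-/

namespace Pool.Agent.H11.HM

open Finset

open Classical in
theorem sum_star {α : Type} (X : Finset α) (n τ L : ℕ) (hn : 1 ≤ n) (hτ : 1 ≤ τ) (hL : 1 ≤ L)
    (hX : X.card = 2 * n) (ε : ℝ) (h0 : 0 < ε) (h1 : ε ≤ 1) (b : α → ℕ → ℝ)
    (hb : ∀ x δ, 0 ≤ b x δ) (hbL : ∀ x ∈ X, ∀ δ < τ, b x δ ≤ L)
    (hB : ∀ δ < τ, ∑ x ∈ X, b x δ ≤ (1 + ε) * n * L) (Bd : α → ℕ → Prop)
    (hBd : (((range τ).filter
      (fun δ => 2 * ε * n < ((X.filter (fun x => Bd x δ)).card : ℝ))).card : ℝ) ≤ ε * τ)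
    (s r0 : ℝ) (hs : 0 ≤ s) (ρ : ℕ → ℝ) (hρ1 : ∀ δ < τ, ρ δ ≤ 1)
    (hρ : (r0 - ε) * τ ≤ ∑ δ ∈ range τ, ρ δ)
    (hmain : ∀ x ∈ X, ∀ δ < τ, ¬ Bd x δ → 4 * ε * L ≤ b x δ →
      min 1 ((s + b x δ) / L) ≤ 1 - ρ δ + 10 * ε) :
    (((range τ).filter (fun δ => 6 * ε * (2 * n * L) ≤ ∑ x ∈ X, b x δ)).card : ℝ) *
        (2 * n * min s (L / 2)) + ∑ x ∈ X, ∑ δ ∈ range τ, b x δ ≤
      (1 - r0 + 20 * ε) * (2 * n * τ * L) := by
  have hLp : (0 : ℝ) < L := by exact_mod_cast hL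
  have hnp : (0 : ℝ) < n := by exact_mod_cast hn
  obtain ⟨g, hg⟩ : ∃ g : ℕ → ℝ, ∀ δ, g δ = ∑ x ∈ X, b x δ := ⟨_, fun _ => rfl⟩
  obtain ⟨U, hU⟩ : ∃ U, U = (range τ).filter (fun δ => 6 * ε * (2 * n * L) ≤ ∑ x ∈ X, b x δ) := ⟨_, rfl⟩
  obtain ⟨Ex, hEx⟩ : ∃ Ex, Ex = (range τ).filter
    (fun δ => 2 * ε * n < ((X.filter (fun x => Bd x δ)).card : ℝ)) := ⟨_, rfl⟩
  rw [← hEx] at hBd
  rw [← hU]
  obtain ⟨M, hM⟩ : ∃ M : ℝ, M = min s ((L : ℝ) / 2) := ⟨_, rfl⟩
  rw [← hM]
  have hM0 : 0 ≤ M := by rw [hM]; exact le_min hs (by positivity)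
  have hMs : M ≤ s := by rw [hM]; exact min_le_left _ _
  have hML : M ≤ (L : ℝ) / 2 := by rw [hM]; exact min_le_right _ _
  have hnL : 0 < (n : ℝ) * L := mul_pos hnp hLp
  have key : ∀ δ ∈ U, 2 * n * M + min (g δ) (n * L) ≤
      2 * n * L * (1 - ρ δ) + 11 * ε * (2 * n * L) + 2 * n * L * (if δ ∈ Ex then 1 else 0) := by
    intro δ hδ
    rw [hU, mem_filter, ← hg] at hδ
    obtain ⟨hδτ, hδg⟩ := hδ
    have hδτ' := mem_range.1 hδτ
    have hρ' : 0 ≤ 1 - ρ δ := by linarith [hρ1 δ hδτ']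
    have hA : 0 ≤ 2 * n * L * (1 - ρ δ) := by positivity
    have hmin : min (g δ) ((n : ℝ) * L) ≤ n * L := min_le_right _ _
    by_cases hE : δ ∈ Ex
    · rw [if_pos hE]
      have h2 : 2 * (n : ℝ) * M ≤ n * L := by nlinarith
      have h3 : 0 ≤ 11 * ε * (2 * n * L) := by positivity
      linarith
    · rw [if_neg hE]
      have hbad : ((X.filter (fun x => Bd x δ)).card : ℝ) ≤ 2 * ε * n := by
        by_contra hc
        rw [not_le] at hc
        exact hE (by rw [hEx, mem_filter]; exact ⟨hδτ, hc⟩)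
      obtain ⟨c, hc⟩ : ∃ c : ℝ, c = g δ / (2 * n) - ε * L := ⟨_, rfl⟩
      have hgc : g δ = 2 * n * c + 2 * n * (ε * L) := by
        rw [hc]
        field_simp
        ring
      have hc5 : 5 * ε * L ≤ c := by
        have h5 : 2 * n * (5 * ε * L) ≤ 2 * n * c := by
          have : 2 * (n : ℝ) * c = g δ - 2 * n * (ε * L) := by linarith
          rw [this]
          nlinarith
        exact le_of_mul_le_mul_left h5 (by positivity)
      have hεL : 0 < ε * L := mul_pos h0 hLp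
      have hc0 : 0 < c := by nlinarith
      have hex : ∃ x ∈ X, ¬ Bd x δ ∧ c ≤ b x δ := by
        by_contra hno
        push Not at hno
        have hsplit : g δ = ∑ x ∈ X.filter (fun x => Bd x δ), b x δ +
            ∑ x ∈ X.filter (fun x => ¬ Bd x δ), b x δ := by
          rw [hg, Finset.sum_filter_add_sum_filter_not]
        have hs1 : ∑ x ∈ X.filter (fun x => Bd x δ), b x δ ≤ 2 * ε * n * L := by
          calc ∑ x ∈ X.filter (fun x => Bd x δ), b x δ
              ≤ ∑ _x ∈ X.filter (fun x => Bd x δ), (L : ℝ) :=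
                Finset.sum_le_sum fun x hx => hbL x (mem_filter.1 hx).1 δ hδτ'
            _ = ((X.filter (fun x => Bd x δ)).card : ℝ) * L := by
                rw [Finset.sum_const, nsmul_eq_mul]
            _ ≤ 2 * ε * n * L := mul_le_mul_of_nonneg_right hbad hLp.le
        rcases Finset.eq_empty_or_nonempty (X.filter (fun x => ¬ Bd x δ)) with he | hne
        · rw [he, Finset.sum_empty, add_zero] at hsplit
          have : 0 < ε * (n * L) := mul_pos h0 hnL
          nlinarith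
        · have hs2 : ∑ x ∈ X.filter (fun x => ¬ Bd x δ), b x δ <
              ∑ _x ∈ X.filter (fun x => ¬ Bd x δ), c := by
            refine Finset.sum_lt_sum_of_nonempty hne fun x hx => ?_
            exact hno x (mem_filter.1 hx).1 (mem_filter.1 hx).2
          rw [Finset.sum_const, nsmul_eq_mul] at hs2
          have hcard : ((X.filter (fun x => ¬ Bd x δ)).card : ℝ) ≤ 2 * n := by
            have h7 : (X.filter (fun x => ¬ Bd x δ)).card ≤ 2 * n := by
              rw [← hX]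
              exact Finset.card_filter_le _ _
            exact_mod_cast h7
          have hs3 : ((X.filter (fun x => ¬ Bd x δ)).card : ℝ) * c ≤ 2 * n * c :=
            mul_le_mul_of_nonneg_right hcard hc0.le
          nlinarith
      obtain ⟨x, hxX, hxB, hxc⟩ := hex
      have hb4 : 4 * ε * L ≤ b x δ := by nlinarith
      have hm := hmain x hxX δ hδτ' hxB hb4
      obtain ⟨c', hc'⟩ : ∃ c' : ℝ, c' = min c ((L : ℝ) / 2) := ⟨_, rfl⟩
      have hc'1 : c' ≤ c := by rw [hc']; exact min_le_left _ _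
      have hc'2 : c' ≤ (L : ℝ) / 2 := by rw [hc']; exact min_le_right _ _
      have hmm : M + c' ≤ L * min 1 ((s + b x δ) / L) := by
        rw [mul_min_of_nonneg _ _ hLp.le, mul_one, mul_div_cancel₀ _ hLp.ne']
        exact le_min (by linarith) (by linarith)
      have h8 : M + c' ≤ L * (1 - ρ δ + 10 * ε) := hmm.trans (mul_le_mul_of_nonneg_left hm hLp.le)
      have h9 : 2 * n * (M + c') ≤ 2 * n * (L * (1 - ρ δ + 10 * ε)) :=
        mul_le_mul_of_nonneg_left h8 (by positivity)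
      have h10 : min (g δ) ((n : ℝ) * L) ≤ 2 * n * c' + 2 * n * (ε * L) := by
        rw [hc']
        rcases le_total c ((L : ℝ) / 2) with h11 | h11
        · rw [min_eq_left h11, ← hgc]
          exact min_le_left _ _
        · rw [min_eq_right h11]
          have : 0 < n * (ε * L) := mul_pos hnp hεL
          nlinarith
      nlinarith
  have hsum := Finset.sum_le_sum key
  have e1 : ∑ δ ∈ U, (2 * n * M + min (g δ) ((n : ℝ) * L)) =
      (U.card : ℝ) * (2 * n * M) + ∑ δ ∈ U, min (g δ) ((n : ℝ) * L) := by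
    rw [Finset.sum_add_distrib, Finset.sum_const, nsmul_eq_mul]
  have hUsub : U ⊆ range τ := by rw [hU]; exact Finset.filter_subset _ _
  have hUcard : (U.card : ℝ) ≤ τ := by
    have : U.card ≤ τ := by
      calc U.card ≤ (range τ).card := Finset.card_le_card hUsub
        _ = τ := card_range τ
    exact_mod_cast this
  have e2 : ∑ δ ∈ U, (2 * n * L * (1 - ρ δ) + 11 * ε * (2 * n * L) +
      2 * n * L * (if δ ∈ Ex then 1 else 0)) ≤
      2 * n * L * ((1 - r0 + ε) * τ) + 11 * ε * (2 * n * L) * τ + 2 * n * L * (ε * τ) := by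
    rw [Finset.sum_add_distrib, Finset.sum_add_distrib]
    have f1 : ∑ δ ∈ U, 2 * n * L * (1 - ρ δ) ≤ 2 * n * L * ((1 - r0 + ε) * τ) := by
      rw [← Finset.mul_sum]
      refine mul_le_mul_of_nonneg_left ?_ (by positivity)
      calc ∑ δ ∈ U, (1 - ρ δ) ≤ ∑ δ ∈ range τ, (1 - ρ δ) := by
            refine Finset.sum_le_sum_of_subset_of_nonneg hUsub fun δ hδ _ => ?_
            linarith [hρ1 δ (mem_range.1 hδ)]
        _ = τ - ∑ δ ∈ range τ, ρ δ := by
            rw [Finset.sum_sub_distrib, Finset.sum_const, card_range, nsmul_eq_mul, mul_one]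
        _ ≤ (1 - r0 + ε) * τ := by linarith
    have f2 : ∑ _δ ∈ U, 11 * ε * (2 * n * L) ≤ 11 * ε * (2 * n * L) * τ := by
      rw [Finset.sum_const, nsmul_eq_mul, mul_comm]
      exact mul_le_mul_of_nonneg_left hUcard (by positivity)
    have f3 : ∑ δ ∈ U, 2 * n * L * (if δ ∈ Ex then (1 : ℝ) else 0) ≤ 2 * n * L * (ε * τ) := by
      rw [← Finset.mul_sum]
      refine mul_le_mul_of_nonneg_left ?_ (by positivity)
      rw [Finset.sum_boole]
      refine le_trans ?_ hBd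
      have : (U.filter (fun δ => δ ∈ Ex)).card ≤ Ex.card :=
        Finset.card_le_card fun δ hδ => (mem_filter.1 hδ).2
      exact_mod_cast this
    linarith
  have e3 : ∑ x ∈ X, ∑ δ ∈ range τ, b x δ ≤
      ∑ δ ∈ U, min (g δ) ((n : ℝ) * L) + (ε * (n * L)) * τ + (6 * ε * (2 * n * L)) * τ := by
    rw [Finset.sum_comm]
    have h1 : ∀ δ ∈ range τ, ∑ x ∈ X, b x δ ≤
        (if δ ∈ U then min (g δ) ((n : ℝ) * L) else 0) + ε * (n * L) + 6 * ε * (2 * n * L) := by
      intro δ hδ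
      rw [← hg]
      have h2 : g δ ≤ (1 + ε) * n * L := by rw [hg]; exact hB δ (mem_range.1 hδ)
      have h3 : 0 ≤ ε * (n * L) := by positivity
      have h4 : 0 ≤ 6 * ε * (2 * n * L) := by positivity
      by_cases hδU : δ ∈ U
      · rw [if_pos hδU]
        rcases le_total (g δ) ((n : ℝ) * L) with h5 | h5
        · rw [min_eq_left h5]
          linarith
        · rw [min_eq_right h5]
          nlinarith
      · rw [if_neg hδU]
        have h5 : g δ < 6 * ε * (2 * n * L) := by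
          by_contra hc
          rw [not_lt, hg] at hc
          exact hδU (by rw [hU, mem_filter]; exact ⟨hδ, hc⟩)
        linarith
    refine (Finset.sum_le_sum h1).trans (le_of_eq ?_)
    rw [Finset.sum_add_distrib, Finset.sum_add_distrib, Finset.sum_const, Finset.sum_const, card_range,
      nsmul_eq_mul, nsmul_eq_mul]
    have h6 : ∑ δ ∈ range τ, (if δ ∈ U then min (g δ) ((n : ℝ) * L) else 0) =
        ∑ δ ∈ U, min (g δ) ((n : ℝ) * L) := by
      rw [← Finset.sum_filter]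
      congr 1
      ext δ
      rw [mem_filter]
      exact ⟨fun h => h.2, fun h => ⟨hUsub h, h⟩⟩
    rw [h6]
    ring
  rw [e1] at hsum
  have hτp : (0 : ℝ) < τ := by exact_mod_cast hτ
  have h13 := hsum.trans e2
  have hpos : 0 ≤ ε * (n * L * τ) := by positivity
  nlinarith

end Pool.Agent.H11.HM
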