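import Pool.Agent.H11.HM.Lk
import Pool.Agent.H11.HM.PlA
import Pool.Agent.H11.HM.PlB

/-!
[H11 HM PL]  The lemma for pairs of structured near cliques.

`X` is a set of `2n` points; `A x δ`, `B x δ ⊂ [0, L)` for `x ∈ X`, `δ < τ`.  Conclusion: the densities of `A` and `B` have sum
`≤ 1 - r0 + 31 ε`.

(2) is `exists_star` (`PlA.lean`) and (4) is `sum_star` (`PlB.lean`): `a x δ = |A x δ|`, `b x δ = |B x δ|`, `E` = exceptional pairs of (1),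
`Bd x' δ'` = bad pairs of (3) (for at most `ε τ` of the `δ'` more than `ε n + ε^2 n ≤ 2 ε n` of the `x'` are bad), `s = |A x* δ*|`,
`ρ = ρ δ*`.  Then `|UB| ≥ |UA| - ε τ` (`hu`), so `|UB| 2n min(s, L/2) ≥ |UA| 2n min(s, L/2) - ε τ n L ≥ ∑∑ |A x δ| - 8 ε (2nτL) - ε τ n L`, and
`∑∑ |A| + ∑∑ |B| ≤ (1 - r0 + 20 ε + 8 ε + ε/2) (2nτL)`.

Proof.  `K` is that of `key_lemma ε`.  Notation: `α(x,δ) = |A x δ|/L`, `β(x,δ) = |B x δ|/L` (in `[0,1]`), `gA δ = (∑_{x ∈ X} α(x,δ))/(2n)`,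
`gB δ` the same with `β`; `hA = (∑_δ gA δ)/τ`, `hB`.  By `hA1`, `hB1`: `gA δ, gB δ ≤ (1+ε)/2`.  `UA = {δ < τ | gA δ ≥ 6 ε}`, `uA = |UA|/τ`, the
same for `B`; `hu : uB ≥ uA - ε`.

(1) Exceptional `(x, δ)`: `x` has more than `ε^2 n` conflict partners `x'`, or the sum `b3(x,δ) = ∑_{x'} ∑_{δ'} ∑_m #{w …}` is larger than
`(ε^4/16) · 2n τ · 2L`.  By `h2` (total `≤ ε^3 n^2`) at most `ε n` of the `x` are of the first kind (so `≤ (ε/2) 2nτ` pairs), by `h3`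
(total `≤ (ε^4/16)^2 (2n)^2 τ^2 2L`) at most `(ε^4/16) 2nτ` pairs are of the second kind.  Together `≤ ε · 2nτ`.

(2) Let `m* = ` the maximum of `α(x,δ)` over the non-exceptional `(x,δ)` (`m* = 0` if there are none), attained at `(x*,δ*)`.  For each `δ`:
`gA δ ≤ min(m*, 1/2) + ε/2 + e(δ)` where `e(δ)` is the proportion of exceptional `x` at `δ` (both `gA δ ≤ (1+ε)/2` and
`gA δ ≤ m* + e(δ)`), and `gA δ < 6 ε` for `δ ∉ UA`.  So `hA ≤ uA min(m*,1/2) + ε/2 + 6ε + ε ≤ uA min(m*,1/2) + 8 ε`.  From `h6`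
(`hA > 12 ε`), `m* > 4 ε`, in particular `(x*,δ*)` exists and `|A x* δ*| ≥ 4 ε L`.

(3) For `δ' < τ` call `x'` bad if `x*`, `x'` are conflict partners (at most `ε^2 n ≤ ε n` of the `x'`), or if
`∑_m #{w ∈ Ico (-L) L : …} > (ε^2/4) L` for `(x*,δ*,x',δ')`; as `b3(x*,δ*) ≤ (ε^4/16) 2nτ 2L`, there are at most `ε^2 n τ` pairs
`(x',δ')` of the second kind, so for all but `≤ ε τ` of the `δ'` at most `ε n` of the `x'` are of the second kind.  For such a `δ'` at most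
`2 ε n = ε · 2n` of the `x'` are bad; if moreover `δ' ∈ UB`, there is an `x'` which is not bad with `β(x',δ') ≥ gB δ' - ε` (otherwise
`gB δ' < (gB δ' - ε) + ε`), and `≥ 5 ε`.  `key_lemma` for `S = A x* δ*`, `S' = B x' δ'`, `F = F x* δ* x' δ'`, `ρ = ρ δ* δ'` gives
`1 - ρ δ* δ' + 10 ε ≥ min(1, m* + β(x',δ')) ≥ min(m*,1/2) + min(β(x',δ'),1/2) ≥ min(m*,1/2) + min(gB δ',1/2) - ε`.

(4) Sum over `δ' ∈ UB` (the `≤ ε τ` exceptional `δ'` cost at most `1` each): by `h4`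
`(1 - r0 + ε) τ ≥ ∑_{δ'} (1 - ρ δ* δ') ≥ |UB| min(m*,1/2) + ∑_{δ' ∈ UB} min(gB δ',1/2) - 11 ε τ - ε τ`.  Now
`|UB| min(m*,1/2) ≥ (uA - ε) τ min(m*,1/2) ≥ (hA - 8ε - ε/2) τ`, and `∑_{δ' ∈ UB} min(gB δ',1/2) ≥ (hB - 6 ε - ε/2) τ`
(`gB ≤ min(gB,1/2) + ε/2`, and `gB < 6 ε` outside `UB`).  So `1 - r0 + ε ≥ hA + hB - 27 ε`.
-/

namespace Pool.Agent.H11.HM

open Finset

theorem pl_cc {β : Type} (S : Finset β) (p q : β → Prop) (i : DecidablePred p)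
    (j : DecidablePred q) (h : ∀ x ∈ S, p x ↔ q x) :
    (@filter β p i S).card = (@filter β q j S).card := by
  congr 1
  ext x
  simp only [mem_filter]
  constructor
  · rintro ⟨h1, h2⟩
    exact ⟨h1, (h x h1).1 h2⟩
  · rintro ⟨h1, h2⟩
    exact ⟨h1, (h x h1).2 h2⟩

open Classical in
theorem pl_mk {β : Type} (S : Finset β) (f : β → ℝ) (c : ℝ) (hf : ∀ x ∈ S, 0 ≤ f x) :
    c * ((S.filter (fun x => c < f x)).card : ℝ) ≤ ∑ x ∈ S, f x := by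
  have h1 : ∑ x ∈ S.filter (fun x => c < f x), f x ≤ ∑ x ∈ S, f x :=
    sum_le_sum_of_subset_of_nonneg (filter_subset _ _) (fun x hx _ => hf x hx)
  refine le_trans ?_ h1
  rw [mul_comm, ← nsmul_eq_mul]
  exact card_nsmul_le_sum _ _ _ (fun x hx => (mem_filter.1 hx).2.le)

open Classical in
theorem pl_E {α : Type} (X : Finset α) (n τ L : ℕ) (hn : 1 ≤ n) (hτ : 1 ≤ τ) (hL : 1 ≤ L)
    (ε : ℝ) (h0 : 0 < ε) (h1 : ε ≤ 1 / 10) (conf : α → α → Prop) (W : α → ℕ → α → ℕ → ℝ)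
    (hW : ∀ x δ x' δ', 0 ≤ W x δ x' δ')
    (h2 : (((X ×ˢ X).filter (fun p => conf p.1 p.2)).card : ℝ) ≤ ε ^ 3 * (n : ℝ) ^ 2)
    (h3 : ∑ x ∈ X, ∑ δ ∈ range τ, ∑ x' ∈ X, ∑ δ' ∈ range τ, W x δ x' δ' ≤
      (ε ^ 4 / 16) ^ 2 * ((2 * n : ℝ) ^ 2 * (τ : ℝ) ^ 2 * (2 * L))) :
    (((X ×ˢ range τ).filter (fun q => ε ^ 2 * n < ((X.filter (fun x' => conf q.1 x')).card : ℝ) ∨
      ε ^ 4 / 16 * (2 * n * τ * (2 * L)) <
        ∑ x' ∈ X, ∑ δ' ∈ range τ, W q.1 q.2 x' δ')).card : ℝ) ≤ ε * (2 * n * τ) := by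
  have hnr : (1 : ℝ) ≤ n := by exact_mod_cast hn
  have hτr : (1 : ℝ) ≤ τ := by exact_mod_cast hτ
  have hLr : (1 : ℝ) ≤ L := by exact_mod_cast hL
  have e1 : (((X ×ˢ range τ).filter (fun q => ε ^ 2 * n <
      ((X.filter (fun x' => conf q.1 x')).card : ℝ) ∨
      ε ^ 4 / 16 * (2 * n * τ * (2 * L)) <
        ∑ x' ∈ X, ∑ δ' ∈ range τ, W q.1 q.2 x' δ')).card : ℝ) ≤
      (((X ×ˢ range τ).filter (fun q => ε ^ 2 * n <
        ((X.filter (fun x' => conf q.1 x')).card : ℝ))).card : ℝ) +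
      (((X ×ˢ range τ).filter (fun q => ε ^ 4 / 16 * (2 * n * τ * (2 * L)) <
        ∑ x' ∈ X, ∑ δ' ∈ range τ, W q.1 q.2 x' δ')).card : ℝ) := by
    rw [filter_or]
    exact_mod_cast card_union_le _ _
  have e2 : (((X ×ˢ range τ).filter (fun q => ε ^ 2 * n <
        ((X.filter (fun x' => conf q.1 x')).card : ℝ))).card : ℝ) ≤ ε * n * τ := by
    have e3 : ((X ×ˢ range τ).filter (fun q => ε ^ 2 * n <
        ((X.filter (fun x' => conf q.1 x')).card : ℝ))) =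
        (X.filter (fun x => ε ^ 2 * n < ((X.filter (fun x' => conf x x')).card : ℝ))) ×ˢ
          range τ := by
      ext q
      simp only [mem_filter, mem_product]
      tauto
    rw [e3, card_product, card_range, Nat.cast_mul]
    apply mul_le_mul_of_nonneg_right _ (by positivity)
    have e4 := pl_mk X (fun x => ((X.filter (fun x' => conf x x')).card : ℝ)) (ε ^ 2 * n)
      (fun x _ => by positivity)
    have e5 : ∑ x ∈ X, ((X.filter (fun x' => conf x x')).card : ℝ) =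
        (((X ×ˢ X).filter (fun p => conf p.1 p.2)).card : ℝ) := by
      simp_rw [card_filter]
      rw [sum_product]
      push_cast
      rfl
    rw [e5] at e4
    have e6 := e4.trans h2
    have e7 : 0 < ε ^ 2 * n := by positivity
    apply le_of_mul_le_mul_left _ e7
    refine e6.trans (le_of_eq ?_)
    ring
  have e3 : (((X ×ˢ range τ).filter (fun q => ε ^ 4 / 16 * (2 * n * τ * (2 * L)) <
        ∑ x' ∈ X, ∑ δ' ∈ range τ, W q.1 q.2 x' δ')).card : ℝ) ≤ ε ^ 4 / 16 * (2 * n * τ) := by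
    have e4 := pl_mk (X ×ˢ range τ) (fun q => ∑ x' ∈ X, ∑ δ' ∈ range τ, W q.1 q.2 x' δ')
      (ε ^ 4 / 16 * (2 * n * τ * (2 * L)))
      (fun q _ => sum_nonneg fun x' _ => sum_nonneg fun δ' _ => hW _ _ _ _)
    rw [sum_product] at e4
    have e5 := e4.trans h3
    have e7 : 0 < ε ^ 4 / 16 * (2 * n * τ * (2 * L)) := by positivity
    apply le_of_mul_le_mul_left _ e7
    refine e5.trans (le_of_eq ?_)
    ring
  refine e1.trans ((add_le_add e2 e3).trans ?_)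
  have e4 : ε ^ 4 ≤ ε := by
    have : ε ^ 4 = ε * ε ^ 3 := by ring
    rw [this]
    have : ε ^ 3 ≤ 1 := pow_le_one₀ h0.le (by linarith)
    nlinarith
  have e5 : (0 : ℝ) < n * τ := by positivity
  have e6 : ε ^ 4 * (n * τ) ≤ ε * (n * τ) := mul_le_mul_of_nonneg_right e4 e5.le
  have e7 : 0 < ε * (n * τ) := by positivity
  calc ε * n * τ + ε ^ 4 / 16 * (2 * n * τ) = ε * (n * τ) + (ε ^ 4 * (n * τ)) / 8 := by ring
    _ ≤ ε * (n * τ) + (ε * (n * τ)) := by linarith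
    _ = ε * (2 * n * τ) := by ring

open Classical in
theorem pl_B {α : Type} (X : Finset α) (n τ L : ℕ) (hn : 1 ≤ n) (hL : 1 ≤ L)
    (ε : ℝ) (h0 : 0 < ε) (h1 : ε ≤ 1 / 10) (c : α → Prop) (V : α → ℕ → ℝ)
    (hV : ∀ x δ, 0 ≤ V x δ)
    (h2 : ((X.filter (fun x => c x)).card : ℝ) ≤ ε ^ 2 * n)
    (h3 : ∑ x ∈ X, ∑ δ ∈ range τ, V x δ ≤ ε ^ 4 / 16 * (2 * n * τ * (2 * L))) :
    (((range τ).filter (fun δ => 2 * ε * n <
      ((X.filter (fun x => c x ∨ ε ^ 2 / 4 * L < V x δ)).card : ℝ))).card : ℝ) ≤ ε * τ := by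
  have hnr : (1 : ℝ) ≤ n := by exact_mod_cast hn
  have hLr : (1 : ℝ) ≤ L := by exact_mod_cast hL
  have e1 : ∀ δ, ((X.filter (fun x => c x ∨ ε ^ 2 / 4 * L < V x δ)).card : ℝ) ≤
      ε * n + ((X.filter (fun x => ε ^ 2 / 4 * L < V x δ)).card : ℝ) := by
    intro δ
    rw [filter_or]
    have e2 : (((X.filter (fun x => c x)) ∪ (X.filter (fun x => ε ^ 2 / 4 * L < V x δ))).card : ℝ)
      ≤ ((X.filter (fun x => c x)).card : ℝ) +
        ((X.filter (fun x => ε ^ 2 / 4 * L < V x δ)).card : ℝ) := by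
      exact_mod_cast card_union_le _ _
    have e3 : ε ^ 2 * n ≤ ε * n := by
      apply mul_le_mul_of_nonneg_right _ (by positivity)
      nlinarith
    linarith
  have e2 : ((range τ).filter (fun δ => 2 * ε * n <
      ((X.filter (fun x => c x ∨ ε ^ 2 / 4 * L < V x δ)).card : ℝ))) ⊆
      ((range τ).filter (fun δ => ε * n <
        ((X.filter (fun x => ε ^ 2 / 4 * L < V x δ)).card : ℝ))) := by
    intro δ hδ
    rw [mem_filter] at hδ ⊢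
    refine ⟨hδ.1, ?_⟩
    have := e1 δ
    linarith [hδ.2]
  have e3 : (((range τ).filter (fun δ => 2 * ε * n <
      ((X.filter (fun x => c x ∨ ε ^ 2 / 4 * L < V x δ)).card : ℝ))).card : ℝ) ≤
      (((range τ).filter (fun δ => ε * n <
        ((X.filter (fun x => ε ^ 2 / 4 * L < V x δ)).card : ℝ))).card : ℝ) := by
    exact_mod_cast card_le_card e2
  refine e3.trans ?_
  have e4 := pl_mk (range τ) (fun δ => ((X.filter (fun x => ε ^ 2 / 4 * L < V x δ)).card : ℝ))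
    (ε * n) (fun δ _ => by positivity)
  have e5 : ε ^ 2 / 4 * L * ∑ δ ∈ range τ, ((X.filter (fun x => ε ^ 2 / 4 * L < V x δ)).card : ℝ) ≤
      ε ^ 4 / 16 * (2 * n * τ * (2 * L)) := by
    rw [mul_sum]
    refine le_trans (sum_le_sum fun δ _ => pl_mk X (fun x => V x δ) (ε ^ 2 / 4 * L)
      (fun x _ => hV x δ)) ?_
    rw [sum_comm]
    exact h3
  have e6 : ∑ δ ∈ range τ, ((X.filter (fun x => ε ^ 2 / 4 * L < V x δ)).card : ℝ) ≤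
      ε ^ 2 * n * τ := by
    have e7 : 0 < ε ^ 2 / 4 * L := by positivity
    apply le_of_mul_le_mul_left _ e7
    refine e5.trans (le_of_eq ?_)
    ring
  have e7 : 0 < ε * n := by positivity
  apply le_of_mul_le_mul_left _ e7
  refine (e4.trans e6).trans (le_of_eq ?_)
  ring

open Classical in
theorem pair_lemma (ε : ℝ) (h0 : 0 < ε) (h1 : ε ≤ 1 / 10) : ∃ K : ℕ, 1 ≤ K ∧
    ∀ P L : ℕ, P.Prime → 1 / ε ^ 2 ≤ (P : ℝ) → (K : ℝ) * P ≤ ε ^ 2 * L →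
    ∀ (α : Type) (X : Finset α) (n τ : ℕ), 1 ≤ n → 1 ≤ τ → X.card = 2 * n →
    ∀ (A B : α → ℕ → Finset ℤ) (F : α → ℕ → α → ℕ → Set ℤ) (ρ : ℕ → ℕ → ℝ) (r0 : ℝ),
      (∀ x ∈ X, ∀ δ < τ, A x δ ⊆ Ico 0 (L : ℤ)) → (∀ x ∈ X, ∀ δ < τ, B x δ ⊆ Ico 0 (L : ℤ)) →
      (∀ δ < τ, (∑ x ∈ X, ((A x δ).card : ℝ)) ≤ (1 + ε) * n * L) →
      (∀ δ < τ, (∑ x ∈ X, ((B x δ).card : ℝ)) ≤ (1 + ε) * n * L) →
      -- h2
      ((((X ×ˢ X).filter (fun p => ∃ δ < τ, ∃ δ' < τ, ∃ y ∈ A p.1 δ, ∃ y' ∈ B p.2 δ',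
        y' - y ∈ F p.1 δ p.2 δ')).card : ℝ) ≤ ε ^ 3 * (n : ℝ) ^ 2) →
      -- h3
      (∑ x ∈ X, ∑ δ ∈ range τ, ∑ x' ∈ X, ∑ δ' ∈ range τ, ∑ m ∈ Icc 1 K,
        (((Ico (-(L : ℤ)) L).filter
          (fun w => (cnt (F x δ x' δ') P m w : ℝ) < (ρ δ δ' - ε) * P)).card : ℝ) ≤
        (ε ^ 4 / 16) ^ 2 * ((2 * n : ℝ) ^ 2 * (τ : ℝ) ^ 2 * (2 * L))) →
      -- h4
      (∀ δ < τ, (r0 - ε) * τ ≤ ∑ δ' ∈ range τ, ρ δ δ') →
      (∀ δ < τ, ∀ δ' < τ, ρ δ δ' ≤ 1) →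
      -- hu
      ((((range τ).filter (fun δ => 6 * ε * (2 * n * L) ≤ ∑ x ∈ X, ((A x δ).card : ℝ))).card : ℝ) -
          ε * τ ≤
        (((range τ).filter (fun δ => 6 * ε * (2 * n * L) ≤ ∑ x ∈ X, ((B x δ).card : ℝ))).card : ℝ)) →
      -- h6
      (12 * ε * (2 * n * τ * L) < ∑ x ∈ X, ∑ δ ∈ range τ, ((A x δ).card : ℝ)) →
      (∑ x ∈ X, ∑ δ ∈ range τ, ((A x δ).card : ℝ)) +
        (∑ x ∈ X, ∑ δ ∈ range τ, ((B x δ).card : ℝ)) ≤ (1 - r0 + 31 * ε) * (2 * n * τ * L) := by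
  obtain ⟨K, hK1, hK⟩ := key_lemma ε h0 h1
  refine ⟨K, hK1, ?_⟩
  intro P L hP hP2 hKL α X n τ hn hτ hX A B F ρ r0 hA hB hA1 hB1 h2 h3 h4 hρ1 hu h6
  have hnr : (1 : ℝ) ≤ n := by exact_mod_cast hn
  have hτr : (1 : ℝ) ≤ τ := by exact_mod_cast hτ
  have hL : 1 ≤ L := by
    by_contra hcon
    have hL0 : L = 0 := by omega
    have hPr : (0 : ℝ) < P := by exact_mod_cast hP.pos
    have hKr : (1 : ℝ) ≤ K := by exact_mod_cast hK1
    rw [hL0, Nat.cast_zero, mul_zero] at hKL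
    nlinarith
  have hLr : (1 : ℝ) ≤ L := by exact_mod_cast hL
  have hcard : ∀ S : Finset ℤ, S ⊆ Ico 0 (L : ℤ) → (S.card : ℝ) ≤ L := by
    intro S hS
    have e1 := card_le_card hS
    rw [Int.card_Ico, sub_zero, Int.toNat_natCast] at e1
    exact_mod_cast e1
  obtain ⟨conf, hconf⟩ : ∃ conf : α → α → Prop, conf = fun x x' => ∃ δ < τ, ∃ δ' < τ,
    ∃ y ∈ A x δ, ∃ y' ∈ B x' δ', y' - y ∈ F x δ x' δ' := ⟨_, rfl⟩
  obtain ⟨W, hWd⟩ : ∃ W : α → ℕ → α → ℕ → ℝ, W = fun x δ x' δ' => ∑ m ∈ Icc 1 K,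
        (((Ico (-(L : ℤ)) L).filter
          (fun w => (cnt (F x δ x' δ') P m w : ℝ) < (ρ δ δ' - ε) * P)).card : ℝ) := ⟨_, rfl⟩
  have hW0 : ∀ x δ x' δ', 0 ≤ W x δ x' δ' := by
    intro x δ x' δ'
    rw [hWd]
    exact sum_nonneg fun m _ => Nat.cast_nonneg _
  have h2' : (((X ×ˢ X).filter (fun p => conf p.1 p.2)).card : ℝ) ≤ ε ^ 3 * (n : ℝ) ^ 2 := by
    refine le_trans (le_of_eq ?_) h2
    rw [hconf]
    exact congrArg _ (pl_cc _ _ _ _ _ fun p _ => Iff.rfl)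
  have hE := pl_E X n τ L hn hτ hL ε h0 h1 conf W hW0 h2' (by rw [hWd]; exact h3)
  obtain ⟨x, hx, δ, hδ, hnE, ha4, hsa⟩ := exists_star X n τ L hn hτ hL hX ε h0 (by linarith)
    (fun x δ => ((A x δ).card : ℝ)) (fun x δ => Nat.cast_nonneg _)
    (fun x hx δ hδ => hcard _ (hA x hx δ hδ)) hA1
    (fun x δ => ε ^ 2 * n < ((X.filter (fun x' => conf x x')).card : ℝ) ∨
      ε ^ 4 / 16 * (2 * n * τ * (2 * L)) < ∑ x' ∈ X, ∑ δ' ∈ range τ, W x δ x' δ')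
    (le_trans (le_of_eq (congrArg _ (pl_cc _ _ _ _ _ fun q _ => Iff.rfl))) hE) h6
  push Not at hnE
  have hBd := pl_B X n τ L hn hL ε h0 h1 (fun x' => conf x x') (fun x' δ' => W x δ x' δ')
    (fun x' δ' => hW0 _ _ _ _) hnE.1 hnE.2
  have hsb := sum_star X n τ L hn hτ hL hX ε h0 (by linarith)
    (fun x δ => ((B x δ).card : ℝ)) (fun x δ => Nat.cast_nonneg _)
    (fun x hx δ hδ => hcard _ (hB x hx δ hδ)) hB1
    (fun x' δ' => conf x x' ∨ ε ^ 2 / 4 * L < W x δ x' δ')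
    (le_trans (le_of_eq (congrArg _ (pl_cc _ _ _ _ _ fun q _ => by
      rw [pl_cc X _ _ _ _ fun q' _ => Iff.rfl]))) hBd) ((A x δ).card : ℝ) r0
    (Nat.cast_nonneg _) (fun δ' => ρ δ δ') (fun δ' hδ' => hρ1 δ hδ δ' hδ') (h4 δ hδ) (by
      intro x' hx' δ' hδ' hnb hb4
      push Not at hnb
      apply hK P L hP hP2 hKL (ρ δ δ') (hρ1 δ hδ δ' hδ') (A x δ) (B x' δ') (F x δ x' δ')
        (hA x hx δ hδ) (hB x' hx' δ' hδ') ha4 hb4
      · intro y hy y' hy' hyy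
        apply hnb.1
        rw [hconf]
        exact ⟨δ, hδ, δ', hδ', y, hy, y', hy', hyy⟩
      · intro m hm1 hm2
        refine le_trans ?_ hnb.2
        rw [hWd]
        exact single_le_sum (f := fun m : ℕ => (((Ico (-(L : ℤ)) L).filter
          (fun w => (cnt (F x δ x' δ') P m w : ℝ) < (ρ δ δ' - ε) * P)).card : ℝ))
          (fun m _ => Nat.cast_nonneg _) (mem_Icc.2 ⟨hm1, hm2⟩))
  obtain ⟨UA, hUA⟩ : ∃ UA : ℝ, UA = (((range τ).filter (fun δ => 6 * ε * (2 * n * L) ≤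
    ∑ x ∈ X, ((A x δ).card : ℝ))).card : ℝ) := ⟨_, rfl⟩
  obtain ⟨UB, hUB⟩ : ∃ UB : ℝ, UB = (((range τ).filter (fun δ => 6 * ε * (2 * n * L) ≤
    ∑ x ∈ X, ((B x δ).card : ℝ))).card : ℝ) := ⟨_, rfl⟩
  rw [← hUA, ← hUB] at hu
  rw [← hUA] at hsa
  rw [← hUB] at hsb
  have hm0 : 0 ≤ min ((A x δ).card : ℝ) ((L : ℝ) / 2) := le_min (Nat.cast_nonneg _) (by positivity)
  have hm1 : min ((A x δ).card : ℝ) ((L : ℝ) / 2) ≤ (L : ℝ) / 2 := min_le_right _ _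
  obtain ⟨μ, hμ⟩ : ∃ μ, μ = min ((A x δ).card : ℝ) ((L : ℝ) / 2) := ⟨_, rfl⟩
  rw [← hμ] at hm0 hm1 hsa hsb
  have e1 : UA * (2 * n * μ) ≤ (UB + ε * τ) * (2 * n * μ) :=
    mul_le_mul_of_nonneg_right (by linarith) (by positivity)
  have e2 : ε * τ * (2 * n * μ) ≤ ε * τ * (2 * n * ((L : ℝ) / 2)) := by gcongr
  have e3 : 0 < ε * (n * τ * L) := by positivity
  have e4 : (UB + ε * τ) * (2 * n * μ) = UB * (2 * n * μ) + ε * τ * (2 * n * μ) := by ring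
  have e5 : ε * τ * (2 * n * ((L : ℝ) / 2)) = ε * (n * τ * L) := by ring
  have e6 : (1 - r0 + 31 * ε) * (2 * n * τ * L) = (1 - r0 + 20 * ε) * (2 * n * τ * L) +
    8 * ε * (2 * n * τ * L) + 6 * (ε * (n * τ * L)) := by ring
  linarith

end Pool.Agent.H11.HM
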