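import Pool.Agent.H11.HM.Ort
import Pool.Agent.H11.HM.Apc

/-!
[H11 HM UNIA]  One window: some scale `j` and some difference `d` work.

Proof.  `N = (K P)!`, `t = N^j`.  `rho_pigeon` gives `j < J` with `∑_W |rho_{j+1} - rho_j| ≤ X/√J ≤ X η^3/(4K)`, where `X = (l 0) (b - a)`,
`rho_j = rho R (N^j) (l j)`.  The window `W = Ico (l0 a) (l0 b)` is also `Ico (l_j a') (l_j b')`, `a' = (l0/l_j) a`, `b' = (l0/l_j) b`
(`l_j ∣ l0`), `X = l_j (b' - a')`, `b' - a' ≥ 1`.  `choose_diff` (with `t = N^j`, `l = l_j`, `l1 = l_{j+1}`; `t N = N^(j+1) ∣ N^J ∣ l_J ∣ l_{j+1}`)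
gives `d ∈ Ioc (D j) (2 D j)` with
`∑_m #{…} ≤ (K/η^2) (X/P + X η^3/(4K) + 2 X l_{j+1}/D_j + 6 N^j K P D_j (1 + (b'-a')))`; `l_{j+1}/D_j ≤ 1/C`,
`1 + (b'-a') ≤ 2 (b'-a') = 2 X/l_j`, `D_j/l_j ≤ 1/C`, so the four terms are each `≤ X η^3/(4K)` (`C ≥ 8K/η^3`,
`C ≥ 48 K^2 P N^J/η^3`).
-/

namespace Pool.Agent.H11.HM

open Finset

theorem one_window (η : ℝ) (hη : 0 < η) (hη1 : η ≤ 1) (K P J C : ℕ) (hK : 1 ≤ K) (hJ1 : 1 ≤ J)
    (hP : 4 * K / η ^ 3 ≤ (P : ℝ)) (hJ : (4 * K / η ^ 3) ^ 2 ≤ (J : ℝ))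
    (hC1 : 8 * K / η ^ 3 ≤ (C : ℝ))
    (hC2 : 48 * (K : ℝ) ^ 2 * P * (((K * P).factorial : ℕ) : ℝ) ^ J / η ^ 3 ≤ (C : ℝ))
    (l D : ℕ → ℕ) (hl0 : 1 ≤ l 0) (hN : ((K * P).factorial) ^ J ∣ l J)
    (hl : ∀ j, j < J → l (j + 1) ∣ l j) (hD : ∀ j, j < J → 1 ≤ D j)
    (hD1 : ∀ j, j < J → C * l (j + 1) ≤ D j) (hD2 : ∀ j, j < J → C * D j ≤ l j)
    (R : Set ℤ) (a b : ℤ) (hab : a < b) :
    ∃ j, j < J ∧ ∃ d ∈ Ioc (D j) (2 * D j), ∑ m ∈ Icc 1 K,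
      (((Ico ((l 0 : ℤ) * a) (l 0 * b)).filter
        (fun z => (cnt R P (((K * P).factorial) ^ j * d * m) z : ℝ) <
          (rho R (((K * P).factorial) ^ j) (l j) z - η) * P)).card : ℝ) ≤
        η * (l 0 * (b - a)) := by
  obtain ⟨N, hNd⟩ : ∃ N : ℕ, N = (K * P).factorial := ⟨_, rfl⟩
  rw [← hNd] at hC2 hN
  have hN1 : 1 ≤ N := by rw [hNd]; exact Nat.factorial_pos _
  have hK0 : (0 : ℝ) < K := by exact_mod_cast hK
  have hη3 : 0 < η ^ 3 := by positivity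
  have hP0 : (0 : ℝ) < P := lt_of_lt_of_le (by positivity) hP
  have hP1 : 1 ≤ P := by exact_mod_cast hP0
  have hC0 : (0 : ℝ) < C := lt_of_lt_of_le (by positivity) hC1
  obtain ⟨j, hj, hS⟩ := rho_pigeon R N J hJ1 l hl0 hN hl a b hab.le
  refine ⟨j, hj, ?_⟩
  have hdiv : ∀ i, i ≤ J → l i ∣ l 0 := by
    intro i
    induction i with
    | zero => intro _; exact dvd_rfl
    | succ i ih =>
      intro hi
      exact (hl i (by omega)).trans (ih (by omega))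
  have hdiv2 : ∀ k, j + 1 ≤ k → k ≤ J → l k ∣ l (j + 1) := by
    intro k hk
    induction k, hk using Nat.le_induction with
    | base => intro _; exact dvd_rfl
    | succ k hk ih =>
      intro hkJ
      exact (hl k (by omega)).trans (ih (by omega))
  obtain ⟨c, hc⟩ := hdiv j hj.le
  have hlj : 1 ≤ l j := by
    rcases Nat.eq_zero_or_pos (l j) with h | h
    · rw [h, zero_mul] at hc
      omega
    · exact h
  have hc1 : 1 ≤ c := by
    rcases Nat.eq_zero_or_pos c with h | h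
    · rw [h, mul_zero] at hc
      omega
    · exact h
  have hlj0 : (0 : ℝ) < l j := by exact_mod_cast hlj
  have hc0 : (0 : ℝ) < c := by exact_mod_cast hc1
  have hcR : (l 0 : ℝ) = l j * c := by rw [hc]; push_cast; ring
  have hcZ : (l 0 : ℤ) = l j * c := by rw [hc]; push_cast; ring
  have hbaZ : 1 ≤ b - a := by omega
  have hba1 : (1 : ℝ) ≤ b - a := by exact_mod_cast hbaZ
  have hIco : Ico ((l j : ℤ) * (c * a)) (l j * (c * b)) = Ico ((l 0 : ℤ) * a) (l 0 * b) := by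
    rw [hcZ, mul_assoc, mul_assoc]
  have h3 : N ^ j * (K * P).factorial ∣ l (j + 1) := by
    rw [← hNd, ← pow_succ]
    exact ((pow_dvd_pow N (by omega)).trans hN).trans (hdiv2 J (by omega) le_rfl)
  obtain ⟨d, hd, hsum⟩ := choose_diff R (N ^ j) (l j) (l (j + 1)) K P (D j) (Nat.one_le_pow _ _ hN1)
    hK hP1 h3 (hl j hj) hlj (hD j hj) ((c : ℤ) * a) ((c : ℤ) * b)
    (mul_le_mul_of_nonneg_left hab.le (by positivity)) η hη
  refine ⟨d, hd, ?_⟩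
  rw [hIco] at hsum
  rw [← hNd] at hsum ⊢
  refine hsum.trans ?_
  obtain ⟨X, hX⟩ : ∃ X : ℝ, X = (l 0 : ℝ) * (b - a) := ⟨_, rfl⟩
  have hX0 : 0 < X := by rw [hX, hcR]; positivity
  have hX' : (l j : ℝ) * ((((c : ℤ) * b : ℤ) : ℝ) - (((c : ℤ) * a : ℤ) : ℝ)) = X := by
    rw [hX, hcR]
    push_cast
    ring
  have hcb : ((((c : ℤ) * b : ℤ) : ℝ) - (((c : ℤ) * a : ℤ) : ℝ)) = X / l j := by
    rw [← hX']
    field_simp
  have hcb1 : 1 ≤ X / l j := by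
    rw [← hcb]
    push_cast
    have h1 : (1 : ℝ) ≤ c := by exact_mod_cast hc1
    nlinarith
  rw [hX', hcb, ← hX]
  obtain ⟨E, hE⟩ : ∃ E : ℝ, E = X * η ^ 3 / (4 * K) := ⟨_, rfl⟩
  -- (i)
  have b1 : X / P ≤ E := by
    rw [hE, div_le_div_iff₀ hP0 (by positivity)]
    rw [div_le_iff₀ hη3] at hP
    have := mul_le_mul_of_nonneg_left hP hX0.le
    linarith
  -- (ii)
  have hsJ : 4 * K / η ^ 3 ≤ Real.sqrt J := Real.le_sqrt_of_sq_le hJ
  have hsJ0 : 0 < Real.sqrt J := lt_of_lt_of_le (by positivity) hsJ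
  have b2 : ∑ z ∈ Ico ((l 0 : ℤ) * a) (l 0 * b), |rho R (N ^ j * N) (l (j + 1)) z - rho R (N ^ j) (l j) z| ≤ E := by
    rw [← pow_succ]
    refine hS.trans ?_
    rw [← hX, hE, div_le_div_iff₀ hsJ0 (by positivity)]
    rw [div_le_iff₀ hη3] at hsJ
    have := mul_le_mul_of_nonneg_left hsJ hX0.le
    linarith
  -- (iii)
  have hDj0 : (0 : ℝ) < D j := by exact_mod_cast hD j hj
  have b3 : 2 * X * (l (j + 1) : ℝ) / D j ≤ E := by
    have h1 : (C : ℝ) * l (j + 1) ≤ D j := by exact_mod_cast hD1 j hj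
    rw [hE, div_le_div_iff₀ hDj0 (by positivity)]
    rw [div_le_iff₀ hη3] at hC1
    have h2 : (0 : ℝ) ≤ l (j + 1) := Nat.cast_nonneg _
    have h3 : 8 * K * (l (j + 1) : ℝ) ≤ C * η ^ 3 * l (j + 1) := mul_le_mul_of_nonneg_right hC1 h2
    have h4 : (C : ℝ) * η ^ 3 * l (j + 1) ≤ D j * η ^ 3 := by nlinarith
    have h5 : 8 * K * (l (j + 1) : ℝ) ≤ D j * η ^ 3 := h3.trans h4
    have h6 := mul_le_mul_of_nonneg_left h5 hX0.le
    linarith
  -- (iv)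
  have b4 : 6 * ((N ^ j : ℕ) : ℝ) * K * P * D j * (1 + X / l j) ≤ E := by
    have h1 : (C : ℝ) * D j ≤ l j := by exact_mod_cast hD2 j hj
    have h2 : (1 : ℝ) + X / l j ≤ 2 * (X / l j) := by linarith
    have h3 : ((N ^ j : ℕ) : ℝ) ≤ (N : ℝ) ^ J := by
      have : N ^ j ≤ N ^ J := Nat.pow_le_pow_right hN1 hj.le
      exact_mod_cast this
    have h4 : 6 * ((N ^ j : ℕ) : ℝ) * K * P * D j * (1 + X / l j) ≤
        6 * ((N ^ j : ℕ) : ℝ) * K * P * D j * (2 * (X / l j)) :=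
      mul_le_mul_of_nonneg_left h2 (by positivity)
    have h5 : 6 * ((N ^ j : ℕ) : ℝ) * K * P * D j * (2 * (X / l j)) ≤
        6 * ((N : ℝ) ^ J) * K * P * D j * (2 * (X / l j)) := by
      gcongr
    refine (h4.trans h5).trans ?_
    have h6 : 6 * ((N : ℝ) ^ J) * K * P * D j * (2 * (X / l j)) =
        (12 * (N : ℝ) ^ J * K * P * D j * X) / l j := by
      field_simp
      norm_num
    rw [h6, hE, div_le_div_iff₀ hlj0 (by positivity)]
    rw [div_le_iff₀ hη3] at hC2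
    have h7 : 48 * (K : ℝ) ^ 2 * P * (N : ℝ) ^ J * D j ≤ C * η ^ 3 * D j :=
      mul_le_mul_of_nonneg_right hC2 hDj0.le
    have h8 : (C : ℝ) * η ^ 3 * D j ≤ l j * η ^ 3 := by nlinarith
    have h9 := mul_le_mul_of_nonneg_left (h7.trans h8) hX0.le
    linarith
  have hfin : K / η ^ 2 * (4 * E) = η * X := by
    rw [hE]
    field_simp
  rw [← hfin]
  apply mul_le_mul_of_nonneg_left _ (by positivity)
  linarith

end Pool.Agent.H11.HM
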