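import Pool.Agent.H11.HM.Sup
import Pool.Agent.H11.HM.UniA

/-!
[H11 HM UNI]  The uniform structure.

Proof.  `N = (K P)!`.  Let `l1` be from `far_windows`, and let `C` be a large natural number: `C ≥ 1`, `C ≥ (B+1) (1 + 2 N^J)/η`,
`C ≥ 8 K/η^3`, `C ≥ 48 K^2 P N^J/η^3`, `C ≥ B`.  Scales: `L j = C^(2(J-j)) · l1 · N^J` and `D j = C · L (j+1)` for `j < J`, so that
`L (j+1) ∣ L j`, `N^J ∣ L J`, `l1 ≤ L j`, `C · L (j+1) = D j`, `C · D j = L j`.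
For given `X0`, `M0` take the window `W = Ico (L0 a) (L0 b)`, `L0 = L 0`, of `far_windows` (with `max X0 1`), `X = L0 (b-a)`;
`one_window` (`UniA.lean`) gives `j < J` and `d' ∈ Ioc (D j) (2 D j)` with `∑_m #{…} ≤ η X`.
The pair `(j, d')` lies in a finite set (`j < J`, `d' ≤ 2 max D`): some pair occurs for arbitrarily large `X0 = M0 = s`, and so for all `(X0, M0)`.
Let `d = N^j d'`, `l = L j`.  `d ≥ d' > D j ≥ C ≥ B`; `B + d B ≤ B + 2 N^j D_j B ≤ D_j B (1 + 2N^J) ≤ η C D_j = η l`.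
(i'): the `z` with `rho R 1 l z < r0 - η` are at most `η X` by `far_windows` (`l1 ≤ L j ∣ L0`), the `z` with `z % l < B + d B` or
`l ≤ z % l + (B + d B)` are at most `2 (B + dB)` in each of the `X/l` blocks of length `l` of `W`, so at most `2 η X`.
-/

namespace Pool.Agent.H11.HM

open Finset

/-- elements of a union of blocks with a residue in `[u, v)` -/
private theorem uni_res (l : ℕ) (hl : 1 ≤ l) (a b : ℤ) (hab : a ≤ b) (u v : ℤ) (huv : u ≤ v) (p : ℤ → Prop)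
    [DecidablePred p] (hp : ∀ z, p z → u ≤ z % l ∧ z % l < v) :
    (((Ico ((l : ℤ) * a) (l * b)).filter p).card : ℝ) ≤ (b - a) * (v - u) := by
  have hlz : (0 : ℤ) < l := by exact_mod_cast hl
  have h1 : ((Ico ((l : ℤ) * a) (l * b)).filter p).card ≤ (Ico a b ×ˢ Ico u v).card := by
    refine Finset.card_le_card_of_injOn (fun z => (z / l, z % l)) ?_ ?_
    · intro z hz
      rw [mem_coe, mem_filter, mem_Ico] at hz
      obtain ⟨⟨h1, h2⟩, h3⟩ := hz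
      rw [mem_coe, mem_product, mem_Ico, mem_Ico]
      refine ⟨⟨?_, ?_⟩, hp z h3⟩
      · rw [Int.le_ediv_iff_mul_le hlz, mul_comm]
        exact h1
      · rw [Int.ediv_lt_iff_lt_mul hlz, mul_comm]
        exact h2
    · intro z _ z' _ h
      simp only [Prod.mk.injEq] at h
      rw [← Int.mul_ediv_add_emod z l, ← Int.mul_ediv_add_emod z' l, h.1, h.2]
  have h2 : ((Ico a b ×ˢ Ico u v).card : ℝ) = (b - a) * (v - u) := by
    rw [card_product, Int.card_Ico, Int.card_Ico, Nat.cast_mul]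
    have e1 : (((b - a).toNat : ℕ) : ℝ) = b - a := by
      have : (((b - a).toNat : ℕ) : ℤ) = b - a := Int.toNat_of_nonneg (by linarith)
      exact_mod_cast this
    have e2 : (((v - u).toNat : ℕ) : ℝ) = v - u := by
      have : (((v - u).toNat : ℕ) : ℤ) = v - u := Int.toNat_of_nonneg (by linarith)
      exact_mod_cast this
    rw [e1, e2]
  rw [← h2]
  exact_mod_cast h1

theorem uniform_structure (r0 η : ℝ) (hη : 0 < η) (hη1 : η ≤ 1) (K P J : ℕ) (hK : 1 ≤ K)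
    (hJ1 : 1 ≤ J) (hP : 4 * K / η ^ 3 ≤ (P : ℝ)) (hJ : (4 * K / η ^ 3) ^ 2 ≤ (J : ℝ)) (R : Set ℤ)
    (hR : ∀ X0 : ℕ, ∃ X M : ℕ, X0 ≤ X ∧ r0 * X ≤ ∑ z ∈ Ico (M : ℤ) (M + X), ind R z) (B : ℕ) :
    ∃ j d l : ℕ, j < J ∧ ((K * P).factorial) ^ j ∣ d ∧ ((K * P).factorial) ^ j ∣ l ∧ B < d ∧
      1 ≤ l ∧ ∀ X0 M0 : ℕ, ∃ X M : ℕ, X0 ≤ X ∧ M0 ≤ M ∧
        (((Ico (M : ℤ) (M + X)).filter (fun z => rho R 1 l z < r0 - η ∨
          z % l < B + d * B ∨ (l : ℤ) ≤ z % l + (B + d * B))).card : ℝ) ≤ 3 * η * X ∧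
        ∑ m ∈ Icc 1 K, (((Ico (M : ℤ) (M + X)).filter
          (fun z => (cnt R P (d * m) z : ℝ) <
            (rho R (((K * P).factorial) ^ j) l z - η) * P)).card : ℝ) ≤ η * X := by
  obtain ⟨N, hN⟩ : ∃ N, N = (K * P).factorial := ⟨_, rfl⟩
  have hone := one_window η hη hη1 K P J
  rw [← hN] at hone
  rw [← hN]
  have hN1 : 1 ≤ N := by rw [hN]; exact Nat.factorial_pos _
  obtain ⟨l1, hl1, hfar⟩ := far_windows R r0 η hη hR
  obtain ⟨C, hC⟩ : ∃ C : ℕ, C = 1 + B + ⌈((B : ℝ) + 1) * (1 + 2 * (N : ℝ) ^ J) / η⌉₊ + ⌈8 * (K : ℝ) / η ^ 3⌉₊ +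
      ⌈48 * (K : ℝ) ^ 2 * P * (N : ℝ) ^ J / η ^ 3⌉₊ := ⟨_, rfl⟩
  have hC1 : 1 ≤ C := by omega
  have hCB : B ≤ C := by omega
  have hCa : ((B : ℝ) + 1) * (1 + 2 * (N : ℝ) ^ J) / η ≤ C := by
    refine (Nat.le_ceil _).trans ?_
    exact_mod_cast (by omega : ⌈((B : ℝ) + 1) * (1 + 2 * (N : ℝ) ^ J) / η⌉₊ ≤ C)
  have hCb : 8 * (K : ℝ) / η ^ 3 ≤ C := by
    refine (Nat.le_ceil _).trans ?_
    exact_mod_cast (by omega : ⌈8 * (K : ℝ) / η ^ 3⌉₊ ≤ C)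
  have hCc : 48 * (K : ℝ) ^ 2 * P * (N : ℝ) ^ J / η ^ 3 ≤ C := by
    refine (Nat.le_ceil _).trans ?_
    exact_mod_cast (by omega : ⌈48 * (K : ℝ) ^ 2 * P * (N : ℝ) ^ J / η ^ 3⌉₊ ≤ C)
  obtain ⟨L, hL⟩ : ∃ L : ℕ → ℕ, ∀ j, L j = C ^ (2 * (J - j)) * (l1 * N ^ J) := ⟨_, fun _ => rfl⟩
  obtain ⟨D, hD⟩ : ∃ D : ℕ → ℕ, ∀ j, D j = C * L (j + 1) := ⟨_, fun _ => rfl⟩
  have hNJ : 1 ≤ N ^ J := Nat.one_le_pow _ _ hN1
  have hLstep : ∀ j, j < J → L j = C * D j := by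
    intro j hj
    rw [hD, hL, hL]
    have : J - j = (J - (j + 1)) + 1 := by omega
    rw [this, mul_add, pow_add]
    ring
  have hL1 : ∀ j, l1 ≤ L j := by
    intro j
    rw [hL]
    calc l1 = 1 * (l1 * 1) := by ring
      _ ≤ C ^ (2 * (J - j)) * (l1 * N ^ J) :=
        Nat.mul_le_mul (Nat.one_le_pow _ _ hC1) (Nat.mul_le_mul_left _ hNJ)
  have hLpos : ∀ j, 1 ≤ L j := fun j => hl1.trans (hL1 j)
  have hLdvd : ∀ j, j < J → L (j + 1) ∣ L j := by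
    intro j hj
    rw [hLstep j hj, hD]
    exact ⟨C * C, by ring⟩
  have hLdvd0 : ∀ j, j ≤ J → L j ∣ L 0 := by
    intro j
    induction j with
    | zero => intro _; exact dvd_rfl
    | succ j ih => intro hj; exact (hLdvd j (by omega)).trans (ih (by omega))
  have hNL : ∀ j, N ^ J ∣ L j := fun j => by
    rw [hL]
    exact ⟨C ^ (2 * (J - j)) * l1, by ring⟩
  have hD1 : ∀ j, C ≤ D j := fun j => by
    rw [hD]
    exact Nat.le_mul_of_pos_right _ (hLpos _)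
  obtain ⟨Q, hQ⟩ : ∃ Q : ℕ × ℕ → ℕ → ℕ → Prop, ∀ q X0 M0, Q q X0 M0 ↔ ∃ a b : ℤ, a < b ∧
      (X0 : ℤ) ≤ L 0 * (b - a) ∧ (M0 : ℤ) ≤ L 0 * a ∧ q.1 < J ∧ D q.1 < q.2 ∧ q.2 ≤ 2 * D q.1 ∧
      (∀ l : ℕ, l1 ≤ l → l ∣ L 0 →
        (((Ico ((L 0 : ℤ) * a) (L 0 * b)).filter (fun z => rho R 1 l z < r0 - η)).card : ℝ) ≤
          η * (L 0 * (b - a))) ∧
      ∑ m ∈ Icc 1 K, (((Ico ((L 0 : ℤ) * a) (L 0 * b)).filter
        (fun z => (cnt R P (N ^ q.1 * q.2 * m) z : ℝ) <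
          (rho R (N ^ q.1) (L q.1) z - η) * P)).card : ℝ) ≤ η * (L 0 * (b - a)) := ⟨_, fun _ _ _ => Iff.rfl⟩
  obtain ⟨T, hT⟩ : ∃ T, T = range J ×ˢ range (2 * (∑ j ∈ range J, D j) + 1) := ⟨_, rfl⟩
  have hwin : ∀ X0 M0 : ℕ, ∃ q ∈ T, Q q X0 M0 := by
    intro X0 M0
    obtain ⟨a, b, h1, h2, h3, h4⟩ := hfar (L 0) (hL1 0) (max X0 1) M0
    have hab : a < b := by
      have h5 : (1 : ℤ) ≤ ((max X0 1 : ℕ) : ℤ) := by exact_mod_cast le_max_right X0 1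
      rcases h1.eq_or_lt with h6 | h6
      · rw [h6, sub_self, mul_zero] at h2
        omega
      · exact h6
    obtain ⟨j, hj, d, hd, hsum⟩ := hone C hK hJ1 hP hJ hCb hCc L D (hLpos 0) (hNL J) hLdvd
      (fun j _ => hC1.trans (hD1 j)) (fun j _ => by rw [hD]) (fun j hj => (hLstep j hj).ge) R a b hab
    rw [mem_Ioc] at hd
    refine ⟨(j, d), ?_, ?_⟩
    · rw [hT, mem_product, mem_range, mem_range]
      refine ⟨hj, ?_⟩
      have h7 : D j ≤ ∑ j ∈ range J, D j :=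
        Finset.single_le_sum (f := D) (fun _ _ => Nat.zero_le _) (mem_range.2 hj)
      simp only
      omega
    · rw [hQ]
      refine ⟨a, b, hab, ?_, h3, hj, hd.1, hd.2, h4, hsum⟩
      have h8 : ((X0 : ℕ) : ℤ) ≤ ((max X0 1 : ℕ) : ℤ) := by exact_mod_cast le_max_left X0 1
      exact h8.trans h2
  have hpig : ∃ q ∈ T, ∀ X0 M0, Q q X0 M0 := by
    by_contra hno
    push Not at hno
    choose! fX fM hf using hno
    obtain ⟨q, hq, hQq⟩ := hwin (T.sup fX) (T.sup fM)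
    refine hf q hq ?_
    rw [hQ] at hQq ⊢
    obtain ⟨a, b, h1, h2, h3, h4⟩ := hQq
    have e1 : ((fX q : ℕ) : ℤ) ≤ ((T.sup fX : ℕ) : ℤ) := by exact_mod_cast Finset.le_sup hq
    have e2 : ((fM q : ℕ) : ℤ) ≤ ((T.sup fM : ℕ) : ℤ) := by exact_mod_cast Finset.le_sup hq
    exact ⟨a, b, h1, e1.trans h2, e2.trans h3, h4⟩
  obtain ⟨⟨j, d'⟩, _, hq⟩ := hpig
  obtain ⟨_, _, _, _, _, hjJ, hd1, hd2, _⟩ := (hQ _ _ _).1 (hq 0 0)
  simp only at hjJ hd1 hd2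
  have hNj : 1 ≤ N ^ j := Nat.one_le_pow _ _ hN1
  have hc : ((B : ℝ) + (N ^ j * d' : ℕ) * B) ≤ η * L j := by
    have h1 : ((N ^ j * d' : ℕ) : ℝ) ≤ 2 * (N : ℝ) ^ J * D j := by
      have h2 : N ^ j * d' ≤ N ^ J * (2 * D j) :=
        Nat.mul_le_mul (Nat.pow_le_pow_right hN1 hjJ.le) hd2
      have h3 : ((N ^ j * d' : ℕ) : ℝ) ≤ ((N ^ J * (2 * D j) : ℕ) : ℝ) := by exact_mod_cast h2
      push_cast at h3
      push_cast
      linarith
    have hDj : (1 : ℝ) ≤ D j := by exact_mod_cast hC1.trans (hD1 j)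
    have hB0 : (0 : ℝ) ≤ B := by positivity
    have h4 : ((B : ℝ) + 1) * (1 + 2 * (N : ℝ) ^ J) ≤ C * η := by rwa [div_le_iff₀ hη] at hCa
    have h5 : (L j : ℝ) = C * D j := by exact_mod_cast hLstep j hjJ
    have hNJr : (0 : ℝ) ≤ (N : ℝ) ^ J := by positivity
    calc (B : ℝ) + (N ^ j * d' : ℕ) * B ≤ B + (2 * (N : ℝ) ^ J * D j) * B := by
          linarith [mul_le_mul_of_nonneg_right h1 hB0]
      _ ≤ B * D j + (2 * (N : ℝ) ^ J * D j) * B := by nlinarith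
      _ = (B * (1 + 2 * (N : ℝ) ^ J)) * D j := by ring
      _ ≤ (((B : ℝ) + 1) * (1 + 2 * (N : ℝ) ^ J)) * D j := by
          refine mul_le_mul_of_nonneg_right ?_ (by linarith)
          exact mul_le_mul_of_nonneg_right (by linarith) (by linarith)
      _ ≤ (C * η) * D j := mul_le_mul_of_nonneg_right h4 (by linarith)
      _ = η * L j := by rw [h5]; ring
  refine ⟨j, N ^ j * d', L j, hjJ, dvd_mul_right _ _, (pow_dvd_pow N hjJ.le).trans (hNL j), ?_, hLpos j, ?_⟩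
  · calc B ≤ C := hCB
      _ ≤ D j := hD1 j
      _ < d' := hd1
      _ ≤ N ^ j * d' := Nat.le_mul_of_pos_left _ hNj
  intro X0 M0
  obtain ⟨a, b, hab, hX, hM, _, _, _, hr, hsum⟩ := (hQ _ _ _).1 (hq X0 M0)
  simp only at hr hsum
  have hLz : (0 : ℤ) < L 0 := by exact_mod_cast hLpos 0
  have hXe : ((((L 0 : ℤ) * (b - a)).toNat : ℕ) : ℤ) = L 0 * (b - a) := Int.toNat_of_nonneg (by
    have := Int.natCast_nonneg X0
    linarith)
  have hMe : ((((L 0 : ℤ) * a).toNat : ℕ) : ℤ) = L 0 * a := Int.toNat_of_nonneg (by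
    have := Int.natCast_nonneg M0
    linarith)
  have hXr : ((((L 0 : ℤ) * (b - a)).toNat : ℕ) : ℝ) = L 0 * (b - a) := by
    have h1 : (((((L 0 : ℤ) * (b - a)).toNat : ℕ) : ℤ) : ℝ) = ((L 0 * (b - a) : ℤ) : ℝ) := by rw [hXe]
    rw [Int.cast_natCast] at h1
    rw [h1]
    push_cast
    ring
  refine ⟨((L 0 : ℤ) * (b - a)).toNat, ((L 0 : ℤ) * a).toNat, by omega, by omega, ?_, ?_⟩
  · rw [hXe, hMe, hXr]
    have e1 : (L 0 : ℤ) * a + L 0 * (b - a) = L 0 * b := by ring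
    rw [e1]
    obtain ⟨m, hm⟩ := hLdvd0 j hjJ.le
    have hLm : (L 0 : ℤ) = L j * m := by exact_mod_cast hm
    have e2 : (L 0 : ℤ) * a = L j * (m * a) := by rw [hLm]; ring
    have e3 : (L 0 : ℤ) * b = L j * (m * b) := by rw [hLm]; ring
    obtain ⟨c, hcdef⟩ : ∃ c : ℤ, c = B + ((N ^ j * d' : ℕ) : ℤ) * B := ⟨_, rfl⟩
    have hc0 : 0 ≤ c := by rw [hcdef]; positivity
    have hcr : (c : ℝ) ≤ η * L j := by
      rw [hcdef]
      push_cast at hc ⊢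
      linarith
    rw [← hcdef]
    have hmab : (m : ℤ) * a ≤ m * b := mul_le_mul_of_nonneg_left hab.le (by positivity)
    have g1 := hr (L j) (hL1 j) (hLdvd0 j hjJ.le)
    have g2 := uni_res (L j) (hLpos j) (m * a) (m * b) hmab 0 c hc0 (fun z => z % (L j : ℤ) < c)
      (fun z hz => ⟨Int.emod_nonneg _ (by have := hLpos j; omega), hz⟩)
    have g3 := uni_res (L j) (hLpos j) (m * a) (m * b) hmab ((L j : ℤ) - c) (L j) (by omega)
      (fun z => (L j : ℤ) ≤ z % (L j : ℤ) + c)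
      (fun z hz => ⟨by linarith, Int.emod_lt_of_pos _ (by have := hLpos j; omega)⟩)
    rw [← e2, ← e3] at g2 g3
    have hcard : ((Ico ((L 0 : ℤ) * a) (L 0 * b)).filter (fun z => rho R 1 (L j) z < r0 - η ∨
          z % (L j : ℤ) < c ∨ (L j : ℤ) ≤ z % (L j : ℤ) + c)).card ≤
        ((Ico ((L 0 : ℤ) * a) (L 0 * b)).filter (fun z => rho R 1 (L j) z < r0 - η)).card +
        (((Ico ((L 0 : ℤ) * a) (L 0 * b)).filter (fun z => z % (L j : ℤ) < c)).card +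
          ((Ico ((L 0 : ℤ) * a) (L 0 * b)).filter (fun z => (L j : ℤ) ≤ z % (L j : ℤ) + c)).card) := by
      rw [Finset.filter_or, Finset.filter_or]
      exact (Finset.card_union_le _ _).trans (Nat.add_le_add_left (Finset.card_union_le _ _) _)
    have hcard' : (((Ico ((L 0 : ℤ) * a) (L 0 * b)).filter (fun z => rho R 1 (L j) z < r0 - η ∨
          z % (L j : ℤ) < c ∨ (L j : ℤ) ≤ z % (L j : ℤ) + c)).card : ℝ) ≤
        (((Ico ((L 0 : ℤ) * a) (L 0 * b)).filter (fun z => rho R 1 (L j) z < r0 - η)).card : ℝ) +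
        ((((Ico ((L 0 : ℤ) * a) (L 0 * b)).filter (fun z => z % (L j : ℤ) < c)).card : ℝ) +
          (((Ico ((L 0 : ℤ) * a) (L 0 * b)).filter (fun z => (L j : ℤ) ≤ z % (L j : ℤ) + c)).card : ℝ)) := by
      exact_mod_cast hcard
    have hLmr : (L 0 : ℝ) = L j * m := by exact_mod_cast hm
    have hba : (0 : ℝ) ≤ (m : ℝ) * (b - a) := by
      have : (a : ℝ) ≤ b := by exact_mod_cast hab.le
      exact mul_nonneg (by positivity) (by linarith)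
    have g4 : ((m : ℝ) * (b - a)) * c ≤ η * (L 0 * (b - a)) := by
      calc ((m : ℝ) * (b - a)) * c ≤ ((m : ℝ) * (b - a)) * (η * L j) := mul_le_mul_of_nonneg_left hcr hba
        _ = η * (L 0 * (b - a)) := by rw [hLmr]; ring
    push_cast at g2 g3
    nlinarith
  · rw [hXe, hMe, hXr]
    have e1 : (L 0 : ℤ) * a + L 0 * (b - a) = L 0 * b := by ring
    rw [e1]
    exact hsum

end Pool.Agent.H11.HM
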