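import Pool.Agent.H11.HM.FinA
import Pool.Agent.H11.HM.FinB
import Pool.Agent.H11.HM.FinC
import Pool.Agent.H11.HM.Pl
import Pool.Agent.H11.HM.Uni
import Pool.Agent.H11.HM.Chm
import Pool.Agent.H11.HM.Box

/-!
MP_8923e7_nt, project HM.  The abstract theorem.
-/

namespace Pool.Agent.H11.HM

open Finset

open Classical in
/-- the configuration at well chosen times leads to a contradiction -/
private theorem contra (c ε : ℝ) (h0 : 0 < ε) (h1 : ε ≤ 1 / 10) (hc : 14 * ε < c) (D : ℕ → Prop)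
    (K P L : ℕ) (hL1 : 1 ≤ L)
    (hPL : ∀ (α : Type) (X : Finset α) (n τ : ℕ), 1 ≤ n → 1 ≤ τ → X.card = 2 * n →
    ∀ (A B : α → ℕ → Finset ℤ) (F : α → ℕ → α → ℕ → Set ℤ) (ρ : ℕ → ℕ → ℝ) (r0 : ℝ),
      (∀ x ∈ X, ∀ δ < τ, A x δ ⊆ Ico 0 (L : ℤ)) → (∀ x ∈ X, ∀ δ < τ, B x δ ⊆ Ico 0 (L : ℤ)) →
      (∀ δ < τ, (∑ x ∈ X, ((A x δ).card : ℝ)) ≤ (1 + ε) * n * L) →
      (∀ δ < τ, (∑ x ∈ X, ((B x δ).card : ℝ)) ≤ (1 + ε) * n * L) →
      ((((X ×ˢ X).filter (fun p => ∃ δ < τ, ∃ δ' < τ, ∃ y ∈ A p.1 δ, ∃ y' ∈ B p.2 δ',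
        y' - y ∈ F p.1 δ p.2 δ')).card : ℝ) ≤ ε ^ 3 * (n : ℝ) ^ 2) →
      (∑ x ∈ X, ∑ δ ∈ range τ, ∑ x' ∈ X, ∑ δ' ∈ range τ, ∑ m ∈ Icc 1 K,
        (((Ico (-(L : ℤ)) L).filter
          (fun w => (cnt (F x δ x' δ') P m w : ℝ) < (ρ δ δ' - ε) * P)).card : ℝ) ≤
        (ε ^ 4 / 16) ^ 2 * ((2 * n : ℝ) ^ 2 * (τ : ℝ) ^ 2 * (2 * L))) →
      (∀ δ < τ, (r0 - ε) * τ ≤ ∑ δ' ∈ range τ, ρ δ δ') →
      (∀ δ < τ, ∀ δ' < τ, ρ δ δ' ≤ 1) →
      ((((range τ).filter (fun δ => 6 * ε * (2 * n * L) ≤ ∑ x ∈ X, ((A x δ).card : ℝ))).card : ℝ) -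
          ε * τ ≤
        (((range τ).filter (fun δ => 6 * ε * (2 * n * L) ≤ ∑ x ∈ X, ((B x δ).card : ℝ))).card : ℝ)) →
      (12 * ε * (2 * n * τ * L) < ∑ x ∈ X, ∑ δ ∈ range τ, ((A x δ).card : ℝ)) →
      (∑ x ∈ X, ∑ δ ∈ range τ, ((A x δ).card : ℝ)) +
        (∑ x ∈ X, ∑ δ ∈ range τ, ((B x δ).card : ℝ)) ≤ (1 - r0 + 31 * ε) * (2 * n * τ * L))
    (n τ T Q1 d l B : ℕ) (hn : 1 ≤ n) (hτ : 1 ≤ τ) (hT : (1 / ε + 2) / ε ≤ (T : ℝ)) (hQ : 1 ≤ Q1)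
    (hτd : τ ∣ d) (hτl : τ ∣ l) (hl : 1 ≤ l) (hBd : B < d) (hLB : L ≤ B)
    (X Y : Finset ℕ) (hX : X.card = n) (hY : Y.card = n)
    (hXY : ∀ x ∈ X, ∀ y ∈ Y, ((y : ℤ) - x) ∈ Rset D Q1) (hdis : Disjoint X Y)
    (hτX : ∀ x ∈ X ∪ Y, τ ∣ x) (hXB : ∀ x ∈ X ∪ Y, x + τ ≤ B) (r0 : ℝ)
    (hr0 : 1 - r0 + 31 * ε < 2 * (c - 2 * ε)) (η : ℝ) (hη : η ≤ ε)
    (M : ℕ → ℕ) (hM : ∀ i, i + 1 < T → M i + (d * L + d) ≤ M (i + 1))
    (hgood : ∀ i j, i < j → j < T → ((M j : ℤ) - M i) ∉ {z : ℤ | rho (Rset D Q1) 1 l z < r0 - η ∨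
      z % l < B + d * B ∨ (l : ℤ) ≤ z % l + (B + d * B)} ∧
      ∑ k ∈ Idx (X ∪ Y) τ L, fbad (Rset D Q1) τ l d K P η ((M j : ℤ) - M i + shf d k) ≤
        (ε ^ 4 / 16) ^ 2 * (Idx (X ∪ Y) τ L).card)
    (S : Finset ℕ)
    (hS : S ⊆ (range T ×ˢ ((X ∪ Y) ×ˢ (range τ ×ˢ range L))).image (pt Q1 d M))
    (hSc : (c - ε) * (T * (2 * n * τ * L)) ≤ (S.card : ℝ))
    (hconf : ((conf D S).card : ℝ) ≤ ε ^ 3 * (n : ℝ) ^ 2) : False := by
  obtain ⟨Z, hZ⟩ : ∃ Z : Finset ℕ, Z = X ∪ Y := ⟨_, rfl⟩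
  have hZc : Z.card = 2 * n := by
    rw [hZ, card_union_of_disjoint hdis, hX, hY]; ring
  have hrow : ∀ i δ, ∑ x ∈ Z, ((Fb Q1 d L M S i x δ).card : ℝ) ≤ (1 + ε) * n * L := by
    intro i δ
    rw [hZ]
    exact row_bound D Q1 d L n M X Y S ε h0 (by linarith) hQ hX hY hXY hdis hconf i δ
  rw [← hZ] at hτX hXB hgood hS
  have hXd : ∀ x ∈ Z, x + τ ≤ d := fun x hx => (hXB x hx).trans hBd.le
  obtain ⟨w, hw⟩ : ∃ w : ℕ → ℝ, w = fun i => ∑ x ∈ Z, ∑ δ ∈ range τ,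
    ((Fb Q1 d L M S i x δ).card : ℝ) := ⟨_, rfl⟩
  obtain ⟨u, hu⟩ : ∃ u : ℕ → ℝ, u = fun i => (((range τ).filter (fun δ =>
    6 * ε * (2 * n * L) ≤ ∑ x ∈ Z, ((Fb Q1 d L M S i x δ).card : ℝ))).card : ℝ) := ⟨_, rfl⟩
  have hn0 : (0 : ℝ) < n := by exact_mod_cast hn
  have hτ0 : (0 : ℝ) < τ := by exact_mod_cast hτ
  have hL0 : (0 : ℝ) < L := by exact_mod_cast hL1
  have hwle : ∀ i < T, w i ≤ 2 * n * τ * L := by
    intro i _
    rw [hw]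
    simp only
    calc ∑ x ∈ Z, ∑ δ ∈ range τ, ((Fb Q1 d L M S i x δ).card : ℝ)
        ≤ ∑ x ∈ Z, ∑ δ ∈ range τ, (L : ℝ) := by
          apply sum_le_sum
          intro x _
          apply sum_le_sum
          intro δ _
          have h2 := card_le_card (fb_sub Q1 d L M S i x δ)
          rw [Int.card_Ico] at h2
          have h3 : ((L : ℤ) - 0).toNat = L := by omega
          rw [h3] at h2
          exact_mod_cast h2
      _ = 2 * n * τ * L := by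
          rw [sum_const, sum_const, card_range, nsmul_eq_mul, nsmul_eq_mul, hZc]
          push_cast
          ring
  have hule : ∀ i < T, 0 ≤ u i ∧ u i ≤ τ := by
    intro i _
    rw [hu]
    simp only
    refine ⟨Nat.cast_nonneg _, ?_⟩
    have h2 := card_filter_le (range τ) (fun δ =>
      6 * ε * (2 * n * L) ≤ ∑ x ∈ Z, ((Fb Q1 d L M S i x δ).card : ℝ))
    rw [card_range] at h2
    exact_mod_cast h2
  have hsum : (c - ε) * (T * (2 * n * τ * L)) ≤ ∑ i ∈ range T, w i := by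
    refine hSc.trans ?_
    rw [hw]
    simp only
    have h2 := fb_total Q1 d L T τ M Z S hS
    exact_mod_cast h2
  obtain ⟨i, j, hij, hjT, hwi, hwj, huij⟩ := times_pigeon T w u c ε (2 * n * τ * L) τ h0
    (by linarith) (by positivity) hτ0 hwle hule hT hsum
  obtain ⟨hgd, hgf⟩ := hgood i j hij hjT
  rw [Set.mem_setOf_eq, not_or, not_or, not_lt, not_lt, not_le] at hgd
  obtain ⟨hg1, hg2, hg3⟩ := hgd
  have hτB : (τ : ℤ) ≤ B + d * B := by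
    have hne : Z.Nonempty := by
      rw [← card_pos, hZc]; omega
    obtain ⟨x, hx⟩ := hne
    have h2 := hXB x hx
    have h3 : (0 : ℤ) ≤ d * B := by positivity
    omega
  have hfin := hPL ℕ Z n τ hn hτ hZc (Fb Q1 d L M S i) (Fb Q1 d L M S j)
    (fun x δ x' δ' => {z : ℤ | ((M j : ℤ) - M i) + ((x' : ℤ) - x) + ((δ' : ℤ) - δ) + d * z ∈
      Rset D Q1})
    (fun δ δ' => rho (Rset D Q1) τ l ((M j : ℤ) - M i + δ' - δ)) r0
    (fun x _ δ _ => fb_sub Q1 d L M S i x δ) (fun x _ δ _ => fb_sub Q1 d L M S j x δ)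
    (fun δ _ => hrow i δ) (fun δ _ => hrow j δ) ?_ ?_ ?_ ?_ ?_ ?_
  · rw [hw] at hwi hwj
    simp only at hwi hwj
    have h2 : (0 : ℝ) < 2 * n * τ * L := by positivity
    have h3 : 2 * (c - 2 * ε) * (2 * n * τ * L) ≤ (1 - r0 + 31 * ε) * (2 * n * τ * L) := by
      linarith
    have h4 := le_of_mul_le_mul_right h3 h2
    linarith
  · refine le_trans ?_ hconf
    have h2 := conf_pairs D Q1 d T τ L M Z S hQ hXd hτX hM i j (hij.trans hjT) hjT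
    refine le_trans ?_ (Nat.cast_le.2 h2)
    apply Nat.cast_le.2
    apply card_le_card
    intro p hp
    have hp1 := (@mem_filter _ _ (_) _ _).1 hp
    exact (@mem_filter _ _ (_) _ _).2 ⟨hp1.1, hp1.2⟩
  · have h2 := bad_sum (Rset D Q1) τ l d K P L ε η ((ε ^ 4 / 16) ^ 2) hη Z hl
      (B + d * B) ((M j : ℤ) - M i) hg2 hg3 hτd hτX B hXB hLB le_rfl hgf
    rw [hZc] at h2
    refine le_trans (le_of_eq ?_) (h2.trans (le_of_eq ?_))
    · rfl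
    · push_cast
      ring
  · intro δ hδ
    have h2 := dens_row (Rset D Q1) τ l hτl hl (B + d * B) ((M j : ℤ) - M i) hg2 hg3 hτB
      (r0 - ε) (by linarith) δ hδ
    exact h2
  · intro δ _ δ' _
    exact rho_le_one _ _ _ hτl hl _
  · rw [hu] at huij
    simp only at huij
    exact huij
  · rw [hw] at hwi
    simp only at hwi
    refine lt_of_lt_of_le ?_ hwi
    apply mul_lt_mul_of_pos_right _ (by positivity)
    linarith

open Classical in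
theorem half_multiples (c : ℝ) (hc : c ≤ 1 / 2) (D : ℕ → Prop) (hD : NC c D) (ε0 : ℝ)
    (h0 : 0 < ε0) :
    ∃ q : ℕ, 0 < q ∧ ∀ Q : ℕ, 0 < Q → q ∣ Q → ∃ X0 : ℕ, ∀ X : ℕ, X0 ≤ X → ∀ M : ℕ,
      (2 * c - ε0) * X ≤ (((Ioc M (M + X)).filter (fun n => D (Q * n))).card : ℝ) := by
  rcases le_or_gt (2 * c) ε0 with hcε | hcε
  · refine ⟨1, one_pos, fun Q _ _ => ⟨0, fun X _ M => ?_⟩⟩
    refine le_trans ?_ (Nat.cast_nonneg _)
    exact mul_nonpos_of_nonpos_of_nonneg (by linarith) (Nat.cast_nonneg _)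
  by_contra hcon
  push Not at hcon
  -- arbitrarily divisible bad `Q`
  have hbad : ∀ q : ℕ, 0 < q → ∃ Q : ℕ, 0 < Q ∧ q ∣ Q ∧ ∀ X0 : ℕ, ∃ X M : ℕ, X0 ≤ X ∧
      (1 - (2 * c - ε0)) * X ≤ ∑ z ∈ Ico (M : ℤ) (M + X), ind (Rset D Q) z := by
    intro q hq
    obtain ⟨Q, hQ, hqQ, h⟩ := hcon q hq
    exact ⟨Q, hQ, hqQ, rset_density D Q (2 * c - ε0) h⟩
  -- parameters
  obtain ⟨ε, hε⟩ : ∃ ε : ℝ, ε = ε0 / 100 := ⟨_, rfl⟩
  have hε0 : 0 < ε := by rw [hε]; positivity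
  have hε1 : ε ≤ 1 / 10 := by rw [hε]; linarith
  obtain ⟨K, hK1, hPL⟩ := pair_lemma ε hε0 hε1
  obtain ⟨T, hT⟩ : ∃ T : ℕ, T = ⌈(1 / ε + 2) / ε⌉₊ := ⟨_, rfl⟩
  have hT1 : (1 / ε + 2) / ε ≤ (T : ℝ) := by rw [hT]; exact Nat.le_ceil _
  have hT0 : (0 : ℝ) < T := lt_of_lt_of_le (by positivity) hT1
  obtain ⟨η1, hη1⟩ : ∃ η1 : ℝ, η1 = (ε ^ 4 / 16) ^ 2 := ⟨_, rfl⟩
  have hη10 : 0 < η1 := by rw [hη1]; positivity
  have hη11 : η1 ≤ 1 := by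
    rw [hη1]
    have h2 : ε ^ 4 ≤ 1 := pow_le_one₀ hε0.le (by linarith)
    have h3 : ε ^ 4 / 16 ≤ 1 := by linarith
    exact pow_le_one₀ (by positivity) h3
  obtain ⟨η, hη⟩ : ∃ η : ℝ, η = min ε (η1 / (12 * T)) := ⟨_, rfl⟩
  have hη0 : 0 < η := by rw [hη]; exact lt_min hε0 (by positivity)
  have hηε : η ≤ ε := by rw [hη]; exact min_le_left _ _
  have hη2 : η ≤ η1 / (12 * T) := by rw [hη]; exact min_le_right _ _
  have hTη : (T : ℝ) * (3 * η + 3 * η / η1) ≤ 1 / 2 := by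
    rw [le_div_iff₀ (by positivity)] at hη2
    have h2 : 3 * η ≤ 3 * η / η1 := by
      rw [le_div_iff₀ hη10]
      nlinarith
    have h3 : (T : ℝ) * (3 * η + 3 * η / η1) ≤ T * (6 * η / η1) := by
      apply mul_le_mul_of_nonneg_left _ hT0.le
      have : 6 * η / η1 = 3 * η / η1 + 3 * η / η1 := by ring
      rw [this]
      linarith
    refine h3.trans ?_
    have h4 : (T : ℝ) * (6 * η / η1) = (η * (12 * T)) / η1 / 2 := by ring
    rw [h4]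
    have h5 : η * (12 * T) / η1 ≤ 1 := by
      rw [div_le_one hη10]
      exact hη2
    linarith
  obtain ⟨P, hPlarge, hP⟩ : ∃ P : ℕ, ⌈1 / ε ^ 2⌉₊ + ⌈4 * K / η ^ 3⌉₊ ≤ P ∧ P.Prime :=
    Nat.exists_infinite_primes _
  have hP1 : 1 / ε ^ 2 ≤ (P : ℝ) := by
    refine (Nat.le_ceil _).trans ?_
    exact_mod_cast (Nat.le_add_right _ _).trans hPlarge
  have hP2 : 4 * K / η ^ 3 ≤ (P : ℝ) := by
    refine (Nat.le_ceil _).trans ?_
    exact_mod_cast (Nat.le_add_left _ _).trans hPlarge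
  obtain ⟨J, hJ⟩ : ∃ J : ℕ, J = ⌈(4 * K / η ^ 3) ^ 2⌉₊ + 1 := ⟨_, rfl⟩
  have hJ1 : 1 ≤ J := by rw [hJ]; omega
  have hJ2 : (4 * K / η ^ 3) ^ 2 ≤ (J : ℝ) := by
    refine (Nat.le_ceil _).trans ?_
    rw [hJ]
    exact_mod_cast Nat.le_succ _
  obtain ⟨L, hL⟩ : ∃ L : ℕ, L = ⌈(K : ℝ) * P / ε ^ 2⌉₊ := ⟨_, rfl⟩
  have hPpos : (0 : ℝ) < P := by exact_mod_cast hP.pos
  have hKpos : (0 : ℝ) < K := by exact_mod_cast hK1
  have hL1 : (K : ℝ) * P ≤ ε ^ 2 * L := by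
    have : (K : ℝ) * P / ε ^ 2 ≤ L := by rw [hL]; exact Nat.le_ceil _
    rw [div_le_iff₀ (by positivity)] at this
    linarith
  have hL2 : 1 ≤ L := by
    have : (0 : ℝ) < L := by
      by_contra h
      push Not at h
      have h2 : ε ^ 2 * (L : ℝ) ≤ 0 := mul_nonpos_of_nonneg_of_nonpos (by positivity) h
      have h3 : 0 < (K : ℝ) * P := by positivity
      linarith
    exact_mod_cast this
  obtain ⟨τJ, hτJ⟩ : ∃ τJ : ℕ, τJ = ((K * P).factorial) ^ J := ⟨_, rfl⟩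
  have hτJ1 : 1 ≤ τJ := by rw [hτJ]; exact Nat.one_le_pow _ _ (Nat.factorial_pos _)
  obtain ⟨G, hG⟩ : ∃ G : ℝ, G = 2 * T * τJ * L := ⟨_, rfl⟩
  have hG0 : 0 < G := by
    rw [hG]
    have h2 : (0 : ℝ) < τJ := by exact_mod_cast hτJ1
    have h3 : (0 : ℝ) < L := by exact_mod_cast hL2
    positivity
  obtain ⟨ε', hε'⟩ : ∃ ε' : ℝ, ε' = min ε (ε ^ 3 / G ^ 2) := ⟨_, rfl⟩
  have hε'0 : 0 < ε' := by rw [hε']; exact lt_min hε0 (by positivity)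
  obtain ⟨KA, hKA⟩ := hD ε' hε'0
  obtain ⟨n, hn⟩ : ∃ n : ℕ, n = max KA 1 := ⟨_, rfl⟩
  have hn1 : 1 ≤ n := by rw [hn]; exact le_max_right _ _
  obtain ⟨nH, hnH⟩ : ∃ nH : ℕ, nH = T * (2 * n * (τJ * L)) := ⟨_, rfl⟩
  obtain ⟨Q1, hQ1, hQ1d, hR1⟩ := hbad nH.factorial (Nat.factorial_pos _)
  obtain ⟨Q, hQ, hQd, hR2⟩ := hbad (Q1 * τJ) (Nat.mul_pos hQ1 hτJ1)
  obtain ⟨s, hs⟩ := hQd
  obtain ⟨Q2, hQ2⟩ : ∃ Q2 : ℕ, Q2 = τJ * s := ⟨_, rfl⟩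
  have hQ2Q : Q = Q1 * Q2 := by rw [hs, hQ2]; ring
  have hQ2pos : 0 < Q2 := by
    rcases Nat.eq_zero_or_pos Q2 with h | h
    · rw [h, mul_zero] at hQ2Q; omega
    · exact h
  -- the box
  obtain ⟨X', Y', hX', hY', hXY'⟩ := box (Rset D Q) ε0 h0 (fun X0 => by
    obtain ⟨X, M, h1, h2⟩ := hR2 X0
    refine ⟨X, M, h1, le_trans ?_ h2⟩
    exact mul_le_mul_of_nonneg_right (by linarith) (Nat.cast_nonneg _)) n
  have hinjQ : Function.Injective (fun x : ℕ => Q2 * x) := fun a b h =>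
    Nat.eq_of_mul_eq_mul_left hQ2pos h
  obtain ⟨X, hXdef⟩ : ∃ X : Finset ℕ, X = X'.image (fun x => Q2 * x) := ⟨_, rfl⟩
  obtain ⟨Y, hYdef⟩ : ∃ Y : Finset ℕ, Y = Y'.image (fun x => Q2 * x) := ⟨_, rfl⟩
  have hXc : X.card = n := by rw [hXdef, card_image_of_injective _ hinjQ, hX']
  have hYc : Y.card = n := by rw [hYdef, card_image_of_injective _ hinjQ, hY']
  have hXY : ∀ x ∈ X, ∀ y ∈ Y, ((y : ℤ) - x) ∈ Rset D Q1 := by
    intro x hx y hy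
    rw [hXdef, mem_image] at hx
    rw [hYdef, mem_image] at hy
    obtain ⟨a, ha, rfl⟩ := hx
    obtain ⟨b, hb, rfl⟩ := hy
    obtain ⟨h1, h2⟩ := hXY' a ha b hb
    have hab : a < b := by omega
    refine ⟨?_, ?_⟩
    · have : Q2 * a < Q2 * b := Nat.mul_lt_mul_of_pos_left hab hQ2pos
      omega
    · have e1 : (((Q2 * b : ℕ) : ℤ) - ((Q2 * a : ℕ) : ℤ)).toNat = Q2 * (b - a) := by
        rw [Nat.mul_sub]
        omega
      have e2 : ((b : ℤ) - a).toNat = b - a := by omega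
      rw [e1, ← mul_assoc, ← hQ2Q]
      rw [e2] at h2
      exact h2
  have hdis : Disjoint X Y := by
    rw [disjoint_left]
    intro x hx hy
    have := (hXY x hx x hy).1
    omega
  have hτJX : ∀ x ∈ X ∪ Y, τJ ∣ x := by
    intro x hx
    rw [mem_union, hXdef, hYdef, mem_image, mem_image] at hx
    rcases hx with ⟨a, _, rfl⟩ | ⟨a, _, rfl⟩ <;>
    · rw [hQ2, mul_assoc]
      exact Dvd.intro _ rfl
  -- the bound
  obtain ⟨B, hB⟩ : ∃ B : ℕ, B = (X ∪ Y).sup id + τJ + L := ⟨_, rfl⟩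
  have hxB : ∀ x ∈ X ∪ Y, x + τJ ≤ B := by
    intro x hx
    have h2 : x ≤ (X ∪ Y).sup id := le_sup (f := id) hx
    rw [hB]; omega
  have hLB : L ≤ B := by rw [hB]; omega
  -- uniform structure
  obtain ⟨j, d, l, hjJ, hτd, hτl, hBd, hl1, hwin⟩ := uniform_structure (1 - (2 * c - ε0)) η hη0
    (by linarith) K P J hK1 hJ1 hP2 hJ2 (Rset D Q1) hR1 B
  obtain ⟨τ, hτ⟩ : ∃ τ : ℕ, τ = ((K * P).factorial) ^ j := ⟨_, rfl⟩
  rw [← hτ] at hτd hτl hwin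
  have hτ1 : 1 ≤ τ := by rw [hτ]; exact Nat.one_le_pow _ _ (Nat.factorial_pos _)
  have hττJ : τ ∣ τJ := by rw [hτ, hτJ]; exact pow_dvd_pow _ hjJ.le
  have hττJ' : τ ≤ τJ := Nat.le_of_dvd hτJ1 hττJ
  -- times
  obtain ⟨M, hM, hgood⟩ := choose_times T (d * L + d)
    {z : ℤ | rho (Rset D Q1) 1 l z < (1 - (2 * c - ε0)) - η ∨
      z % l < B + d * B ∨ (l : ℤ) ≤ z % l + (B + d * B)}
    (fbad (Rset D Q1) τ l d K P η) K (3 * η) η1 (fbad_nonneg _ _ _ _ _ _ _)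
    (fbad_le _ _ _ _ _ _ _) (by positivity) hη10 hTη (by
      intro X0 M0
      obtain ⟨X, M, h1, h2, h3, h4⟩ := hwin X0 M0
      refine ⟨X, M, h1, h2, ?_, ?_⟩
      · refine le_trans (Nat.cast_le.2 (card_le_card ?_)) h3
        intro z hz
        have hz1 := (@mem_filter _ _ (_) _ _).1 hz
        exact (@mem_filter _ _ (_) _ _).2 ⟨hz1.1, hz1.2⟩
      · rw [fbad_sum]
        refine le_trans (le_trans (le_of_eq ?_) h4) ?_
        · apply sum_congr rfl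
          intro m _
          congr 2
        · apply mul_le_mul_of_nonneg_right (by linarith) (Nat.cast_nonneg _))
    (Idx (X ∪ Y) τ L) (shf d)
  -- the configuration
  have hZc : (X ∪ Y).card = 2 * n := by
    rw [card_union_of_disjoint hdis, hXc, hYc]; ring
  have hXd : ∀ x ∈ X ∪ Y, x + τ ≤ d := by
    intro x hx
    have := hxB x hx
    omega
  have hτX : ∀ x ∈ X ∪ Y, τ ∣ x := fun x hx => hττJ.trans (hτJX x hx)
  obtain ⟨H, hH⟩ : ∃ H : Finset ℕ, H =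
    (range T ×ˢ ((X ∪ Y) ×ˢ (range τ ×ˢ range L))).image (pt Q1 d M) := ⟨_, rfl⟩
  have hHc : H.card = T * (2 * n * (τ * L)) := by
    rw [hH, card_image_of_injOn (pt_inj Q1 d T τ L M (X ∪ Y) hQ1 hXd hτX hM), card_product,
      card_product, card_product, card_range, card_range, card_range, hZc]
  have hTpos : 0 < T := by exact_mod_cast hT0
  have hHn : n ≤ H.card := by
    rw [hHc]
    have h2 : 1 ≤ τ * L := Nat.mul_pos hτ1 hL2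
    calc n ≤ 2 * n * 1 := by omega
      _ ≤ 2 * n * (τ * L) := Nat.mul_le_mul_left _ h2
      _ = 1 * (2 * n * (τ * L)) := (one_mul _).symm
      _ ≤ T * (2 * n * (τ * L)) := Nat.mul_le_mul_right _ hTpos
  have hHnH : H.card ≤ nH := by
    rw [hHc, hnH]
    exact Nat.mul_le_mul_left _ (Nat.mul_le_mul_left _ (Nat.mul_le_mul_right _ hττJ'))
  have hadm := conf_admissible H nH hHnH (by
    intro h hh
    rw [hH, mem_image] at hh
    obtain ⟨q, _, rfl⟩ := hh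
    unfold pt
    exact hQ1d.mul_right _)
  obtain ⟨S, hSH, hSc, hScf⟩ := hKA H hadm (by
    refine le_trans ?_ hHn
    rw [hn]
    exact le_max_left _ _)
  have hHr : (H.card : ℝ) = T * (2 * n * τ * L) := by
    rw [hHc]; push_cast; ring
  have hHG : (H.card : ℝ) ≤ G * n := by
    rw [hHr, hG]
    have h2 : (τ : ℝ) ≤ τJ := by exact_mod_cast hττJ'
    have h3 : (T : ℝ) * (2 * n * τ * L) = (2 * T * L * n) * τ := by ring
    have h4 : 2 * (T : ℝ) * τJ * L * n = (2 * T * L * n) * τJ := by ring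
    rw [h3, h4]
    exact mul_le_mul_of_nonneg_left h2 (by positivity)
  refine contra c ε hε0 hε1 (by rw [hε]; linarith) D K P L hL2 (hPL P L hP hP1 hL1)
    n τ T Q1 d l B hn1 hτ1 hT1 hQ1 hτd hτl hl1 hBd hLB X Y hXc hYc hXY hdis hτX
    (fun x hx => by have := hxB x hx; omega) (1 - (2 * c - ε0)) (by rw [hε]; linarith) η hηε
    M hM (by rw [← hη1]; exact hgood) S (by rw [← hH]; exact hSH) ?_ ?_
  · rw [← hHr]
    refine le_trans ?_ hSc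
    apply mul_le_mul_of_nonneg_right _ (Nat.cast_nonneg _)
    have : ε' ≤ ε := by rw [hε']; exact min_le_left _ _
    linarith
  · refine le_trans (le_of_eq ?_) (hScf.trans ?_)
    · unfold conf
      rfl
    · have h2 : (H.card : ℝ) ^ 2 ≤ (G * n) ^ 2 := pow_le_pow_left₀ (Nat.cast_nonneg _) hHG 2
      have h3 : ε' ≤ ε ^ 3 / G ^ 2 := by rw [hε']; exact min_le_right _ _
      calc ε' * (H.card : ℝ) ^ 2 ≤ (ε ^ 3 / G ^ 2) * (G * n) ^ 2 :=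
            mul_le_mul h3 h2 (by positivity) (by positivity)
        _ = ε ^ 3 * (n : ℝ) ^ 2 := by
            field_simp

end Pool.Agent.H11.HM
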