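import Pool.Agent.H11.HM.DiC
import Pool.Agent.H11.HM.FinD

/-!
MP_8923e7_nt, project HM.  The dichotomy: almost all multiples of some `q`, or the proportion `2c` of the
elements of every residue class of even numbers.
-/

namespace Pool.Agent.H11.HM

open Finset

open Classical in
private theorem class_zero (D : ℕ → Prop) (Q : ℕ) (κ ε : ℝ) (hε : 0 < ε)
    (h1 : ∃ X0 : ℕ, ∀ X : ℕ, X0 ≤ X → ∀ M : ℕ,
      κ * X ≤ (((Ioc M (M + X)).filter (fun n => D (Q * n))).card : ℝ))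
    (h2 : ∀ X0 : ℕ, ∃ X M : ℕ, X0 ≤ X ∧ (1 - κ + ε) * X ≤
      ∑ z ∈ Ico (M : ℤ) (M + X), ind (Rcl D Q 0) z) : False := by
  obtain ⟨X0, h1⟩ := h1
  obtain ⟨X, M, hX, h3⟩ := h2 (X0 + ⌈2 / ε⌉₊ + 1)
  have hX0 : X0 ≤ X := by omega
  have hX1 : 2 / ε ≤ (X : ℝ) := by
    refine (Nat.le_ceil _).trans ?_
    exact_mod_cast (by omega : ⌈2 / ε⌉₊ ≤ X)
  have h4 := h1 X hX0 M
  have h5 : ∑ z ∈ Ico (M : ℤ) (M + X), ind (Rcl D Q 0) z ≤
      1 + (((Ioc M (M + X)).filter (fun n => ¬ D (Q * n))).card : ℝ) := by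
    have h6 : ∑ z ∈ Ico (M : ℤ) (M + X), ind (Rcl D Q 0) z ≤
        ∑ z ∈ Ico (M : ℤ) (M + X + 1), ind (Rcl D Q 0) z := by
      apply sum_le_sum_of_subset_of_nonneg
      · intro z hz
        rw [mem_Ico] at hz ⊢
        omega
      · intro z _ _
        exact ind_nonneg _ _
    have h7 : ∑ z ∈ Ico (M : ℤ) (M + X + 1), ind (Rcl D Q 0) z =
        ind (Rcl D Q 0) (M : ℤ) + ∑ n ∈ Ioc M (M + X), ind (Rcl D Q 0) (n : ℤ) := by
      have h8 : Ico (M : ℤ) (M + X + 1) = insert (M : ℤ) ((Ioc M (M + X)).image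
          (fun n : ℕ => (n : ℤ))) := by
        ext z
        rw [mem_Ico, mem_insert, mem_image]
        constructor
        · rintro ⟨hz1, hz2⟩
          rcases eq_or_lt_of_le hz1 with h | h
          · left; exact h.symm
          · right
            refine ⟨z.toNat, ?_, by omega⟩
            rw [mem_Ioc]; omega
        · rintro (rfl | ⟨n, hn, rfl⟩)
          · omega
          · rw [mem_Ioc] at hn; omega
      rw [h8, sum_insert, sum_image]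
      · intro a _ b _ hab
        simp only at hab
        exact_mod_cast hab
      · rw [mem_image]
        rintro ⟨n, hn, hn2⟩
        rw [mem_Ioc] at hn
        omega
    have h9 : ∑ n ∈ Ioc M (M + X), ind (Rcl D Q 0) (n : ℤ) =
        (((Ioc M (M + X)).filter (fun n => ¬ D (Q * n))).card : ℝ) := by
      rw [card_filter]
      push_cast
      apply sum_congr rfl
      intro n hn
      rw [mem_Ioc] at hn
      unfold ind Rcl
      have h3 : (0 : ℤ) < n := by omega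
      simp only [Set.mem_setOf_eq, h3, true_and, Int.toNat_natCast, add_zero]
    have h10 := ind_le_one (Rcl D Q 0) (M : ℤ)
    linarith
  have h6 : (((Ioc M (M + X)).filter (fun n => D (Q * n))).card : ℝ) +
      (((Ioc M (M + X)).filter (fun n => ¬ D (Q * n))).card : ℝ) = X := by
    have h7 := card_filter_add_card_filter_not (s := Ioc M (M + X)) (fun n => D (Q * n))
    rw [Nat.card_Ioc] at h7
    have : M + X - M = X := by omega
    rw [this] at h7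
    exact_mod_cast h7
  have h7 : ε * X ≤ 1 := by linarith
  rw [div_le_iff₀ hε] at hX1
  linarith

open Classical in
private theorem main_aux (c : ℝ) (hc : 1 / 4 < c) (hc2 : c ≤ 1 / 2) (D : ℕ → Prop) (hD : NC c D)
    (hA : ∀ q : ℕ, 0 < q → ∃ ε : ℝ, 0 < ε ∧ ∀ X0 : ℕ, ∃ X, X0 ≤ X ∧ ∃ M : ℕ,
      (((Ioc M (M + X)).filter (fun n => D (q * n))).card : ℝ) < (1 - ε) * X)
    (Q0 b0 : ℕ) (hQ0 : 0 < Q0) (hb0 : b0 < Q0) (ε0 : ℝ) (h0 : 0 < ε0)
    (hB : ∀ X0 : ℕ, ∃ X, X0 ≤ X ∧ ∃ M : ℕ,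
      (((Ioc M (M + X)).filter (fun n => D (2 * (Q0 * n + b0)))).card : ℝ) <
        (2 * c - ε0) * X) : False := by
  have hκ : 0 ≤ 2 * c - ε0 := by
    by_contra hneg
    push Not at hneg
    obtain ⟨X, _, M, hM⟩ := hB 1
    have h1 : (2 * c - ε0) * (X : ℝ) ≤ 0 :=
      mul_nonpos_of_nonpos_of_nonneg hneg.le (Nat.cast_nonneg _)
    have h2 : (0 : ℝ) ≤ (((Ioc M (M + X)).filter (fun n => D (2 * (Q0 * n + b0)))).card : ℝ) :=
      Nat.cast_nonneg _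
    linarith
  -- parameters
  obtain ⟨ε, hε⟩ : ∃ ε : ℝ, ε = min (ε0 / 200) (min ((2 * c - 1 / 2) / 40) (1 / 10)) := ⟨_, rfl⟩
  have hε0 : 0 < ε := by
    rw [hε]
    exact lt_min (by positivity) (lt_min (by linarith) (by norm_num))
  have hεa : ε ≤ ε0 / 200 := by rw [hε]; exact min_le_left _ _
  have hεb : ε ≤ (2 * c - 1 / 2) / 40 := by
    rw [hε]; exact (min_le_right _ _).trans (min_le_left _ _)
  have hε1 : ε ≤ 1 / 10 := by
    rw [hε]; exact (min_le_right _ _).trans (min_le_right _ _)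
  obtain ⟨K, hK1, hPL⟩ := pair_lemma_sym ε hε0 hε1
  obtain ⟨T, hT⟩ : ∃ T : ℕ, T = ⌈(1 / ε + 2) / ε⌉₊ := ⟨_, rfl⟩
  have hT1 : (1 / ε + 2) / ε ≤ (T : ℝ) := by rw [hT]; exact Nat.le_ceil _
  have hT0 : (0 : ℝ) < T := lt_of_lt_of_le (by positivity) hT1
  obtain ⟨η1, hη1⟩ : ∃ η1 : ℝ, η1 = (ε ^ 4 / 16) ^ 2 := ⟨_, rfl⟩
  have hη10 : 0 < η1 := by rw [hη1]; positivity
  have hη11 : η1 ≤ 1 := by
    rw [hη1]
    have h2 : ε ^ 4 ≤ 1 := pow_le_one₀ hε0.le (by linarith)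
    have h3 : ε ^ 4 / 16 ≤ 1 := by linarith
    exact pow_le_one₀ (by positivity) h3
  obtain ⟨η, hη⟩ : ∃ η : ℝ, η = min ε (η1 / (12 * T)) := ⟨_, rfl⟩
  have hη0 : 0 < η := by rw [hη]; exact lt_min hε0 (by positivity)
  have hηε : η ≤ ε := by rw [hη]; exact min_le_left _ _
  have hη2 : η ≤ η1 / (12 * T) := by rw [hη]; exact min_le_right _ _
  have hTη : (T : ℝ) * (3 * η + 3 * η / η1) ≤ 1 / 2 := by
    rw [le_div_iff₀ (by positivity)] at hη2
    have h2 : 3 * η ≤ 3 * η / η1 := by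
      rw [le_div_iff₀ hη10]
      nlinarith
    have h3 : (T : ℝ) * (3 * η + 3 * η / η1) ≤ T * (6 * η / η1) := by
      apply mul_le_mul_of_nonneg_left _ hT0.le
      have : 6 * η / η1 = 3 * η / η1 + 3 * η / η1 := by ring
      rw [this]
      linarith
    refine h3.trans ?_
    have h4 : (T : ℝ) * (6 * η / η1) = (η * (12 * T)) / η1 / 2 := by ring
    rw [h4]
    have h5 : η * (12 * T) / η1 ≤ 1 := by
      rw [div_le_one hη10]
      exact hη2
    linarith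
  obtain ⟨P, hPlarge, hP⟩ : ∃ P : ℕ, ⌈1 / ε ^ 2⌉₊ + ⌈4 * K / η ^ 3⌉₊ ≤ P ∧ P.Prime :=
    Nat.exists_infinite_primes _
  have hP1 : 1 / ε ^ 2 ≤ (P : ℝ) := by
    refine (Nat.le_ceil _).trans ?_
    exact_mod_cast (Nat.le_add_right _ _).trans hPlarge
  have hP2 : 4 * K / η ^ 3 ≤ (P : ℝ) := by
    refine (Nat.le_ceil _).trans ?_
    exact_mod_cast (Nat.le_add_left _ _).trans hPlarge
  obtain ⟨J, hJ⟩ : ∃ J : ℕ, J = ⌈(4 * K / η ^ 3) ^ 2⌉₊ + 1 := ⟨_, rfl⟩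
  have hJ1 : 1 ≤ J := by rw [hJ]; omega
  have hJ2 : (4 * K / η ^ 3) ^ 2 ≤ (J : ℝ) := by
    refine (Nat.le_ceil _).trans ?_
    rw [hJ]
    exact_mod_cast Nat.le_succ _
  obtain ⟨L, hL⟩ : ∃ L : ℕ, L = ⌈(K : ℝ) * P / ε ^ 2⌉₊ := ⟨_, rfl⟩
  have hPpos : (0 : ℝ) < P := by exact_mod_cast hP.pos
  have hKpos : (0 : ℝ) < K := by exact_mod_cast hK1
  have hL1 : (K : ℝ) * P ≤ ε ^ 2 * L := by
    have : (K : ℝ) * P / ε ^ 2 ≤ L := by rw [hL]; exact Nat.le_ceil _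
    rw [div_le_iff₀ (by positivity)] at this
    linarith
  have hL2 : 1 ≤ L := by
    have : (0 : ℝ) < L := by
      by_contra h
      push Not at h
      have h2 : ε ^ 2 * (L : ℝ) ≤ 0 := mul_nonpos_of_nonneg_of_nonpos (by positivity) h
      have h3 : 0 < (K : ℝ) * P := by positivity
      linarith
    exact_mod_cast this
  obtain ⟨τJ, hτJ⟩ : ∃ τJ : ℕ, τJ = ((K * P).factorial) ^ J := ⟨_, rfl⟩
  have hτJ1 : 1 ≤ τJ := by rw [hτJ]; exact Nat.one_le_pow _ _ (Nat.factorial_pos _)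
  obtain ⟨G, hG⟩ : ∃ G : ℝ, G = 4 * T * τJ * L := ⟨_, rfl⟩
  have hG0 : 0 < G := by
    rw [hG]
    have h2 : (0 : ℝ) < τJ := by exact_mod_cast hτJ1
    have h3 : (0 : ℝ) < L := by exact_mod_cast hL2
    positivity
  obtain ⟨ε', hε'⟩ : ∃ ε' : ℝ, ε' = min ε (ε ^ 3 / G ^ 2) := ⟨_, rfl⟩
  have hε'0 : 0 < ε' := by rw [hε']; exact lt_min hε0 (by positivity)
  obtain ⟨KA, hKA⟩ := hD ε' hε'0
  obtain ⟨n, hn⟩ : ∃ n : ℕ, n = max KA 1 := ⟨_, rfl⟩
  have hn1 : 1 ≤ n := by rw [hn]; exact le_max_right _ _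
  obtain ⟨nH, hnH⟩ : ∃ nH : ℕ, nH = T * (2 * n * (τJ * L)) + T * (2 * n * (τJ * L)) := ⟨_, rfl⟩
  obtain ⟨qs, hqs, hqsD⟩ := half_multiples c hc2 D hD (ε0 / 4) (by positivity)
  obtain ⟨N1, hN1⟩ : ∃ N1 : ℕ, N1 = qs * nH.factorial := ⟨_, rfl⟩
  have hN1pos : 1 ≤ N1 := by
    rw [hN1]; exact Nat.mul_pos hqs (Nat.factorial_pos _)
  obtain ⟨b1, hb1, hR⟩ := class_density D Q0 b0 N1 hN1pos (2 * c - ε0) (ε0 / 4) hκ
    (by positivity) hB
  obtain ⟨Q1, hQ1⟩ : ∃ Q1 : ℕ, Q1 = 2 * (Q0 * N1) := ⟨_, rfl⟩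
  obtain ⟨bb, hbb⟩ : ∃ bb : ℕ, bb = 2 * (Q0 * b1 + b0) := ⟨_, rfl⟩
  rw [← hQ1, ← hbb] at hR
  have hQ1pos : 1 ≤ Q1 := by
    rw [hQ1]
    exact Nat.mul_pos (by norm_num) (Nat.mul_pos hQ0 hN1pos)
  have hbbQ : bb < Q1 := by
    rw [hbb, hQ1]
    have h2 : Q0 * b1 + Q0 ≤ Q0 * N1 := by
      have : Q0 * b1 + Q0 = Q0 * (b1 + 1) := by ring
      rw [this]
      exact Nat.mul_le_mul_left _ hb1
    omega
  have hbb0 : 0 < bb := by
    rcases Nat.eq_zero_or_pos bb with h | h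
    · exfalso
      rw [h] at hR
      refine class_zero D Q1 (2 * c - ε0 / 4) (ε0 / 4) (by positivity)
        (hqsD Q1 hQ1pos ?_) ?_
      · rw [hQ1, hN1]
        exact ⟨2 * (Q0 * nH.factorial), by ring⟩
      · intro X0
        obtain ⟨X, M, h1, h2⟩ := hR X0
        refine ⟨X, M, h1, le_trans ?_ h2⟩
        apply mul_le_mul_of_nonneg_right _ (Nat.cast_nonneg _)
        linarith
    · exact h
  have hfacQ : nH.factorial ∣ Q1 := by
    rw [hQ1, hN1]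
    exact ⟨2 * (Q0 * qs), by ring⟩
  -- the box
  obtain ⟨εA, hεA, hAbad⟩ := hA (Q1 * τJ) (Nat.mul_pos hQ1pos hτJ1)
  have hR2 := rset_density D (Q1 * τJ) (1 - εA) hAbad
  obtain ⟨X', Y', hX', hY', hXY'⟩ := box (Rset D (Q1 * τJ)) εA hεA (fun X0 => by
    obtain ⟨X, M, h1, h2⟩ := hR2 X0
    refine ⟨X, M, h1, le_trans (le_of_eq ?_) h2⟩
    ring) n
  have hinjQ : Function.Injective (fun x : ℕ => τJ * x) := fun a b h =>
    Nat.eq_of_mul_eq_mul_left hτJ1 h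
  obtain ⟨X, hXdef⟩ : ∃ X : Finset ℕ, X = X'.image (fun x => τJ * x) := ⟨_, rfl⟩
  obtain ⟨Y, hYdef⟩ : ∃ Y : Finset ℕ, Y = Y'.image (fun x => τJ * x) := ⟨_, rfl⟩
  have hXc : X.card = n := by rw [hXdef, card_image_of_injective _ hinjQ, hX']
  have hYc : Y.card = n := by rw [hYdef, card_image_of_injective _ hinjQ, hY']
  have hXY : ∀ x ∈ X, ∀ y ∈ Y, ((y : ℤ) - x) ∈ Rset D Q1 := by
    intro x hx y hy
    rw [hXdef, mem_image] at hx
    rw [hYdef, mem_image] at hy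
    obtain ⟨a, ha, rfl⟩ := hx
    obtain ⟨b, hb, rfl⟩ := hy
    obtain ⟨h1, h2⟩ := hXY' a ha b hb
    have hab : a < b := by omega
    refine ⟨?_, ?_⟩
    · have : τJ * a < τJ * b := Nat.mul_lt_mul_of_pos_left hab hτJ1
      omega
    · have e1 : (((τJ * b : ℕ) : ℤ) - ((τJ * a : ℕ) : ℤ)).toNat = τJ * (b - a) := by
        rw [Nat.mul_sub]
        omega
      have e2 : ((b : ℤ) - a).toNat = b - a := by omega
      rw [e1, ← mul_assoc]
      rw [e2] at h2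
      exact h2
  have hdis : Disjoint X Y := by
    rw [disjoint_left]
    intro x hx hy
    have := (hXY x hx x hy).1
    omega
  have hτJX : ∀ x ∈ X ∪ Y, τJ ∣ x := by
    intro x hx
    rw [mem_union, hXdef, hYdef, mem_image, mem_image] at hx
    rcases hx with ⟨a, _, rfl⟩ | ⟨a, _, rfl⟩ <;> exact Dvd.intro _ rfl
  -- the bound
  obtain ⟨B, hB'⟩ : ∃ B : ℕ, B = (X ∪ Y).sup id + τJ + L := ⟨_, rfl⟩
  have hxB : ∀ x ∈ X ∪ Y, x + τJ ≤ B := by
    intro x hx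
    have h2 : x ≤ (X ∪ Y).sup id := le_sup (f := id) hx
    rw [hB']; omega
  have hLB : L ≤ B := by rw [hB']; omega
  -- uniform structure
  obtain ⟨j, d, l, hjJ, hτd, hτl, hBd, hl1, hwin⟩ := uniform_structure
    (1 - (2 * c - ε0) - ε0 / 4) η hη0 (by linarith) K P J hK1 hJ1 hP2 hJ2 (Rcl D Q1 bb) hR B
  obtain ⟨τ, hτ⟩ : ∃ τ : ℕ, τ = ((K * P).factorial) ^ j := ⟨_, rfl⟩
  rw [← hτ] at hτd hτl hwin
  have hτ1 : 1 ≤ τ := by rw [hτ]; exact Nat.one_le_pow _ _ (Nat.factorial_pos _)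
  have hττJ : τ ∣ τJ := by rw [hτ, hτJ]; exact pow_dvd_pow _ hjJ.le
  have hττJ' : τ ≤ τJ := Nat.le_of_dvd hτJ1 hττJ
  -- times
  obtain ⟨M, hM, hgood⟩ := choose_times T (d * L + d)
    {z : ℤ | rho (Rcl D Q1 bb) 1 l z < (1 - (2 * c - ε0) - ε0 / 4) - η ∨
      z % l < B + d * B ∨ (l : ℤ) ≤ z % l + (B + d * B)}
    (fbad (Rcl D Q1 bb) τ l d K P η) K (3 * η) η1 (fbad_nonneg _ _ _ _ _ _ _)
    (fbad_le _ _ _ _ _ _ _) (by positivity) hη10 hTη (by
      intro X0 M0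
      obtain ⟨X, M, h1, h2, h3, h4⟩ := hwin X0 M0
      refine ⟨X, M, h1, h2, ?_, ?_⟩
      · refine le_trans (Nat.cast_le.2 (card_le_card ?_)) h3
        intro z hz
        have hz1 := (@mem_filter _ _ (_) _ _).1 hz
        exact (@mem_filter _ _ (_) _ _).2 ⟨hz1.1, hz1.2⟩
      · rw [fbad_sum]
        refine le_trans (le_trans (le_of_eq ?_) h4) ?_
        · apply sum_congr rfl
          intro m _
          congr 2
        · apply mul_le_mul_of_nonneg_right (by linarith) (Nat.cast_nonneg _))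
    (Idx (X ∪ Y) τ L) (shf d)
  -- the configuration
  have hZc : (X ∪ Y).card = 2 * n := by
    rw [card_union_of_disjoint hdis, hXc, hYc]; ring
  have hXd : ∀ x ∈ X ∪ Y, x + τ ≤ d := by
    intro x hx
    have := hxB x hx
    omega
  have hτX : ∀ x ∈ X ∪ Y, τ ∣ x := fun x hx => hττJ.trans (hτJX x hx)
  obtain ⟨bx, hbx⟩ : ∃ bx : Finset (ℕ × ℕ × ℕ × ℕ),
    bx = range T ×ˢ ((X ∪ Y) ×ˢ (range τ ×ˢ range L)) := ⟨_, rfl⟩
  have hbxc : bx.card = T * (2 * n * (τ * L)) := by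
    rw [hbx, card_product, card_product, card_product, card_range, card_range, card_range, hZc]
  have hinj : Set.InjOn (pt Q1 d M) (bx : Set (ℕ × ℕ × ℕ × ℕ)) := by
    rw [hbx]
    exact pt_inj Q1 d T τ L M (X ∪ Y) hQ1pos hXd hτX hM
  obtain ⟨H, hH⟩ : ∃ H : Finset ℕ, H =
    bx.image (pt Q1 d M) ∪ bx.image (fun q => pt Q1 d M q + bb) := ⟨_, rfl⟩
  have hQpt : ∀ q, Q1 ∣ pt Q1 d M q := fun q => by unfold pt; exact Dvd.intro _ rfl
  have hHc : H.card = T * (2 * n * (τ * L)) + T * (2 * n * (τ * L)) := by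
    rw [hH, card_union_of_disjoint, card_image_of_injOn hinj, card_image_of_injOn, hbxc]
    · intro q hq q' hq' h
      exact hinj hq hq' (Nat.add_right_cancel h)
    · rw [disjoint_left]
      intro x hx hx'
      obtain ⟨q, _, rfl⟩ := mem_image.1 hx
      obtain ⟨q', _, h⟩ := mem_image.1 hx'
      have h1 : Q1 ∣ bb := (Nat.dvd_add_right (hQpt q')).1 (by rw [h]; exact hQpt q)
      have h2 := Nat.le_of_dvd hbb0 h1
      omega
  have hTpos : 0 < T := by exact_mod_cast hT0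
  have hHn : n ≤ H.card := by
    rw [hHc]
    have h2 : 1 ≤ τ * L := Nat.mul_pos hτ1 hL2
    have h3 : n ≤ T * (2 * n * (τ * L)) := by
      calc n ≤ 2 * n * 1 := by omega
        _ ≤ 2 * n * (τ * L) := Nat.mul_le_mul_left _ h2
        _ = 1 * (2 * n * (τ * L)) := (one_mul _).symm
        _ ≤ T * (2 * n * (τ * L)) := Nat.mul_le_mul_right _ hTpos
    omega
  have hHnH : H.card ≤ nH := by
    rw [hHc, hnH]
    have : T * (2 * n * (τ * L)) ≤ T * (2 * n * (τJ * L)) :=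
      Nat.mul_le_mul_left _ (Nat.mul_le_mul_left _ (Nat.mul_le_mul_right _ hττJ'))
    omega
  have hadm := conf_admissible2 H nH Q1 bb hHnH hfacQ (by rw [hQ1]; exact Dvd.intro _ rfl)
    (by rw [hbb]; exact Dvd.intro _ rfl) (by
    intro h hh
    rw [hH, mem_union, mem_image, mem_image] at hh
    rcases hh with ⟨q, _, rfl⟩ | ⟨q, _, rfl⟩
    · left; exact hQpt q
    · right; exact ⟨_, rfl, hQpt q⟩)
  obtain ⟨S, hSH, hSc, hScf⟩ := hKA H hadm (by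
    refine le_trans ?_ hHn
    rw [hn]
    exact le_max_left _ _)
  have hHr : (H.card : ℝ) = T * (2 * (2 * n * τ * L)) := by
    rw [hHc]; push_cast; ring
  have hHG : (H.card : ℝ) ≤ G * n := by
    rw [hHr, hG]
    have h2 : (τ : ℝ) ≤ τJ := by exact_mod_cast hττJ'
    have h3 : (T : ℝ) * (2 * (2 * n * τ * L)) = (4 * T * L * n) * τ := by ring
    have h4 : 4 * (T : ℝ) * τJ * L * n = (4 * T * L * n) * τJ := by ring
    rw [h3, h4]
    exact mul_le_mul_of_nonneg_left h2 (by positivity)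
  refine contra2 c ε hε0 hε1 (by linarith) D K P L hL2 (hPL P L hP hP1 hL1)
    n τ T Q1 bb d l B hn1 hτ1 hT1 hQ1pos hτd hτl hl1 hBd hLB X Y hXc hYc hXY hdis hτX
    (fun x hx => by have := hxB x hx; omega) (1 - (2 * c - ε0) - ε0 / 4) (by linarith) η hηε
    M hM (by rw [← hη1]; exact hgood) S (by rw [← hbx, ← hH]; exact hSH) ?_ ?_
  · rw [← hHr]
    refine le_trans ?_ hSc
    apply mul_le_mul_of_nonneg_right _ (Nat.cast_nonneg _)
    have : ε' ≤ ε := by rw [hε']; exact min_le_left _ _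
    linarith
  · refine le_trans (le_of_eq ?_) (hScf.trans ?_)
    · unfold conf
      rfl
    · have h2 : (H.card : ℝ) ^ 2 ≤ (G * n) ^ 2 := pow_le_pow_left₀ (Nat.cast_nonneg _) hHG 2
      have h3 : ε' ≤ ε ^ 3 / G ^ 2 := by rw [hε']; exact min_le_right _ _
      calc ε' * (H.card : ℝ) ^ 2 ≤ (ε ^ 3 / G ^ 2) * (G * n) ^ 2 :=
            mul_le_mul h3 h2 (by positivity) (by positivity)
        _ = ε ^ 3 * (n : ℝ) ^ 2 := by
            field_simp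

open Classical in
/-- The dichotomy for a property `D` with near cliques of density `c > 1/4`. -/
theorem dichotomy (c : ℝ) (hc : 1 / 4 < c) (hc2 : c ≤ 1 / 2) (D : ℕ → Prop) (hD : NC c D) :
    (∃ q : ℕ, 0 < q ∧ ∀ ε : ℝ, 0 < ε → ∃ X0 : ℕ, ∀ X : ℕ, X0 ≤ X → ∀ M : ℕ,
      (1 - ε) * X ≤ (((Ioc M (M + X)).filter (fun n => D (q * n))).card : ℝ)) ∨
    ∀ Q b : ℕ, 0 < Q → ∀ ε : ℝ, 0 < ε → ∃ X0 : ℕ, ∀ X : ℕ, X0 ≤ X → ∀ M : ℕ,
      (2 * c - ε) * X ≤ (((Ioc M (M + X)).filter (fun n => D (2 * (Q * n + b)))).card : ℝ) := by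
  by_contra hcon
  push Not at hcon
  obtain ⟨hA, Q0, b0, hQ0, ε0, h0, hB⟩ := hcon
  refine main_aux c hc hc2 D hD hA Q0 (b0 % Q0) hQ0 (Nat.mod_lt _ hQ0) ε0 h0 ?_
  intro X0
  obtain ⟨X, hX, M, hM⟩ := hB X0
  refine ⟨X, hX, M + b0 / Q0, ?_⟩
  refine lt_of_le_of_lt (le_of_eq ?_) hM
  congr 1
  symm
  apply card_bij (fun n _ => n + b0 / Q0)
  · intro n hn
    rw [mem_filter, mem_Ioc] at hn ⊢
    refine ⟨by omega, ?_⟩
    have e1 : Q0 * (n + b0 / Q0) + b0 % Q0 = Q0 * n + b0 := by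
      have := Nat.div_add_mod b0 Q0
      calc Q0 * (n + b0 / Q0) + b0 % Q0 = Q0 * n + (Q0 * (b0 / Q0) + b0 % Q0) := by ring
        _ = Q0 * n + b0 := by rw [this]
    rw [e1]
    exact hn.2
  · intro a _ b _ hab
    omega
  · intro n hn
    rw [mem_filter, mem_Ioc] at hn
    refine ⟨n - b0 / Q0, ?_, by omega⟩
    rw [mem_filter, mem_Ioc]
    refine ⟨by omega, ?_⟩
    have e1 : Q0 * n + b0 % Q0 = Q0 * (n - b0 / Q0) + b0 := by
      have h1 := Nat.div_add_mod b0 Q0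
      have h2 : n = (n - b0 / Q0) + b0 / Q0 := by omega
      calc Q0 * n + b0 % Q0 = Q0 * ((n - b0 / Q0) + b0 / Q0) + b0 % Q0 := by rw [← h2]
        _ = Q0 * (n - b0 / Q0) + (Q0 * (b0 / Q0) + b0 % Q0) := by ring
        _ = Q0 * (n - b0 / Q0) + b0 := by rw [h1]
    rw [← e1]
    exact hn.2

end Pool.Agent.H11.HM
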