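import Pool.Agent.H11.HM.Cfg

/-!
MP_8923e7_nt, project HM.  Fibres of a subset of the configuration, rows and conflicts.
-/

namespace Pool.Agent.H11.HM

open Finset

/-- the positive `z` for which `Q z` does not have the property `D` -/
def Rset (D : ℕ → Prop) (Q : ℕ) : Set ℤ := {z | 0 < z ∧ ¬ D (Q * z.toNat)}

open Classical in
theorem rset_density (D : ℕ → Prop) (Q : ℕ) (κ : ℝ)
    (h : ∀ X0 : ℕ, ∃ X, X0 ≤ X ∧ ∃ M : ℕ,
      (((Ioc M (M + X)).filter (fun n => D (Q * n))).card : ℝ) < κ * X) :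
    ∀ X0 : ℕ, ∃ X M : ℕ, X0 ≤ X ∧
      (1 - κ) * X ≤ ∑ z ∈ Ico (M : ℤ) (M + X), ind (Rset D Q) z := by
  intro X0
  obtain ⟨X, hX, M, hM⟩ := h X0
  refine ⟨X, M + 1, hX, ?_⟩
  have h1 : ∑ z ∈ Ico (((M + 1 : ℕ) : ℤ)) (((M + 1 : ℕ) : ℤ) + X), ind (Rset D Q) z =
      ∑ n ∈ Ioc M (M + X), ind (Rset D Q) (n : ℤ) := by
    symm
    apply Finset.sum_bij (fun (n : ℕ) _ => (n : ℤ))
    · intro n hn
      rw [mem_Ioc] at hn
      rw [mem_Ico]
      push_cast
      omega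
    · intro a _ b _ hab
      exact_mod_cast hab
    · intro z hz
      rw [mem_Ico] at hz
      push_cast at hz
      refine ⟨z.toNat, ?_, ?_⟩
      · rw [mem_Ioc]; omega
      · omega
    · intro n _
      rfl
  rw [h1]
  have h2 : ∑ n ∈ Ioc M (M + X), ind (Rset D Q) (n : ℤ) =
      (((Ioc M (M + X)).filter (fun n => ¬ D (Q * n))).card : ℝ) := by
    rw [card_filter]
    push_cast
    apply sum_congr rfl
    intro n hn
    rw [mem_Ioc] at hn
    unfold ind Rset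
    have h3 : (0 : ℤ) < n := by omega
    simp only [Set.mem_setOf_eq, h3, true_and, Int.toNat_natCast]
  rw [h2]
  have h4 := card_filter_add_card_filter_not (s := Ioc M (M + X)) (fun n => D (Q * n))
  rw [Nat.card_Ioc] at h4
  have h5 : (((Ioc M (M + X)).filter (fun n => D (Q * n))).card : ℝ) +
      (((Ioc M (M + X)).filter (fun n => ¬ D (Q * n))).card : ℝ) = X := by
    have : M + X - M = X := by omega
    rw [this] at h4
    exact_mod_cast h4
  linarith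

/-- the fibre of `S` at `(i, x, δ)` -/
noncomputable def Fb (Q1 d L : ℕ) (M : ℕ → ℕ) (S : Finset ℕ) (i x δ : ℕ) : Finset ℤ :=
  (Ico 0 (L : ℤ)).filter (fun y => pt Q1 d M (i, x, δ, y.toNat) ∈ S)

theorem fb_sub (Q1 d L : ℕ) (M : ℕ → ℕ) (S : Finset ℕ) (i x δ : ℕ) :
    Fb Q1 d L M S i x δ ⊆ Ico 0 (L : ℤ) := filter_subset _ _

theorem fb_card (Q1 d L : ℕ) (M : ℕ → ℕ) (S : Finset ℕ) (i x δ : ℕ) :
    (Fb Q1 d L M S i x δ).card =
      ((range L).filter (fun y => pt Q1 d M (i, x, δ, y) ∈ S)).card := by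
  symm
  apply card_bij (fun (n : ℕ) _ => (n : ℤ))
  · intro n hn
    rw [mem_filter, mem_range] at hn
    unfold Fb
    rw [mem_filter, mem_Ico]
    refine ⟨⟨by omega, by omega⟩, ?_⟩
    rw [Int.toNat_natCast]
    exact hn.2
  · intro a _ b _ hab
    exact_mod_cast hab
  · intro z hz
    unfold Fb at hz
    rw [mem_filter, mem_Ico] at hz
    refine ⟨z.toNat, ?_, by omega⟩
    rw [mem_filter, mem_range]
    exact ⟨by omega, hz.2⟩

theorem fb_total (Q1 d L T τ : ℕ) (M : ℕ → ℕ) (X S : Finset ℕ)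
    (hS : S ⊆ (range T ×ˢ (X ×ˢ (range τ ×ˢ range L))).image (pt Q1 d M)) :
    S.card ≤ ∑ i ∈ range T, ∑ x ∈ X, ∑ δ ∈ range τ, (Fb Q1 d L M S i x δ).card := by
  have h1 : S ⊆ ((range T ×ˢ (X ×ˢ (range τ ×ˢ range L))).filter
      (fun q => pt Q1 d M q ∈ S)).image (pt Q1 d M) := by
    intro s hs
    obtain ⟨q, hq, rfl⟩ := mem_image.1 (hS hs)
    exact mem_image.2 ⟨q, mem_filter.2 ⟨hq, hs⟩, rfl⟩
  refine (card_le_card h1).trans (card_image_le.trans (le_of_eq ?_))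
  rw [card_filter, sum_product]
  apply sum_congr rfl
  intro i _
  rw [sum_product]
  apply sum_congr rfl
  intro x _
  rw [sum_product]
  apply sum_congr rfl
  intro δ _
  rw [fb_card, card_filter]

open Classical in
/-- the conflicts in `S` -/
noncomputable def conf (D : ℕ → Prop) (S : Finset ℕ) : Finset (ℕ × ℕ) :=
  (S ×ˢ S).filter (fun p => p.1 < p.2 ∧ ¬ D (p.2 - p.1))

theorem row_bound (D : ℕ → Prop) (Q1 d L n : ℕ) (M : ℕ → ℕ) (X Y S : Finset ℕ) (ε : ℝ)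
    (h0 : 0 < ε) (h1 : ε ≤ 1) (hQ : 1 ≤ Q1) (hX : X.card = n) (hY : Y.card = n)
    (hXY : ∀ x ∈ X, ∀ y ∈ Y, ((y : ℤ) - x) ∈ Rset D Q1) (hdis : Disjoint X Y)
    (hc : ((conf D S).card : ℝ) ≤ ε ^ 3 * (n : ℝ) ^ 2) (i δ : ℕ) :
    ∑ x ∈ X ∪ Y, ((Fb Q1 d L M S i x δ).card : ℝ) ≤ (1 + ε) * n * L := by
  -- sum over y first
  have e1 : ∀ Z : Finset ℕ, ∑ x ∈ Z, ((Fb Q1 d L M S i x δ).card : ℝ) =
      ∑ y ∈ range L, ((Z.filter (fun x => pt Q1 d M (i, x, δ, y) ∈ S)).card : ℝ) := by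
    intro Z
    have : ∀ x ∈ Z, ((Fb Q1 d L M S i x δ).card : ℝ) =
        ∑ y ∈ range L, (if pt Q1 d M (i, x, δ, y) ∈ S then (1 : ℝ) else 0) := by
      intro x _
      rw [fb_card, card_filter]
      push_cast
      rfl
    rw [sum_congr rfl this, sum_comm]
    apply sum_congr rfl
    intro y _
    rw [card_filter]
    push_cast
    rfl
  rw [sum_union hdis, e1, e1, ← sum_add_distrib]
  have e2 : ∀ y ∈ range L, ((X.filter (fun x => pt Q1 d M (i, x, δ, y) ∈ S)).card : ℝ) +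
      ((Y.filter (fun x => pt Q1 d M (i, x, δ, y) ∈ S)).card : ℝ) ≤ (1 + ε) * n := by
    intro y _
    obtain ⟨a, ha⟩ : ∃ a : Finset ℕ, a = X.filter (fun x => pt Q1 d M (i, x, δ, y) ∈ S) := ⟨_, rfl⟩
    obtain ⟨b, hb⟩ : ∃ b : Finset ℕ, b = Y.filter (fun x => pt Q1 d M (i, x, δ, y) ∈ S) := ⟨_, rfl⟩
    rw [← ha, ← hb]
    have ha' : (a.card : ℝ) ≤ n := by
      rw [← hX, ha]; exact_mod_cast card_filter_le _ _
    have hb' : (b.card : ℝ) ≤ n := by
      rw [← hY, hb]; exact_mod_cast card_filter_le _ _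
    have hab : a.card * b.card ≤ (conf D S).card := by
      rw [← card_product]
      apply card_le_card_of_injOn
        (fun p : ℕ × ℕ => (pt Q1 d M (i, p.1, δ, y), pt Q1 d M (i, p.2, δ, y)))
      · rintro ⟨x, x'⟩ hp
        rw [mem_coe, mem_product, ha, hb, mem_filter, mem_filter] at hp
        obtain ⟨⟨hx, hxS⟩, ⟨hx', hxS'⟩⟩ := hp
        have h2 := hXY x hx x' hx'
        unfold Rset at h2
        obtain ⟨h3, h4⟩ := h2
        simp only [conf, coe_filter, Set.mem_setOf_eq, mem_product]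
        have h5 : pt Q1 d M (i, x', δ, y) = pt Q1 d M (i, x, δ, y) + Q1 * (x' - x) := by
          unfold pt
          simp only
          rw [← Nat.mul_add]
          congr 1
          omega
        refine ⟨⟨hxS, hxS'⟩, ?_, ?_⟩
        · rw [h5]
          have : 0 < Q1 * (x' - x) := Nat.mul_pos hQ (by omega)
          omega
        · rw [h5, Nat.add_sub_cancel_left]
          have h6 : ((x' : ℤ) - x).toNat = x' - x := by omega
          rw [h6] at h4
          exact h4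
      · rintro ⟨x, x'⟩ _ ⟨z, z'⟩ _ h
        simp only [Prod.mk.injEq] at h
        obtain ⟨h2, h3⟩ := h
        unfold pt at h2 h3
        simp only at h2 h3
        have h4 := Nat.eq_of_mul_eq_mul_left hQ h2
        have h5 := Nat.eq_of_mul_eq_mul_left hQ h3
        rw [Prod.mk.injEq]
        omega
    have hab' : (a.card : ℝ) * b.card ≤ ε ^ 3 * (n : ℝ) ^ 2 := by
      refine le_trans ?_ hc
      exact_mod_cast hab
    have hn : (0 : ℝ) ≤ n := Nat.cast_nonneg _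
    by_contra hcon
    push Not at hcon
    have ha2 : ε * n < a.card := by nlinarith
    have hb2 : ε * n < b.card := by nlinarith
    have h3 : (ε * n) * (ε * n) < (a.card : ℝ) * b.card :=
      mul_lt_mul'' ha2 hb2 (by positivity) (by positivity)
    have h4 : ε ^ 3 * (n : ℝ) ^ 2 ≤ (ε * n) * (ε * n) := by
      have : ε ^ 3 ≤ ε ^ 2 := pow_le_pow_of_le_one h0.le h1 (by norm_num)
      have h5 := mul_le_mul_of_nonneg_right this (sq_nonneg (n : ℝ))
      nlinarith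
    linarith
  calc _ ≤ ∑ _y ∈ range L, (1 + ε) * (n : ℝ) := sum_le_sum e2
    _ = (1 + ε) * n * L := by
      rw [sum_const, card_range, nsmul_eq_mul]
      ring

/-- the pair `(x, x')` is a conflict for the times `i`, `j` -/
def Bp (D : ℕ → Prop) (Q1 d τ L : ℕ) (M : ℕ → ℕ) (S : Finset ℕ) (i j x x' : ℕ) : Prop :=
  ∃ δ < τ, ∃ δ' < τ, ∃ y ∈ Fb Q1 d L M S i x δ, ∃ y' ∈ Fb Q1 d L M S j x' δ',
    y' - y ∈ {z : ℤ | ((M j : ℤ) - M i) + ((x' : ℤ) - x) + ((δ' : ℤ) - δ) + d * z ∈ Rset D Q1}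

open Classical in
theorem conf_pairs (D : ℕ → Prop) (Q1 d T τ L : ℕ) (M : ℕ → ℕ) (X S : Finset ℕ) (hQ : 1 ≤ Q1)
    (hX : ∀ x ∈ X, x + τ ≤ d) (hτ : ∀ x ∈ X, τ ∣ x)
    (hM : ∀ i, i + 1 < T → M i + (d * L + d) ≤ M (i + 1)) (i j : ℕ) (hi : i < T) (hj : j < T) :
    ((X ×ˢ X).filter (fun p : ℕ × ℕ => Bp D Q1 d τ L M S i j p.1 p.2)).card ≤ (conf D S).card := by
  have hinj := pt_inj Q1 d T τ L M X hQ hX hτ hM
  have hch : ∀ p : ℕ × ℕ, ∃ q : (ℕ × ℕ) × (ℕ × ℕ), Bp D Q1 d τ L M S i j p.1 p.2 →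
      q.1.1 < τ ∧ q.2.1 < τ ∧ q.1.2 < L ∧ q.2.2 < L ∧
        (pt Q1 d M (i, p.1, q.1), pt Q1 d M (j, p.2, q.2)) ∈ conf D S := by
    intro p
    by_cases hp : Bp D Q1 d τ L M S i j p.1 p.2
    · obtain ⟨δ, hδ, δ', hδ', y, hy, y', hy', hz⟩ := hp
      unfold Fb at hy hy'
      rw [mem_filter, mem_Ico] at hy hy'
      obtain ⟨⟨hy0, hyL⟩, hyS⟩ := hy
      obtain ⟨⟨hy0', hyL'⟩, hyS'⟩ := hy'
      rw [Set.mem_setOf_eq] at hz
      obtain ⟨hz0, hzD⟩ := hz
      refine ⟨((δ, y.toNat), (δ', y'.toNat)), fun _ => ⟨hδ, hδ', by simp only; omega,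
        by simp only; omega, ?_⟩⟩
      simp only [conf, mem_filter, mem_product]
      obtain ⟨u, rfl⟩ : ∃ u : ℕ, y = u := ⟨y.toNat, by omega⟩
      obtain ⟨v, rfl⟩ : ∃ v : ℕ, y' = v := ⟨y'.toNat, by omega⟩
      rw [Int.toNat_natCast] at hyS hyS'
      simp only [Int.toNat_natCast]
      obtain ⟨w, hw⟩ : ∃ w : ℕ, ((M j : ℤ) - M i) + ((p.2 : ℤ) - p.1) + ((δ' : ℤ) - δ) +
          d * ((v : ℤ) - u) = w := ⟨_, (Int.toNat_of_nonneg hz0.le).symm⟩
      rw [hw] at hz0 hzD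
      rw [Int.toNat_natCast] at hzD
      have h5 : pt Q1 d M (j, p.2, δ', v) = pt Q1 d M (i, p.1, δ, u) + Q1 * w := by
        unfold pt
        simp only
        rw [← Nat.mul_add]
        congr 1
        have h6 : (d : ℤ) * ((v : ℤ) - u) = d * v - d * u := by ring
        rw [h6] at hw
        zify
        linarith
      refine ⟨⟨hyS, hyS'⟩, ?_, ?_⟩
      · rw [h5]
        have : 0 < Q1 * w := Nat.mul_pos hQ (by exact_mod_cast hz0)
        omega
      · rw [h5, Nat.add_sub_cancel_left]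
        exact hzD
    · exact ⟨((0, 0), (0, 0)), fun h => absurd h hp⟩
  choose q hq using hch
  apply card_le_card_of_injOn
    (fun p => (pt Q1 d M (i, p.1, (q p).1), pt Q1 d M (j, p.2, (q p).2)))
  · intro p hp
    exact (hq p (mem_filter.1 (mem_coe.1 hp)).2).2.2.2.2
  · intro p hp p' hp' h
    simp only [Prod.mk.injEq] at h
    have h1 := hq p (mem_filter.1 (mem_coe.1 hp)).2
    have h2 := hq p' (mem_filter.1 (mem_coe.1 hp')).2
    have hpX := (mem_product.1 (mem_filter.1 (mem_coe.1 hp)).1)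
    have hpX' := (mem_product.1 (mem_filter.1 (mem_coe.1 hp')).1)
    have g : ∀ (k x δ y : ℕ), k < T → x ∈ X → δ < τ → y < L →
        (k, x, δ, y) ∈ ((range T ×ˢ (X ×ˢ (range τ ×ˢ range L)) : Finset (ℕ × ℕ × ℕ × ℕ)) :
          Set (ℕ × ℕ × ℕ × ℕ)) := by
      intro k x δ y h1 h2 h3 h4
      rw [mem_coe, mem_product, mem_product, mem_product, mem_range, mem_range, mem_range]
      exact ⟨h1, h2, h3, h4⟩
    have h3 := hinj (g i p.1 (q p).1.1 (q p).1.2 hi hpX.1 h1.1 h1.2.2.1)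
      (g i p'.1 (q p').1.1 (q p').1.2 hi hpX'.1 h2.1 h2.2.2.1) h.1
    have h4 := hinj (g j p.2 (q p).2.1 (q p).2.2 hj hpX.2 h1.2.1 h1.2.2.2.1)
      (g j p'.2 (q p').2.1 (q p').2.2 hj hpX'.2 h2.2.1 h2.2.2.2.1) h.2
    rw [Prod.mk.injEq, Prod.mk.injEq] at h3 h4
    exact Prod.ext h3.2.1 h4.2.1

end Pool.Agent.H11.HM
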