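import Mathlib

/-!
[H11 HM POL]  Pollard's theorem.

`rep A B x` is the number of the representations `x = a + b`.  If `p` is prime and `t ≤ |A|, |B|` then
`t * min p (|A| + |B| - t) ≤ ∑ x, min t (rep A B x)`.

Proof (Pollard 1974).  Induction on `|B|` (for all `A`, `t`); `t = 0` is trivial, let `t ≥ 1`.

* `|B| = t`: `rep A B x ≤ |B| = t`, so the right side is `∑ x, rep A B x = |A| |B| = t |A|` and `|A| + |B| - t = |A|`.
* `t < |B|` (so `|B| ≥ 2`).  If `A` is everything, `rep A B x = |B|` for all `x` and the right side is `t p`.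
  Otherwise there is an `e` with `0 < |A ∩ (B + e)| < |B|`: if there were none, take `b₁ ≠ b₂` in `B`, `d = b₂ - b₁ ≠ 0`; for `a ∈ A`
  the set `B + (a - b₁)` meets `A` (in `a`), so it is contained in `A`, so `a + d ∈ A`; hence `A` is closed under `+ d`, and it is not
  empty (`t ≤ |A|`), so `A` is everything (`d` generates `ZMod p`).  Contradiction.
  Replacing `B` by `B + e` translates `rep A B` (the sum over all `x` does not change), so let `e = 0`:
  `I = A ∩ B`, `0 < i = |I| < |B|`, `U = A ∪ B`, `A' = A \ I`, `B' = B \ I`.  Then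
  `rep A B x = rep U I x + rep A' B' x` (all pairs `(a,b)`: `A × B = I×I ∪ I×B' ∪ A'×I ∪ A'×B'` and `rep` is symmetric,
  `rep I B' = rep B' I`, `U = I ∪ A' ∪ B'` disjoint).
  - `t ≤ i`: by induction for `(U, I)` (`|I| < |B|`), `∑ min t (rep A B) ≥ ∑ min t (rep U I) ≥ t min p (|U| + i - t)` and
    `|U| + i = |A| + |B|`.
  - `i < t`: `min t (x+y) ≥ min i x + min (t-i) y`.  `∑ min i (rep U I x) = ∑ rep U I x = i |U|` (`rep U I x ≤ i`) and by induction for
    `(A', B')` and `t - i` (`t - i ≤ |A'| = |A| - i`, `t - i ≤ |B'| = |B| - i < |B|`):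
    `∑ min (t-i) (rep A' B') ≥ (t-i) min p (|A| + |B| - 2i - (t-i)) = (t-i)(|A| + |B| - i - t)`, because
    `|A| + |B| - i - t ≤ |U| ≤ p`.  The sum is `i (|A|+|B|-i) + (t-i)(|A|+|B|-i-t) = t (|A|+|B|-t)`.
-/

namespace Pool.Agent.H11.HM

open Finset

/-- the number of the representations `x = a + b` -/
def rep {p : ℕ} (A B : Finset (ZMod p)) (x : ZMod p) : ℕ := (B.filter (fun b => x - b ∈ A)).card

theorem pol_sum {p : ℕ} (A B : Finset (ZMod p)) (x : ZMod p) :
    rep A B x = ∑ b ∈ B, if x - b ∈ A then 1 else 0 := by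
  rw [rep, card_filter]

theorem pol_left {p : ℕ} (A C B : Finset (ZMod p)) (h : Disjoint A C) (x : ZMod p) :
    rep (A ∪ C) B x = rep A B x + rep C B x := by
  rw [pol_sum, pol_sum, pol_sum, ← sum_add_distrib]
  apply sum_congr rfl
  intro b _
  have h1 : ¬ (x - b ∈ A ∧ x - b ∈ C) := fun h2 => (disjoint_left.1 h) h2.1 h2.2
  by_cases h2 : x - b ∈ A
  · have h3 : x - b ∉ C := fun h3 => h1 ⟨h2, h3⟩
    simp [h2, h3]
  · by_cases h3 : x - b ∈ C
    · simp [h2, h3]
    · simp [h2, h3]

theorem pol_right {p : ℕ} (A B C : Finset (ZMod p)) (h : Disjoint B C) (x : ZMod p) :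
    rep A (B ∪ C) x = rep A B x + rep A C x := by
  rw [pol_sum, pol_sum, pol_sum, sum_union h]

theorem pol_symm {p : ℕ} (A B : Finset (ZMod p)) (x : ZMod p) : rep A B x = rep B A x := by
  apply card_bij (fun b _ => x - b)
  · intro b hb
    rw [mem_filter] at hb ⊢
    refine ⟨hb.2, ?_⟩
    rw [sub_sub_cancel]
    exact hb.1
  · intro a _ b _ hab
    exact sub_right_injective hab
  · intro a ha
    rw [mem_filter] at ha
    refine ⟨x - a, ?_, sub_sub_cancel x a⟩
    rw [mem_filter]
    refine ⟨ha.2, ?_⟩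
    rw [sub_sub_cancel]
    exact ha.1

theorem pol_key {p : ℕ} (A B : Finset (ZMod p)) (x : ZMod p) :
    rep A B x = rep (A ∪ B) (A ∩ B) x + rep (A \ B) (B \ A) x := by
  have h1 : rep A B x = rep A (A ∩ B) x + rep A (B \ A) x := by
    rw [← pol_right]
    · congr 1
      ext y
      simp only [mem_union, mem_inter, mem_sdiff]
      tauto
    · rw [disjoint_left]
      intro y hy hy2
      simp only [mem_inter, mem_sdiff] at hy hy2
      tauto
  have h2 : rep A (B \ A) x = rep (A ∩ B) (B \ A) x + rep (A \ B) (B \ A) x := by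
    rw [← pol_left]
    · congr 1
      ext y
      simp only [mem_union, mem_inter, mem_sdiff]
      tauto
    · rw [disjoint_left]
      intro y hy hy2
      simp only [mem_inter, mem_sdiff] at hy hy2
      tauto
  have h3 : rep (A ∪ B) (A ∩ B) x = rep A (A ∩ B) x + rep (B \ A) (A ∩ B) x := by
    rw [← pol_left]
    · congr 1
      ext y
      simp only [mem_union, mem_sdiff]
      tauto
    · exact disjoint_sdiff
  rw [h1, h2, h3, pol_symm (A ∩ B) (B \ A)]
  ring

theorem pol_tot {p : ℕ} [NeZero p] (A B : Finset (ZMod p)) :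
    ∑ x : ZMod p, rep A B x = A.card * B.card := by
  simp_rw [pol_sum]
  rw [sum_comm]
  rw [sum_const_nat (m := A.card)]
  · ring
  · intro b _
    rw [← card_filter]
    apply card_bij (fun x _ => x - b)
    · intro x hx
      exact (mem_filter.1 hx).2
    · intro a _ c _ hac
      exact sub_left_injective hac
    · intro a ha
      refine ⟨a + b, ?_, add_sub_cancel_right a b⟩
      rw [mem_filter, add_sub_cancel_right]
      exact ⟨mem_univ _, ha⟩

theorem pol_le {p : ℕ} (A B : Finset (ZMod p)) (x : ZMod p) : rep A B x ≤ B.card :=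
  card_filter_le _ _

theorem pol_tr {p : ℕ} [NeZero p] (A B : Finset (ZMod p)) (t : ℕ) (e : ZMod p) :
    ∑ x : ZMod p, min t (rep A (B.image (fun b => b + e)) x) = ∑ x : ZMod p, min t (rep A B x) := by
  apply Fintype.sum_equiv (Equiv.subRight e)
  intro x
  congr 1
  rw [pol_sum, pol_sum, sum_image (fun a _ b _ h => add_left_injective e h)]
  apply sum_congr rfl
  intro b _
  have : x - (b + e) = Equiv.subRight e x - b := by
    rw [Equiv.subRight_apply]
    ring
  rw [this]

theorem pol_univ (p : ℕ) [Fact p.Prime] (A : Finset (ZMod p)) (d : ZMod p) (hd : d ≠ 0)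
    (hA : A.Nonempty) (h : ∀ a ∈ A, a + d ∈ A) : A = univ := by
  obtain ⟨a, ha⟩ := hA
  have h1 : ∀ k : ℕ, a + k * d ∈ A := by
    intro k
    induction k with
    | zero => simpa using ha
    | succ k ih =>
      have := h _ ih
      have h2 : a + ((k + 1 : ℕ) : ZMod p) * d = a + k * d + d := by
        push_cast
        ring
      rw [h2]
      exact this
  rw [eq_univ_iff_forall]
  intro y
  have h2 := h1 ((y - a) * d⁻¹).val
  rw [ZMod.natCast_zmod_val] at h2
  have h3 : a + (y - a) * d⁻¹ * d = y := by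
    rw [mul_assoc, inv_mul_cancel₀ hd, mul_one]
    ring
  rw [h3] at h2
  exact h2

theorem pol_ex (p : ℕ) [Fact p.Prime] (A B : Finset (ZMod p)) (hA : A.Nonempty)
    (hB : 1 < B.card) (hu : A ≠ univ) :
    ∃ e : ZMod p, (A ∩ B.image (fun b => b + e)).Nonempty ∧
      (A ∩ B.image (fun b => b + e)).card < B.card := by
  by_contra hcon
  push Not at hcon
  obtain ⟨b1, hb1, b2, hb2, hb⟩ := one_lt_card.1 hB
  apply hu
  apply pol_univ p A (b2 - b1) (sub_ne_zero.2 (Ne.symm hb)) hA
  intro a ha
  have h1 : b1 + (a - b1) ∈ B.image (fun b => b + (a - b1)) := mem_image_of_mem _ hb1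
  have h2 : (A ∩ B.image (fun b => b + (a - b1))).Nonempty := by
    refine ⟨a, mem_inter.2 ⟨ha, ?_⟩⟩
    have h3 : b1 + (a - b1) = a := by ring
    rw [← h3]
    rw [h3]
    rw [h3] at h1
    exact h1
  have h3 := hcon (a - b1) h2
  have h4 : (B.image (fun b => b + (a - b1))).card = B.card :=
    card_image_of_injective _ (add_left_injective _)
  have h5 : A ∩ B.image (fun b => b + (a - b1)) = B.image (fun b => b + (a - b1)) :=
    eq_of_subset_of_card_le inter_subset_right (by rw [h4]; exact h3)
  have h6 : b2 + (a - b1) ∈ A := by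
    have h7 : b2 + (a - b1) ∈ B.image (fun b => b + (a - b1)) := mem_image_of_mem _ hb2
    rw [← h5] at h7
    exact (mem_inter.1 h7).1
  have h7 : a + (b2 - b1) = b2 + (a - b1) := by ring
  rw [h7]
  exact h6

theorem pollard (p : ℕ) [Fact p.Prime] (A B : Finset (ZMod p)) (t : ℕ) (hA : t ≤ A.card)
    (hB : t ≤ B.card) :
    t * min p (A.card + B.card - t) ≤ ∑ x : ZMod p, min t (rep A B x) := by
  induction hn : B.card using Nat.strong_induction_on generalizing A B t with
  | _ n ih =>
  subst hn
  rcases Nat.eq_zero_or_pos t with ht | ht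
  · subst ht
    simp
  rcases hB.eq_or_lt with hB' | hB'
  · have h1 : ∀ x : ZMod p, min t (rep A B x) = rep A B x := by
      intro x
      rw [min_eq_right]
      rw [hB']
      exact pol_le A B x
    simp_rw [h1]
    rw [pol_tot, ← hB', Nat.add_sub_cancel, mul_comm]
    exact Nat.mul_le_mul_right _ (min_le_right _ _)
  by_cases hu : A = univ
  · have h1 : ∀ x : ZMod p, min t (rep A B x) = t := by
      intro x
      rw [min_eq_left]
      rw [rep, hu]
      simp only [mem_univ, filter_true]
      exact hB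
    simp_rw [h1]
    rw [sum_const, card_univ, ZMod.card, smul_eq_mul, mul_comm]
    exact Nat.mul_le_mul_right _ (min_le_left _ _)
  obtain ⟨e, he1, he2⟩ := pol_ex p A B (card_pos.1 (ht.trans_le hA)) (by omega) hu
  have hcB : (B.image (fun b => b + e)).card = B.card :=
    card_image_of_injective _ (add_left_injective _)
  rw [← pol_tr A B t e]
  obtain ⟨C, hC⟩ : ∃ C, C = B.image (fun b => b + e) := ⟨_, rfl⟩
  rw [← hC] at he1 he2 hcB ⊢
  rw [← hcB] at hB hB' he2 ih ⊢
  have e1 : (A \ C).card + (A ∩ C).card = A.card := card_sdiff_add_card_inter A C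
  have e2 : (C \ A).card + (A ∩ C).card = C.card := by
    rw [inter_comm]
    exact card_sdiff_add_card_inter C A
  have e3 : (A ∪ C).card + (A ∩ C).card = A.card + C.card := card_union_add_card_inter A C
  have e4 : 0 < (A ∩ C).card := card_pos.2 he1
  have e5 : (A ∪ C).card ≤ p := by
    have := card_le_univ (A ∪ C)
    rwa [ZMod.card] at this
  rcases le_or_gt t (A ∩ C).card with hi | hi
  · have h1 := ih (A ∩ C).card he2 (A ∪ C) (A ∩ C) t (by omega) hi rfl
    rw [e3] at h1
    refine h1.trans (sum_le_sum fun x _ => ?_)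
    rw [pol_key A C x]
    exact min_le_min le_rfl (Nat.le_add_right _ _)
  · have h1 := ih (C \ A).card (by omega) (A \ C) (C \ A) (t - (A ∩ C).card) (by omega)
      (by omega) rfl
    have h2 : min p ((A \ C).card + (C \ A).card - (t - (A ∩ C).card)) =
        (A \ C).card + (C \ A).card - (t - (A ∩ C).card) := min_eq_right (by omega)
    rw [h2] at h1
    have h3 : ∑ x : ZMod p, min (A ∩ C).card (rep (A ∪ C) (A ∩ C) x) =
        (A ∪ C).card * (A ∩ C).card := by
      rw [← pol_tot]
      apply sum_congr rfl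
      intro x _
      exact min_eq_right (pol_le _ _ x)
    have h4 : ∑ x : ZMod p, min (A ∩ C).card (rep (A ∪ C) (A ∩ C) x) +
        ∑ x : ZMod p, min (t - (A ∩ C).card) (rep (A \ C) (C \ A) x) ≤
        ∑ x : ZMod p, min t (rep A C x) := by
      rw [← sum_add_distrib]
      apply sum_le_sum
      intro x _
      rw [pol_key A C x]
      omega
    rw [h3] at h4
    refine le_trans ?_ h4
    refine le_trans ?_ (Nat.add_le_add_left h1 _)
    refine (Nat.mul_le_mul_left t (min_le_right _ _)).trans (le_of_eq ?_)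
    obtain ⟨i, hi'⟩ : ∃ i, i = (A ∩ C).card := ⟨_, rfl⟩
    obtain ⟨a, ha'⟩ : ∃ a, a = (A \ C).card := ⟨_, rfl⟩
    obtain ⟨c, hc'⟩ : ∃ c, c = (C \ A).card := ⟨_, rfl⟩
    rw [← hi'] at hi e1 e2 e3 ⊢
    rw [← ha'] at e1 ⊢
    rw [← hc'] at e2 ⊢
    have e6 : (A ∪ C).card = a + c + i := by omega
    rw [e6, ← e1, ← e2]
    obtain ⟨s, rfl⟩ : ∃ s, t = i + s := ⟨t - i, by omega⟩
    have e7 : a + i + (c + i) - (i + s) = a + c + i - s := by omega
    have e8 : i + s - i = s := by omega
    rw [e7, e8]
    obtain ⟨r, hr⟩ : ∃ r, a + c = s + r := ⟨a + c - s, by omega⟩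
    rw [hr]
    have e9 : s + r + i - s = r + i := by omega
    have e10 : s + r - s = r := by omega
    rw [e9, e10]
    ring

/-- The form for differences (`A` replaced by `-A`; `rep (-A) B x` is the number of the pairs with `b - a = x`;
`min t (rep x) ≤ rep x` for `x ∈ R` and `≤ t` for `x ∉ R`). -/
theorem pollard_diff (p : ℕ) [Fact p.Prime] (A B R : Finset (ZMod p)) (t : ℕ) (hA : t ≤ A.card)
    (hB : t ≤ B.card) :
    t * min p (A.card + B.card - t) ≤
      ((A ×ˢ B).filter (fun q => q.2 - q.1 ∈ R)).card + t * (p - R.card) := by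
  have hc : (A.image (fun a => -a)).card = A.card := card_image_of_injective _ neg_injective
  have h1 := pollard p (A.image (fun a => -a)) B t (by rw [hc]; exact hA) hB
  rw [hc] at h1
  refine h1.trans ?_
  have h2 : ∑ x : ZMod p, min t (rep (A.image (fun a => -a)) B x) =
      ∑ x ∈ R, min t (rep (A.image (fun a => -a)) B x) +
        ∑ x ∈ Rᶜ, min t (rep (A.image (fun a => -a)) B x) := (sum_add_sum_compl R _).symm
  rw [h2]
  apply Nat.add_le_add
  · have h3 : ((A ×ˢ B).filter (fun q => q.2 - q.1 ∈ R)).card =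
        ∑ x ∈ R, rep (A.image (fun a => -a)) B x := by
      rw [card_eq_sum_card_fiberwise (f := fun q : ZMod p × ZMod p => q.2 - q.1) (t := R)]
      · apply sum_congr rfl
        intro x hx
        apply card_bij (fun q _ => q.2)
        · intro q hq
          simp only [mem_filter, mem_product] at hq
          rw [mem_filter]
          refine ⟨hq.1.1.2, mem_image.2 ⟨q.1, hq.1.1.1, ?_⟩⟩
          rw [← hq.2]
          ring
        · intro q hq q' hq' hqq
          simp only [mem_filter, mem_product] at hq hq'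
          have h4 : q.1 = q'.1 := by
            have h5 : q.1 = q.2 - x := by rw [← hq.2]; ring
            have h6 : q'.1 = q'.2 - x := by rw [← hq'.2]; ring
            rw [h5, h6, hqq]
          exact Prod.ext h4 hqq
        · intro b hb
          rw [mem_filter] at hb
          obtain ⟨a, ha, hab⟩ := mem_image.1 hb.2
          refine ⟨(a, b), ?_, rfl⟩
          have h4 : b - a = x := by
            have : x - b = -a := hab.symm
            linear_combination -this
          simp only [mem_filter, mem_product]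
          exact ⟨⟨⟨ha, hb.1⟩, by rw [h4]; exact hx⟩, h4⟩
      · intro q hq
        exact (mem_filter.1 hq).2
    rw [h3]
    exact sum_le_sum fun x _ => min_le_right _ _
  · refine (sum_le_sum fun x _ => min_le_left t _).trans (le_of_eq ?_)
    rw [sum_const, card_compl, ZMod.card, smul_eq_mul, mul_comm]

end Pool.Agent.H11.HM
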