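import Pool.Agent.H11.HM.LkB
import Pool.Agent.H11.HM.Pol

/-!
[H11 HM LKC]  Pairs of fibres: Pollard's theorem.

`fibre_pollard`.  Let `A`, `B` be the images of `fib S P m u`, `fib S' P m u'` in `ZMod P` and `R` the image of
`{x < P | u' - u + m x ∈ F}` (`|R| = cnt F P m (u' - u)`); the map `x ↦ (x : ZMod P)` is injective on `range P`.  `pollard_diff`: it remains to
see that a pair `(v, v')` with `(v' : ZMod P) - v = x`, `x < P`, `u' - u + m x ∈ F` is a wrap pair: `x ≡ v' - v` mod `P` and
`-P < v' - v < P`; if `v ≤ v'` then `x = v' - v` and `(u' + m v') - (u + m v) ∈ F` contradicts `hF`; so `v' < v`, `x = v' - v + P`, and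
`u' - u + m (v' - v) + m P ∈ F`.
-/

namespace Pool.Agent.H11.HM

open Finset

theorem fibre_pollard (S S' : Finset ℤ) (F : Set ℤ) (P m t : ℕ) (hP : P.Prime) (u u' : ℤ)
    (hF : ∀ y ∈ S, ∀ y' ∈ S', y' - y ∉ F) (h1 : t ≤ (fib S P m u).card)
    (h2 : t ≤ (fib S' P m u').card) :
    t * min P ((fib S P m u).card + (fib S' P m u').card - t) ≤
      wrap S S' F P m u u' + t * (P - cnt F P m (u' - u)) := by
  classical
  haveI : Fact P.Prime := ⟨hP⟩
  have hinj : Set.InjOn (fun x : ℕ => (x : ZMod P)) (range P : Set ℕ) := by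
    intro a ha b hb hab
    rw [coe_range, Set.mem_Iio] at ha hb
    have h := (ZMod.natCast_eq_natCast_iff a b P).1 hab
    rw [Nat.ModEq, Nat.mod_eq_of_lt ha, Nat.mod_eq_of_lt hb] at h
    exact h
  have hinj' : ∀ T : Finset ℕ, T ⊆ range P → Set.InjOn (fun x : ℕ => (x : ZMod P)) (T : Set ℕ) :=
    fun T hT => hinj.mono (by exact_mod_cast hT)
  set A := (fib S P m u).image (fun x : ℕ => (x : ZMod P)) with hA
  set B := (fib S' P m u').image (fun x : ℕ => (x : ZMod P)) with hB
  set R := ((range P).filter (fun n : ℕ => u' - u + (m : ℤ) * n ∈ F)).image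
    (fun x : ℕ => (x : ZMod P)) with hR
  have cA : A.card = (fib S P m u).card := card_image_of_injOn (hinj' _ (filter_subset _ _))
  have cB : B.card = (fib S' P m u').card := card_image_of_injOn (hinj' _ (filter_subset _ _))
  have cR : R.card = cnt F P m (u' - u) := by
    rw [hR, card_image_of_injOn (hinj' _ (filter_subset _ _)), cnt]
  have key := pollard_diff P A B R t (by rw [cA]; exact h1) (by rw [cB]; exact h2)
  rw [cA, cB, cR] at key
  refine key.trans (Nat.add_le_add_right ?_ _)
  rw [wrap]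
  -- surjection from the wrap pairs onto the pairs
  have hsub : (A ×ˢ B).filter (fun q => q.2 - q.1 ∈ R) ⊆
      ((((fib S P m u) ×ˢ (fib S' P m u')).filter
        (fun q : ℕ × ℕ => q.2 < q.1 ∧ u' - u + m * ((q.2 : ℤ) - q.1) + m * P ∈ F)).image
          (fun q : ℕ × ℕ => ((q.1 : ZMod P), (q.2 : ZMod P)))) := by
    rintro ⟨a, b⟩ hab
    rw [mem_filter, mem_product] at hab
    obtain ⟨⟨ha, hb⟩, hr⟩ := hab
    rw [hA, mem_image] at ha
    rw [hB, mem_image] at hb
    rw [hR, mem_image] at hr
    obtain ⟨v, hv, hv'⟩ := ha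
    obtain ⟨w, hw, hw'⟩ := hb
    obtain ⟨x, hx, hx'⟩ := hr
    dsimp only at hv' hw' hx'
    subst hv'
    subst hw'
    rw [mem_image]
    refine ⟨(v, w), ?_, rfl⟩
    have hv2 := hv
    have hw2 := hw
    rw [fib, mem_filter, mem_range] at hv2 hw2
    rw [mem_filter, mem_range] at hx
    have hcong : ((x : ℤ) : ZMod P) = (((w : ℤ) - v : ℤ) : ZMod P) := by
      push_cast
      exact hx'
    rw [ZMod.intCast_eq_intCast_iff, Int.modEq_iff_dvd] at hcong
    obtain ⟨c, hc⟩ := hcong
    have hPpos : (0 : ℤ) < P := by exact_mod_cast hP.pos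
    have hvP : (v : ℤ) < P := by exact_mod_cast hv2.1
    have hwP : (w : ℤ) < P := by exact_mod_cast hw2.1
    have hxP : (x : ℤ) < P := by exact_mod_cast hx.1
    have hv0 : (0 : ℤ) ≤ v := by positivity
    have hw0 : (0 : ℤ) ≤ w := by positivity
    have hx0 : (0 : ℤ) ≤ x := by positivity
    have hclt : c < 1 := by
      by_contra hcon
      push Not at hcon
      nlinarith
    have hcgt : -2 < c := by
      by_contra hcon
      push Not at hcon
      nlinarith
    have hc01 : c = 0 ∨ c = -1 := by omega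
    rcases hc01 with h | h
    · exfalso
      rw [h, mul_zero] at hc
      have hxe : (x : ℤ) = w - v := by linarith
      apply hF _ hv2.2 _ hw2.2
      have e : u' + (m : ℤ) * w - (u + m * v) = u' - u + m * x := by
        rw [hxe]; ring
      rw [e]
      exact hx.2
    · rw [h] at hc
      have hxe : (x : ℤ) = w - v + P := by linarith
      rw [mem_filter, mem_product]
      refine ⟨⟨hv, hw⟩, ?_, ?_⟩
      · show w < v
        have : (w : ℤ) < v := by linarith
        exact_mod_cast this
      · show u' - u + (m : ℤ) * ((w : ℤ) - v) + m * P ∈ F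
        have e : u' - u + (m : ℤ) * ((w : ℤ) - v) + m * P = u' - u + m * x := by
          rw [hxe]; ring
        rw [e]
        exact hx.2
  exact (card_le_card hsub).trans card_image_le

end Pool.Agent.H11.HM
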