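import Pool.Agent.H11.HM.Cs
import Pool.Agent.H11.HM.LkC

/-!
[H11 HM LK]  The key lemma: if `S, S' ⊂ [0, L)` have no difference `y' - y` in `F` and `F` has density at least `ρ` along most
progressions `w, w + m, …, w + (P-1) m`, for each `m ≤ K`, then `min(1, (|S| + |S'|)/L) ≤ 1 - ρ + 10 ε`.

Proof.  `K` is that of `almost_period (ε^4)`.  `|S| ≥ 4 ε L ≥ ε^4 L`; `L ≥ K P/ε^2 ≥ K P`.  Let `m` be the almost period:
`∑_{n ∈ Ico (-L) L} |cor(n + mP) - cor n| ≤ ε^4 L^2`, `cor = cor S S'`.  `a = |S|/L`, `b = |S'|/L ∈ [4ε, 1]`.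

(1) is `many_good` (`LkA.lean`), (2) is `wrap_sum` (`LkB.lean`) and the counting in (4) is `fibre_pollard` (`LkC.lean`; `E = wrap`,
`A_u = fib S P m u`, `|F_w| = cnt F P m w`).

Fibres: for `u ∈ ℤ` let `A_u = {v ∈ [0,P) | u + m v ∈ S}`, `B_u = {v ∈ [0,P) | u + m v ∈ S'}`, `F_w = {x ∈ [0,P) | w + m x ∈ F}`.
* (1) At least `ε L` of the `u ∈ [0, L)` have `|A_u| ≥ (a - 2ε) P`: `∑_{u ∈ Ico (-mP) L} |A_u| = P |S|` (for `y ∈ S`, `v < P` the number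
  `u = y - m v` lies in `(-mP, L)`), so `∑_{u ∈ Ico 0 L} |A_u| ≥ P |S| - mP P ≥ P (a L - ε^2 L)` (`mP ≤ KP ≤ ε^2 L`), and `|A_u| ≤ P`:
  with `g` = number of good `u`, `P L (a - ε^2) ≤ g P + L (a - 2ε) P`, so `g ≥ (2ε - ε^2) L ≥ ε L`.  The same for `B`, `b`.
* (2) For `u, u'` let `E(u,u')` be the number of the pairs `(v,v') ∈ A_u × B_{u'}` with `v' < v` and
  `u' - u + m (v' - v) + m P ∈ F`.  Then `∑_{u,u'} E(u,u') ≤ P^2 #{(y,y') ∈ S × S' | y' - y + m P ∈ F}` (for each `(y,y')` there are `P^2`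
  choices of `(v,v')`), and this number of pairs is `∑_{n ∈ Ico (-L) L, n + mP ∈ F} cor n`; for these `n`, `cor (n + mP) = 0`
  (no difference in `F`), so it is `≤ ∑_n |cor n - cor(n + mP)| ≤ ε^4 L^2`.
* (3) There are `≥ ε^2 L^2` pairs `(u,u') ∈ [0,L)^2` with `u`, `u'` good.  At most `ε^2 L^2/2` pairs have `E(u,u') > 2 ε^2 P^2` (by (2)).
  For at most `L · (ε^2/4) L` pairs `w = u' - u` is one of the exceptional `w ∈ Ico (-L) L` of the hypothesis.  So there is a pair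
  `(u,u')` of good `u`, `u'` with `E(u,u') ≤ 2 ε^2 P^2` and `|F_w| ≥ (ρ - ε) P`, `w = u' - u` (`ε^2/2 + ε^2/4 < ε^2`; `L ≥ 1`).
* (4) `pollard_diff` in `ZMod P` for the images of `A_u`, `B_{u'}`, `R = F_w` (the map `[0,P) → ZMod P` is injective),
  `t = ⌈ε P⌉ ≤ 2 ε P ≤ |A_u|, |B_{u'}|` (`P ≥ 1/ε^2`, `a, b ≥ 4 ε`).  A pair `(v,v')` with `v' - v ≡ x ∈ F_w` modulo `P`: if `v ≤ v'` then
  `v' - v = x` and `(u' + m v') - (u + m v) = w + m x ∈ F`, impossible; if `v' < v` then `v' - v + P = x`, so the pair is counted in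
  `E(u,u')`.  So `t min(P, |A_u| + |B_{u'}| - t) ≤ 2 ε^2 P^2 + t (P - (ρ-ε) P)`; divide by `t P` (`t ≥ ε P`):
  `min(1, (|A_u| + |B_{u'}| - t)/P) ≤ 2ε + 1 - ρ + ε`, and `(|A_u| + |B_{u'}| - t)/P ≥ a + b - 4ε - ε - 1/P ≥ a + b - 6 ε`.
  So `min(1, a+b) ≤ 1 - ρ + 9 ε`.
-/

namespace Pool.Agent.H11.HM

open Finset

private theorem lk_arith (a b ε P fa fb t : ℝ) (h1 : (a - 2 * ε) * P ≤ fa)
    (h2 : (b - 2 * ε) * P ≤ fb) (h3 : t ≤ ε * P + 1) (h4 : 1 ≤ ε * P) :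
    (a + b) * P ≤ fa + fb - t + 6 * ε * P := by
  nlinarith

open Classical in
theorem key_lemma (ε : ℝ) (h0 : 0 < ε) (h1 : ε ≤ 1 / 10) : ∃ K : ℕ, 1 ≤ K ∧
    ∀ P L : ℕ, P.Prime → 1 / ε ^ 2 ≤ (P : ℝ) → (K : ℝ) * P ≤ ε ^ 2 * L →
    ∀ (ρ : ℝ), ρ ≤ 1 → ∀ (S S' : Finset ℤ) (F : Set ℤ), S ⊆ Ico 0 (L : ℤ) → S' ⊆ Ico 0 (L : ℤ) →
      4 * ε * L ≤ (S.card : ℝ) → 4 * ε * L ≤ (S'.card : ℝ) →
      (∀ y ∈ S, ∀ y' ∈ S', y' - y ∉ F) →
      (∀ m : ℕ, 1 ≤ m → m ≤ K →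
        (((Ico (-(L : ℤ)) L).filter (fun w => (cnt F P m w : ℝ) < (ρ - ε) * P)).card : ℝ) ≤
          ε ^ 2 / 4 * L) →
      min 1 (((S.card : ℝ) + S'.card) / L) ≤ 1 - ρ + 10 * ε := by
  obtain ⟨K, hK1, hK⟩ := almost_period (ε ^ 4) (by positivity) (pow_le_one₀ h0.le (by linarith))
  refine ⟨K, hK1, ?_⟩
  intro P L hP hPε hKP ρ hρ S S' F hS hS' hSL hSL' hF hexc
  have hP1 : 1 ≤ P := hP.one_lt.le
  have hP0 : (0 : ℝ) < P := by exact_mod_cast hP.pos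
  have hε2 : ε ^ 2 ≤ 1 := pow_le_one₀ h0.le (by linarith)
  have hL0 : (0 : ℝ) < L := by
    have h2 : (0 : ℝ) < (K : ℝ) * P := by
      have : (0 : ℝ) < K := by exact_mod_cast hK1
      positivity
    by_contra hcon
    push Not at hcon
    have h3 : ε ^ 2 * (L : ℝ) ≤ 0 := mul_nonpos_of_nonneg_of_nonpos (by positivity) hcon
    linarith
  have hKPL : K * P ≤ L := by
    have h2 : (K : ℝ) * P ≤ L := hKP.trans (mul_le_of_le_one_left hL0.le hε2)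
    exact_mod_cast h2
  have h4 : ε ^ 4 * (L : ℝ) ≤ S.card := by
    refine le_trans ?_ hSL
    apply mul_le_mul_of_nonneg_right _ hL0.le
    have h2 : ε ^ 3 ≤ 1 := pow_le_one₀ h0.le (by linarith)
    calc ε ^ 4 = ε * ε ^ 3 := by ring
      _ ≤ ε * 1 := mul_le_mul_of_nonneg_left h2 h0.le
      _ ≤ 4 * ε := by linarith
  obtain ⟨m, hm1, hm2, hper⟩ := hK P L hP1 hKPL S S' hS hS' h4
  have hmP : (m : ℝ) * P ≤ ε ^ 2 * L := by
    refine le_trans ?_ hKP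
    apply mul_le_mul_of_nonneg_right _ hP0.le
    exact_mod_cast hm2
  obtain ⟨a, ha⟩ : ∃ a : ℝ, a = (S.card : ℝ) / L := ⟨_, rfl⟩
  obtain ⟨b, hb⟩ : ∃ b : ℝ, b = (S'.card : ℝ) / L := ⟨_, rfl⟩
  have ha4 : 4 * ε ≤ a := by rw [ha, le_div_iff₀ hL0]; exact hSL
  have hb4 : 4 * ε ≤ b := by rw [hb, le_div_iff₀ hL0]; exact hSL'
  have hX := many_good S P L m ε h0 (by linarith) hP1 hS hmP
  have hX' := many_good S' P L m ε h0 (by linarith) hP1 hS' hmP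
  rw [← ha] at hX
  rw [← hb] at hX'
  set X := (Ico 0 (L : ℤ)).filter (fun u => (a - 2 * ε) * P ≤ ((fib S P m u).card : ℝ)) with hXd
  set X' := (Ico 0 (L : ℤ)).filter (fun u => (b - 2 * ε) * P ≤ ((fib S' P m u).card : ℝ)) with hXd'
  have hws := wrap_sum S S' F P L m hS hS' hF
  have hws2 : ∑ u ∈ Ico 0 (L : ℤ), ∑ u' ∈ Ico 0 (L : ℤ), (wrap S S' F P m u u' : ℝ) ≤
      (P : ℝ) ^ 2 * (ε ^ 4 * (L : ℝ) ^ 2) := hws.trans (mul_le_mul_of_nonneg_left hper (by positivity))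
  -- the bad pairs
  set Q := Ico 0 (L : ℤ) ×ˢ Ico 0 (L : ℤ) with hQ
  set B1 := Q.filter (fun q => 2 * ε ^ 2 * (P : ℝ) ^ 2 < (wrap S S' F P m q.1 q.2 : ℝ)) with hB1
  set B2 := Q.filter (fun q => (cnt F P m (q.2 - q.1) : ℝ) < (ρ - ε) * P) with hB2
  have hB1c : (B1.card : ℝ) ≤ ε ^ 2 * (L : ℝ) ^ 2 / 2 := by
    have h2 : (B1.card : ℝ) * (2 * ε ^ 2 * (P : ℝ) ^ 2) ≤ (P : ℝ) ^ 2 * (ε ^ 4 * (L : ℝ) ^ 2) := by
      calc (B1.card : ℝ) * (2 * ε ^ 2 * (P : ℝ) ^ 2) = ∑ _q ∈ B1, 2 * ε ^ 2 * (P : ℝ) ^ 2 := by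
            rw [sum_const, nsmul_eq_mul]
        _ ≤ ∑ q ∈ B1, (wrap S S' F P m q.1 q.2 : ℝ) :=
            sum_le_sum fun q hq => (mem_filter.1 hq).2.le
        _ ≤ ∑ q ∈ Q, (wrap S S' F P m q.1 q.2 : ℝ) :=
            sum_le_sum_of_subset_of_nonneg (filter_subset _ _) fun q _ _ => Nat.cast_nonneg _
        _ = ∑ u ∈ Ico 0 (L : ℤ), ∑ u' ∈ Ico 0 (L : ℤ), (wrap S S' F P m u u' : ℝ) := by
            rw [hQ, sum_product]
        _ ≤ _ := hws2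
    have h3 : (0 : ℝ) < 2 * ε ^ 2 * (P : ℝ) ^ 2 := by positivity
    have h5 : (P : ℝ) ^ 2 * (ε ^ 4 * (L : ℝ) ^ 2) =
        (ε ^ 2 * (L : ℝ) ^ 2 / 2) * (2 * ε ^ 2 * (P : ℝ) ^ 2) := by ring
    rw [h5] at h2
    exact le_of_mul_le_mul_right h2 h3
  have hB2c : (B2.card : ℝ) ≤ ε ^ 2 * (L : ℝ) ^ 2 / 4 := by
    set Ex := (Ico (-(L : ℤ)) L).filter (fun w => (cnt F P m w : ℝ) < (ρ - ε) * P) with hEx
    have h2 : B2.card ≤ (Ico 0 (L : ℤ) ×ˢ Ex).card := by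
      apply card_le_card_of_injOn (fun q => (q.1, q.2 - q.1))
      · intro q hq
        rw [mem_coe, hB2, mem_filter, hQ, mem_product, mem_Ico, mem_Ico] at hq
        rw [mem_coe, mem_product, hEx, mem_filter, mem_Ico, mem_Ico]
        simp only
        exact ⟨hq.1.1, ⟨by omega, by omega⟩, hq.2⟩
      · intro q _ q' _ hqq
        simp only [Prod.mk.injEq] at hqq
        apply Prod.ext <;> omega
    rw [card_product, Int.card_Ico] at h2
    have h3 : (B2.card : ℝ) ≤ (L : ℝ) * Ex.card := by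
      have h5 : ((L : ℤ) - 0).toNat = L := by omega
      rw [h5] at h2
      exact_mod_cast h2
    have h5 := hexc m hm1 hm2
    calc (B2.card : ℝ) ≤ (L : ℝ) * Ex.card := h3
      _ ≤ (L : ℝ) * (ε ^ 2 / 4 * L) := mul_le_mul_of_nonneg_left h5 hL0.le
      _ = _ := by ring
  have hXX : ε ^ 2 * (L : ℝ) ^ 2 ≤ ((X ×ˢ X').card : ℝ) := by
    rw [card_product]
    push_cast
    calc ε ^ 2 * (L : ℝ) ^ 2 = (ε * L) * (ε * L) := by ring
      _ ≤ (X.card : ℝ) * X'.card := mul_le_mul hX hX' (by positivity) (Nat.cast_nonneg _)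
  obtain ⟨q, hq, hq1, hq2⟩ : ∃ q ∈ X ×ˢ X', q ∉ B1 ∧ q ∉ B2 := by
    by_contra hcon
    push Not at hcon
    have h2 : X ×ˢ X' ⊆ B1 ∪ B2 := by
      intro q hq
      rw [mem_union]
      by_contra h3
      push Not at h3
      exact h3.2 (hcon q hq h3.1)
    have h3 := (card_le_card h2).trans (card_union_le _ _)
    have h5 : ((X ×ˢ X').card : ℝ) ≤ (B1.card : ℝ) + B2.card := by exact_mod_cast h3
    have h6 : 0 < ε ^ 2 * (L : ℝ) ^ 2 := by positivity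
    linarith only [h5, h6, hXX, hB1c, hB2c]
  rw [mem_product] at hq
  have hqQ : q ∈ Q := by
    rw [hQ, mem_product]
    exact ⟨filter_subset _ _ hq.1, filter_subset _ _ hq.2⟩
  have hq1' : (wrap S S' F P m q.1 q.2 : ℝ) ≤ 2 * ε ^ 2 * (P : ℝ) ^ 2 := by
    by_contra hcon
    exact hq1 (mem_filter.2 ⟨hqQ, not_le.1 hcon⟩)
  have hq2' : (ρ - ε) * P ≤ (cnt F P m (q.2 - q.1) : ℝ) := by
    by_contra hcon
    exact hq2 (mem_filter.2 ⟨hqQ, not_le.1 hcon⟩)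
  have hfa : (a - 2 * ε) * P ≤ ((fib S P m q.1).card : ℝ) := (mem_filter.1 hq.1).2
  have hfb : (b - 2 * ε) * P ≤ ((fib S' P m q.2).card : ℝ) := (mem_filter.1 hq.2).2
  -- Pollard
  obtain ⟨t, ht⟩ : ∃ t : ℕ, t = ⌈ε * P⌉₊ := ⟨_, rfl⟩
  have ht1 : ε * P ≤ t := by rw [ht]; exact Nat.le_ceil _
  have hεP : 1 ≤ ε * ε * P := by
    rw [div_le_iff₀ (by positivity)] at hPε
    linarith only [hPε]
  have hεP' : 1 ≤ ε * P := by
    have h2 : ε * ε * (P : ℝ) ≤ 1 * ε * P := by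
      apply mul_le_mul_of_nonneg_right _ hP0.le
      exact mul_le_mul_of_nonneg_right (by linarith only [h1]) h0.le
    linarith only [h2, hεP]
  have ht2 : (t : ℝ) ≤ ε * P + 1 := by
    rw [ht]
    exact (Nat.ceil_lt_add_one (by positivity)).le
  have hta : t ≤ (fib S P m q.1).card := by
    have h2 : (t : ℝ) ≤ ((fib S P m q.1).card : ℝ) := by
      refine le_trans ?_ hfa
      have : (4 * ε - 2 * ε) * P ≤ (a - 2 * ε) * P :=
        mul_le_mul_of_nonneg_right (by linarith only [ha4]) hP0.le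
      linarith only [this, ht2, hεP']
    exact_mod_cast h2
  have htb : t ≤ (fib S' P m q.2).card := by
    have h2 : (t : ℝ) ≤ ((fib S' P m q.2).card : ℝ) := by
      refine le_trans ?_ hfb
      have : (4 * ε - 2 * ε) * P ≤ (b - 2 * ε) * P :=
        mul_le_mul_of_nonneg_right (by linarith only [hb4]) hP0.le
      linarith only [this, ht2, hεP']
    exact_mod_cast h2
  have hpol := fibre_pollard S S' F P m t hP q.1 q.2 hF hta htb
  have hcntP : cnt F P m (q.2 - q.1) ≤ P := by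
    unfold cnt
    exact (card_filter_le _ _).trans (card_range P).le
  have ht0 : (0 : ℝ) < t := lt_of_lt_of_le (by positivity) ht1
  have hpolR : (t : ℝ) * min (P : ℝ) (((fib S P m q.1).card : ℝ) + (fib S' P m q.2).card - t) ≤
      (wrap S S' F P m q.1 q.2 : ℝ) + t * ((P : ℝ) - cnt F P m (q.2 - q.1)) := by
    have h2 : ((t * min P ((fib S P m q.1).card + (fib S' P m q.2).card - t) : ℕ) : ℝ) ≤
        ((wrap S S' F P m q.1 q.2 + t * (P - cnt F P m (q.2 - q.1)) : ℕ) : ℝ) := by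
      exact_mod_cast hpol
    rw [Nat.cast_mul, Nat.cast_add, Nat.cast_mul, Nat.cast_min, Nat.cast_sub hcntP,
      Nat.cast_sub (by omega), Nat.cast_add] at h2
    exact h2
  have hub : (wrap S S' F P m q.1 q.2 : ℝ) + t * ((P : ℝ) - cnt F P m (q.2 - q.1)) ≤
      t * ((1 - ρ + 3 * ε) * P) := by
    have h2 : 2 * ε ^ 2 * (P : ℝ) ^ 2 ≤ t * (2 * ε * P) := by
      calc 2 * ε ^ 2 * (P : ℝ) ^ 2 = (ε * P) * (2 * ε * P) := by ring
        _ ≤ t * (2 * ε * P) := mul_le_mul_of_nonneg_right ht1 (by positivity)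
    have h3 : (t : ℝ) * ((P : ℝ) - cnt F P m (q.2 - q.1)) ≤ t * ((P : ℝ) - (ρ - ε) * P) :=
      mul_le_mul_of_nonneg_left (by linarith only [hq2']) ht0.le
    calc (wrap S S' F P m q.1 q.2 : ℝ) + t * ((P : ℝ) - cnt F P m (q.2 - q.1))
        ≤ t * (2 * ε * P) + t * ((P : ℝ) - (ρ - ε) * P) := add_le_add (hq1'.trans h2) h3
      _ = t * ((1 - ρ + 3 * ε) * P) := by ring
  have hmin := le_of_mul_le_mul_left (hpolR.trans hub) ht0
  have hab : min 1 (a + b) * P ≤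
      min (P : ℝ) (((fib S P m q.1).card : ℝ) + (fib S' P m q.2).card - t) + 6 * ε * P := by
    rw [← min_add_add_right]
    apply le_min
    · have h2 : min 1 (a + b) * P ≤ 1 * P := mul_le_mul_of_nonneg_right (min_le_left _ _) hP0.le
      have h3 : 0 ≤ 6 * ε * P := by positivity
      linarith only [h2, h3]
    · have h2 : min 1 (a + b) * P ≤ (a + b) * P :=
        mul_le_mul_of_nonneg_right (min_le_right _ _) hP0.le
      exact h2.trans (lk_arith a b ε P _ _ _ hfa hfb ht2 hεP')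
  have hfin : min 1 (a + b) * P ≤ (1 - ρ + 9 * ε) * P := by
    calc min 1 (a + b) * P ≤ _ := hab
      _ ≤ (1 - ρ + 3 * ε) * P + 6 * ε * P := by linarith only [hmin]
      _ = (1 - ρ + 9 * ε) * P := by ring
  have hfin2 := le_of_mul_le_mul_right hfin hP0
  have hab2 : ((S.card : ℝ) + S'.card) / L = a + b := by rw [ha, hb, add_div]
  rw [hab2]
  linarith only [hfin2, h0]

end Pool.Agent.H11.HM
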