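import Pool.Agent.H11.HM.Df

/-!
[H11 HM LKA]  Fibres of a set along progressions.

Proof of `many_good`.  `∑_{u ∈ Ico (-mP) L} |fib S P m u| = P |S|` (pairs `(u, v)` with `u + m v = y ∈ S`: for `y ∈ S`, `v < P` the number
`u = y - m v` lies in `Ico (-mP) L`; if `m = 0` in `Ico 0 L`), and the `≤ m P` values `u < 0` contribute `≤ P` each, so with `a = |S|/L`
`∑_{u ∈ Ico 0 L} |fib u| ≥ P |S| - m P P ≥ P L (a - ε^2)`.  Let `g` be the number of the `u ∈ Ico 0 L` with `(a - 2ε) P ≤ |fib u|`.  If
`a - 2ε ≤ 0` then `g = L`.  Otherwise `∑ ≤ g P + (L - g) (a - 2ε) P ≤ g P + L (a - 2ε) P`, so `g ≥ L (2ε - ε^2) ≥ ε L`.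
(`L = 0` is trivial.)
-/

namespace Pool.Agent.H11.HM

open Finset

/-- the fibre of `S` along the progression `u, u + m, …, u + (P-1) m` -/
noncomputable def fib (S : Finset ℤ) (P m : ℕ) (u : ℤ) : Finset ℕ :=
  (range P).filter (fun v : ℕ => u + m * v ∈ S)

theorem many_good (S : Finset ℤ) (P L m : ℕ) (ε : ℝ) (h0 : 0 < ε) (h1 : ε ≤ 1) (hP : 1 ≤ P)
    (hS : S ⊆ Ico 0 (L : ℤ)) (hm : (m : ℝ) * P ≤ ε ^ 2 * L) :
    ε * L ≤ (((Ico 0 (L : ℤ)).filter
      (fun u => ((S.card : ℝ) / L - 2 * ε) * P ≤ ((fib S P m u).card : ℝ))).card : ℝ) := by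
  classical
  rcases Nat.eq_zero_or_pos L with hL | hL
  · subst hL; simp
  have hL' : (0 : ℝ) < L := by exact_mod_cast hL
  have hP' : (0 : ℝ) < P := by exact_mod_cast (lt_of_lt_of_le Nat.zero_lt_one hP)
  by_cases hs : (S.card : ℝ) / L - 2 * ε ≤ 0
  · rw [filter_true_of_mem, Int.card_Ico]
    · have : ((L : ℤ) - 0).toNat = L := by omega
      rw [this]
      nlinarith
    · intro u _
      have : ((S.card : ℝ) / L - 2 * ε) * P ≤ 0 := mul_nonpos_of_nonpos_of_nonneg hs hP'.le
      exact this.trans (Nat.cast_nonneg _)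
  · push Not at hs
    set good := (Ico 0 (L : ℤ)).filter
      (fun u => ((S.card : ℝ) / L - 2 * ε) * P ≤ ((fib S P m u).card : ℝ)) with hgood
    -- for each v
    have hv : ∀ v ∈ range P, (S.card : ℝ) ≤ (m : ℝ) * P +
        (((Ico 0 (L : ℤ)).filter (fun u : ℤ => u + m * v ∈ S)).card : ℝ) := by
      intro v hv
      rw [mem_range] at hv
      have h2 : (S.image (fun y : ℤ => y - m * v)) ⊆ Ico (-((m * P : ℕ) : ℤ)) 0 ∪
          (Ico 0 (L : ℤ)).filter (fun u : ℤ => u + m * v ∈ S) := by
        intro z hz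
        rw [mem_image] at hz
        obtain ⟨y, hy, rfl⟩ := hz
        have hy2 := hS hy
        rw [mem_Ico] at hy2
        have h3 : ((m * v : ℕ) : ℤ) ≤ ((m * P : ℕ) : ℤ) := by
          exact_mod_cast Nat.mul_le_mul_left m hv.le
        have h4 : (0 : ℤ) ≤ ((m * v : ℕ) : ℤ) := by positivity
        push_cast at h3 h4
        rw [mem_union, mem_filter, mem_Ico, mem_Ico]
        push_cast
        by_cases hz : y - (m : ℤ) * v < 0
        · left
          exact ⟨by linarith, hz⟩
        · right
          refine ⟨⟨by linarith, by linarith⟩, ?_⟩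
          simpa using hy
      have h3 : (S.image (fun y : ℤ => y - m * v)).card = S.card := by
        apply card_image_of_injective
        intro a b hab
        simpa using hab
      have h4 := (card_le_card h2).trans (card_union_le _ _)
      rw [h3, Int.card_Ico] at h4
      have h5 : (0 - -((m * P : ℕ) : ℤ)).toNat = m * P := by omega
      rw [h5] at h4
      have h6 : (S.card : ℝ) ≤ ((m * P +
        ((Ico 0 (L : ℤ)).filter (fun u : ℤ => u + m * v ∈ S)).card : ℕ) : ℝ) := by
        exact_mod_cast h4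
      push_cast at h6
      exact h6
    have hsum : ∑ u ∈ Ico 0 (L : ℤ), ((fib S P m u).card : ℝ) =
        ∑ v ∈ range P, (((Ico 0 (L : ℤ)).filter (fun u : ℤ => u + m * v ∈ S)).card : ℝ) := by
      have e1 : ∀ u : ℤ, ((fib S P m u).card : ℝ) =
          ∑ v ∈ range P, (if u + (m : ℤ) * v ∈ S then (1 : ℝ) else 0) := by
        intro u
        rw [fib, card_filter]
        push_cast
        rfl
      have e2 : ∀ v : ℕ, (((Ico 0 (L : ℤ)).filter (fun u : ℤ => u + m * v ∈ S)).card : ℝ) =
          ∑ u ∈ Ico 0 (L : ℤ), (if u + (m : ℤ) * v ∈ S then (1 : ℝ) else 0) := by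
        intro v
        rw [card_filter]
        push_cast
        rfl
      simp_rw [e1, e2]
      exact sum_comm
    have hlow : (P : ℝ) * S.card - P * ((m : ℝ) * P) ≤ ∑ u ∈ Ico 0 (L : ℤ), ((fib S P m u).card : ℝ) := by
      rw [hsum]
      have := sum_le_sum hv
      rw [sum_const, card_range, nsmul_eq_mul, sum_add_distrib, sum_const, card_range,
        nsmul_eq_mul] at this
      linarith
    have hup : ∑ u ∈ Ico 0 (L : ℤ), ((fib S P m u).card : ℝ) ≤
        (good.card : ℝ) * P + L * (((S.card : ℝ) / L - 2 * ε) * P) := by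
      have hpt : ∀ u ∈ Ico 0 (L : ℤ), ((fib S P m u).card : ℝ) ≤
          (if ((S.card : ℝ) / L - 2 * ε) * P ≤ ((fib S P m u).card : ℝ) then (P : ℝ) else 0) +
            ((S.card : ℝ) / L - 2 * ε) * P := by
        intro u _
        have hc : 0 < ((S.card : ℝ) / L - 2 * ε) * P := mul_pos hs hP'
        split_ifs with hu
        · have h7 : (fib S P m u).card ≤ P := by
            have := card_filter_le (range P) (fun v : ℕ => u + m * v ∈ S)
            rw [card_range] at this
            exact this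
          have h8 : ((fib S P m u).card : ℝ) ≤ P := by exact_mod_cast h7
          linarith
        · push Not at hu
          linarith
      have := sum_le_sum hpt
      rw [sum_add_distrib, sum_const, Int.card_Ico, nsmul_eq_mul, ← sum_filter, sum_const,
        nsmul_eq_mul] at this
      have h9 : ((L : ℤ) - 0).toNat = L := by omega
      rw [h9] at this
      exact this
    have hfin := hlow.trans hup
    have hid : L * (((S.card : ℝ) / L - 2 * ε) * P) = (S.card : ℝ) * P - 2 * ε * L * P := by
      field_simp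
    rw [hid] at hfin
    have h10 : 2 * ε * L * P - (m : ℝ) * P * P ≤ (good.card : ℝ) * P := by linarith
    have h11 : 2 * ε * L - (m : ℝ) * P ≤ (good.card : ℝ) := by
      have : (2 * ε * L - (m : ℝ) * P) * P ≤ (good.card : ℝ) * P := by linarith
      exact le_of_mul_le_mul_right this hP'
    have h12 : ε ^ 2 * L ≤ ε * L := by
      have : ε ^ 2 ≤ ε := by nlinarith
      exact mul_le_mul_of_nonneg_right this hL'.le
    linarith

end Pool.Agent.H11.HM
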