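import Pool.Agent.H11.HM.LkA

/-!
[H11 HM LKB]  Pairs of fibres: the number of the wrap-around pairs.

`wrap_sum`.  A tuple `(u, u', v, v')` counted on the left gives `y = u + m v ∈ S`, `y' = u' + m v' ∈ S'` with
`y' - y + m P = u' - u + m (v' - v) + m P ∈ F`, and `(y, y', v, v')` determines `(u, u')`: so the left side is
`≤ P^2 #{(y,y') ∈ S × S' | y' - y + m P ∈ F} = P^2 ∑_{n ∈ Ico (-L) L, n + m P ∈ F} cor S S' n`.  For these `n`, `cor S S' (n + m P) = 0` by
`hF`, so `cor n = |cor (n + mP) - cor n|`.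

-/

namespace Pool.Agent.H11.HM

open Finset

open Classical in
/-- the number of the pairs `(v, v')` in the fibres at `u`, `u'` with `v' < v` and `y' - y + m P ∈ F` -/
noncomputable def wrap (S S' : Finset ℤ) (F : Set ℤ) (P m : ℕ) (u u' : ℤ) : ℕ :=
  (((fib S P m u) ×ˢ (fib S' P m u')).filter
    (fun q : ℕ × ℕ => q.2 < q.1 ∧ u' - u + m * ((q.2 : ℤ) - q.1) + m * P ∈ F)).card

theorem wrap_sum (S S' : Finset ℤ) (F : Set ℤ) (P L m : ℕ)
    (hS : S ⊆ Ico 0 (L : ℤ)) (hS' : S' ⊆ Ico 0 (L : ℤ)) (hF : ∀ y ∈ S, ∀ y' ∈ S', y' - y ∉ F) :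
    ∑ u ∈ Ico 0 (L : ℤ), ∑ u' ∈ Ico 0 (L : ℤ), (wrap S S' F P m u u' : ℝ) ≤
      (P : ℝ) ^ 2 * ∑ n ∈ Ico (-(L : ℤ)) L,
        |(cor S S' (n + m * P) : ℝ) - (cor S S' n : ℝ)| := by
  classical
  set N : Finset (ℤ × ℤ) := (S ×ˢ S').filter (fun y : ℤ × ℤ => y.2 - y.1 + m * P ∈ F) with hN
  -- step 1
  have hw : ∀ u u' : ℤ, (wrap S S' F P m u u' : ℝ) ≤ ∑ q ∈ range P ×ˢ range P,
      (if (u + m * (q.1 : ℤ), u' + m * (q.2 : ℤ)) ∈ N then (1 : ℝ) else 0) := by
    intro u u'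
    rw [← sum_filter, sum_const, nsmul_eq_mul, mul_one]
    have : wrap S S' F P m u u' ≤ ((range P ×ˢ range P).filter
        (fun q : ℕ × ℕ => (u + m * (q.1 : ℤ), u' + m * (q.2 : ℤ)) ∈ N)).card := by
      rw [wrap]
      apply card_le_card
      intro q hq
      rw [mem_filter, mem_product, fib, fib, mem_filter, mem_filter] at hq
      obtain ⟨⟨⟨h1, h2⟩, h3, h4⟩, h5, h6⟩ := hq
      rw [mem_filter, mem_product]
      refine ⟨⟨h1, h3⟩, ?_⟩
      rw [hN, mem_filter, mem_product]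
      refine ⟨⟨h2, h4⟩, ?_⟩
      have : u' + (m : ℤ) * (q.2 : ℤ) - (u + m * (q.1 : ℤ)) + m * P =
          u' - u + m * ((q.2 : ℤ) - q.1) + m * P := by ring
      show u' + (m : ℤ) * (q.2 : ℤ) - (u + m * (q.1 : ℤ)) + m * P ∈ F
      rw [this]
      exact h6
    exact_mod_cast this
  -- step 2
  have h2 : ∀ q ∈ range P ×ˢ range P, ∑ u ∈ Ico 0 (L : ℤ), ∑ u' ∈ Ico 0 (L : ℤ),
      (if (u + m * (q.1 : ℤ), u' + m * (q.2 : ℤ)) ∈ N then (1 : ℝ) else 0) ≤ (N.card : ℝ) := by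
    intro q _
    rw [← sum_product' (f := fun u u' : ℤ =>
      (if (u + m * (q.1 : ℤ), u' + m * (q.2 : ℤ)) ∈ N then (1 : ℝ) else 0)),
      ← sum_filter, sum_const, nsmul_eq_mul, mul_one]
    have : ((Ico 0 (L : ℤ) ×ˢ Ico 0 (L : ℤ)).filter
        (fun p : ℤ × ℤ => (p.1 + m * (q.1 : ℤ), p.2 + m * (q.2 : ℤ)) ∈ N)).card ≤ N.card := by
      apply card_le_card_of_injOn (fun p : ℤ × ℤ => (p.1 + m * (q.1 : ℤ), p.2 + m * (q.2 : ℤ)))
      · intro p hp
        rw [mem_coe, mem_filter] at hp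
        exact hp.2
      · intro a _ b _ hab
        simp only [Prod.mk.injEq, add_left_inj] at hab
        exact Prod.ext hab.1 hab.2
    exact_mod_cast this
  have h3 : ∑ u ∈ Ico 0 (L : ℤ), ∑ u' ∈ Ico 0 (L : ℤ), (wrap S S' F P m u u' : ℝ) ≤
      (P : ℝ) ^ 2 * (N.card : ℝ) := by
    calc ∑ u ∈ Ico 0 (L : ℤ), ∑ u' ∈ Ico 0 (L : ℤ), (wrap S S' F P m u u' : ℝ)
        ≤ ∑ u ∈ Ico 0 (L : ℤ), ∑ u' ∈ Ico 0 (L : ℤ), ∑ q ∈ range P ×ˢ range P,
          (if (u + m * (q.1 : ℤ), u' + m * (q.2 : ℤ)) ∈ N then (1 : ℝ) else 0) :=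
          sum_le_sum fun u _ => sum_le_sum fun u' _ => hw u u'
      _ = ∑ q ∈ range P ×ˢ range P, ∑ u ∈ Ico 0 (L : ℤ), ∑ u' ∈ Ico 0 (L : ℤ),
          (if (u + m * (q.1 : ℤ), u' + m * (q.2 : ℤ)) ∈ N then (1 : ℝ) else 0) := by
          rw [sum_comm]
          rw [sum_congr rfl (fun u' _ => sum_comm)]
          rw [sum_comm]
          refine sum_congr rfl fun q _ => ?_
          exact sum_comm
      _ ≤ ∑ q ∈ range P ×ˢ range P, (N.card : ℝ) := sum_le_sum h2
      _ = (P : ℝ) ^ 2 * (N.card : ℝ) := by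
          rw [sum_const, card_product, card_range, nsmul_eq_mul]
          push_cast
          ring
  refine h3.trans (mul_le_mul_of_nonneg_left ?_ (by positivity))
  -- step 3
  have hmap : ∀ y ∈ N, (fun y : ℤ × ℤ => y.2 - y.1) y ∈ Ico (-(L : ℤ)) L := by
    intro y hy
    rw [hN, mem_filter, mem_product] at hy
    have ha := hS hy.1.1
    have hb := hS' hy.1.2
    rw [mem_Ico] at ha hb ⊢
    constructor
    · show -(L : ℤ) ≤ y.2 - y.1
      linarith [ha.2, hb.1]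
    · show y.2 - y.1 < (L : ℤ)
      linarith [ha.1, hb.2]
  rw [card_eq_sum_card_fiberwise hmap]
  push_cast
  refine sum_le_sum fun n _ => ?_
  by_cases hn : n + m * P ∈ F
  · have hz : cor S S' (n + m * P) = 0 := by
      rw [cor, card_eq_zero, filter_eq_empty_iff]
      intro y hy hy'
      have := hF y hy _ hy'
      apply this
      have e : y + (n + m * P) - y = n + (m : ℤ) * P := by ring
      rw [e]
      exact hn
    rw [hz]
    have hle : (N.filter (fun y : ℤ × ℤ => y.2 - y.1 = n)).card ≤ cor S S' n := by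
      rw [cor]
      apply card_le_card_of_injOn (fun y : ℤ × ℤ => y.1)
      · intro y hy
        rw [mem_coe, mem_filter, hN, mem_filter, mem_product] at hy
        obtain ⟨⟨⟨h1, h2⟩, h4⟩, h5⟩ := hy
        rw [mem_coe, mem_filter]
        refine ⟨h1, ?_⟩
        have : y.1 + n = y.2 := by linarith
        show y.1 + n ∈ S'
        rw [this]
        exact h2
      · intro a ha b hb hab
        rw [mem_coe, mem_filter] at ha hb
        have hab' : a.1 = b.1 := hab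
        refine Prod.ext hab' ?_
        have h1 := ha.2
        have h2 := hb.2
        linarith
    have hle' : ((N.filter (fun y : ℤ × ℤ => y.2 - y.1 = n)).card : ℝ) ≤ cor S S' n := by
      exact_mod_cast hle
    push_cast
    rw [zero_sub, abs_neg, abs_of_nonneg (Nat.cast_nonneg _)]
    exact hle'
  · have he : N.filter (fun y : ℤ × ℤ => y.2 - y.1 = n) = ∅ := by
      rw [filter_eq_empty_iff]
      intro y hy hy'
      rw [hN, mem_filter] at hy
      apply hn
      have h1 := hy.2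
      rw [hy'] at h1
      exact h1
    rw [he, card_empty]
    push_cast
    exact abs_nonneg _

end Pool.Agent.H11.HM
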