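import Pool.Agent.H11.HM.Df
import Pool.Agent.H21.LA.La
import Pool.Agent.H21.CP.Med

/-!
[H11 HM NCC]  Prime pairs of one colour: `NC (13/(50 r))`.
-/

namespace Pool.Agent.H11.HM

open Finset

/-- infinitely many pairs of primes of the same colour with difference `h` -/
def SamePair {r : ℕ} (c : ℕ → Fin r) (h : ℕ) : Prop :=
  {N : ℕ | N.Prime ∧ (N + h).Prime ∧ c N = c (N + h)}.Infinite

private theorem same_of_shat {r : ℕ} (c : ℕ → Fin r) (i : Fin r) (H : Finset ℕ) (ε : ℝ)
    (hε : ε < 1) (x y : ℕ) (hxy : x < y)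
    (h : Pool.Agent.H21.LA.Shat2 Pool.Agent.H21.CP.Q2 c i H 0 ε {x, y}) :
    SamePair c (y - x) := by
  classical
  unfold Pool.Agent.H21.LA.Shat2 at h
  rw [Nat.choose_zero_right] at h
  have h1 : (0 : ℝ) < (((powersetCard 0 H).filter
      (fun B' => Pool.Agent.H21.LA.Real2 Pool.Agent.H21.CP.Q2 c i {x, y} B')).card : ℝ) := by
    refine lt_of_lt_of_le ?_ (h.trans (le_of_eq ?_))
    · push_cast; linarith
    · congr 2
  have h2 : 0 < ((powersetCard 0 H).filter
      (fun B' => Pool.Agent.H21.LA.Real2 Pool.Agent.H21.CP.Q2 c i {x, y} B')).card := by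
    exact_mod_cast h1
  obtain ⟨B', hB'⟩ := card_pos.1 h2
  have h3 := (mem_filter.1 hB').2
  have h4 := h3 {x, y} Subset.rfl
  have h5 := h4.image (f := fun N => N + x) (fun a _ b _ hab => Nat.add_right_cancel hab)
  refine h5.mono ?_
  rintro _ ⟨N, ⟨hN, _⟩, rfl⟩
  have hx := (hN x (by simp)).2 (by simp)
  have hy := (hN y (by simp)).2 (by simp)
  have e1 : N + x + (y - x) = N + y := by omega
  refine ⟨hx.1, ?_, ?_⟩
  · show (N + x + (y - x)).Prime
    rw [e1]; exact hy.1
  · show c (N + x) = c (N + x + (y - x))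
    rw [e1, hx.2, hy.2]

open Classical in
theorem nc_same (r : ℕ) (c : ℕ → Fin r) : NC (13 / (50 * (r : ℝ))) (SamePair c) := by
  rcases Nat.eq_zero_or_pos r with hr | hr
  · subst hr
    exact (c 0).elim0
  have hr0 : (0 : ℝ) < r := by exact_mod_cast hr
  intro ε hε
  obtain ⟨e, he⟩ : ∃ e : ℝ, e = min (min ε (1 / 2)) ((13 / 50) / (2 * (r : ℝ))) := ⟨_, rfl⟩
  have he0 : 0 < e := by rw [he]; exact lt_min (lt_min hε (by norm_num)) (by positivity)
  have heε : e ≤ ε := by rw [he]; exact (min_le_left _ _).trans (min_le_left _ _)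
  have he1 : e < 1 := by
    have : e ≤ 1 / 2 := by rw [he]; exact (min_le_left _ _).trans (min_le_right _ _)
    linarith
  have her : e ≤ (13 / 50) / (2 * (r : ℝ)) := by rw [he]; exact min_le_right _ _
  have hκr : (13 / 50 : ℝ) / r = 13 / (50 * (r : ℝ)) := by rw [div_div]
  obtain ⟨K, hK⟩ := Pool.Agent.H21.LA.la_clique (13 / 50) (by norm_num) (by norm_num)
    Pool.Agent.H21.CP.Q2 Pool.Agent.H21.CP.Q2_prime Pool.Agent.H21.CP.med r 2 0 hr le_rfl e he0 her
  refine ⟨K, fun H hH hcard => ?_⟩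
  obtain ⟨i, S, hS, hS1, hS2⟩ := hK H hH hcard c
  rw [hκr] at hS1
  refine ⟨S, hS, le_trans ?_ hS1, ?_⟩
  · exact mul_le_mul_of_nonneg_right (by linarith) (Nat.cast_nonneg _)
  -- the number of the pairs which are not shattered
  have h1 : (((powersetCard 2 S).filter
      (fun B => ¬ Pool.Agent.H21.LA.Shat2 Pool.Agent.H21.CP.Q2 c i H 0 e B)).card : ℝ) ≤
      e * (S.card.choose 2 : ℝ) := by
    have h2 := card_filter_add_card_filter_not (s := powersetCard 2 S)
      (fun B => Pool.Agent.H21.LA.Shat2 Pool.Agent.H21.CP.Q2 c i H 0 e B)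
    rw [card_powersetCard] at h2
    have h3 : (((powersetCard 2 S).filter
        (fun B => Pool.Agent.H21.LA.Shat2 Pool.Agent.H21.CP.Q2 c i H 0 e B)).card : ℝ) +
        (((powersetCard 2 S).filter
        (fun B => ¬ Pool.Agent.H21.LA.Shat2 Pool.Agent.H21.CP.Q2 c i H 0 e B)).card : ℝ) =
        (S.card.choose 2 : ℝ) := by exact_mod_cast h2
    linarith
  have h4 : ((S ×ˢ S).filter (fun p => p.1 < p.2 ∧ ¬ SamePair c (p.2 - p.1))).card ≤
      ((powersetCard 2 S).filter
        (fun B => ¬ Pool.Agent.H21.LA.Shat2 Pool.Agent.H21.CP.Q2 c i H 0 e B)).card := by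
    apply card_le_card_of_injOn (fun p : ℕ × ℕ => ({p.1, p.2} : Finset ℕ))
    · intro p hp
      have hp1 := (@mem_filter _ _ (_) _ _).1 (mem_coe.1 hp)
      rw [mem_product] at hp1
      obtain ⟨⟨hp1, hp2⟩, hp3, hp4⟩ := hp1
      apply mem_coe.2
      refine (@mem_filter _ _ (_) _ _).2 ⟨?_, ?_⟩
      · rw [mem_powersetCard]
        refine ⟨?_, card_pair hp3.ne⟩
        intro z hz
        simp only [mem_insert, mem_singleton] at hz
        rcases hz with rfl | rfl
        · exact hp1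
        · exact hp2
      · intro hB
        exact hp4 (same_of_shat c i H e he1 p.1 p.2 hp3 hB)
    · intro p hp p' hp' h
      have hp1 := ((@mem_filter _ _ (_) _ _).1 (mem_coe.1 hp)).2.1
      have hp1' := ((@mem_filter _ _ (_) _ _).1 (mem_coe.1 hp')).2.1
      simp only at h
      have e1 : p.1 ∈ ({p'.1, p'.2} : Finset ℕ) := by
        rw [← h]; simp
      have e2 : p.2 ∈ ({p'.1, p'.2} : Finset ℕ) := by
        rw [← h]; simp
      have e3 : p'.1 ∈ ({p.1, p.2} : Finset ℕ) := by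
        rw [h]; simp
      simp only [mem_insert, mem_singleton] at e1 e2 e3
      apply Prod.ext <;> omega
  have h5 : (S.card.choose 2 : ℝ) ≤ (H.card : ℝ) ^ 2 := by
    have h6 : S.card.choose 2 ≤ H.card ^ 2 := by
      refine (Nat.choose_le_pow _ _).trans ?_
      exact Nat.pow_le_pow_left (card_le_card hS) 2
    exact_mod_cast h6
  calc (((S ×ˢ S).filter (fun p => p.1 < p.2 ∧ ¬ SamePair c (p.2 - p.1))).card : ℝ)
      ≤ (((powersetCard 2 S).filter
        (fun B => ¬ Pool.Agent.H21.LA.Shat2 Pool.Agent.H21.CP.Q2 c i H 0 e B)).card : ℝ) := by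
        exact_mod_cast h4
    _ ≤ e * (S.card.choose 2 : ℝ) := h1
    _ ≤ ε * (H.card : ℝ) ^ 2 := mul_le_mul heε h5 (Nat.cast_nonneg _) hε.le

end Pool.Agent.H11.HM
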