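import Pool.Agent.H11.HM.Rh

/-!
[H11 HM ORT]  Energy increment: orthogonality and the pigeonhole principle.

* `rho_orth`: `t ∣ t'`, `t' ∣ l'`, `l' ∣ l`; then the classes for `(t', l')` refine the classes for `(t, l)`.  On a union `W` of blocks of length
  `l`: `∑ rho' rho = ∑ ind rho = ∑ rho rho` (`rho_sum` twice: `rho = rho R t l` is constant on the classes of `(t', l')` and on those
  of `(t, l)`; `W = Ico (l a) (l b)` is also of the form `Ico (l' a') (l' b')`), so `∑ (rho' - rho)^2 = ∑ rho'^2 - ∑ rho^2`.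
* `rho_pigeon`: the sum over `j < J` telescopes to `∑ rho_J^2 - ∑ rho_0^2 ≤ |W|` (`rho ≤ 1`), so some `j < J` has at most `|W|/J`; then
  Cauchy-Schwarz: `∑_W |rho_{j+1} - rho_j| ≤ √(|W| · |W|/J)`.
-/

namespace Pool.Agent.H11.HM

open Finset

theorem rho_orth (R : Set ℤ) (t l t' l' : ℕ) (h1 : t ∣ t') (h2 : t' ∣ l') (h3 : l' ∣ l) (hl : 1 ≤ l)
    (a b : ℤ) :
    ∑ z ∈ Ico ((l : ℤ) * a) (l * b), (rho R t' l' z - rho R t l z) ^ 2 =
      ∑ z ∈ Ico ((l : ℤ) * a) (l * b), (rho R t' l' z) ^ 2 -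
        ∑ z ∈ Ico ((l : ℤ) * a) (l * b), (rho R t l z) ^ 2 := by
  have hl' : 1 ≤ l' := Nat.pos_of_dvd_of_pos h3 hl
  have e1 := rho_sum R t l (h1.trans (h2.trans h3)) hl a b (fun z => rho R t l z)
    fun z z' hz hz' => rho_congr R t l hz hz'
  obtain ⟨m, hm⟩ := h3
  have hwin : Ico ((l : ℤ) * a) (l * b) = Ico ((l' : ℤ) * (m * a)) (l' * (m * b)) := by
    have : (l : ℤ) = l' * m := by rw [hm]; push_cast; ring
    rw [this, mul_assoc, mul_assoc]
  have e2 := rho_sum R t' l' h2 hl' (m * a) (m * b) (fun z => rho R t l z) (by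
    intro z z' hz hz'
    refine rho_congr R t l ?_ (hz'.of_dvd (by exact_mod_cast h1))
    have : (l : ℤ) = l' * m := by rw [hm]; push_cast; ring
    rw [this, ← Int.ediv_ediv_of_nonneg (by positivity), ← Int.ediv_ediv_of_nonneg (by positivity),
      hz])
  rw [← hwin] at e2
  have e3 : ∑ z ∈ Ico ((l : ℤ) * a) (l * b), (rho R t' l' z - rho R t l z) ^ 2 =
      ∑ z ∈ Ico ((l : ℤ) * a) (l * b), (rho R t' l' z) ^ 2 -
        2 * ∑ z ∈ Ico ((l : ℤ) * a) (l * b), rho R t' l' z * rho R t l z +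
        ∑ z ∈ Ico ((l : ℤ) * a) (l * b), rho R t l z * rho R t l z := by
    rw [mul_sum, ← sum_sub_distrib, ← sum_add_distrib]
    refine sum_congr rfl fun z _ => ?_
    ring
  have e4 : ∑ z ∈ Ico ((l : ℤ) * a) (l * b), (rho R t l z) ^ 2 =
      ∑ z ∈ Ico ((l : ℤ) * a) (l * b), rho R t l z * rho R t l z :=
    sum_congr rfl fun z _ => by ring
  rw [e3, e4, e2, e1]
  ring

/-- `t j = N^j`; the window consists of blocks of length `l 0` -/
theorem rho_pigeon (R : Set ℤ) (N J : ℕ) (hJ : 1 ≤ J) (l : ℕ → ℕ) (hl0 : 1 ≤ l 0)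
    (hN : N ^ J ∣ l J) (hl : ∀ j, j < J → l (j + 1) ∣ l j) (a b : ℤ) (hab : a ≤ b) :
    ∃ j, j < J ∧ ∑ z ∈ Ico ((l 0 : ℤ) * a) (l 0 * b),
      |rho R (N ^ (j + 1)) (l (j + 1)) z - rho R (N ^ j) (l j) z| ≤
        (l 0 : ℝ) * (b - a) / Real.sqrt J := by
  have hdiv : ∀ i k, i + k ≤ J → l (i + k) ∣ l i := by
    intro i k
    induction k with
    | zero => intro _; exact dvd_rfl
    | succ k ih =>
      intro hik
      have h1 := hl (i + k) (by omega)
      exact (by simpa [add_assoc] using h1 : l (i + (k + 1)) ∣ l (i + k)).trans (ih (by omega))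
  have hd0 : ∀ j, j ≤ J → l j ∣ l 0 := by
    intro j hj
    have := hdiv 0 j (by omega)
    rwa [zero_add] at this
  have hdJ : ∀ j, j ≤ J → l J ∣ l j := by
    intro j hj
    have := hdiv j (J - j) (by omega)
    rwa [Nat.add_sub_cancel' hj] at this
  have hpos : ∀ j, j ≤ J → 1 ≤ l j := fun j hj => Nat.pos_of_dvd_of_pos (hd0 j hj) hl0
  set W := Ico ((l 0 : ℤ) * a) (l 0 * b) with hW
  set D : ℕ → ℝ := fun j => ∑ z ∈ W,
    (rho R (N ^ (j + 1)) (l (j + 1)) z - rho R (N ^ j) (l j) z) ^ 2 with hD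
  set E : ℕ → ℝ := fun j => ∑ z ∈ W, (rho R (N ^ j) (l j) z) ^ 2 with hE
  have hDE : ∀ j ∈ range J, D j = E (j + 1) - E j := by
    intro j hj
    have hj' : j < J := mem_range.1 hj
    obtain ⟨m, hm⟩ := hd0 j hj'.le
    have hwin : W = Ico ((l j : ℤ) * (m * a)) (l j * (m * b)) := by
      have : (l 0 : ℤ) = l j * m := by rw [hm]; push_cast; ring
      rw [hW, this, mul_assoc, mul_assoc]
    have h1 := rho_orth R (N ^ j) (l j) (N ^ (j + 1)) (l (j + 1)) (pow_dvd_pow N (by omega))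
      ((pow_dvd_pow N (by omega)).trans (hN.trans (hdJ (j + 1) (by omega)))) (hl j hj')
      (hpos j hj'.le) (m * a) (m * b)
    simp only [hD, hE]
    rw [hwin]
    exact h1
  have hcard : (W.card : ℝ) = (l 0 : ℝ) * (b - a) := by
    rw [hW, Int.card_Ico]
    have h1 : (0 : ℤ) ≤ l 0 * b - l 0 * a := by
      have : (l 0 : ℤ) * a ≤ l 0 * b := mul_le_mul_of_nonneg_left hab (by positivity)
      linarith
    have h2 : (((l 0 * b - l 0 * a : ℤ).toNat : ℤ) : ℝ) = ((l 0 * b - l 0 * a : ℤ) : ℝ) := by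
      rw [Int.toNat_of_nonneg h1]
    rw [Int.cast_natCast] at h2
    rw [h2]
    push_cast
    ring
  have hEJ : E J ≤ W.card := by
    rw [card_eq_sum_ones, Nat.cast_sum]
    refine sum_le_sum fun z _ => ?_
    have h1 := rho_le_one R (N ^ J) (l J) hN (hpos J le_rfl) z
    have h2 := rho_nonneg R (N ^ J) (l J) z
    rw [Nat.cast_one]
    nlinarith
  have hE0 : 0 ≤ E 0 := sum_nonneg fun z _ => sq_nonneg _
  have hsum : ∑ j ∈ range J, D j ≤ ∑ _j ∈ range J, (W.card : ℝ) / J := by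
    rw [sum_congr rfl hDE, sum_range_sub, sum_const, card_range, nsmul_eq_mul]
    have hJ0 : (J : ℝ) ≠ 0 := by positivity
    rw [mul_div_cancel₀ _ hJ0]
    linarith
  obtain ⟨j, hj, hjD⟩ := exists_le_of_sum_le (nonempty_range_iff.2 (by omega)) hsum
  refine ⟨j, mem_range.1 hj, ?_⟩
  have hJpos : (0 : ℝ) < J := by positivity
  set A := ∑ z ∈ W, |rho R (N ^ (j + 1)) (l (j + 1)) z - rho R (N ^ j) (l j) z| with hA
  have hA0 : 0 ≤ A := sum_nonneg fun z _ => abs_nonneg _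
  have hcs : A ^ 2 ≤ W.card * D j := by
    have h1 := sq_sum_le_card_mul_sum_sq (s := W)
      (f := fun z => |rho R (N ^ (j + 1)) (l (j + 1)) z - rho R (N ^ j) (l j) z|)
    simp only [sq_abs] at h1
    exact h1
  have h5 : A ^ 2 ≤ (W.card / Real.sqrt J) ^ 2 := by
    rw [div_pow, Real.sq_sqrt hJpos.le]
    calc A ^ 2 ≤ W.card * D j := hcs
      _ ≤ W.card * ((W.card : ℝ) / J) := mul_le_mul_of_nonneg_left hjD (by positivity)
      _ = (W.card : ℝ) ^ 2 / J := by ring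
  have h6 := abs_le_of_sq_le_sq h5 (by positivity)
  rw [← hcard]
  exact le_of_abs_le h6

end Pool.Agent.H11.HM
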