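import Pool.Agent.H11.HM.FinD
import Pool.Agent.H11.HM.Ncc

/-!
MP_8923e7_nt, project HM.  More than half of the multiples of `q` are differences of infinitely many pairs of
primes, in every long interval.
-/

namespace Pool.Agent.H11.HM

open Finset

open Classical in
/-- `r` colours: a proportion `13/(25 r)` of the multiples of `q` -/
theorem same_multiples (r : ℕ) (c : ℕ → Fin r) (ε : ℝ) (hε : 0 < ε) :
    ∃ q : ℕ, 0 < q ∧ ∀ Q : ℕ, 0 < Q → q ∣ Q → ∃ X0 : ℕ, ∀ X : ℕ, X0 ≤ X → ∀ M : ℕ,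
      (13 / (25 * (r : ℝ)) - ε) * X ≤
        (((Ioc M (M + X)).filter (fun n => SamePair c (Q * n))).card : ℝ) := by
  rcases Nat.eq_zero_or_pos r with hr | hr
  · subst hr
    exact (c 0).elim0
  have hr1 : (1 : ℝ) ≤ r := by exact_mod_cast hr
  have h1 : 13 / (50 * (r : ℝ)) ≤ 1 / 2 := by
    rw [div_le_div_iff₀ (by positivity) (by norm_num)]
    linarith
  obtain ⟨q, hq, h⟩ := half_multiples (13 / (50 * (r : ℝ))) h1 (SamePair c) (nc_same r c) ε hε
  refine ⟨q, hq, fun Q hQ hqQ => ?_⟩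
  obtain ⟨X0, hX⟩ := h Q hQ hqQ
  refine ⟨X0, fun X hX0 M => ?_⟩
  have h2 := hX X hX0 M
  have h3 : 2 * (13 / (50 * (r : ℝ))) = 13 / (25 * (r : ℝ)) := by
    field_simp
    norm_num
  rw [h3] at h2
  exact h2

/-- infinitely many pairs of primes with difference `h` -/
def Kron (h : ℕ) : Prop := {N : ℕ | N.Prime ∧ (N + h).Prime}.Infinite

open Classical in
theorem kron_multiples (ε : ℝ) (hε : 0 < ε) :
    ∃ q : ℕ, 0 < q ∧ ∀ Q : ℕ, 0 < Q → q ∣ Q → ∃ X0 : ℕ, ∀ X : ℕ, X0 ≤ X → ∀ M : ℕ,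
      (13 / 25 - ε) * X ≤ (((Ioc M (M + X)).filter (fun n => Kron (Q * n))).card : ℝ) ∧
      (∀ x : ℕ, (1 / 25 - 2 * ε) * X ≤
        (((Ioc M (M + X)).filter (fun n => Kron (Q * n) ∧ Kron (Q * (n + x)))).card : ℝ)) ∧
      (∀ x : ℕ, M + X < x → (1 / 25 - 2 * ε) * X ≤
        (((Ioc M (M + X)).filter (fun n => Kron (Q * n) ∧ Kron (Q * (x - n)))).card : ℝ)) := by
  obtain ⟨q, hq, h⟩ := same_multiples 1 (fun _ => 0) ε hε
  refine ⟨q, hq, fun Q hQ hqQ => ?_⟩
  obtain ⟨X0, hX⟩ := h Q hQ hqQ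
  refine ⟨X0, fun X hX0 => ?_⟩
  have key : ∀ M : ℕ, (13 / 25 - ε) * X ≤
      (((Ioc M (M + X)).filter (fun n => Kron (Q * n))).card : ℝ) := by
    intro M
    have h1 := hX X hX0 M
    have h2 : (13 / (25 * ((1 : ℕ) : ℝ)) - ε) = 13 / 25 - ε := by norm_num
    rw [h2] at h1
    refine h1.trans (Nat.cast_le.2 (card_le_card ?_))
    intro n hn
    rw [mem_filter] at hn ⊢
    refine ⟨hn.1, ?_⟩
    have h3 := hn.2
    unfold SamePair at h3
    exact h3.mono (fun N hN => ⟨hN.1, hN.2.1⟩)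
  -- two large subsets of an interval
  have two : ∀ (M : ℕ) (p p' : ℕ → Prop),
      (13 / 25 - ε) * X ≤ (((Ioc M (M + X)).filter p).card : ℝ) →
      (13 / 25 - ε) * X ≤ (((Ioc M (M + X)).filter p').card : ℝ) →
      (1 / 25 - 2 * ε) * X ≤ (((Ioc M (M + X)).filter (fun n => p n ∧ p' n)).card : ℝ) := by
    intro M p p' h1 h2
    have h3 := card_union_add_card_inter ((Ioc M (M + X)).filter p) ((Ioc M (M + X)).filter p')
    have h4 : (((Ioc M (M + X)).filter p) ∪ ((Ioc M (M + X)).filter p')).card ≤ X := by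
      refine (card_le_card (union_subset (filter_subset _ _) (filter_subset _ _))).trans ?_
      rw [Nat.card_Ioc]
      omega
    have h5 : ((Ioc M (M + X)).filter p) ∩ ((Ioc M (M + X)).filter p') =
        (Ioc M (M + X)).filter (fun n => p n ∧ p' n) := by
      ext n
      simp only [mem_inter, mem_filter]
      tauto
    rw [h5] at h3
    have h6 : (((((Ioc M (M + X)).filter p) ∪ ((Ioc M (M + X)).filter p')).card : ℕ) : ℝ) +
        (((Ioc M (M + X)).filter (fun n => p n ∧ p' n)).card : ℝ) =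
        (((Ioc M (M + X)).filter p).card : ℝ) + (((Ioc M (M + X)).filter p').card : ℝ) := by
      exact_mod_cast h3
    have h7 : (((((Ioc M (M + X)).filter p) ∪ ((Ioc M (M + X)).filter p')).card : ℕ) : ℝ) ≤ X := by
      exact_mod_cast h4
    linarith
  intro M
  refine ⟨key M, fun x => ?_, fun x hx => ?_⟩
  · apply two M _ _ (key M)
    refine (key (M + x)).trans (le_of_eq ?_)
    congr 1
    symm
    apply card_bij (fun n _ => n + x)
    · intro n hn
      rw [mem_filter, mem_Ioc] at hn ⊢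
      exact ⟨by omega, hn.2⟩
    · intro a _ b _ hab
      omega
    · intro n hn
      rw [mem_filter, mem_Ioc] at hn
      refine ⟨n - x, ?_, by omega⟩
      rw [mem_filter, mem_Ioc]
      have : n - x + x = n := by omega
      rw [this]
      exact ⟨by omega, hn.2⟩
  · apply two M _ _ (key M)
    refine (key (x - (M + X) - 1)).trans (le_of_eq ?_)
    congr 1
    symm
    apply card_bij (fun n _ => x - n)
    · intro n hn
      rw [mem_filter, mem_Ioc] at hn ⊢
      exact ⟨by omega, hn.2⟩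
    · intro a ha b hb hab
      rw [mem_filter, mem_Ioc] at ha hb
      omega
    · intro n hn
      rw [mem_filter, mem_Ioc] at hn
      refine ⟨x - n, ?_, by omega⟩
      rw [mem_filter, mem_Ioc]
      have : x - (x - n) = n := by omega
      rw [this]
      exact ⟨by omega, hn.2⟩

end Pool.Agent.H11.HM
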