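import Pool.Agent.H11.HM.Res
import Pool.Agent.H11.HM.DiD

/-!
MP_8923e7_nt, project HM.  The dichotomy for the differences of infinitely many pairs of primes: almost all
multiples of some `q`, or 52 per cent of all even numbers.
-/

namespace Pool.Agent.H11.HM

open Finset

open Classical in
theorem kron_dichotomy :
    (∃ q : ℕ, 0 < q ∧ ∀ ε : ℝ, 0 < ε → ∃ X0 : ℕ, ∀ X : ℕ, X0 ≤ X → ∀ M : ℕ,
      (1 - ε) * X ≤ (((Ioc M (M + X)).filter (fun n => Kron (q * n))).card : ℝ)) ∨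
    ∀ Q b : ℕ, 0 < Q → ∀ ε : ℝ, 0 < ε → ∃ X0 : ℕ, ∀ X : ℕ, X0 ≤ X → ∀ M : ℕ,
      (13 / 25 - ε) * X ≤
        (((Ioc M (M + X)).filter (fun n => Kron (2 * (Q * n + b)))).card : ℝ) := by
  have hmono : ∀ (M X : ℕ) (f : ℕ → ℕ),
      (((Ioc M (M + X)).filter (fun n => SamePair (fun _ : ℕ => (0 : Fin 1)) (f n))).card : ℝ) ≤
      (((Ioc M (M + X)).filter (fun n => Kron (f n))).card : ℝ) := by
    intro M X f
    apply Nat.cast_le.2
    apply card_le_card
    intro n hn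
    rw [mem_filter] at hn ⊢
    refine ⟨hn.1, ?_⟩
    have h3 := hn.2
    unfold SamePair at h3
    exact h3.mono (fun N hN => ⟨hN.1, hN.2.1⟩)
  have hnc : NC (13 / 50) (SamePair (fun _ : ℕ => (0 : Fin 1))) := by
    have h1 := nc_same 1 (fun _ => 0)
    have h2 : (13 / (50 * ((1 : ℕ) : ℝ))) = 13 / 50 := by norm_num
    rw [h2] at h1
    exact h1
  rcases dichotomy (13 / 50) (by norm_num) (by norm_num) _ hnc with h | h
  · left
    obtain ⟨q, hq, h⟩ := h
    refine ⟨q, hq, fun ε hε => ?_⟩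
    obtain ⟨X0, hX⟩ := h ε hε
    exact ⟨X0, fun X hX0 M => (hX X hX0 M).trans (hmono M X (fun n => q * n))⟩
  · right
    intro Q b hQ ε hε
    obtain ⟨X0, hX⟩ := h Q b hQ ε hε
    refine ⟨X0, fun X hX0 M => ?_⟩
    have h1 := (hX X hX0 M).trans (hmono M X (fun n => 2 * (Q * n + b)))
    have h2 : 2 * (13 / 50 : ℝ) = 13 / 25 := by norm_num
    rw [h2] at h1
    exact h1

end Pool.Agent.H11.HM
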