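import Pool.Agent.H11.HM.Df

/-!
[H11 HM RH]  Elementary properties of `ind`, `rho`.

Two integers `z, z'` are in the same class for `(t, l)` if `z / l = z' / l` and `z ≡ z' [ZMOD t]`; if `t ∣ l` every class has `l/t`
elements, and `rho R t l` is the average of `ind R` over the class.  So it is constant on the classes, lies in `[0,1]`, and
`∑ rho g = ∑ ind g` over every union of classes if `g` is constant on the classes.

* `blk_sum`: `∑_{i < t} rho R t l (z+i) = t · rho R 1 l z` if `z, …, z+t-1` are in one block: the classes of `z+i`, `i < t`, partition the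
  block (every residue modulo `t` occurs exactly once), so `∑_i ∑_{z' ≡ z+i} ind z' = ∑_{z' ∈ blk} ind z'`, and the factors are
  `t/l` and `t · (1/l)`.
-/

namespace Pool.Agent.H11.HM

open Finset

theorem ind_nonneg (R : Set ℤ) (z : ℤ) : 0 ≤ ind R z := by
  unfold ind; split_ifs <;> norm_num

theorem ind_le_one (R : Set ℤ) (z : ℤ) : ind R z ≤ 1 := by
  unfold ind; split_ifs <;> norm_num

theorem blk_eq {l : ℕ} {z z' : ℤ} (h : z / l = z' / l) : blk l z = blk l z' := by
  unfold blk; rw [h]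

theorem mem_blk {l : ℕ} (hl : 1 ≤ l) {z z' : ℤ} : z' ∈ blk l z ↔ z' / l = z / l := by
  have hl0 : (0 : ℤ) < l := by exact_mod_cast hl
  unfold blk
  rw [mem_Ico]
  constructor
  · rintro ⟨h1, h2⟩
    apply le_antisymm
    · have : z' / l < z / l + 1 := by
        rw [Int.ediv_lt_iff_lt_mul hl0]
        linarith [mul_comm (l : ℤ) (z / l), add_mul (z / (l : ℤ)) 1 (l : ℤ)]
      omega
    · rw [Int.le_ediv_iff_mul_le hl0]
      linarith [mul_comm (l : ℤ) (z / l)]
  · intro h
    rw [← h]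
    constructor
    · have := Int.mul_ediv_self_le (x := z') (k := (l : ℤ)) hl0.ne'
      exact this
    · have := Int.lt_mul_ediv_self_add (x := z') hl0
      exact this

/-- the number of the elements of a class -/
theorem card_class (t l : ℕ) (ht : t ∣ l) (hl : 1 ≤ l) (z : ℤ) :
    (((blk l z).filter (fun z' => z' ≡ z [ZMOD t])).card : ℝ) = (l : ℝ) / t := by
  obtain ⟨m, rfl⟩ := ht
  have ht0 : 0 < t := Nat.pos_of_ne_zero (by rintro rfl; simp at hl)
  have htZ : (0 : ℤ) < t := by exact_mod_cast ht0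
  have htQ : (0 : ℚ) < t := by exact_mod_cast ht0
  have h1 := Int.Ico_filter_modEq_card (((t * m : ℕ) : ℤ) * (z / ((t * m : ℕ) : ℤ)))
    (((t * m : ℕ) : ℤ) * (z / ((t * m : ℕ) : ℤ)) + ((t * m : ℕ) : ℤ)) (r := (t : ℤ)) htZ z
  have h2 : (((((t * m : ℕ) : ℤ) * (z / ((t * m : ℕ) : ℤ)) + ((t * m : ℕ) : ℤ) : ℤ) : ℚ) - (z : ℚ)) / ((t : ℤ) : ℚ)
      = (((((t * m : ℕ) : ℤ) * (z / ((t * m : ℕ) : ℤ)) : ℤ) : ℚ) - (z : ℚ)) / ((t : ℤ) : ℚ) + ((m : ℤ) : ℚ) := by
    push_cast
    field_simp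
    ring
  rw [h2, Int.ceil_add_intCast] at h1
  have h3 : (((blk (t * m) z).filter (fun z' => z' ≡ z [ZMOD t])).card : ℤ) = m := by
    unfold blk
    rw [h1]
    have : (0 : ℤ) ≤ m := by positivity
    rw [add_sub_cancel_left, max_eq_left this]
  have h4 : (((blk (t * m) z).filter (fun z' => z' ≡ z [ZMOD t])).card : ℝ) = m := by
    exact_mod_cast h3
  rw [h4]
  have htR : (t : ℝ) ≠ 0 := by positivity
  push_cast
  field_simp

theorem rho_nonneg (R : Set ℤ) (t l : ℕ) (z : ℤ) : 0 ≤ rho R t l z := by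
  unfold rho
  exact mul_nonneg (by positivity) (sum_nonneg fun _ _ => ind_nonneg R _)

theorem rho_le_one (R : Set ℤ) (t l : ℕ) (ht : t ∣ l) (hl : 1 ≤ l) (z : ℤ) : rho R t l z ≤ 1 := by
  have ht0 : 0 < t := Nat.pos_of_ne_zero (by rintro rfl; simp at ht; omega)
  have htR : (0 : ℝ) < t := by exact_mod_cast ht0
  have hlR : (0 : ℝ) < l := by exact_mod_cast hl
  unfold rho
  have h1 : ∑ z' ∈ (blk l z).filter (fun z' => z' ≡ z [ZMOD t]), ind R z' ≤ (l : ℝ) / t := by
    rw [← card_class t l ht hl z]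
    calc _ ≤ ∑ z' ∈ (blk l z).filter (fun z' => z' ≡ z [ZMOD t]), (1 : ℝ) :=
          sum_le_sum fun _ _ => ind_le_one R _
      _ = _ := by simp
  calc _ ≤ (t : ℝ) / l * ((l : ℝ) / t) := mul_le_mul_of_nonneg_left h1 (by positivity)
    _ = 1 := by field_simp

theorem rho_congr (R : Set ℤ) (t l : ℕ) {z z' : ℤ} (h : z / l = z' / l) (h' : z ≡ z' [ZMOD t]) :
    rho R t l z = rho R t l z' := by
  unfold rho
  rw [blk_eq h]
  congr 1
  apply sum_congr _ (fun _ _ => rfl)
  apply filter_congr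
  intro x _
  exact ⟨fun hx => hx.trans h', fun hx => hx.trans h'.symm⟩

/-- conditional expectation: `a ≤ b`, the interval `Ico (l a) (l b)` is a union of classes -/
theorem rho_sum (R : Set ℤ) (t l : ℕ) (ht : t ∣ l) (hl : 1 ≤ l) (a b : ℤ) (g : ℤ → ℝ)
    (hg : ∀ z z' : ℤ, z / l = z' / l → z ≡ z' [ZMOD t] → g z = g z') :
    ∑ z ∈ Ico ((l : ℤ) * a) (l * b), rho R t l z * g z =
      ∑ z ∈ Ico ((l : ℤ) * a) (l * b), ind R z * g z := by
  have ht0 : 0 < t := Nat.pos_of_ne_zero (by rintro rfl; simp at ht; omega)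
  have htR : (t : ℝ) ≠ 0 := by positivity
  have hlR : (l : ℝ) ≠ 0 := by positivity
  have hl0 : (0 : ℤ) < l := by exact_mod_cast hl
  have hcls : ∀ z ∈ Ico ((l : ℤ) * a) (l * b), (blk l z).filter (fun z' => z' ≡ z [ZMOD t]) =
      (Ico ((l : ℤ) * a) (l * b)).filter (fun z' => z' / l = z / l ∧ z' ≡ z [ZMOD t]) := by
    intro z hz
    rw [mem_Ico] at hz
    have hza : a ≤ z / l := by
      rw [Int.le_ediv_iff_mul_le hl0]; linarith [mul_comm (l : ℤ) a]
    have hzb : z / l < b := by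
      rw [Int.ediv_lt_iff_lt_mul hl0]; linarith [mul_comm (l : ℤ) b]
    ext z'
    rw [mem_filter, mem_filter, mem_blk hl, mem_Ico]
    constructor
    · rintro ⟨h1, h2⟩
      refine ⟨⟨?_, ?_⟩, h1, h2⟩
      · have h3 : a ≤ z' / l := by rw [h1]; exact hza
        rw [Int.le_ediv_iff_mul_le hl0] at h3
        linarith [mul_comm (l : ℤ) a]
      · have h3 : z' / l < b := by rw [h1]; exact hzb
        rw [Int.ediv_lt_iff_lt_mul hl0] at h3
        linarith [mul_comm (l : ℤ) b]
    · rintro ⟨_, h1, h2⟩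
      exact ⟨h1, h2⟩
  have h1 : ∀ z ∈ Ico ((l : ℤ) * a) (l * b), rho R t l z * g z =
      ∑ z' ∈ Ico ((l : ℤ) * a) (l * b), if z' / l = z / l ∧ z' ≡ z [ZMOD t] then
        (t : ℝ) / l * (ind R z' * g z') else 0 := by
    intro z hz
    unfold rho
    rw [hcls z hz, ← sum_filter, mul_sum, sum_mul]
    apply sum_congr rfl
    intro z' hz'
    rw [mem_filter] at hz'
    rw [hg z' z hz'.2.1 hz'.2.2]
    ring
  rw [sum_congr rfl h1, sum_comm]
  apply sum_congr rfl
  intro z' hz'
  have h2 : ∀ z ∈ Ico ((l : ℤ) * a) (l * b), (if z' / l = z / l ∧ z' ≡ z [ZMOD t] then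
        (t : ℝ) / l * (ind R z' * g z') else 0) =
        (if z / l = z' / l ∧ z ≡ z' [ZMOD t] then (t : ℝ) / l * (ind R z' * g z') else 0) := by
    intro z _
    have : (z' / l = z / l ∧ z' ≡ z [ZMOD t]) ↔ (z / l = z' / l ∧ z ≡ z' [ZMOD t]) :=
      ⟨fun h => ⟨h.1.symm, h.2.symm⟩, fun h => ⟨h.1.symm, h.2.symm⟩⟩
    simp only [this]
  rw [sum_congr rfl h2, ← sum_filter, ← hcls z' hz', sum_const, nsmul_eq_mul, card_class t l ht hl]
  field_simp

theorem blk_sum (R : Set ℤ) (t l : ℕ) (ht : t ∣ l) (hl : 1 ≤ l) (z : ℤ)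
    (hz : ∀ i : ℕ, i < t → (z + i) / l = z / l) :
    ∑ i ∈ range t, rho R t l (z + i) = t * rho R 1 l z := by
  have ht0 : 0 < t := Nat.pos_of_ne_zero (by rintro rfl; simp at ht; omega)
  have htZ : (0 : ℤ) < t := by exact_mod_cast ht0
  have h1 : ∀ i ∈ range t, rho R t l (z + i) =
      ∑ z' ∈ blk l z, if z' ≡ z + i [ZMOD t] then (t : ℝ) / l * ind R z' else 0 := by
    intro i hi
    unfold rho
    rw [blk_eq (hz i (mem_range.1 hi)), mul_sum, sum_filter]
  rw [sum_congr rfl h1, sum_comm]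
  have h2 : ∀ z' ∈ blk l z, (∑ i ∈ range t, if z' ≡ z + i [ZMOD t] then (t : ℝ) / l * ind R z' else 0)
      = (t : ℝ) / l * ind R z' := by
    intro z' _
    have h3 : (range t).filter (fun i : ℕ => z' ≡ z + i [ZMOD t]) = {((z' - z) % t).toNat} := by
      ext i
      rw [mem_filter, mem_range, mem_singleton]
      have h4 : 0 ≤ (z' - z) % t := Int.emod_nonneg _ htZ.ne'
      have h5 : (z' - z) % t < t := Int.emod_lt_of_pos _ htZ
      constructor
      · rintro ⟨h6, h7⟩
        have h8 : (i : ℤ) = (z' - z) % t := by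
          have h9 : z' - z ≡ i [ZMOD t] := by
            have := h7.sub_right z
            simpa using this
          have h10 : (i : ℤ) % t = i := Int.emod_eq_of_lt (by positivity) (by exact_mod_cast h6)
          rw [← h10]
          exact h9.symm
        omega
      · intro h6
        have h7 : (i : ℤ) = (z' - z) % t := by omega
        refine ⟨by omega, ?_⟩
        rw [h7]
        have h8 : (z' - z) % t ≡ z' - z [ZMOD t] := Int.mod_modEq _ _
        have h9 := (h8.add_left z).symm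
        simpa using h9
    rw [← sum_filter, h3, sum_singleton]
  rw [sum_congr rfl h2]
  unfold rho
  have h3 : (blk l z).filter (fun z' => z' ≡ z [ZMOD (1 : ℕ)]) = blk l z := by
    apply filter_true_of_mem
    intro x _
    have : ((1 : ℕ) : ℤ) = 1 := rfl
    rw [this]
    exact Int.modEq_one
  rw [h3, ← mul_sum]
  push_cast
  ring

end Pool.Agent.H11.HM
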