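import Pool.Agent.H11.HM.Rh

/-!
[H11 HM SUP]  Far windows of almost maximal density: all blocks but few have density at least `r0 - η`.

Hypothesis `hR`: there are arbitrarily long intervals of naturals in which `R` has density `≥ r0`.

Proof.  Let `𝒮` be the set of the reals `r` such that for all `X0`, `M0` there are `X ≥ X0`, `M ≥ M0` with
`r X ≤ #(R ∩ [M, M+X))`.
* Every `r < r0` is in `𝒮`: given `X0`, `M0` take `X ≥ (X0 + M0 + M0/(r0 - r) …)` large in `hR` and remove the first `M0` elements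
  (`M' = M + M0 ≥ M0`, `X' = X - M0`, `#(R ∩ [M', M'+X')) ≥ r0 X - M0 ≥ r X ≥ r X'` if `r ≥ 0`; and if `r < 0` anything will do).
* `𝒮` is bounded above by `1` (take `X ≥ 1`).  Let `s = sSup 𝒮 ≥ r0`, `κ = η^2/3` (we may assume `η ≤ 1`; for `η > 1`
  the number is at most the number of all `z`, so every `κ > 0` will do; or use `η' = min η 1`).
* `s + κ ∉ 𝒮`: there are `X1`, `M1` such that every window with `X ≥ X1`, `M ≥ M1` has fewer than `(s + κ) X` elements of `R`.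
  Let `l1 = max X1 1`.  Some `r > s - κ` is in `𝒮`.
* Let `Λ ≥ l1`, `X0`, `M0` be given.  Take a window `M ≥ max(M0, M1)`, `X ≥ X0 + 2Λ + 2Λ/κ`, with density `≥ s - κ`, and
  `a = ⌈M/Λ⌉`, `b = ⌊(M+X)/Λ⌋`: `W = Ico (Λ a) (Λ b) ⊆ [M, M+X)`, `|W| ≥ X - 2Λ ≥ X0`, `2 Λ ≤ κ |W|`, and
  `#(R ∩ W) ≥ (s - κ) X - 2Λ ≥ (s - 2κ) |W|` (if `s - κ ≥ 0`; otherwise the right side is negative).
* Let `l1 ≤ l ∣ Λ`.  `W` is a union of blocks of length `l`, each with at most `(s + κ) l` elements of `R`: so `rho R 1 l z ≤ s + κ` for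
  all `z ∈ W`, and `∑_{z ∈ W} rho R 1 l z = #(R ∩ W)` (`rho_sum`, `g = 1`).  If `f` is the number of the `z ∈ W` with
  `rho R 1 l z < r0 - η ≤ s - η` then `(s - 2κ) |W| ≤ (s + κ) |W| - f (η + κ)`, so `f ≤ 3 κ |W|/(η + κ) ≤ η |W|`.
-/

namespace Pool.Agent.H11.HM

open Finset

/-- number of elements of `R` in the interval `[a, b)` -/
private noncomputable def cw (R : Set ℤ) (a b : ℤ) : ℝ := ∑ z ∈ Ico a b, ind R z

private theorem cw_nonneg (R : Set ℤ) (a b : ℤ) : 0 ≤ cw R a b :=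
  Finset.sum_nonneg fun z _ => ind_nonneg R z

private theorem cw_le (R : Set ℤ) {a b : ℤ} (h : a ≤ b) : cw R a b ≤ b - a := by
  unfold cw
  calc ∑ z ∈ Ico a b, ind R z ≤ ∑ _z ∈ Ico a b, (1 : ℝ) :=
        Finset.sum_le_sum fun z _ => ind_le_one R z
    _ = ((b - a : ℤ) : ℝ) := by
        rw [Finset.sum_const, Int.card_Ico, nsmul_eq_mul, mul_one]
        exact_mod_cast Int.toNat_of_nonneg (by linarith)
    _ = b - a := by push_cast; ring

private theorem cw_add (R : Set ℤ) {a b c : ℤ} (h : a ≤ b) (h' : b ≤ c) :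
    cw R a c = cw R a b + cw R b c := by
  unfold cw
  rw [← Finset.Ico_union_Ico_eq_Ico h h', Finset.sum_union (Finset.Ico_disjoint_Ico_consecutive a b c)]

/-- the density `r` occurs in arbitrarily long and far windows -/
private def Pr (R : Set ℤ) (r : ℝ) : Prop :=
  ∀ X0 M0 : ℕ, ∃ X M : ℕ, X0 ≤ X ∧ M0 ≤ M ∧ r * X ≤ cw R M (M + X)

private theorem pr_lt (R : Set ℤ) (r0 r : ℝ) (h : r < r0)
    (hR : ∀ X0 : ℕ, ∃ X M : ℕ, X0 ≤ X ∧ r0 * X ≤ cw R M (M + X)) : Pr R r := by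
  intro X0 M0
  obtain ⟨X, M, hX, hc⟩ := hR (X0 + M0 + ⌈(1 - r) * M0 / (r0 - r)⌉₊)
  have h1 : (1 - r) * M0 / (r0 - r) ≤ X := by
    refine (Nat.le_ceil _).trans ?_
    have : ⌈(1 - r) * M0 / (r0 - r)⌉₊ ≤ X := by omega
    exact_mod_cast this
  have h2 : (1 - r) * M0 ≤ X * (r0 - r) := by
    rwa [div_le_iff₀ (by linarith)] at h1
  have h3 : M0 ≤ X := by omega
  refine ⟨X - M0, M + M0, by omega, by omega, ?_⟩
  have h4 := cw_add R (a := (M : ℤ)) (b := (M : ℤ) + M0) (c := (M : ℤ) + X) (by omega) (by omega)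
  have h5 := cw_le R (a := (M : ℤ)) (b := (M : ℤ) + M0) (by omega)
  have h6 : (((M + M0 : ℕ) : ℤ)) = (M : ℤ) + M0 := by push_cast; ring
  have h7 : (((M + M0 : ℕ) : ℤ)) + ((X - M0 : ℕ) : ℤ) = (M : ℤ) + X := by omega
  rw [h7, h6, Nat.cast_sub h3]
  push_cast at h5
  linarith

theorem far_windows (R : Set ℤ) (r0 η : ℝ) (hη : 0 < η)
    (hR : ∀ X0 : ℕ, ∃ X M : ℕ, X0 ≤ X ∧ r0 * X ≤ ∑ z ∈ Ico (M : ℤ) (M + X), ind R z) :
    ∃ l1 : ℕ, 1 ≤ l1 ∧ ∀ L0 : ℕ, l1 ≤ L0 → ∀ X0 M0 : ℕ, ∃ a b : ℤ, a ≤ b ∧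
      (X0 : ℤ) ≤ L0 * (b - a) ∧ (M0 : ℤ) ≤ L0 * a ∧ ∀ l : ℕ, l1 ≤ l → l ∣ L0 →
        (((Ico ((L0 : ℤ) * a) (L0 * b)).filter (fun z => rho R 1 l z < r0 - η)).card : ℝ) ≤
          η * (L0 * (b - a)) := by
  have hne : {r : ℝ | Pr R r}.Nonempty := ⟨r0 - 1, pr_lt R r0 (r0 - 1) (by linarith) hR⟩
  have hbd : BddAbove {r : ℝ | Pr R r} := by
    refine ⟨1, fun r hr => ?_⟩
    obtain ⟨X, M, hX, _, hc⟩ := hr 1 0
    have h1 := cw_le R (a := (M : ℤ)) (b := (M : ℤ) + X) (by omega)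
    push_cast at h1
    have h2 : (1 : ℝ) ≤ X := by exact_mod_cast hX
    have h3 : r * X ≤ 1 * X := by linarith
    exact le_of_mul_le_mul_right h3 (by linarith)
  obtain ⟨s, hs⟩ : ∃ s : ℝ, s = sSup {r : ℝ | Pr R r} := ⟨_, rfl⟩
  have hsr : r0 ≤ s := by
    refine le_of_forall_lt fun r hr => ?_
    obtain ⟨r', h1, h2⟩ := exists_between hr
    rw [hs]
    exact lt_of_lt_of_le h1 (le_csSup hbd (pr_lt R r0 r' h2 hR))
  obtain ⟨e, he⟩ : ∃ e : ℝ, e = min η 1 := ⟨_, rfl⟩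
  have he0 : 0 < e := by rw [he]; exact lt_min hη one_pos
  have heη : e ≤ η := by rw [he]; exact min_le_left _ _
  obtain ⟨κ, hκ⟩ : ∃ κ : ℝ, κ = e ^ 2 / 3 := ⟨_, rfl⟩
  have hκ0 : 0 < κ := by rw [hκ]; positivity
  have hnot : ¬ Pr R (s + κ) := by
    intro h
    have := le_csSup hbd h
    rw [← hs] at this
    linarith
  unfold Pr at hnot
  push Not at hnot
  obtain ⟨X1, M1, hXM⟩ := hnot
  obtain ⟨r, hr, hrs⟩ : ∃ r ∈ {r : ℝ | Pr R r}, s - κ < r :=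
    exists_lt_of_lt_csSup hne (by rw [← hs]; linarith)
  refine ⟨max X1 1, le_max_right _ _, fun L0 hL0 X0 M0 => ?_⟩
  have hL1 : 1 ≤ L0 := (le_max_right _ _).trans hL0
  obtain ⟨X, M, hX, hM, hc⟩ := hr (X0 + 2 * L0 + ⌈2 * L0 / κ⌉₊) (max M0 M1)
  have hM0 : M0 ≤ M := (le_max_left _ _).trans hM
  have hM1 : M1 ≤ M := (le_max_right _ _).trans hM
  have hLz : (0 : ℤ) < L0 := by omega
  obtain ⟨a, ha⟩ : ∃ a : ℤ, a = -((-(M : ℤ)) / L0) := ⟨_, rfl⟩
  obtain ⟨b, hb⟩ : ∃ b : ℤ, b = ((M : ℤ) + X) / L0 := ⟨_, rfl⟩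
  have a1 : (M : ℤ) ≤ L0 * a := by
    have := Int.mul_ediv_self_le (x := -(M : ℤ)) (k := (L0 : ℤ)) hLz.ne'
    rw [ha, mul_neg]
    linarith
  have a2 : (L0 : ℤ) * a < M + L0 := by
    have := Int.lt_mul_ediv_self_add (x := -(M : ℤ)) (k := (L0 : ℤ)) hLz
    rw [ha, mul_neg]
    linarith
  have b1 : (L0 : ℤ) * b ≤ M + X := by
    rw [hb]
    exact Int.mul_ediv_self_le hLz.ne'
  have b2 : (M : ℤ) + X < L0 * b + L0 := by
    rw [hb]
    exact Int.lt_mul_ediv_self_add hLz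
  have hXc : (X0 : ℤ) + 2 * L0 + ⌈2 * L0 / κ⌉₊ ≤ X := by exact_mod_cast hX
  have hceil : (2 * (L0 : ℝ)) / κ ≤ (⌈2 * L0 / κ⌉₊ : ℝ) := Nat.le_ceil _
  have hab : (L0 : ℤ) * a ≤ L0 * b := by
    have : (0 : ℤ) ≤ (X0 : ℤ) := by positivity
    have : (0 : ℤ) ≤ (⌈2 * (L0 : ℝ) / κ⌉₊ : ℤ) := by positivity
    linarith
  have hW : (X : ℤ) - 2 * L0 ≤ L0 * b - L0 * a := by linarith
  have hWX : (L0 : ℤ) * b - L0 * a ≤ X := by linarith
  refine ⟨a, b, le_of_mul_le_mul_left hab hLz, ?_, by linarith [(by exact_mod_cast hM0 : (M0 : ℤ) ≤ M)], ?_⟩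
  · have : (0 : ℤ) ≤ (⌈2 * (L0 : ℝ) / κ⌉₊ : ℤ) := by positivity
    rw [mul_sub]
    linarith
  intro l hl hlL
  obtain ⟨w, hw⟩ : ∃ w : ℝ, w = L0 * (b - a) := ⟨_, rfl⟩
  have hw' : w = (((L0 : ℤ) * b - L0 * a : ℤ) : ℝ) := by rw [hw]; push_cast; ring
  have hwX : w ≤ X := by rw [hw']; exact_mod_cast hWX
  have hwκ : 2 * (L0 : ℝ) ≤ κ * w := by
    have h1 : ((X : ℤ) : ℝ) - 2 * L0 ≤ w := by rw [hw']; exact_mod_cast hW
    have h2 : (((X0 : ℤ) + 2 * L0 + ⌈2 * L0 / κ⌉₊ : ℤ) : ℝ) ≤ ((X : ℤ) : ℝ) := by exact_mod_cast hXc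
    push_cast at h1 h2
    have h3 : (0 : ℝ) ≤ X0 := by positivity
    have h4 : 2 * (L0 : ℝ) / κ ≤ w := by linarith
    rw [div_le_iff₀ hκ0] at h4
    linarith
  have hL0r : (0 : ℝ) < L0 := by exact_mod_cast hL1
  have hw0 : 0 < w := by
    by_contra hneg
    rw [not_lt] at hneg
    have : κ * w ≤ 0 := mul_nonpos_of_nonneg_of_nonpos hκ0.le hneg
    linarith
  rw [← hw]
  -- the number of elements in the window
  have hcount : (s - 2 * κ) * w ≤ cw R (L0 * a) (L0 * b) := by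
    rcases le_or_gt 0 (s - κ) with h0 | h0
    · have c1 := cw_add R (a := (M : ℤ)) (b := (L0 : ℤ) * a) (c := (M : ℤ) + X) a1 (by linarith)
      have c2 := cw_add R (a := (L0 : ℤ) * a) (b := (L0 : ℤ) * b) (c := (M : ℤ) + X) hab b1
      have c3 := cw_le R a1
      have c4 := cw_le R b1
      have c5 : (((L0 : ℤ) * a : ℤ) : ℝ) - ((M : ℤ) : ℝ) ≤ L0 := by
        have : (L0 : ℤ) * a - M ≤ L0 := by linarith
        exact_mod_cast this
      have c6 : (((M : ℤ) + X : ℤ) : ℝ) - (((L0 : ℤ) * b : ℤ) : ℝ) ≤ L0 := by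
        have : (M : ℤ) + X - L0 * b ≤ L0 := by linarith
        exact_mod_cast this
      have c7 : (s - κ) * w ≤ (s - κ) * X := mul_le_mul_of_nonneg_left hwX h0
      have hX0 : (0 : ℝ) ≤ X := by positivity
      have c8 : (s - κ) * X ≤ r * X := mul_le_mul_of_nonneg_right hrs.le hX0
      linarith
    · have : (s - 2 * κ) * w ≤ 0 := mul_nonpos_of_nonpos_of_nonneg (by linarith) hw0.le
      exact this.trans (cw_nonneg _ _ _)
  -- blocks
  have hl1 : 1 ≤ l := (le_max_right _ _).trans hl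
  have hlX : X1 ≤ l := (le_max_left _ _).trans hl
  have hlr : (0 : ℝ) < l := by exact_mod_cast hl1
  have hlz : (0 : ℤ) < l := by exact_mod_cast hl1
  obtain ⟨m, hm⟩ := hlL
  have hLm : (L0 : ℤ) = l * m := by exact_mod_cast hm
  have hrho : ∀ z ∈ Ico ((L0 : ℤ) * a) (L0 * b), rho R 1 l z ≤ s + κ := by
    intro z hz
    rw [mem_Ico] at hz
    have e1 : (m : ℤ) * a ≤ z / l := by
      rw [Int.le_ediv_iff_mul_le hlz]
      calc (m : ℤ) * a * l = L0 * a := by rw [hLm]; ring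
        _ ≤ z := hz.1
    have e2 : (M1 : ℤ) ≤ l * (z / l) := by
      calc (M1 : ℤ) ≤ M := by exact_mod_cast hM1
        _ ≤ L0 * a := a1
        _ = l * (m * a) := by rw [hLm]; ring
        _ ≤ l * (z / l) := mul_le_mul_of_nonneg_left e1 hlz.le
    have e3 := hXM l ((l : ℤ) * (z / l)).toNat hlX (by omega)
    have e4 : ((((l : ℤ) * (z / l)).toNat : ℕ) : ℤ) = l * (z / l) := Int.toNat_of_nonneg (by omega)
    rw [e4] at e3
    have e5 : rho R 1 l z = 1 / l * cw R (l * (z / l)) (l * (z / l) + l) := by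
      unfold rho cw blk
      rw [Nat.cast_one]
      congr 1
      refine Finset.sum_congr ?_ fun _ _ => rfl
      rw [Finset.filter_true_of_mem]
      intro z' _
      exact Int.modEq_one
    rw [e5, div_mul_eq_mul_div, one_mul, div_le_iff₀ hlr]
    exact e3.le
  have hsum : ∑ z ∈ Ico ((L0 : ℤ) * a) (L0 * b), rho R 1 l z = cw R (L0 * a) (L0 * b) := by
    have h1 := rho_sum R 1 l (one_dvd _) hl1 (m * a) (m * b) (fun _ => 1) (fun _ _ _ _ => rfl)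
    simp only [mul_one] at h1
    have e1 : (l : ℤ) * (m * a) = L0 * a := by rw [hLm]; ring
    have e2 : (l : ℤ) * (m * b) = L0 * b := by rw [hLm]; ring
    rw [e1, e2] at h1
    exact h1
  obtain ⟨Fb, hFb⟩ : ∃ Fb, Fb = (Ico ((L0 : ℤ) * a) (L0 * b)).filter (fun z => rho R 1 l z < r0 - η) := ⟨_, rfl⟩
  rw [← hFb]
  have hcardW : ((Ico ((L0 : ℤ) * a) (L0 * b)).card : ℝ) = w := by
    rw [Int.card_Ico, hw']
    have h2 : (((L0 : ℤ) * b - L0 * a).toNat : ℤ) = (L0 : ℤ) * b - L0 * a := Int.toNat_of_nonneg (by linarith)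
    exact_mod_cast h2
  have hsum2 : ∑ z ∈ Ico ((L0 : ℤ) * a) (L0 * b), rho R 1 l z ≤ (s + κ) * w - Fb.card * (η + κ) := by
    have h1 : ∀ z ∈ Ico ((L0 : ℤ) * a) (L0 * b), rho R 1 l z ≤ (s + κ) - (if z ∈ Fb then (η + κ) else 0) := by
      intro z hz
      by_cases hzF : z ∈ Fb
      · rw [if_pos hzF]
        rw [hFb, mem_filter] at hzF
        linarith [hzF.2]
      · rw [if_neg hzF, sub_zero]
        exact hrho z hz
    refine (Finset.sum_le_sum h1).trans (le_of_eq ?_)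
    rw [Finset.sum_sub_distrib, Finset.sum_const, nsmul_eq_mul, hcardW, mul_comm w]
    congr 1
    rw [← Finset.sum_filter, Finset.sum_const, nsmul_eq_mul]
    congr 2
    congr 1
    ext z
    rw [mem_filter]
    constructor
    · exact fun h => h.2
    · intro h
      refine ⟨?_, h⟩
      rw [hFb] at h
      exact (mem_filter.1 h).1
  rw [hsum] at hsum2
  have h3 : (Fb.card : ℝ) * (η + κ) ≤ 3 * κ * w := by nlinarith
  have h4 : 3 * κ = e ^ 2 := by rw [hκ]; ring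
  rw [h4] at h3
  have hF0 : (0 : ℝ) ≤ Fb.card := by positivity
  have h5 : e ^ 2 * w ≤ η ^ 2 * w :=
    mul_le_mul_of_nonneg_right (pow_le_pow_left₀ he0.le heη 2) hw0.le
  have h6 : (Fb.card : ℝ) * κ ≥ 0 := mul_nonneg hF0 hκ0.le
  have h7 : η * (Fb.card : ℝ) ≤ η * (η * w) := by nlinarith
  exact le_of_mul_le_mul_left h7 hη

end Pool.Agent.H11.HM
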